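import Pool.Agent.Lib.MP_33b3f9_ag.M8.Mor

/-!
The commutant of a quaternion algebra over a totally real field of degree `e`.
-/

set_option autoImplicit false

noncomputable section

namespace MG

open Matrix Pool.Agent.M4.Mx
open scoped Kronecker

/-- The index set of the complex coordinates. -/
class Dim where
  /-- the index set -/
  ι : Type
  /-- finite -/
  fin : Fintype ι
  /-- decidable -/
  dec : DecidableEq ι
  /-- not empty -/
  ne : Nonempty ι

instance [d : Dim] : Fintype Dim.ι := d.fin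

instance [d : Dim] : DecidableEq Dim.ι := d.dec

instance [d : Dim] : Nonempty Dim.ι := d.ne

/-- Index set of the eight dimensional factors. -/
abbrev ω : Type := Fin 4 ⊕ Fin 4

/-- `8 × 8` matrices. -/
abbrev M8 (R : Type) : Type := Matrix ω ω R

/-- Index set of a splitting. -/
abbrev Ix (e : ℕ) : Type := (ω × Fin 2) × Fin e

/-- The matrix that exchanges two coordinates. -/
def swp (R : Type) [CommRing R] : M2 R := !![0, 1; 1, 0]

section gen

variable {m o R : Type} [Fintype m] [DecidableEq m] [Fintype o] [DecidableEq o] [CommRing R]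

theorem bd_row (s : o) (p q : Fin 2) (G : Matrix ((m × Fin 2) × o) ((m × Fin 2) × o) R) (i : m)
    (c : Fin 2) (t : o) (y : (m × Fin 2) × o) :
    ((blockDiagonal fun t => (1 : Matrix m m R) ⊗ₖ (Pi.single s (single p q 1) : o → M2 R) t) * G)
      ((i, c), t) y = if t = s ∧ c = p then G ((i, q), s) y else 0 := by
  rw [Matrix.mul_apply, Finset.sum_eq_single ((i, q), t)]
  · by_cases h : t = s
    · subst h
      simp [single_apply, eq_comm]
    · simp [h]
  · rintro ⟨⟨j, d⟩, u⟩ - h
    by_cases h1 : t = u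
    · subst h1
      by_cases h2 : t = s
      · subst h2
        by_cases h3 : i = j
        · subst h3
          have : q ≠ d := fun e => h (by rw [e])
          simp [this]
        · simp [h3]
      · simp [h2]
    · simp [blockDiagonal_apply, h1]
  · simp

theorem bd_col (s : o) (p q : Fin 2) (G : Matrix ((m × Fin 2) × o) ((m × Fin 2) × o) R) (i : m)
    (c : Fin 2) (t : o) (y : (m × Fin 2) × o) :
    (G * blockDiagonal fun t => (1 : Matrix m m R) ⊗ₖ (Pi.single s (single p q 1) : o → M2 R) t)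
      y ((i, c), t) = if t = s ∧ c = q then G y ((i, p), s) else 0 := by
  have h := bd_row s q p Gᵀ i c t y
  refine Eq.trans ?_ h
  rw [← transpose_apply (G * _), transpose_mul, blockDiagonal_transpose]
  refine congrArg (fun f : o → Matrix (m × Fin 2) (m × Fin 2) R => (blockDiagonal f * Gᵀ) _ _)
    (funext fun u => ?_)
  rw [← kroneckerMap_transpose, transpose_one]
  by_cases h : u = s
  · subst h
    simp [transpose_single]
  · simp [h]

theorem comm_bd (G : Matrix ((m × Fin 2) × o) ((m × Fin 2) × o) R)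
    (h : ∀ s p q, Commute (blockDiagonal fun t =>
      (1 : Matrix m m R) ⊗ₖ (Pi.single s (single p q 1) : o → M2 R) t) G) :
    (blockDiagonal fun s => (of fun i j => G ((i, 0), s) ((j, 0), s)) ⊗ₖ (1 : M2 R)) = G := by
  ext ⟨⟨i, p⟩, s⟩ ⟨⟨j, q⟩, t⟩
  have h6 := congrFun (congrFun (h s p 0).eq ((i, p), s)) ((j, q), t)
  have h7 := congrFun (congrFun (h s p p).eq ((i, p), s)) ((j, q), t)
  have h8 := congrFun (congrFun (h s 0 p).eq ((i, 0), s)) ((j, p), s)
  rw [bd_row, bd_col] at h6 h7 h8
  simp only [and_self, if_true] at h6 h7 h8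
  rw [blockDiagonal_apply, kroneckerMap_apply, of_apply, one_apply, h7]
  by_cases h1 : s = t
  · subst h1
    by_cases h2 : p = q
    · subst h2
      simp [h8]
    · simp [h2, Ne.symm h2]
  · simp [h1, Ne.symm h1]

theorem comm_bd2 (ζ : o → Fin 2 → R)
    (hζ : ∀ s c s' c', (s, c) ≠ (s', c') → IsUnit (ζ s c - ζ s' c'))
    (G : Matrix ((m × Fin 2) × o) ((m × Fin 2) × o) R)
    (h : Commute (blockDiagonal fun s => blockDiagonal fun c => ζ s c • (1 : Matrix m m R)) G) :
    (blockDiagonal fun s => blockDiagonal fun c => of fun i j => G ((i, c), s) ((j, c), s)) = G := by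
  have e : (blockDiagonal fun s => blockDiagonal fun c => ζ s c • (1 : Matrix m m R)) =
      diagonal fun x : (m × Fin 2) × o => ζ x.2 x.1.2 := by
    simp only [smul_one_eq_diagonal, blockDiagonal_diagonal]
  ext ⟨⟨i, p⟩, s⟩ ⟨⟨j, q⟩, t⟩
  have h7 := congrFun (congrFun h.eq ((i, p), s)) ((j, q), t)
  rw [e, diagonal_mul, mul_diagonal] at h7
  by_cases h : (s, p) = (t, q)
  · obtain ⟨rfl, rfl⟩ := Prod.mk.inj h
    simp
  · have h8 : G ((i, p), s) ((j, q), t) = 0 := (hζ s p t q h).mul_right_eq_zero.1 (by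
      rw [sub_mul, h7, mul_comm, sub_self])
    rw [h8, blockDiagonal_apply]
    split_ifs with h1
    · obtain rfl : s = t := h1
      exact blockDiagonal_apply_ne _ _ _ fun e => h (by rw [e])
    · rfl

omit [DecidableEq m] in
theorem form_swp (E : Matrix m m R) (x y : Fin 2 → Matrix m m R) (i : m) (p : Fin 2) (j : m)
    (q : Fin 2) : ((blockDiagonal x)ᵀ * (E ⊗ₖ swp R) * blockDiagonal y) (i, p) (j, q) =
      if p = q.rev then ((x q.rev)ᵀ * E * y q) i j else 0 := by
  fin_cases p <;> fin_cases q <;>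
    simp [Matrix.mul_apply, Fintype.sum_prod_type, blockDiagonal_apply, swp]

end gen

variable [Dim]

/-- Index set of the complex coordinates. -/
abbrev ι : Type := Dim.ι

/-- Index set of the lattice basis. -/
abbrev ν : Type := ι ⊕ ι

/-- Integral matrices. -/
abbrev MZ : Type := Matrix ν ν ℤ

/-- An integral matrix with coefficients in `R`. -/
abbrev zM (R : Type) [CommRing R] (g : MZ) : Matrix ν ν R := g.map (Int.cast : ℤ → R)

/-- The symplectic adjoint. -/
def adj (g : MZ) : MZ := -(J ι ℤ * gᵀ * J ι ℤ)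

/-- The normal form: `a` generates a CM field of degree `2 e`, and `b` acts on it by complex
conjugation. -/
structure PEL (e : ℕ) (a b : MZ) (m n : ℕ) : Prop where
  pos : 0 < e
  card : Fintype.card ι = 8 * e
  m0 : 0 < m
  tr : (b * b).trace = n
  aJ : aᵀ * J ι ℤ * a = (m : ℤ) • J ι ℤ
  bb : ∃ β : Polynomial ℤ, b * b = Polynomial.aeval (a + adj a) β ∧ ∀ z : ℂ,
    Polynomial.aeval z (minpoly ℚ (zM ℚ a)) = 0 → 0 < Polynomial.aeval (2 * z.re) β
  bJ : bᵀ * J ι ℤ = J ι ℤ * b
  ba : b * a = adj a * b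
  irr : Irreducible (minpoly ℚ (zM ℚ a))
  deg : (minpoly ℚ (zM ℚ a)).natDegree = 2 * e
  root : ∀ z : ℂ, Polynomial.aeval z (minpoly ℚ (zM ℚ a)) = 0 → ‖z‖ ^ 2 = m ∧ z.im ≠ 0

/-- A splitting of `R ^ (16 e)` as a sum of `e` blocks `R ^ 8 ⊗ R ^ 2`. -/
structure Mor (e : ℕ) (a b : MZ) (R : Type) [CommRing R] where
  /-- from the blocks -/
  S : Matrix ν (Ix e) R
  /-- to the blocks -/
  S' : Matrix (Ix e) ν R
  /-- the image of `a` -/
  α : Fin e → M2 R
  /-- the image of `b` -/
  β : Fin e → M2 R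
  /-- the forms on the second factors -/
  B : Fin e → M2 R
  inv : S * S' = 1
  inv' : S' * S = 1
  ea : zM R a * S = S * blockDiagonal fun s => (1 : M8 R) ⊗ₖ α s
  eb : zM R b * S = S * blockDiagonal fun s => (1 : M8 R) ⊗ₖ β s
  gen : Algebra.adjoin R {α, β} = ⊤
  form : Sᵀ * J ι R * S = blockDiagonal fun s => J (Fin 4) R ⊗ₖ B s
  unit : ∀ s, IsUnit (B s).det

/-- A splitting in which `a` is diagonal. -/
structure MorD (e : ℕ) (a b : MZ) (R : Type) [CommRing R] extends Mor e a b R where
  /-- the eigenvalues of `a` -/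
  ζ : Fin e → Fin 2 → R
  hα : ∀ s, α s = diagonal (ζ s)
  hB : ∀ s, B s = swp R
  uz : ∀ s c, IsUnit (ζ s c)
  sep : ∀ s c s' c', (s, c) ≠ (s', c') → IsUnit (ζ s c - ζ s' c')

theorem zM_map {R R' : Type} [CommRing R] [CommRing R'] (φ : R →+* R') (g : MZ) :
    (zM R g).map φ = zM R' g := by
  ext i j
  simp

omit [Dim] in
theorem bd_map {R R' m o : Type} [CommRing R] [CommRing R'] [DecidableEq o] (φ : R →+* R')
    (x : o → Matrix m m R) : (blockDiagonal x).map φ = blockDiagonal fun s => (x s).map φ :=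
  blockDiagonal_map x φ (map_zero φ)

namespace Mor

variable {e : ℕ} {a b : MZ} {R : Type} [CommRing R] (z : Mor e a b R)

/-- Block diagonal matrices. -/
def bm : (Fin e → Matrix (ω × Fin 2) (ω × Fin 2) R) →ₐ[R] Matrix ν ν R :=
  AlgHom.ofLinearMap
    { toFun := fun x => z.S * blockDiagonal x * z.S'
      map_add' := fun x y => by rw [blockDiagonal_add, Matrix.mul_add, Matrix.add_mul]
      map_smul' := fun c x => by
        rw [blockDiagonal_smul, Matrix.mul_smul, Matrix.smul_mul, RingHom.id_apply] }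
    (by
      change z.S * blockDiagonal (1 : Fin e → Matrix (ω × Fin 2) (ω × Fin 2) R) * z.S' = 1
      rw [blockDiagonal_one, Matrix.mul_one, z.inv])
    (fun x y => by
      change z.S * blockDiagonal (fun s => x s * y s) * z.S' =
        z.S * blockDiagonal x * z.S' * (z.S * blockDiagonal y * z.S')
      calc _ = z.S * blockDiagonal x * (z.S' * z.S) * blockDiagonal y * z.S' := by
            rw [blockDiagonal_mul, z.inv', Matrix.mul_one]
            simp only [Matrix.mul_assoc]
        _ = _ := by simp only [Matrix.mul_assoc])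

theorem bm_apply (x : Fin e → Matrix (ω × Fin 2) (ω × Fin 2) R) :
    z.bm x = z.S * blockDiagonal x * z.S' := rfl

theorem conj_bm (x : Fin e → Matrix (ω × Fin 2) (ω × Fin 2) R) :
    z.S' * z.bm x * z.S = blockDiagonal x := by
  calc _ = z.S' * z.S * blockDiagonal x * (z.S' * z.S) := by
        simp only [bm_apply, Matrix.mul_assoc]
    _ = _ := by rw [z.inv', Matrix.one_mul, Matrix.mul_one]

theorem bm_inj : Function.Injective z.bm := fun x y h =>
  blockDiagonal_injective (by rw [← z.conj_bm, h, z.conj_bm])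

/-- The embedding of the tuples of `8 × 8` matrices, one for each block and sign. -/
def em2 : (Fin e → Fin 2 → M8 R) →ₐ[R] Matrix ν ν R :=
  z.bm.comp (AlgHom.ofLinearMap
    { toFun := fun x s => blockDiagonal (x s)
      map_add' := fun _ _ => funext fun _ => blockDiagonal_add _ _
      map_smul' := fun c x => funext fun s => blockDiagonal_smul c (x s) }
    (funext fun _ => blockDiagonal_one) fun _ _ => funext fun _ => blockDiagonal_mul _ _)

theorem em2_apply (x : Fin e → Fin 2 → M8 R) : z.em2 x = z.bm fun s => blockDiagonal (x s) := rfl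

/-- The embedding of the tuples of `8 × 8` matrices, one for each block. -/
def em : (Fin e → M8 R) →ₐ[R] Matrix ν ν R :=
  z.em2.comp (AlgHom.pi fun s => AlgHom.pi fun _ => Pi.evalAlgHom R (fun _ => M8 R) s)

theorem em_eq (x : Fin e → M8 R) : z.em x = z.em2 fun s _ => x s := rfl

theorem em_apply (x : Fin e → M8 R) : z.em x = z.bm fun s => x s ⊗ₖ (1 : M2 R) := by
  rw [em_eq, em2_apply]
  congr 1
  funext s
  ext ⟨i, c⟩ ⟨j, d⟩
  simp [blockDiagonal_apply, one_apply]

/-- The diagonal blocks. -/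
def pr2 : Matrix ν ν R →ₗ[R] Fin e → Fin 2 → M8 R where
  toFun g s c := Matrix.of fun i j => (z.S' * g * z.S) ((i, c), s) ((j, c), s)
  map_add' g h := by
    ext s c i j
    simp only [Matrix.mul_add, Matrix.add_mul, of_apply, Matrix.add_apply, Pi.add_apply]
  map_smul' c g := by
    ext s c i j
    simp only [Matrix.mul_smul, Matrix.smul_mul, of_apply, Matrix.smul_apply, RingHom.id_apply,
      Pi.smul_apply]

theorem pr2_apply (g : Matrix ν ν R) (s : Fin e) (c : Fin 2) (i j : ω) :
    z.pr2 g s c i j = (z.S' * g * z.S) ((i, c), s) ((j, c), s) := rfl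

theorem pr2_em2 (x : Fin e → Fin 2 → M8 R) : z.pr2 (z.em2 x) = x := by
  ext s c i j
  rw [pr2_apply, em2_apply, conj_bm]
  simp

theorem em2_inj : Function.Injective z.em2 := Function.LeftInverse.injective z.pr2_em2

/-- A left inverse of the embedding `em`. -/
def pr : Matrix ν ν R →ₗ[R] Fin e → M8 R where
  toFun g s := z.pr2 g s 0
  map_add' g h := by rw [map_add]; rfl
  map_smul' c g := by rw [map_smul]; rfl

theorem pr_apply (g : Matrix ν ν R) (s : Fin e) : z.pr g s = z.pr2 g s 0 := rfl

theorem pr_em (x : Fin e → M8 R) : z.pr (z.em x) = x := by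
  funext s
  rw [pr_apply, em_eq, pr2_em2]

theorem pr_one : z.pr 1 = 1 := by rw [← map_one z.em, pr_em]

theorem em_inj : Function.Injective z.em := Function.LeftInverse.injective z.pr_em

theorem gen_map {R' : Type} [CommRing R'] (φ : R →+* R') :
    Algebra.adjoin R' {fun s => (z.α s).map φ, fun s => (z.β s).map φ} = ⊤ := by
  have h : ∀ y : Fin e → M2 R, (fun s => (y s).map φ) ∈
      Algebra.adjoin R' {fun s => (z.α s).map φ, fun s => (z.β s).map φ} := fun y => by
    have hy : y ∈ Algebra.adjoin R {z.α, z.β} := z.gen ▸ Algebra.mem_top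
    induction hy using Algebra.adjoin_induction with
    | mem x hx =>
      rcases hx with rfl | rfl
      · exact Algebra.subset_adjoin (Or.inl rfl)
      · exact Algebra.subset_adjoin (Or.inr rfl)
    | algebraMap c =>
      refine (congrArg (· ∈ _) ?_).mp (Subalgebra.algebraMap_mem _ (φ c))
      ext s i j
      simp [algebraMap_matrix_apply, apply_ite φ]
    | add x y _ _ h1 h2 =>
      refine (congrArg (· ∈ _) ?_).mp (add_mem h1 h2)
      ext s i j
      simp
    | mul x y _ _ h1 h2 =>
      refine (congrArg (· ∈ _) ?_).mp (mul_mem h1 h2)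
      funext s
      exact Matrix.map_mul.symm
  refine eq_top_iff.2 fun y _ => ?_
  have e1 : y = ∑ s, ∑ i, ∑ j, y s i j •
      fun t => ((Pi.single s (single i j (1 : R)) : Fin e → M2 R) t).map φ := by
    ext t p q
    simp only [Finset.sum_apply, Pi.smul_apply, Matrix.sum_apply, Matrix.smul_apply, map_apply]
    rw [Finset.sum_eq_single t (fun s _ hs => by simp [Pi.single_eq_of_ne hs.symm]) (by simp)]
    simp [single_apply, apply_ite φ, ite_and]
  rw [e1]
  exact sum_mem fun s _ => sum_mem fun i _ => sum_mem fun j _ => Subalgebra.smul_mem _ (h _) _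

/-- Change of rings. -/
def map {R' : Type} [CommRing R'] (φ : R →+* R') : Mor e a b R' where
  S := z.S.map φ
  S' := z.S'.map φ
  α s := (z.α s).map φ
  β s := (z.β s).map φ
  B s := (z.B s).map φ
  inv := by rw [← Matrix.map_mul, z.inv, Matrix.map_one _ (map_zero φ) (map_one φ)]
  inv' := by rw [← Matrix.map_mul, z.inv', Matrix.map_one _ (map_zero φ) (map_one φ)]
  ea := by
    rw [← zM_map φ, ← Matrix.map_mul, z.ea, Matrix.map_mul, bd_map]
    simp only [M8.kron_map, Matrix.map_one _ (map_zero φ) (map_one φ)]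
  eb := by
    rw [← zM_map φ, ← Matrix.map_mul, z.eb, Matrix.map_mul, bd_map]
    simp only [M8.kron_map, Matrix.map_one _ (map_zero φ) (map_one φ)]
  gen := z.gen_map φ
  form := by
    rw [← map_J ι φ, ← transpose_map, ← Matrix.map_mul, ← Matrix.map_mul, z.form, bd_map]
    simp only [M8.kron_map, map_J]
  unit s := by
    rw [← RingHom.mapMatrix_apply, ← RingHom.map_det]
    exact (z.unit s).map φ

theorem map_bm {R' : Type} [CommRing R'] (φ : R →+* R')
    (x : Fin e → Matrix (ω × Fin 2) (ω × Fin 2) R) :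
    (z.bm x).map φ = (z.map φ).bm fun s => (x s).map φ := by
  rw [bm_apply, bm_apply, Matrix.map_mul, Matrix.map_mul, bd_map]
  rfl

theorem map_em2 {R' : Type} [CommRing R'] (φ : R →+* R') (x : Fin e → Fin 2 → M8 R) :
    (z.em2 x).map φ = (z.map φ).em2 fun s c => (x s c).map φ := by
  simp only [em2_apply, map_bm, bd_map]

theorem map_em {R' : Type} [CommRing R'] (φ : R →+* R') (x : Fin e → M8 R) :
    (z.em x).map φ = (z.map φ).em fun s => (x s).map φ := z.map_em2 φ _

theorem map_pr2 {R' : Type} [CommRing R'] (φ : R →+* R') (g : Matrix ν ν R) (s : Fin e)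
    (c : Fin 2) : (z.pr2 g s c).map φ = (z.map φ).pr2 (g.map φ) s c := by
  ext i j
  rw [map_apply, pr2_apply, pr2_apply, ← map_apply (f := φ), Matrix.map_mul, Matrix.map_mul]
  rfl

theorem map_pr {R' : Type} [CommRing R'] (φ : R →+* R') (g : Matrix ν ν R) (s : Fin e) :
    (z.pr g s).map φ = (z.map φ).pr (g.map φ) s := z.map_pr2 φ g s 0

theorem eq_bm {g : Matrix ν ν R} {x : Fin e → Matrix (ω × Fin 2) (ω × Fin 2) R}
    (h : g * z.S = z.S * blockDiagonal x) : g = z.bm x := by
  rw [bm_apply, ← h, Matrix.mul_assoc, z.inv, Matrix.mul_one]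

theorem a_eq : zM R a = z.bm fun s => (1 : M8 R) ⊗ₖ z.α s := z.eq_bm z.ea

theorem b_eq : zM R b = z.bm fun s => (1 : M8 R) ⊗ₖ z.β s := z.eq_bm z.eb

theorem comm_slot (y : Fin e → M2 R) (x : Fin e → M8 R) :
    Commute (z.bm fun s => (1 : M8 R) ⊗ₖ y s) (z.em x) := by
  rw [em_apply]
  refine Commute.map (funext fun s => ?_) z.bm
  simp only [Pi.mul_apply, ← mul_kronecker_mul, Matrix.one_mul, Matrix.mul_one]

theorem comm_a (x : Fin e → M8 R) : Commute (zM R a) (z.em x) := z.a_eq ▸ z.comm_slot _ x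

theorem comm_b (x : Fin e → M8 R) : Commute (zM R b) (z.em x) := z.b_eq ▸ z.comm_slot _ x

/-- The second factors. -/
def sl : (Fin e → M2 R) →ₐ[R] Matrix ν ν R :=
  z.bm.comp (AlgHom.ofLinearMap
    { toFun := fun y s => (1 : M8 R) ⊗ₖ y s
      map_add' := fun _ _ => funext fun _ => kronecker_add _ _ _
      map_smul' := fun c x => funext fun s => kronecker_smul c _ (x s) }
    (funext fun _ => one_kronecker_one)
    fun x y => funext fun s => by
      change (1 : M8 R) ⊗ₖ (x s * y s) = (1 : M8 R) ⊗ₖ x s * (1 : M8 R) ⊗ₖ y s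
      rw [← mul_kronecker_mul, Matrix.one_mul])

theorem sl_apply (y : Fin e → M2 R) : z.sl y = z.bm fun s => (1 : M8 R) ⊗ₖ y s := rfl

theorem comm_sl {g : Matrix ν ν R} (ha : Commute (zM R a) g) (hb : Commute (zM R b) g)
    (y : Fin e → M2 R) : Commute (z.sl y) g := by
  have hy : y ∈ Algebra.adjoin R {z.α, z.β} := z.gen ▸ Algebra.mem_top
  induction hy using Algebra.adjoin_induction with
  | mem x hx =>
    rcases hx with rfl | rfl
    · rwa [sl_apply, ← a_eq]
    · rwa [sl_apply, ← b_eq]
  | algebraMap c => rw [AlgHom.commutes]; exact Algebra.commutes c g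
  | add x y _ _ h1 h2 => rw [map_add]; exact h1.add_left h2
  | mul x y _ _ h1 h2 => rw [map_mul]; exact h1.mul_left h2

theorem conj_comm {g : Matrix ν ν R} {x : Fin e → Matrix (ω × Fin 2) (ω × Fin 2) R}
    (h : Commute (z.bm x) g) : Commute (blockDiagonal x) (z.S' * g * z.S) := by
  have h1 : blockDiagonal x * z.S' = z.S' * z.bm x := by
    rw [bm_apply, ← Matrix.mul_assoc, ← Matrix.mul_assoc, z.inv', Matrix.one_mul]
  have h2 : z.S * blockDiagonal x = z.bm x * z.S := by
    rw [bm_apply, Matrix.mul_assoc _ z.S', z.inv', Matrix.mul_one]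
  rw [Commute, SemiconjBy, ← Matrix.mul_assoc, ← Matrix.mul_assoc, h1, Matrix.mul_assoc z.S',
    h.eq, Matrix.mul_assoc _ z.S, h2]
  simp only [Matrix.mul_assoc]

theorem back (g : Matrix ν ν R) : z.S * (z.S' * g * z.S) * z.S' = g := by
  calc _ = z.S * z.S' * g * (z.S * z.S') := by simp only [Matrix.mul_assoc]
    _ = g := by rw [z.inv, Matrix.one_mul, Matrix.mul_one]

/-- The image of `em` is the commutant. -/
theorem em_pr {g : Matrix ν ν R} (ha : Commute (zM R a) g) (hb : Commute (zM R b) g) :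
    z.em (z.pr g) = g := by
  have h5 : (blockDiagonal fun s => z.pr g s ⊗ₖ (1 : M2 R)) = z.S' * g * z.S :=
    comm_bd _ fun s p q => z.conj_comm (z.comm_sl ha hb (Pi.single s (single p q (1 : R))))
  rw [em_apply, bm_apply, h5, back]

theorem form_bm (x y : Fin e → Matrix (ω × Fin 2) (ω × Fin 2) R) :
    z.Sᵀ * ((z.bm x)ᵀ * J ι R * z.bm y) * z.S =
      blockDiagonal fun s => (x s)ᵀ * (J (Fin 4) R ⊗ₖ z.B s) * y s := by
  have h1 : ∀ u, z.bm u * z.S = z.S * blockDiagonal u := fun u => by
    rw [bm_apply, Matrix.mul_assoc, z.inv', Matrix.mul_one]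
  calc _ = (z.bm x * z.S)ᵀ * J ι R * (z.bm y * z.S) := by
        simp only [transpose_mul, Matrix.mul_assoc]
    _ = (blockDiagonal x)ᵀ * (z.Sᵀ * J ι R * z.S) * blockDiagonal y := by
        simp only [h1, transpose_mul, Matrix.mul_assoc]
    _ = _ := by rw [z.form, blockDiagonal_transpose, ← blockDiagonal_mul, ← blockDiagonal_mul]

theorem form_em (x y : Fin e → M8 R) : z.Sᵀ * ((z.em x)ᵀ * J ι R * z.em y) * z.S =
    blockDiagonal fun s => ((x s)ᵀ * J (Fin 4) R * y s) ⊗ₖ z.B s := by
  rw [em_apply, em_apply, form_bm]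
  simp only [← kroneckerMap_transpose, transpose_one, ← mul_kronecker_mul, Matrix.one_mul,
    Matrix.mul_one]

theorem form_inj {g h : Matrix ν ν R} (e : z.Sᵀ * g * z.S = z.Sᵀ * h * z.S) : g = h := by
  have h1 : ∀ g : Matrix ν ν R, z.S'ᵀ * (z.Sᵀ * g * z.S) * z.S' = g := fun g => by
    calc _ = (z.S * z.S')ᵀ * g * (z.S * z.S') := by simp only [transpose_mul, Matrix.mul_assoc]
      _ = g := by rw [z.inv, transpose_one, Matrix.one_mul, Matrix.mul_one]
  rw [← h1 g, e, h1]

theorem kron_inj {x y : Fin e → M8 R}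
    (h : (blockDiagonal fun s => x s ⊗ₖ z.B s) = blockDiagonal fun s => y s ⊗ₖ z.B s) : x = y := by
  funext s
  have h1 := congrArg (· * ((1 : M8 R) ⊗ₖ (z.B s)⁻¹)) (congrFun (blockDiagonal_injective h) s)
  simp only [← mul_kronecker_mul, Matrix.mul_one, mul_nonsing_inv _ (z.unit s)] at h1
  ext i j
  simpa using congrFun (congrFun h1 (i, 0)) (j, 0)

/-- The form on the image of `em`. -/
theorem form_iff (x y w : Fin e → M8 R) : (z.em x)ᵀ * J ι R * z.em y = J ι R * z.em w ↔
    ∀ s, (x s)ᵀ * J (Fin 4) R * y s = J (Fin 4) R * w s := by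
  have h := z.form_em 1 w
  simp only [map_one, transpose_one, Matrix.one_mul, Pi.one_apply] at h
  exact ⟨fun e => congrFun (z.kron_inj (by rw [← form_em, e, h])),
    fun e => z.form_inj (by rw [form_em, h]; simp only [e])⟩

/-- Similitudes. -/
theorem sim_iff (x : Fin e → M8 R) (c : R) : (z.em x)ᵀ * J ι R * z.em x = c • J ι R ↔
    ∀ s, (x s)ᵀ * J (Fin 4) R * x s = c • J (Fin 4) R := by
  have h := z.form_iff x x (c • 1)
  simpa only [map_smul, map_one, Matrix.mul_smul, Matrix.mul_one, Pi.smul_apply,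
    Pi.one_apply] using h

/-- The symplectic Lie algebras. -/
theorem sp_iff (x : Fin e → M8 R) : Sp (J ι R) (z.em x) ↔ ∀ s, Sp (J (Fin 4) R) (x s) := by
  have h := z.form_iff x 1 (-x)
  simpa only [map_one, map_neg, Matrix.mul_one, Matrix.mul_neg, Pi.one_apply, Pi.neg_apply,
    ← add_eq_zero_iff_eq_neg, Sp] using h

theorem trace_bm (x : Fin e → Matrix (ω × Fin 2) (ω × Fin 2) R) :
    (z.bm x).trace = ∑ s, (x s).trace := by
  rw [bm_apply, trace_mul_comm, ← Matrix.mul_assoc, z.inv', Matrix.one_mul, trace_blockDiagonal]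

theorem trace_em (x : Fin e → M8 R) : (z.em x).trace = 2 * ∑ s, (x s).trace := by
  rw [em_apply, trace_bm, Finset.mul_sum]
  simp [trace_kronecker, mul_comm]

end Mor

namespace MorD

variable {e : ℕ} {a b : MZ} {R : Type} [CommRing R] (z : MorD e a b R)

/-- Change of rings. -/
def map {R' : Type} [CommRing R'] (φ : R →+* R') : MorD e a b R' where
  toMor := z.toMor.map φ
  ζ s c := φ (z.ζ s c)
  hα s := by
    change (z.α s).map φ = _
    rw [z.hα, diagonal_map (map_zero φ)]
  hB s := by
    change (z.B s).map φ = _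
    rw [z.hB]
    ext i j
    fin_cases i <;> fin_cases j <;> simp [swp]
  uz s c := (z.uz s c).map φ
  sep s c s' c' h := map_sub φ _ _ ▸ (z.sep s c s' c' h).map φ

theorem a_eq2 : zM R a = z.em2 fun s c => z.ζ s c • (1 : M8 R) := by
  rw [z.a_eq, Mor.em2_apply]
  congr 1
  funext s
  simp only [z.hα, smul_one_eq_diagonal, blockDiagonal_diagonal]
  rw [← diagonal_one, diagonal_kronecker_diagonal]
  simp only [one_mul]

theorem comm_a2 (x : Fin e → Fin 2 → M8 R) : Commute (zM R a) (z.em2 x) := by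
  rw [a_eq2]
  exact Commute.map (funext fun s => funext fun c => by simp) z.em2

/-- The image of `em2` is the commutant of `a`. -/
theorem em2_pr2 {g : Matrix ν ν R} (ha : Commute (zM R a) g) : z.em2 (z.pr2 g) = g := by
  rw [a_eq2, Mor.em2_apply] at ha
  have h5 : (blockDiagonal fun s => blockDiagonal (z.pr2 g s)) = z.S' * g * z.S :=
    comm_bd2 z.ζ z.sep _ (z.conj_comm ha)
  rw [Mor.em2_apply, Mor.bm_apply, h5, Mor.back]

/-- The form pairs the two signs. -/
theorem form_iff2 (x y w : Fin e → Fin 2 → M8 R) :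
    (z.em2 x)ᵀ * J ι R * z.em2 y = J ι R * z.em2 w ↔
      ∀ s c, (x s c.rev)ᵀ * J (Fin 4) R * y s c = J (Fin 4) R * w s c := by
  have h := z.form_bm 1 fun s => blockDiagonal (w s)
  simp only [map_one, transpose_one, Matrix.one_mul, Pi.one_apply] at h
  have k := form_swp (J (Fin 4) R)
  have k1 := k 1
  simp only [blockDiagonal_one, transpose_one, Matrix.one_mul, Pi.one_apply] at k1
  simp only [Mor.em2_apply]
  refine ⟨fun e s c => ?_, fun e => z.form_inj ?_⟩
  · have h1 := z.form_bm (fun s => blockDiagonal (x s)) fun s => blockDiagonal (y s)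
    rw [e, h] at h1
    ext i j
    have h2 := congrFun (congrFun (congrFun (blockDiagonal_injective h1) s) (i, c.rev)) (j, c)
    simpa only [z.hB, k, k1, if_true] using h2.symm
  · rw [z.form_bm, h]
    congr 1
    funext s
    ext ⟨i, p⟩ ⟨j, q⟩
    simp only [z.hB, k, k1, e]

end MorD

end MG
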