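import Pool.Agent.Lib.MP_33b3f9_ag.M4.IDefs
import Pool.Agent.Lib.MP_33b3f9_ag.M4.CmDefs
import Pool.Agent.Lib.MP_33b3f9_ag.M4.KzDefs
import Pool.Agent.Lib.MP_33b3f9_ag.M4.MxDefs
import Pool.Agent.Lib.MP_33b3f9_ag.MG.Mor

/-!
Definitions shared by the blocks: the abelian variety, Frobenius elements, frames.
-/

set_option autoImplicit false

noncomputable section

namespace MG

open Matrix Filter Topology M4 Pool.Agent.M4.Det Pool.Agent.M4.Mx Pool.Agent.Lib.MP_33b3f9_ag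
open Polynomial

/-- Integral matrices as `ℓ`-adic matrices. -/
def toQ {ν : Type} [Fintype ν] [DecidableEq ν] {l : ℕ} [Fact l.Prime] (g : GL ν ℤ_[l]) :
    GL ν ℚ_[l] :=
  Matrix.GeneralLinearGroup.map PadicInt.Coe.ringHom g

/-- The determinant of two vectors in the plane. -/
def wd {R : Type} [CommRing R] (v w : Fin 2 → R) : R := v 0 * w 1 - v 1 * w 0

/-- The primes larger than `l₁` that have a prime of degree one in `L`. -/
def GP (L : Type) [Field L] (l₁ : ℕ) : Type := {l : ℕ // l.Prime ∧ l₁ < l ∧ NT.Spl L l}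

instance {L : Type} [Field L] {l₁ : ℕ} : DecidableEq (GP L l₁) :=
  inferInstanceAs (DecidableEq {l : ℕ // l.Prime ∧ l₁ < l ∧ NT.Spl L l})

instance {L : Type} [Field L] {l₁ : ℕ} (l : GP L l₁) : Fact l.1.Prime := ⟨l.2.1⟩

variable [Dim]

/-- Index set of the level two characteristics. -/
abbrev Bits : Type := ν → Fin 2

/-- Period matrices. -/
abbrev Mat : Type := Matrix ι ι ℂ

/-- The family of `ℓ`-adic representations. -/
abbrev Rep (K : IntermediateField ℚ ℂ) : Type :=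
  ∀ (l : ℕ) [Fact l.Prime], (ℂ ≃ₐ[K] ℂ) →* GL ν ℤ_[l]

/-- The level two theta null vector. -/
def th2 (τ : Mat) : Bits → ℂ := fun ε => Th τ (hf (bz ε))

/-- The level four coordinates at the rational points. -/
def xx (τ : Mat) (ε : Bits) (x : ν → ℚ) : ℂ := XX τ (bz ε) fun i => (x i : ℝ)

/-- An integral matrix as a real matrix. -/
def zr (g : MZ) : Matrix ν ν ℝ := g.map (Int.cast : ℤ → ℝ)

/-- `g = 1` modulo `32`. -/
def Lev (g : MZ) : Prop := ∀ i j, (32 : ℤ) ∣ (g - 1) i j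

/-- `g` is an integral similitude of level `32` with admissible multiplier `M`. -/
def Iso (g : MZ) (M : ℕ) : Prop := Adm M ∧ Lev g ∧ Sim (zr g) M

/-- The kernel of `g` modulo `M`. -/
def Ker (g : MZ) (M : ℕ) : AddSubgroup (ν → ℤ) where
  carrier := {x | ∀ i, (M : ℤ) ∣ (g *ᵥ x) i}
  zero_mem' := fun i => by simp
  add_mem' := fun {a b} ha hb i => by
    rw [Matrix.mulVec_add]; exact dvd_add (ha i) (hb i)
  neg_mem' := fun {a} ha i => by
    rw [Matrix.mulVec_neg]; exact (dvd_neg).2 (ha i)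

/-- `G` is its own orthogonal modulo `l`. -/
def Lag (l : ℕ) (G : AddSubgroup (ν → ℤ)) : Prop :=
  ∀ y, y ∈ G ↔ ∀ x ∈ G, (l : ℤ) ∣ x ⬝ᵥ Matrix.J ι ℤ *ᵥ y

/-- The Mumford-Tate group of `I` contains all symplectic matrices that commute with `a`, `b`. -/
def GEN (a b : MZ) (I : Matrix ν ν ℝ) : Prop :=
  ∀ g : Matrix ν ν ℂ, gᵀ * Matrix.J ι ℂ * g = Matrix.J ι ℂ → Commute (zM ℂ a) g →
    Commute (zM ℂ b) g → ∀ P ∈ mtEqns I, evalM g P = 0

/-- `K` contains the eighth roots of unity and the ratios of the theta constants. -/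
def DefX (τ : Mat) (K : IntermediateField ℚ ℂ) : Prop :=
  ee (1 / 8) ∈ K ∧ ∀ ε ε', th2 τ ε / th2 τ ε' ∈ K

/-- `r` is the action on the torsion points, in the coordinates `XX`. -/
def TateX (τ : Mat) (K : IntermediateField ℚ ℂ) (r : Rep K) : Prop :=
  ∀ (σ : ℂ ≃ₐ[K] ℂ) (x y : ν → ℚ),
    (∀ (l : ℕ) [Fact l.Prime] (i : ν),
      ‖((toQ (r l σ) : Matrix ν ν ℚ_[l]) *ᵥ fun j => (x j : ℚ_[l])) i - (y i : ℚ_[l])‖ ≤ 1) →
    ∃ c : ℂ, ∀ ε : Bits, σ (XX τ (bz ε) fun i => (x i : ℝ)) = c * XX τ (bz ε) fun i => (y i : ℝ)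

/-- The abelian variety and its Galois representations. -/
structure AV (τ : Mat) (K : IntermediateField ℚ ℂ) (r : Rep K) : Prop where
  inH : InH τ
  fin : FiniteDimensional ℚ K
  defX : DefX τ K
  tate : TateX τ K r

/-- The endomorphisms are defined over `K`. -/
def COMM (a b : MZ) {K : IntermediateField ℚ ℂ} (r : Rep K) : Prop :=
  ∀ (l : ℕ) [Fact l.Prime] (σ : ℂ ≃ₐ[K] ℂ), Commute (zM ℤ_[l] a) (r l σ : Matrix ν ν ℤ_[l]) ∧
    Commute (zM ℤ_[l] b) (r l σ : Matrix ν ν ℤ_[l])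

/-- The integral matrix `R` is congruent to `r σ` modulo `M`. -/
def Cong {K : IntermediateField ℚ ℂ} (r : Rep K) (σ : ℂ ≃ₐ[K] ℂ) (M : ℕ) (R : MZ) : Prop :=
  ∀ (l : ℕ) [Fact l.Prime] (i j : ν),
    (M : ℤ_[l]) ∣ (r l σ : Matrix ν ν ℤ_[l]) i j - (R i j : ℤ_[l])

/-- `r σ = r σ'` modulo `N`. -/
def Eqm {K : IntermediateField ℚ ℂ} (r : Rep K) (N : ℕ) (σ σ' : ℂ ≃ₐ[K] ℂ) : Prop :=
  ∀ (l : ℕ) [Fact l.Prime] (i j : ν),
    (N : ℤ_[l]) ∣ (r l σ : Matrix ν ν ℤ_[l]) i j - (r l σ' : Matrix ν ν ℤ_[l]) i j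

/-- The representation modulo `l`. -/
def rb {K : IntermediateField ℚ ℂ} (r : Rep K) (l : ℕ) [Fact l.Prime] (σ : ℂ ≃ₐ[K] ℂ) :
    Matrix ν ν (ZMod l) :=
  (r l σ : Matrix ν ν ℤ_[l]).map PadicInt.toZMod

/-- `r l σ` is a similitude with the cyclotomic multiplier. -/
def MUst {K : IntermediateField ℚ ℂ} (r : Rep K) : Prop :=
  ∀ (l : ℕ) [Fact l.Prime] (σ : ℂ ≃ₐ[K] ℂ), ∃ c : ℤ_[l],
    (r l σ : Matrix ν ν ℤ_[l])ᵀ * Matrix.J ι ℤ_[l] * (r l σ : Matrix ν ν ℤ_[l]) =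
      c • Matrix.J ι ℤ_[l] ∧
    ∀ (n : ℕ) (ζ : ℂ), ζ ^ l ^ n = 1 → σ ζ = ζ ^ (PadicInt.toZModPow n c).val

/-- Similitudes with prescribed kernels. -/
def LAGRst : Prop :=
  ∀ (S : Finset ℕ) (G : ℕ → AddSubgroup (ν → ℤ)),
    (∀ l ∈ S, l.Prime ∧ l ≡ 1 [MOD 32] ∧ Lag l (G l)) →
    ∃ g : MZ, Iso g (∏ l ∈ S, l) ∧ ∀ l ∈ S, Ker g l = G l

/-- Integral equivariant coordinates of the torsion points of the isogenous varieties. -/
def PTSst (τ : Mat) {K : IntermediateField ℚ ℂ} (r : Rep K) : Prop :=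
  ∃ (C : ℕ) (y : MZ → ℕ → Bits → (ν → ℚ) → ℂ), ∀ (g : MZ) (M : ℕ), Iso g M →
    (∃ c : ℂ, c ≠ 0 ∧ ∀ ε x, y g M ε x = c * xx (act (zr g) τ) ε x) ∧
    (∀ ε x, IsIntegral ℤ (y g M ε x)) ∧
    (∀ (φ : ℂ →+* ℂ) ε x, ‖φ (y g M ε x)‖ ≤ (2 * M : ℝ) ^ C) ∧
    ∀ (σ : ℂ ≃ₐ[K] ℂ) (g' : MZ) (W : ∀ (l : ℕ) [Fact l.Prime], Matrix ν ν ℤ_[l]), Iso g' M →
      (∀ (l : ℕ) [Fact l.Prime], zM ℤ_[l] g' * (r l σ : Matrix ν ν ℤ_[l]) = W l * zM ℤ_[l] g) →
      ∀ (N : ℕ) (x x' : ν → ℤ), N ≠ 0 → (∀ (l : ℕ) [Fact l.Prime] (i : ν),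
        ((N ^ 2 : ℕ) : ℤ_[l]) ∣ (W l *ᵥ fun j => (x j : ℤ_[l])) i - x' i) →
      ∀ ε, σ (y g M ε fun i => (x i : ℚ) / N) = y g' M ε fun i => (x' i : ℚ) / N

/-- The representation with coefficients in `ℚ_ℓ`. -/
def rq {K : IntermediateField ℚ ℂ} (r : Rep K) (l : ℕ) [Fact l.Prime] (σ : ℂ ≃ₐ[K] ℂ) :
    Matrix ν ν ℚ_[l] :=
  (toQ (r l σ) : Matrix ν ν ℚ_[l])

/-- The values of `y` at the points `u a / N`, `a` modulo `N ^ 2`. -/
def Tor (y : Bits → (ν → ℚ) → ℂ) (N : ℕ) (u : MZ) : Bits × (ν → ZMod (N ^ 2)) → ℂ :=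
  fun i => y i.1 fun k => ((u *ᵥ Kz.lift i.2) k : ℚ) / N

/-- The CM field generated by `a`. -/
structure PD (e : ℕ) (a b : MZ) (m n : ℕ) where
  /-- the field -/
  E : Type
  /-- the field structure -/
  [fld : Field E]
  [nf : NumberField E]
  /-- the action -/
  φ : E →+* Matrix ν ν ℚ
  /-- the generator -/
  z : E
  /-- complex conjugation -/
  bar : E ≃+* E
  pel : PEL e a b m n
  φz : φ z = zM ℚ a
  gen : Algebra.adjoin ℚ {z} = ⊤
  rank : Module.finrank ℚ E = 2 * e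
  conj : ∀ (j : E →+* ℂ) (x : E), j (bar x) = starRingEnd ℂ (j x)
  mul : bar z * z = m
  int : IsIntegral ℤ z

variable {e : ℕ} {a b : MZ} {m n : ℕ}

instance (D : PD e a b m n) : Field D.E := D.fld

instance (D : PD e a b m n) : NumberField D.E := D.nf

/-- The order generated by `z` and its conjugate. -/
def PD.A (D : PD e a b m n) : Subalgebra ℤ D.E := Algebra.adjoin ℤ {D.z, D.bar D.z}

/-- The action of the field on the `ℓ`-adic space. -/
def PD.φl (D : PD e a b m n) (l : ℕ) [Fact l.Prime] : D.E →+* Matrix ν ν ℚ_[l] :=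
  (Rat.castHom ℚ_[l]).mapMatrix.comp D.φ

/-- The value at `r σ` of a polynomial over the field. -/
def PD.ev (D : PD e a b m n) {K : IntermediateField ℚ ℂ} (r : Rep K) (l : ℕ) [Fact l.Prime]
    (σ : ℂ ≃ₐ[K] ℂ) (P : D.E[X]) : Matrix ν ν ℚ_[l] :=
  P.eval₂ (D.φl l) (rq r l σ)

/-- `P` is the minimal polynomial of the Frobenius `σ` over the field. -/
structure Weil (D : PD e a b m n) {K : IntermediateField ℚ ℂ} (r : Rep K) (p : ℕ)
    (σ : ℂ ≃ₐ[K] ℂ) (P : D.E[X]) : Prop where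
  monic : P.Monic
  int : ∀ i, IsIntegral ℤ (P.coeff i)
  weil : ∀ (j : D.E →+* ℂ) (x : ℂ), P.eval₂ j x = 0 → ‖x‖ ^ 2 = p
  zero : ∀ (l : ℕ) [Fact l.Prime], l ≠ p → D.ev r l σ P = 0
  li : ∀ (l : ℕ) [Fact l.Prime], l ≠ p → LinearIndependent ℚ_[l]
    fun i : Fin (2 * e) × Fin P.natDegree => zM ℚ_[l] a ^ (i.1 : ℕ) * rq r l σ ^ (i.2 : ℕ)

/-- `σ` is a Frobenius at the place `v`. -/
structure Frob (τ : Mat) (D : PD e a b m n) {K : IntermediateField ℚ ℂ} (r : Rep K) (N₀ : ℕ)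
    {p : ℕ} [Fact p.Prime] (v : ℂ ≃+* PadicAlgCl p) (σ : ℂ ≃ₐ[K] ℂ) : Prop where
  dec : NT.Dec v σ
  /-- the decomposition group acts on the prime to `p` torsion through powers of `σ` -/
  unram : ∀ σ' : ℂ ≃ₐ[K] ℂ, NT.Dec v σ' → ∀ n : ℕ, ¬ p ∣ n → ∃ j : ℕ, ∀ R : MZ,
    Cong r (σ ^ j) n R → Cong r σ' n R
  /-- the inertia group acts trivially -/
  inert : ∀ σ' : ℂ ≃ₐ[K] ℂ, NT.Dec v σ' →
    (∀ (n : ℕ) (ζ : ℂ), ¬ p ∣ n → ζ ^ n = 1 → σ' ζ = ζ) →
    ∀ (l : ℕ) [Fact l.Prime], l ≠ p → r l σ' = 1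
  mult : ∀ (l : ℕ) [Fact l.Prime], l ≠ p →
    (rq r l σ)ᵀ * Matrix.J ι ℚ_[l] * rq r l σ = (p : ℚ_[l]) • Matrix.J ι ℚ_[l]
  weil : ∃ P, Weil D r p σ P
  /-- isogenies that are close to `1` at `p` preserve the reduction -/
  few : ∀ (δ : D.E[X]) (c M M' : ℕ) (g g' : MZ)
    (W : ∀ (l : ℕ) [Fact l.Prime], Matrix ν ν ℤ_[l]), (∀ i, δ.coeff i ∈ D.A) → ¬ p ∣ c →
    Iso g M → Iso g' M' → ¬ p ∣ M → ¬ p ∣ M' → M ≡ M' [MOD p ^ N₀] →
    (∀ (l : ℕ) [Fact l.Prime], l ≠ p →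
      zM ℚ_[l] g' * D.ev r l σ (1 + C ((p : D.E) ^ N₀ / c) * δ) =
        (W l).map ((↑) : ℤ_[l] → ℚ_[l]) * zM ℚ_[l] g ∧
      (W l)ᵀ * Matrix.J ι ℤ_[l] * W l = Matrix.J ι ℤ_[l] ∧
      ∀ i j, (32 : ℤ_[l]) ∣ (W l - 1) i j) →
    ∀ (N : ℕ) (u u' : MZ), ¬ p ∣ N →
      (∀ (l : ℕ) [Fact l.Prime], l ≠ p → ∀ i j,
        ((N ^ 2 : ℕ) : ℤ_[l]) ∣ (W l * zM ℤ_[l] u - zM ℤ_[l] u') i j) →
      SameRed v (Tor (xx (act (zr g) τ)) N u) (Tor (xx (act (zr g') τ)) N u')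

/-- Frobenius elements at almost all places of degree one. -/
def REDst (τ : Mat) (D : PD e a b m n) {K : IntermediateField ℚ ℂ} (r : Rep K) (N₀ : ℕ) : Prop :=
  ∃ p₀ : ℕ, ∀ (p : ℕ) [Fact p.Prime], p₀ ≤ p → ∀ v : ℂ ≃+* PadicAlgCl p, IsPlace K v →
    ∃ σ, Frob τ D r N₀ v σ

/-- A splitting with a tensor cube in each block. -/
structure Fm (e : ℕ) (a b : MZ) (R : Type) [CommRing R] where
  /-- the splitting -/
  z : MorD e a b R
  /-- the cubes -/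
  f : Fin e → Fr ω R
  adj : ∀ s i x, ((f s).u i x)ᵀ * Matrix.J (Fin 4) R = Matrix.J (Fin 4) R * (f s).u i (adjugate x)

namespace Fm

variable {R : Type} [CommRing R] (F : Fm e a b R)

/-- Pure tensors, the same for both signs. -/
def T (h : Fin e → Fin 3 → M2 R) : Matrix ν ν R := F.z.em fun s => (F.f s).T (h s)

/-- Pure tensors. -/
def T2 (h : Fin e → Fin 2 → Fin 3 → M2 R) : Matrix ν ν R := F.z.em2 fun s c => (F.f s).T (h s c)

/-- Change of rings. -/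
def map {R' : Type} [CommRing R'] (φ : R →+* R') : Fm e a b R' where
  z := F.z.map φ
  f s := (F.f s).map φ
  adj s i x := by
    have h : ∀ y : M2 R, ((F.f s).map φ).u i (y.map φ) = ((F.f s).u i y).map φ := fun y => by
      rw [Fr.u_apply, Fr.u_apply, Fr.map_T]
      congr 1
      funext t
      by_cases ht : t = i
      · subst ht
        simp
      · simp [Function.update_of_ne ht]
    have e1 : x = ∑ p, ∑ q, x p q • (single p q (1 : R)).map φ := by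
      ext p q
      fin_cases p <;> fin_cases q <;> simp [Fin.sum_univ_two]
    have e2 : adjugate x = ∑ p, ∑ q, x p q • (adjugate (single p q (1 : R))).map φ := by
      ext p q
      fin_cases p <;> fin_cases q <;> simp [Fin.sum_univ_two, adjugate_fin_two]
    rw [e2, congrArg (((F.f s).map φ).u i) e1]
    simp only [map_sum, map_smul, transpose_sum, transpose_smul, Matrix.sum_mul, Matrix.mul_sum,
      Matrix.smul_mul, Matrix.mul_smul, h]
    refine Finset.sum_congr rfl fun p _ => Finset.sum_congr rfl fun q _ => congrArg _ ?_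
    rw [← map_J (Fin 4) φ, ← transpose_map, ← Matrix.map_mul, ← Matrix.map_mul, F.adj]

theorem map_T2 {R' : Type} [CommRing R'] (φ : R →+* R') (h : Fin e → Fin 2 → Fin 3 → M2 R) :
    (F.T2 h).map φ = (F.map φ).T2 fun s c i => (h s c i).map φ := by
  simp only [T2, Mor.map_em2, Fr.map_T]
  rfl

theorem map_T {R' : Type} [CommRing R'] (φ : R →+* R') (h : Fin e → Fin 3 → M2 R) :
    (F.T h).map φ = (F.map φ).T fun s i => (h s i).map φ := F.map_T2 φ _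

theorem T2_mul (h k : Fin e → Fin 2 → Fin 3 → M2 R) : F.T2 h * F.T2 k = F.T2 (h * k) := by
  rw [T2, T2, T2, ← map_mul]
  exact congrArg _ (funext fun s => funext fun c => (F.f s).T_mul _ _)

theorem T2_one : F.T2 1 = 1 := by
  rw [T2, ← map_one F.z.em2]
  exact congrArg _ (funext fun s => funext fun c => (F.f s).T_one)

theorem T_eq (h : Fin e → Fin 3 → M2 R) : F.T h = F.T2 fun s _ => h s := rfl

/-- The coordinates of a vector. -/
def co (x : ν → R) (s : Fin e) (c : Fin 2) : κ → R :=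
  (F.f s).Q *ᵥ fun i => (F.z.S' *ᵥ x) ((i, c), s)

theorem co_add (x y : ν → R) (s : Fin e) (c : Fin 2) :
    F.co (x + y) s c = F.co x s c + F.co y s c := by
  rw [co, co, co, ← Matrix.mulVec_add, Matrix.mulVec_add F.z.S']
  rfl

theorem co_neg (x : ν → R) (s : Fin e) (c : Fin 2) : F.co (-x) s c = -F.co x s c := by
  rw [co, co, ← Matrix.mulVec_neg, Matrix.mulVec_neg _ F.z.S']
  rfl

theorem co_zero (s : Fin e) (c : Fin 2) : F.co 0 s c = 0 := by
  rw [co, Matrix.mulVec_zero]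
  exact Matrix.mulVec_zero _

end Fm

/-- The tensor `y` lies in the line of `w` in the slot `i`. -/
def InL {R : Type} [CommRing R] (i : Fin 3) (w : Fin 2 → R) (y : κ → R) : Prop :=
  ∀ k : κ, wd w (fun t => y (Function.update k i t)) = 0

omit [Dim] in
theorem InL.add {R : Type} [CommRing R] {i : Fin 3} {w : Fin 2 → R} {x y : κ → R} (hx : InL i w x)
    (hy : InL i w y) : InL i w (x + y) := fun k => by
  have h1 := hx k
  have h2 := hy k
  simp only [wd, Pi.add_apply] at h1 h2 ⊢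
  linear_combination h1 + h2

omit [Dim] in
theorem InL.neg {R : Type} [CommRing R] {i : Fin 3} {w : Fin 2 → R} {x : κ → R} (hx : InL i w x) :
    InL i w (-x) := fun k => by
  have h1 := hx k
  simp only [wd, Pi.neg_apply] at h1 ⊢
  linear_combination -h1

/-- The Lagrangian of the line `w` in the slot `q`: the line in the block `q.1`, the first sign
in the other blocks. -/
def slot {l : ℕ} (F : Fm e a b (ZMod l)) (q : Fin e × Fin 3) (w : Fin 2 → ZMod l) :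
    AddSubgroup (ν → ℤ) where
  carrier := {x | (∀ c, InL q.2 w (F.co (fun j => (x j : ZMod l)) q.1 c)) ∧
    ∀ s, s ≠ q.1 → F.co (fun j => (x j : ZMod l)) s 1 = 0}
  zero_mem' := by
    have : (fun j => ((0 : ν → ℤ) j : ZMod l)) = 0 := by funext j; simp
    simp only [Set.mem_ofPred_eq, this, Fm.co_zero]
    exact ⟨fun c k => by simp [wd], fun _ _ => trivial⟩
  add_mem' := fun {x y} hx hy => by
    have : (fun j => ((x + y) j : ZMod l)) =
        (fun j => (x j : ZMod l)) + fun j => (y j : ZMod l) := by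
      funext j; simp
    simp only [Set.mem_ofPred_eq, this, Fm.co_add]
    exact ⟨fun c => (hx.1 c).add (hy.1 c), fun s hs => by rw [hx.2 s hs, hy.2 s hs, add_zero]⟩
  neg_mem' := fun {x} hx => by
    have : (fun j => ((-x) j : ZMod l)) = -fun j => (x j : ZMod l) := by funext j; simp
    simp only [Set.mem_ofPred_eq, this, Fm.co_neg]
    exact ⟨fun c => (hx.1 c).neg, fun s hs => by rw [hx.2 s hs, neg_zero]⟩

end MG
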