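import Pool.Agent.Lib.MP_33b3f9_ag.M4.NTDefs

/-!
Definitions for the sieve and for the Gram matrix.
-/

set_option autoImplicit false

noncomputable section

namespace MG

open Filter M4

open Classical in
/-- The set `G` has positive mass in the windows `(T, T ^ 80]`. -/
def Sv.Win (G : Set ℕ) : Prop :=
  ∃ c : ℝ, 0 < c ∧ ∀ᶠ T : ℕ in atTop,
    c ≤ ∑ p ∈ (Finset.Ioc T (T ^ 80)).filter (· ∈ G), (p : ℝ)⁻¹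

/-- Many patterns of discriminants, each with positive mass in the windows. -/
def PAT (Ty : ℕ → ℤ → Prop) : Prop :=
  ∀ k : ℕ, ∃ (G : Fin k → Set ℕ) (Δ : Fin k → ℕ → ℤ), (∀ i, Sv.Win (G i)) ∧
    (∀ i, ∀ p ∈ G i, Ty p (Δ i p)) ∧
    ∀ i j, i ≠ j → ∀ p ∈ G i, ∀ q ∈ G j, ¬ IsSquare (Δ i p * Δ j q)

open Classical in
/-- The output of the sieve. -/
def OUT (L : Type) [Field L] (ε : ℤ) (Ty : ℕ → ℤ → Prop) : Prop :=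
  ∀ a Y₀ : ℕ, 1 ≤ a → ∃ (Y P : ℕ) (PP : Finset ℕ) (Δ : ℕ → ℤ), Y₀ ≤ Y ∧ Y ^ a ≤ P ∧
    P ≤ Y ^ (6400 * a) ∧ (P : ℝ) ≤ PP.card * Real.log P ^ 3 ∧
    ∀ p ∈ PP, P < p ∧ p ≤ 2 * P ∧ Ty p (Δ p) ∧ (Y : ℝ) ≤ ((Finset.Ioc Y (2 * Y)).filter fun l =>
      l.Prime ∧ NT.Spl L l ∧ jacobiSym (Δ p) l = ε).card * Real.log Y ^ 2

/-- The vectors `u` and `v` are almost proportional. -/
def Cls {I : Type} [Fintype I] (η : ℝ) (u v : I → ℂ) : Prop :=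
  (1 - η) ^ 2 * ((∑ i, ‖u i‖ ^ 2) * ∑ i, ‖v i‖ ^ 2) ≤ ‖∑ i, u i * starRingEnd ℂ (v i)‖ ^ 2

end MG
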