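import Pool.Agent.Lib.MP_33b3f9_ag.MG.IDefA
import Pool.Agent.Lib.MP_33b3f9_ag.MG.NDefs

/-!
Definitions shared by the blocks: the statements that cross block borders.
-/

set_option autoImplicit false

noncomputable section

namespace MG

open Matrix Filter Topology M4 Pool.Agent.M4.Det Pool.Agent.M4.Mx Pool.Agent.Lib.MP_33b3f9_ag
open Polynomial

variable [Dim]

/-- `g` commutes with `a` and `b`. -/
def Com (a b g : MZ) : Prop := g * a = a * g ∧ g * b = b * g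

/-- A similitude of level `32` with odd multiplier that commutes with `a` and `b`. -/
def Isg (a b g : MZ) (M : ℕ) : Prop := Odd M ∧ Lev g ∧ Sim (zr g) M ∧ Com a b g

/-- A similitude with admissible multiplier whose kernel is stable under `a` and `b`. -/
def Ist (a b g : MZ) (M : ℕ) : Prop :=
  Iso g M ∧ (∃ a' : MZ, g * a = a' * g) ∧ ∃ b' : MZ, g * b = b' * g

/-- The points of the Siegel space at which `a` and `b` are endomorphisms. -/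
def FX (a b : MZ) : Set Mat := {τ | InH τ ∧ act (zr a) τ = τ ∧ zr b * cst τ = cst τ * zr b}

/-- The endomorphism algebra of the abelian variety is generated by `a` and `b`. -/
def EndX (a b : MZ) (τ : Mat) : Prop :=
  ∀ g : MZ, zr g * cst τ = cst τ * zr g → ∃ (d : ℤ) (c c' : ℤ[X]), d ≠ 0 ∧
    d • g = aeval a c + aeval a c' * b

/-- The matrices that commute with `a` and `b` modulo `N`. -/
def CmN (a b : MZ) (N : ℕ) : AddSubgroup MZ where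
  carrier := {R | ∀ i j, (N : ℤ) ∣ (R * a - a * R) i j ∧ (N : ℤ) ∣ (R * b - b * R) i j}
  zero_mem' := fun i j => by simp
  add_mem' := fun {R S} hR hS i j => by
    have e : ∀ c : MZ, (R + S) * c - c * (R + S) = (R * c - c * R) + (S * c - c * S) := fun c => by
      rw [add_mul, mul_add]
      abel
    rw [e, e]
    exact ⟨dvd_add (hR i j).1 (hS i j).1, dvd_add (hR i j).2 (hS i j).2⟩
  neg_mem' := fun {R} hR i j => by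
    have e : ∀ c : MZ, -R * c - c * -R = -(R * c - c * R) := fun c => by
      rw [neg_mul, mul_neg]
      abel
    rw [e, e]
    exact ⟨dvd_neg.2 (hR i j).1, dvd_neg.2 (hR i j).2⟩

/-- The integral form of the theorem of Faltings, with a polynomial bound. -/
def FAL (a b : MZ) {K : IntermediateField ℚ ℂ} (r : Rep K) : Prop :=
  ∃ C : ℕ, ∀ N : ℕ, N ≠ 0 → ∀ U : Subgroup (ℂ ≃ₐ[K] ℂ), U.FiniteIndex →
    (AddSubgroup.closure {R : MZ | ∃ σ ∈ U, Cong r σ N R}).relIndex (CmN a b N) ≤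
      (U.index * (2 + Nat.log 2 N)) ^ C

/-- The tangent algebra of the closure of the image contains the symplectic Lie algebras of all
blocks. -/
def FULL (e : ℕ) (a b : MZ) {K : IntermediateField ℚ ℂ} (r : Rep K) : Prop :=
  ∀ (l : ℕ) [Fact l.Prime] (U : Subgroup (ℂ ≃ₐ[K] ℂ)), U.FiniteIndex → ∃ z : MorD e a b (Om l),
    ∀ Z : Fin e → M8 (Om l), (∀ s, Sp (Matrix.J (Fin 4) (Om l)) (Z s)) →
      z.em Z ∈ tng (imU (r l) U)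

/-- The lattices of the family are pairwise not homothetic. -/
def Sep {α : Type} (X : Finset α) (g : α → MZ) : Prop :=
  ∀ ξ ∈ X, ∀ ξ' ∈ X, ∀ γ : MZ, Sim (zr γ) 1 → ∀ c c' : ℤ, c ≠ 0 → c • g ξ' = c' • (γ * g ξ) →
    ξ = ξ'

/-- A family of lattices indexed by tuples. -/
structure Fam (Q : MZ → ℕ → Prop) (Y : ℕ) {s : ℕ} {Om : Fin s → Type} (X : Finset (∀ i, Om i))
    (g : (∀ i, Om i) → MZ) (M : (∀ i, Om i) → ℕ) : Prop where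
  iso : ∀ ξ ∈ X, Q (g ξ) (M ξ)
  sep : Sep X g
  nb : ∀ ξ ∈ X, ∀ ξ' ∈ X, (∃ i, ∀ j, j ≠ i → ξ j = ξ' j) → ∃ (l m : ℕ) (h : MZ), 0 < l ∧
    m ≤ Y ^ 2 ∧ m ≡ 1 [MOD 32] ∧ Lev h ∧ Sim (zr h) m ∧ (l : ℤ) • g ξ' = h * g ξ

/-- The zero estimate for families of lattices. -/
def GEOst (e : ℕ) (Q : MZ → ℕ → Prop) (τ : Mat) : Prop :=
  ∃ e₀ : ℕ, ∀ (Y s : ℕ) (Om : Fin s → Type) [∀ i, Fintype (Om i)] (X : Finset (∀ i, Om i))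
    (g : (∀ i, Om i) → MZ) (M : (∀ i, Om i) → ℕ) (N k₀ k₁ H₀ L th : ℕ), 2 ≤ Y →
    Fam Q Y X g M →
    0 < N → (∀ i, N ≤ Fintype.card (Om i)) →
    (∀ μ ≤ k₁, hil (fun ξ : X => th2 (act (zr (g ξ)) τ)) μ ≤ H₀) →
    1 ≤ k₀ → H₀ < (k₀ + 10 * e).choose (10 * e) → H₀ < 2 ^ L → k₀ * Y ^ e₀ ≤ k₁ →
    ((L + 1) * Y) ^ e₀ * H₀ < th ^ s →
    X.card * N ≤ 10 * e * s * th * ∏ i, Fintype.card (Om i) + N * (((L + 1) * Y) ^ e₀ * H₀)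

/-- The output of the arithmetic half. -/
def ARITHst (e : ℕ) (Q : MZ → ℕ → Prop) (τ : Mat) : Prop :=
  ∃ θ : ℝ, 0 < θ ∧ θ < 1 / 2 ∧ ∃ δ : ℝ, 0 < δ ∧ ∀ Y₀ : ℕ, ∃ Y : ℕ, Y₀ ≤ Y ∧
    ∃ (s : ℕ) (Om : Fin s → Type) (_ : ∀ i, Fintype (Om i)) (X : Finset (∀ i, Om i))
      (g : (∀ i, Om i) → MZ) (M : (∀ i, Om i) → ℕ), Fam Q (2 * Y) X g M ∧
      (Y : ℝ) ^ (1 - θ) ≤ 2 * s ∧ (s : ℝ) ≤ (Y : ℝ) ^ (1 - θ) ∧
      (∀ i, Y ≤ Fintype.card (Om i)) ∧ δ * ∏ i, (Fintype.card (Om i) : ℝ) ≤ X.card ∧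
      ∀ μ : ℕ, 1 ≤ μ → (hil (fun ξ : X => th2 (act (zr (g ξ)) τ)) μ : ℝ) ≤
        Real.exp ((Y : ℝ) ^ (1 - 2 * θ)) * (μ : ℝ) ^ (9 * e)

/-- The vector of the level structure `u` with multiplier `c`. -/
def Phi (y : Bits → (ν → ℚ) → ℂ) (N : ℕ) (u : MZ) (c : ℤ) :
    (Bits × (ν → ZMod (N ^ 2))) × ZMod (N ^ 2) → ℂ :=
  fun i => ee ((c : ℂ) * i.2.val / (N : ℂ) ^ 2) * Tor y N u i.1

/-- `u` is a similitude modulo `N ^ 2` with invertible multiplier `c`. -/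
def SimN (N : ℕ) (u : MZ) (c : ℤ) : Prop :=
  IsCoprime c N ∧ ∀ i j, ((N : ℤ) ^ 2) ∣ (uᵀ * Matrix.J ι ℤ * u - c • Matrix.J ι ℤ) i j

/-- Close vectors come from a small isogeny. -/
def GRAMst (τ : Mat) : Prop :=
  ∃ (C : ℕ) (η : ℝ), 0 < η ∧ η < 1 ∧ ∀ (g g' u u' : MZ) (M M' N : ℕ) (c c' : ℤ) [NeZero N],
    Iso g M → Iso g' M' → Odd N → (2 * M * M') ^ C ≤ N → SimN N u c → SimN N u' c' →
    Cls η (Phi (xx (act (zr g) τ)) N u c) (Phi (xx (act (zr g') τ)) N u' c') →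
    ∃ W : MZ, Sim (zr W) 1 ∧ (∀ i j, ((N : ℤ) ^ 2) ∣ (W * u - u') i j) ∧
      ∀ i j, (adj g' * W * g) i j ^ 2 ≤ C * M * M'

variable {e : ℕ} {a b : MZ} {m n : ℕ} {L : Type} [Field L] {l₁ : ℕ}
  {K : IntermediateField ℚ ℂ}

/-- Integral frames at the good primes. -/
abbrev Frs (e : ℕ) (a b : MZ) (L : Type) [Field L] (l₁ : ℕ) : Type :=
  ∀ l : GP L l₁, Fm e a b ℤ_[l.1]

/-- The frame modulo `l`. -/
def Frs.red (F : Frs e a b L l₁) (l : GP L l₁) : Fm e a b (ZMod l.1) := (F l).map PadicInt.toZMod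

/-- The frame over `ℚ_l`. -/
def Frs.q (F : Frs e a b L l₁) (l : GP L l₁) : Fm e a b ℚ_[l.1] :=
  (F l).map PadicInt.Coe.ringHom

/-- The image consists of pure tensors, and it is big in each slot. -/
structure Sys (F : Frs e a b L l₁) (r : Rep K) : Prop where
  l32 : ∀ l : GP L l₁, l.1 ≡ 1 [MOD 32]
  im : ∀ (l : GP L l₁) σ, ∃ h, (r l.1 σ : Matrix ν ν ℤ_[l.1]) = (F l).T h
  big : ∀ (l : GP L l₁) (q : Fin e × Fin 3) (u : M2 (ZMod l.1)), u.det = 1 →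
    ∃ σ h, (r l.1 σ : Matrix ν ν ℤ_[l.1]) = (F l).T h ∧
      ∃ c : ZMod l.1, (h q.1 q.2).map PadicInt.toZMod = c • u

/-- The line of `w` in the slot `q` is stable under `σ`. -/
def Stb (F : Frs e a b L l₁) (r : Rep K) (l : GP L l₁) (q : Fin e × Fin 3)
    (w : Fin 2 → ZMod l.1) (σ : ℂ ≃ₐ[K] ℂ) : Prop :=
  ∀ h, (r l.1 σ : Matrix ν ν ℤ_[l.1]) = (F l).T h →
    wd w ((h q.1 q.2).map PadicInt.toZMod *ᵥ w) = 0

/-- A regular Frobenius with polynomial `P` and discriminant `Δ`. -/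
structure Reg (D : PD e a b m n) (F : Frs e a b L l₁) (r : Rep K) (p : ℕ) (σ : ℂ ≃ₐ[K] ℂ)
    (P : D.E[X]) (Δ : ℤ) : Prop where
  weil : Weil D r p σ P
  deg : P.natDegree = 8
  real : P.map (D.bar : D.E →+* D.E) = P
  sp2 : ∀ j : D.E →+* ℂ, CM.Sp2 (P.map j)
  char : ∀ l : GP L l₁, l.1 ≠ p → ∀ (j : D.E →+* ℚ_[l.1]) (s : Fin e) (c : Fin 2),
    j D.z = (F.q l).z.ζ s c → ((F.q l).z.pr (rq r l.1 σ) s).charpoly = P.map j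
  disc : ∀ l : GP L l₁, l.1 ≠ p → ∀ h, (r l.1 σ : Matrix ν ν ℤ_[l.1]) = (F l).T h →
    (Δ : ℤ_[l.1]) * ∏ s, ∏ i, (h s i).det ^ 2 =
      ∏ s, ∏ i, (p : ℤ_[l.1]) ^ 2 * (h s i).trace ^ 2 * ((h s i).trace ^ 2 - 4 * (h s i).det)
  ne : Δ ≠ 0
  bd : Δ.natAbs ≤ p ^ (12 * e)

/-- `p` lies under a place of degree one with a regular Frobenius, and some slot splits at the
primes `l` where the symbol of `Δ` is `ε`. -/
def Ty (τ : Mat) (D : PD e a b m n) (F : Frs e a b L l₁) (r : Rep K) (N₀ : ℕ) (ε : ℤ) (p : ℕ)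
    (Δ : ℤ) : Prop :=
  ∃ (_ : Fact p.Prime) (v : ℂ ≃+* PadicAlgCl p) (σ : ℂ ≃ₐ[K] ℂ) (P : D.E[X]) (Δ₀ : ℤ),
    IsPlace K v ∧ Frob τ D r N₀ v σ ∧ Reg D F r p σ P Δ₀ ∧ Δ < 0 ∧ Δ.natAbs ≤ p ^ (12 * e) ∧
    ∀ l : GP L l₁, l.1 ≠ p → jacobiSym Δ l.1 = ε →
      ∀ h, (r l.1 σ : Matrix ν ν ℤ_[l.1]) = (F l).T h → ∃ s i, IsSquare
        (((h s i).map PadicInt.toZMod).trace ^ 2 - 4 * ((h s i).map PadicInt.toZMod).det)

/-- A similitude whose kernel comes from stable lines in the slots `sl` at primes of `LL`. -/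
structure Good (F : Frs e a b L l₁) (r : Rep K) (σ : ℂ ≃ₐ[K] ℂ) (sl : GP L l₁ → Fin e × Fin 3)
    (LL : Set (GP L l₁)) (g : MZ) (M : ℕ) : Prop where
  iso : Iso g M
  sup : ∀ l : ℕ, l.Prime → l ∣ M → ∃ l' ∈ LL, l'.1 = l
  ker : ∀ l ∈ LL, l.1 ∣ M → ∃ w, w ≠ 0 ∧ Ker g l.1 = slot (F.red l) (sl l) w ∧ Stb F r l (sl l) w σ

/-- The class bound. -/
def CBst (τ : Mat) (D : PD e a b m n) (F : Frs e a b L l₁) (r : Rep K) (N₀ : ℕ) : Prop :=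
  ∃ C₁ : ℕ, ∀ (p : ℕ) [Fact p.Prime] (v : ℂ ≃+* PadicAlgCl p) (σ : ℂ ≃ₐ[K] ℂ) (P : D.E[X])
    (Δ : ℤ), Frob τ D r N₀ v σ → Reg D F r p σ P Δ → ∀ sl : GP L l₁ → Fin e × Fin 3,
    ∃ (bad : ℕ) (idx : GP L l₁ → Fin 3), bad ≠ 0 ∧ bad ≤ p ^ C₁ ∧ ∀ i : Fin 3,
      ∃ (h : ℕ) (cl : MZ → ℕ → Fin h)
        (Γ : MZ → ℕ → ∀ (l : ℕ) [Fact l.Prime], Matrix ν ν ℚ_[l]), h ≤ p ^ C₁ ∧
        ∀ g M g' M', Good F r σ sl {l | idx l = i ∧ ¬ l.1 ∣ bad ∧ l.1 ≠ p} g M →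
          Good F r σ sl {l | idx l = i ∧ ¬ l.1 ∣ bad ∧ l.1 ≠ p} g' M' → cl g M = cl g' M' →
          M ≡ M' [MOD p ^ N₀] ∧ ∃ (δ : D.E[X]) (c : ℕ)
            (W : ∀ (l : ℕ) [Fact l.Prime], Matrix ν ν ℤ_[l]), (∀ k, δ.coeff k ∈ D.A) ∧ ¬ p ∣ c ∧
            (∀ (l : ℕ) [Fact l.Prime], l ≠ p → IsUnit (Γ g' M' l) ∧
              Γ g' M' l * D.ev r l σ (1 + C ((p : D.E) ^ N₀ / c) * δ) = Γ g M l ∧
              zM ℚ_[l] g' * D.ev r l σ (1 + C ((p : D.E) ^ N₀ / c) * δ) =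
                (W l).map ((↑) : ℤ_[l] → ℚ_[l]) * zM ℚ_[l] g ∧
              (W l)ᵀ * Matrix.J ι ℤ_[l] * W l = Matrix.J ι ℤ_[l] ∧
              ∀ i j, (32 : ℤ_[l]) ∣ (W l - 1) i j) ∧
            ∀ l : GP L l₁, l.1 ≠ p →
              ∃ k, D.ev r l.1 σ (1 + C ((p : D.E) ^ N₀ / c) * δ) = (F.q l).T2 k

/-- A small similitude that is a pure tensor modulo almost all primes of `LY`. -/
structure DD (F : Frs e a b L l₁) (LY : Finset (GP L l₁)) (Y x : ℕ) (d : MZ) : Prop where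
  bd : ∀ i j, (d i j).natAbs ≤ Y ^ x
  ex : ∃ (μ : ℕ) (Ex : Finset (GP L l₁)), 0 < μ ∧ Sim (zr d) μ ∧ Ex.card ≤ x ∧
    ∀ l ∈ LY, l ∉ Ex → ¬ l.1 ∣ μ ∧ ∃ h, zM (ZMod l.1) d = (F.red l).T2 h

/-- In the slot `q` at the prime `l` the matrix `d` has rank one and kills the line of `w`. -/
def Spec (F : Frs e a b L l₁) (l : GP L l₁) (q : Fin e × Fin 3) (d : MZ)
    (w : Fin 2 → ZMod l.1) : Prop :=
  w ≠ 0 ∧ ∃ h : Fin 3 → M2 ℤ_[l.1],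
    (∀ i j, (l.1 : ℤ_[l.1]) ^ 3 ∣ ((F l).z.pr2 (zM ℤ_[l.1] d) q.1 0 - ((F l).f q.1).T h) i j) ∧
    (∀ t, t ≠ q.2 → IsUnit (h t).det) ∧ (h q.2).det ∣ (l.1 : ℤ_[l.1]) ^ 2 ∧
    (h q.2).map PadicInt.toZMod ≠ 0 ∧ (h q.2).map PadicInt.toZMod *ᵥ w = 0

/-- There are no three special lines. -/
def NOSPst (F : Frs e a b L l₁) : Prop :=
  ∀ θ : ℝ, 0 < θ → ∃ Y₀ : ℕ, ∀ (Y x : ℕ) (LY : Finset (GP L l₁)), Y₀ ≤ Y →
    (∀ l ∈ LY, Y < l.1 ∧ l.1 ≤ 2 * Y) → (Y : ℝ) ≤ LY.card * Real.log Y ^ 2 →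
    (x : ℝ) ≤ (Y : ℝ) ^ (1 - θ) → ∀ l ∈ LY, ∀ (q : Fin e × Fin 3) (d : Fin 3 → MZ)
      (w : Fin 3 → Fin 2 → ZMod l.1), (∀ i, DD F LY Y x (d i)) → (∀ i, Spec F l q (d i) (w i)) →
      ∃ i j, i ≠ j ∧ wd (w i) (w j) = 0

end MG
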