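import Pool.Agent.Lib.MP_33b3f9_ag.Stmt

open Matrix MvPolynomial Pool.Agent.Lib.MP_33b3f9_ag

namespace Pool.Agent.MG

noncomputable section

/-- Index set of the lattice basis of a complex torus of dimension `g`. -/
abbrev ν (g : ℕ) : Type := Fin g ⊕ Fin g

variable {g : ℕ} {K : IntermediateField ℚ ℂ} {ι : Type}

/-- Integral matrices as `ℓ`-adic matrices. -/
def toQ {ℓ : ℕ} [Fact ℓ.Prime] (x : GL (ν g) ℤ_[ℓ]) : GL (ν g) ℚ_[ℓ] :=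
  Matrix.GeneralLinearGroup.map PadicInt.Coe.ringHom x

/-- The projective variety `A` with equations `J` over `K` has dimension `g` and a group law over
`K`, and `u` is a complex uniformisation `ℂ^g / p(ℤ^(2g)) → A(ℂ)` in homogeneous coordinates. -/
structure Unif [Fintype ι] (J : Set (MvPolynomial ι K)) (p : (ν g → ℝ) ≃ₗ[ℝ] (Fin g → ℂ))
    (u : (Fin g → ℂ) → ι → ℂ) : Prop where
  hol : Differentiable ℂ u
  img : ∀ v : ι → ℂ, (v ≠ 0 ∧ ∀ P ∈ J, aeval v P = 0) ↔ ∃ z, ∃ c : ℂ, c ≠ 0 ∧ v = c • u z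
  inj : ∀ z w, (∃ c : ℂ, u z = c • u w) ↔ ∃ n : ν g → ℤ, z - w = p fun i => (n i : ℝ)
  sub : ∀ z₀ w₀, ∃ Ψ : ι → MvPolynomial (ι ⊕ ι) K,
    (∃ a, aeval (Sum.elim (u z₀) (u w₀)) (Ψ a) ≠ 0) ∧ ∀ z w, ∀ s t : ℂ, ∃ c : ℂ, ∀ a,
      aeval (Sum.elim (s • u z) (t • u w)) (Ψ a) = c * u (z - w) a

/-- `x` is the matrix of `σ` on the `ℓ`-adic Tate module in the lattice basis: `σ` maps the torsion
point `v / ℓ ^ n` to the torsion point `w / ℓ ^ n` when `w = x v` modulo `ℓ ^ n`. -/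
def ActsU (p : (ν g → ℝ) ≃ₗ[ℝ] (Fin g → ℂ)) (u : (Fin g → ℂ) → ι → ℂ) (σ : ℂ → ℂ) {ℓ : ℕ}
    [Fact ℓ.Prime] (x : GL (ν g) ℤ_[ℓ]) : Prop :=
  ∀ (n : ℕ) (v w : ν g → ℤ), (∀ i, (ℓ : ℤ_[ℓ]) ^ n ∣
      ((x : Matrix (ν g) (ν g) ℤ_[ℓ]) *ᵥ fun j => (v j : ℤ_[ℓ])) i - (w i : ℤ_[ℓ])) →
    ∃ c : ℂ, ∀ a, σ (u (p fun i => (v i : ℝ) / (ℓ : ℝ) ^ n) a) =
      c * u (p fun i => (w i : ℝ) / (ℓ : ℝ) ^ n) a

/-- The image of the group `U` of automorphisms of `ℂ` in `GL_(2g)(ℚ_ℓ)`. -/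
def galU (p : (ν g → ℝ) ≃ₗ[ℝ] (Fin g → ℂ)) (u : (Fin g → ℂ) → ι → ℂ) (ℓ : ℕ) [Fact ℓ.Prime]
    (U : Subgroup (ℂ ≃ₐ[K] ℂ)) : Set (GL (ν g) ℚ_[ℓ]) :=
  toQ '' {x : GL (ν g) ℤ_[ℓ] | ∃ σ ∈ U, ActsU p u σ x}

/-- The endomorphism algebra: the rational matrices that commute with the complex structure `I`. -/
def End0 (I : Matrix (ν g) (ν g) ℝ) : Set (Matrix (ν g) (ν g) ℚ) :=
  {d | d.map (Rat.cast : ℚ → ℝ) * I = I * d.map (Rat.cast : ℚ → ℝ)}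

/-- The rational divisor classes: the rational alternating forms that are invariant under `I`. -/
def NS0 (I : Matrix (ν g) (ν g) ℝ) : Set (Matrix (ν g) (ν g) ℚ) :=
  {ψ | ψᵀ = -ψ ∧ Iᵀ * ψ.map (Rat.cast : ℚ → ℝ) * I = ψ.map (Rat.cast : ℚ → ℝ)}

/-- The complex points of the Lefschetz group: the matrices that commute with all endomorphisms and
fix all divisor classes. -/
def lef (I : Matrix (ν g) (ν g) ℝ) : Set (GL (ν g) ℂ) :=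
  {x | (∀ d ∈ End0 I, (x : Matrix (ν g) (ν g) ℂ) * d.map (Rat.cast : ℚ → ℂ) =
      d.map (Rat.cast : ℚ → ℂ) * x) ∧
    ∀ ψ ∈ NS0 I, (x : Matrix (ν g) (ν g) ℂ)ᵀ * ψ.map (Rat.cast : ℚ → ℂ) * x =
      ψ.map (Rat.cast : ℚ → ℂ)}

end

end Pool.Agent.MG
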