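import Pool.Agent.Lib.MP_33b3f9_ag.MG.Mor

/-!
Integral matrices over other rings, and the relations of the normal form.
-/

set_option autoImplicit false

noncomputable section

namespace MG

open Matrix

variable [Dim] {e : ℕ} {a b : MZ} {m n : ℕ}

theorem zM_mul (R : Type) [CommRing R] (g h : MZ) : zM R (g * h) = zM R g * zM R h :=
  Matrix.map_mul (f := Int.castRingHom R)

theorem zM_J (R : Type) [CommRing R] : zM R (J ι ℤ) = J ι R :=
  map_J ι (Int.castRingHom R)

theorem zM_one (R : Type) [CommRing R] : zM R 1 = 1 :=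
  Matrix.map_one _ Int.cast_zero Int.cast_one

theorem zM_neg (R : Type) [CommRing R] (g : MZ) : zM R (-g) = -zM R g := by
  ext i j
  simp

theorem zM_add (R : Type) [CommRing R] (g h : MZ) : zM R (g + h) = zM R g + zM R h := by
  ext i j
  simp

theorem zM_smul (R : Type) [CommRing R] (c : ℤ) (g : MZ) : zM R (c • g) = (c : R) • zM R g := by
  ext i j
  simp only [map_apply, Matrix.smul_apply, smul_eq_mul, Int.cast_mul]

theorem zM_pow (R : Type) [CommRing R] (g : MZ) (k : ℕ) : zM R (g ^ k) = zM R g ^ k :=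
  map_pow (Int.castRingHom R).mapMatrix g k

theorem zM_tr (R : Type) [CommRing R] (g : MZ) : zM R gᵀ = (zM R g)ᵀ := rfl

theorem zM_injective (R : Type) [CommRing R] [CharZero R] : Function.Injective (zM R) :=
  Matrix.map_injective Int.cast_injective

theorem zM_adj (R : Type) [CommRing R] (g : MZ) :
    zM R (adj g) = -(J ι R * (zM R g)ᵀ * J ι R) := by
  rw [adj, zM_neg, zM_mul, zM_mul, zM_J, zM_tr]

theorem PEL.adj_mul (h : PEL e a b m n) : adj a * a = (m : ℤ) • (1 : MZ) := by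
  rw [adj, neg_mul, mul_assoc (J _ _), mul_assoc (J _ _), h.aJ, Matrix.mul_smul, J_squared]
  simp

theorem zM_aeval (R : Type) [CommRing R] (g : MZ) (c : Polynomial ℤ) :
    zM R (Polynomial.aeval g c) = Polynomial.aeval (zM R g) c :=
  (Polynomial.aeval_algHom_apply
    ((Int.castRingHom R).mapMatrix : MZ →+* Matrix ν ν R).toIntAlgHom g c).symm

/-- The square of `b` as a polynomial in the trace of `a`. -/
def PEL.β (h : PEL e a b m n) : Polynomial ℤ := h.bb.choose

theorem PEL.bsq (h : PEL e a b m n) : b * b = Polynomial.aeval (a + adj a) h.β :=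
  h.bb.choose_spec.1

theorem PEL.bpos (h : PEL e a b m n) {z : ℂ}
    (hz : Polynomial.aeval z (minpoly ℚ (zM ℚ a)) = 0) : 0 < Polynomial.aeval (2 * z.re) h.β :=
  h.bb.choose_spec.2 z hz

/-- The relations over any ring, with `zM R (adj a)` for the adjoint of `a`. -/
theorem PEL.rel (h : PEL e a b m n) (R : Type) [CommRing R] :
    (zM R a)ᵀ * J ι R * zM R a = (m : R) • J ι R ∧
      zM R b * zM R b = Polynomial.aeval (zM R a + zM R (adj a)) h.β ∧
      (zM R b)ᵀ * J ι R = J ι R * zM R b ∧ zM R b * zM R a = zM R (adj a) * zM R b ∧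
      zM R (adj a) * zM R a = (m : R) • 1 := by
  refine ⟨?_, ?_, ?_, ?_, ?_⟩
  · rw [← zM_tr, ← zM_J, ← zM_mul, ← zM_mul, h.aJ, zM_smul, Int.cast_natCast]
  · rw [← zM_mul, h.bsq, zM_aeval, zM_add]
  · rw [← zM_tr, ← zM_J, ← zM_mul, h.bJ, zM_mul]
  · rw [← zM_mul, h.ba, zM_mul]
  · rw [← zM_mul, h.adj_mul, zM_smul, zM_one, Int.cast_natCast]

open Polynomial in
/-- The adjoint of `a` is a polynomial in `a`. -/
theorem PEL.adj_poly (h : PEL e a b m n) : ∃ q : ℚ[X], zM ℚ (adj a) = aeval (zM ℚ a) q ∧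
    ∀ z : ℂ, aeval z (minpoly ℚ (zM ℚ a)) = 0 → aeval z q = starRingEnd ℂ z := by
  have m0 : (m : ℚ) ≠ 0 := Nat.cast_ne_zero.2 h.m0.ne'
  have hr := h.root
  have ha := minpoly.aeval ℚ (zM ℚ a)
  generalize minpoly ℚ (zM ℚ a) = f at hr ha
  have f0 : f.coeff 0 ≠ 0 := fun h0 => (hr 0 (by simp [aeval_def, eval₂_at_zero, h0])).2 rfl
  have e1 : X * (-C (m / f.coeff 0) * f.divX) = C (m : ℚ) - C (m / f.coeff 0) * f := by
    conv_rhs => rw [← X_mul_divX_add f, mul_add, ← C_mul, coeff_add, coeff_C_zero,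
      mul_coeff_zero, coeff_X_zero, zero_mul, zero_add, div_mul_cancel₀ _ f0]
    ring
  refine ⟨-C (m / f.coeff 0) * f.divX, ?_, fun z hz => ?_⟩
  · have e2 := congrArg (fun c => zM ℚ (adj a) * aeval (zM ℚ a) c) e1
    simp only [map_sub, map_mul (aeval (zM ℚ a)) X, map_mul (aeval (zM ℚ a)) (C _) f, ha, aeval_X,
      mul_zero, sub_zero, aeval_C, Algebra.algebraMap_eq_smul_one, ← Matrix.mul_assoc,
      (h.rel ℚ).2.2.2.2, Matrix.smul_mul, Matrix.mul_smul, Matrix.one_mul, Matrix.mul_one] at e2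
    exact (smul_right_injective _ m0 e2).symm
  · have e2 := congrArg (aeval z) e1
    rw [map_mul, map_sub, map_mul _ (C _) f, hz, mul_zero, sub_zero, aeval_X, aeval_C] at e2
    have z0 : z ≠ 0 := fun h0 => (hr z hz).2 (by rw [h0, Complex.zero_im])
    refine mul_left_cancel₀ z0 (e2.trans ?_)
    rw [Complex.mul_conj, Complex.normSq_eq_norm_sq, (hr z hz).1]
    simp

open Polynomial in
theorem PEL.det_b (h : PEL e a b m n) : b.det ≠ 0 := by
  obtain ⟨q, h1, h2⟩ := h.adj_poly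
  have e1 : zM ℚ b * zM ℚ b = aeval (zM ℚ a) (aeval (X + q) h.β) := by
    rw [(h.rel ℚ).2.1, h1]
    exact ((aeval_algHom_apply ((aeval (zM ℚ a)).restrictScalars ℤ) (X + q) h.β).symm.trans
      (by simp)).symm
  obtain ⟨u, v, e2⟩ : IsCoprime (minpoly ℚ (zM ℚ a)) (aeval (X + q) h.β) :=
    h.irr.coprime_iff_not_dvd.2 fun hd => by
      obtain ⟨z, hz⟩ := IsAlgClosed.exists_aeval_eq_zero ℂ _ h.irr.degree_pos.ne'
      have e3 := aeval_eq_zero_of_dvd_aeval_eq_zero hd hz
      have e4 := aeval_algHom_apply ((aeval z : ℚ[X] →ₐ[ℚ] ℂ).restrictScalars ℤ) (X + q) h.β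
      have e5 := aeval_algHom_apply Complex.ofRealHom.toIntAlgHom (2 * z.re) h.β
      simp only [AlgHom.coe_restrictScalars', map_add, aeval_X, h2 z hz, e3, Complex.add_conj,
        RingHom.toIntAlgHom_coe, Complex.ofRealHom_eq_coe] at e4 e5
      exact (h.bpos hz).ne' (Complex.ofReal_eq_zero.1 (e5.symm.trans e4))
  have e3 := congrArg (fun c => (aeval (zM ℚ a) c).det) e2
  simp only [map_add, map_mul, minpoly.aeval, mul_zero, zero_add, ← e1, map_one, det_one,
    det_mul] at e3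
  intro h0
  rw [show (zM ℚ b).det = (b.det : ℚ) from ((Int.castRingHom ℚ).map_det b).symm, h0] at e3
  simp at e3

theorem PEL.unit_b (h : PEL e a b m n) (k : Type) [Field k] [CharZero k] : IsUnit (zM k b) :=
  (isUnit_iff_isUnit_det _).2 (Ne.isUnit
    (((Int.castRingHom k).map_det b).symm.trans_ne (Int.cast_ne_zero.2 h.det_b)))

end MG
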