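import Pool.Agent.Lib.MP_33b3f9_ag.MG.IDefs
import Pool.Agent.Lib.MP_33b3f9_ag.MG.MorA
import Pool.Agent.Lib.MP_33b3f9_ag.M4.FP.Sg

/-!
Transport of the quaternion structure along integral similitudes.
-/

set_option autoImplicit false

noncomputable section

namespace MG

open M4 Matrix

variable [Dim] {τ : Mat} {a b a' b' g : MZ} {e m n M : ℕ}

theorem zr_mul (g h : MZ) : zr (g * h) = zr g * zr h := zM_mul ℝ g h

theorem zr_smul (c : ℤ) (g : MZ) : zr (c • g) = (c : ℝ) • zr g := zM_smul ℝ c g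

theorem zr_one : zr 1 = 1 := zM_one ℝ

theorem zr_inj : Function.Injective zr := zM_injective ℝ

theorem zr_tr (g : MZ) : zr gᵀ = (zr g)ᵀ := rfl

theorem zr_J : zr (J ι ℤ) = J ι ℝ := zM_J ℝ

theorem sim_int {M : ℤ} : Sim (zr g) M ↔ gᵀ * J ι ℤ * g = M • J ι ℤ := by
  rw [M4.sim_iff, ← zr_J, ← zr_tr, ← zr_mul, ← zr_mul, ← zr_smul, zr_inj.eq_iff]

theorem sim_nat : Sim (zr g) M ↔ gᵀ * J ι ℤ * g = (M : ℤ) • J ι ℤ := by
  rw [← sim_int, Int.cast_natCast]

theorem act_mul' {g h : Matrix ν ν ℝ} {m n : ℝ} (hg : Sim g m) (hm : 0 < m) (hh : Sim h n)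
    (hn : 0 < n) (hτ : InH τ) : act (g * h) τ = act g (act h τ) :=
  M4.act_mul (den_det_ne_zero hh hn hτ) (den_det_ne_zero hg hm (M4.inH_act hh hn hτ))

theorem fix_iff {g : Matrix ν ν ℝ} {m : ℝ} (hg : Sim g m) (hm : 0 < m) (hτ : InH τ) :
    act g τ = τ ↔ g * cst τ = cst τ * g := by
  have h1 := M4.cst_act hg hm hτ
  refine ⟨fun h => by rw [← h1, h], fun h => FP.cst_inj (M4.inH_act hg hm hτ) hτ ?_⟩
  exact (isUnit_iff_isUnit_det _ |>.2 (hg.det_ne_zero hm.ne').isUnit).mul_right_cancel (h1.trans h)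

theorem adj_mul (hg : Sim (zr g) M) : adj g * g = (M : ℤ) • (1 : MZ) := by
  rw [adj, neg_mul, mul_assoc (J _ _), mul_assoc (J _ _), sim_nat.1 hg, Matrix.mul_smul, J_squared]
  simp

theorem det_ne (hM : 0 < M) (hg : Sim (zr g) M) : g.det ≠ 0 := fun h => by
  have h1 := congrArg det (adj_mul hg)
  rw [det_mul, h, mul_zero, det_smul, det_one, mul_one] at h1
  exact pow_ne_zero _ (Int.natCast_ne_zero.2 hM.ne') h1.symm

theorem cancel_right (hg : g.det ≠ 0) {x y : MZ} (h : x * g = y * g) : x = y := by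
  have h1 := congrArg (· * g.adjugate) h
  simp only [mul_assoc, mul_adjugate, Matrix.mul_smul, mul_one] at h1
  exact smul_right_injective _ hg h1

theorem cancel_left (hg : g.det ≠ 0) {x y : MZ} (h : g * x = g * y) : x = y := by
  have h1 := congrArg (g.adjugate * ·) h
  simp only [← mul_assoc, adjugate_mul, Matrix.smul_mul, one_mul] at h1
  exact smul_right_injective _ hg h1

theorem mul_adj (hM : 0 < M) (hg : Sim (zr g) M) : g * adj g = (M : ℤ) • (1 : MZ) :=
  cancel_right (det_ne hM hg) (by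
    rw [mul_assoc, adj_mul hg, mul_smul_comm, smul_mul_assoc, mul_one, one_mul])

theorem sim_adj (hM : 0 < M) (hg : Sim (zr g) M) : Sim (zr (adj g)) M := by
  have hd := det_ne hM hg
  rw [sim_nat]
  refine cancel_right hd (cancel_left (g := gᵀ) (by rwa [det_transpose]) ?_)
  rw [mul_assoc, adj_mul hg, ← mul_assoc, ← mul_assoc, ← transpose_mul, adj_mul hg,
    smul_mul_assoc _ _ g, mul_smul_comm _ gᵀ, ← mul_assoc, sim_nat.1 hg, transpose_smul,
    transpose_one, mul_smul_comm, smul_mul_assoc, mul_one, one_mul]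

/-- An intertwining relation is inverted by the adjoint. -/
theorem adj_tw (hM : 0 < M) (hg : Sim (zr g) M) (ha : g * a = a' * g) :
    adj g * a' = a * adj g :=
  cancel_right (det_ne hM hg) (by
    rw [mul_assoc, ← ha, ← mul_assoc, adj_mul hg, mul_assoc, adj_mul hg,
      mul_smul_comm, smul_mul_assoc, mul_one, one_mul])

theorem PEL.sim_a (h : PEL e a b m n) : Sim (zr a) m := sim_nat.2 h.aJ

theorem PEL.fx_iff (h : PEL e a b m n) (hτ : InH τ) :
    τ ∈ FX a b ↔ zr a * cst τ = cst τ * zr a ∧ zr b * cst τ = cst τ * zr b := by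
  rw [← fix_iff h.sim_a (Nat.cast_pos.2 h.m0) hτ]
  exact ⟨fun h => h.2, fun h => ⟨hτ, h⟩⟩

theorem tw_J (hM : 0 < M) (hg : Sim (zr g) M) (ha : g * a = a' * g) {e : ℤ}
    (h : aᵀ * J ι ℤ = e • (J ι ℤ * a)) : a'ᵀ * J ι ℤ = e • (J ι ℤ * a') := by
  have hd := det_ne hM hg
  refine cancel_right hd (cancel_left (g := gᵀ) (by rwa [det_transpose]) ?_)
  calc gᵀ * (a'ᵀ * J ι ℤ * g) = aᵀ * (gᵀ * J ι ℤ * g) := by
        rw [← mul_assoc, ← mul_assoc, ← transpose_mul, ← ha, transpose_mul]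
        simp only [mul_assoc]
    _ = e • (gᵀ * J ι ℤ * g * a) := by
        rw [sim_nat.1 hg, Matrix.mul_smul, h, Matrix.smul_mul, smul_comm]
    _ = _ := by
        rw [Matrix.smul_mul, Matrix.mul_smul, mul_assoc _ g, ha]
        simp only [mul_assoc]

theorem sim_tw (hM : 0 < M) (hg : Sim (zr g) M) (ha : g * a = a' * g) (h : Sim (zr a) m) :
    Sim (zr a') m := by
  have hd := det_ne hM hg
  rw [sim_nat] at h ⊢
  refine cancel_right hd (cancel_left (g := gᵀ) (by rwa [det_transpose]) ?_)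
  calc gᵀ * (a'ᵀ * J ι ℤ * a' * g) = aᵀ * (gᵀ * J ι ℤ * g) * a := by
        rw [mul_assoc _ a', ← ha, ← mul_assoc, ← mul_assoc, ← mul_assoc, ← transpose_mul, ← ha,
          transpose_mul]
        simp only [mul_assoc]
    _ = _ := by
        rw [smul_mul_assoc, mul_smul_comm, ← mul_assoc gᵀ, sim_nat.1 hg, mul_smul_comm,
          smul_mul_assoc, h, smul_comm]

theorem tw_adj (hM : 0 < M) (hg : Sim (zr g) M) (ha : g * a = a' * g) (hm : 0 < m)
    (h : Sim (zr a) m) : g * adj a = adj a' * g :=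
  cancel_right (det_ne hm h) (by
    rw [mul_assoc, adj_mul h, mul_assoc, ha, ← mul_assoc, adj_mul (sim_tw hM hg ha h),
      mul_smul_comm, smul_mul_assoc, mul_one, one_mul])

theorem minpoly_tw (hd : g.det ≠ 0) (ha : g * a = a' * g) :
    minpoly ℚ (zM ℚ a') = minpoly ℚ (zM ℚ a) := by
  have hu : IsUnit (zM ℚ g) := (isUnit_iff_isUnit_det _).2 (by
    rw [show zM ℚ g = (Int.castRingHom ℚ).mapMatrix g from rfl, ← RingHom.map_det]
    exact (Int.cast_ne_zero.2 hd).isUnit)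
  obtain ⟨u, hu⟩ := hu
  have e : zM ℚ a' = MulSemiringAction.toAlgEquiv ℚ _ (ConjAct.toConjAct u) (zM ℚ a) := by
    change _ = (u : Matrix ν ν ℚ) * zM ℚ a * (u⁻¹ : (Matrix ν ν ℚ)ˣ)
    rw [hu, ← zM_mul, ha, zM_mul, ← hu, Units.mul_inv_cancel_right]
  rw [e, minpoly.algEquiv_eq]

theorem aeval_tw (ha : g * a = a' * g) (c : Polynomial ℤ) :
    g * Polynomial.aeval a c = Polynomial.aeval a' c * g := by
  induction c using Polynomial.induction_on' with
  | add p q hp hq => rw [map_add, map_add, mul_add, add_mul, hp, hq]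
  | monomial k c =>
    rw [Polynomial.aeval_monomial, Polynomial.aeval_monomial, ← mul_assoc, ← Algebra.commutes,
      mul_assoc, mul_assoc, (SemiconjBy.pow_right ha k).eq]

theorem PEL.conj (h : PEL e a b m n) (hM : 0 < M) (hg : Sim (zr g) M) (ha : g * a = a' * g)
    (hb : g * b = b' * g) : PEL e a' b' m n := by
  have hd := det_ne hM hg
  have hp := minpoly_tw hd ha
  have h1 : g * (b * b) = b' * b' * g := by rw [← mul_assoc, hb, mul_assoc, hb, mul_assoc]
  refine ⟨h.pos, h.card, h.m0, ?_, sim_nat.1 (sim_tw hM hg ha h.sim_a),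
    ⟨h.β, cancel_right hd ?_, hp ▸ fun _ => h.bpos⟩, ?_,
    cancel_right hd ?_, hp ▸ h.irr, hp ▸ h.deg, hp ▸ h.root⟩
  · have h2 := congrArg (fun x => (x * adj g).trace) h1
    simp only [mul_assoc _ g, mul_adj hM hg] at h2
    rw [trace_mul_cycle, MG.adj_mul hg, smul_mul_assoc, mul_smul_comm, one_mul, mul_one, trace_smul,
      trace_smul, h.tr] at h2
    exact (smul_right_injective ℤ (Nat.cast_ne_zero.2 hM.ne') h2).symm
  · rw [← h1, h.bsq]
    exact aeval_tw (a' := a' + adj a') (by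
      rw [mul_add, add_mul, ha, tw_adj hM hg ha h.m0 h.sim_a]) _
  · simpa using tw_J hM hg hb (e := 1) (by simpa using h.bJ)
  · rw [mul_assoc, ← ha, ← mul_assoc, ← hb, mul_assoc, h.ba, mul_assoc, ← hb, ← mul_assoc,
      tw_adj hM hg ha h.m0 h.sim_a, mul_assoc]

theorem fix_tw (hM : 0 < M) (hg : Sim (zr g) M) (hτ : InH τ) (ha : g * a = a' * g) :
    zr a * cst τ = cst τ * zr a ↔
      zr a' * cst (act (zr g) τ) = cst (act (zr g) τ) * zr a' := by
  have hM' : (0 : ℝ) < M := Nat.cast_pos.2 hM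
  have hu : IsUnit (zr g) := (isUnit_iff_isUnit_det _).2 (hg.det_ne_zero hM'.ne').isUnit
  have h1 := M4.cst_act hg hM' hτ
  have h2 : zr g * zr a = zr a' * zr g := by rw [← zr_mul, ha, zr_mul]
  rw [← hu.mul_left_inj (b := zr a' * _), ← hu.mul_right_inj, mul_assoc (zr a'), h1,
    ← mul_assoc (zr a'), ← h2, mul_assoc _ (zr a'), ← h2, ← mul_assoc _ (zr g), h1]
  simp only [mul_assoc]

theorem PEL.fx_act (h : PEL e a b m n) (hM : 0 < M) (hg : Sim (zr g) M) (ha : g * a = a' * g)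
    (hb : g * b = b' * g) (hτ : τ ∈ FX a b) : act (zr g) τ ∈ FX a' b' := by
  rw [(h.conj hM hg ha hb).fx_iff (M4.inH_act hg (Nat.cast_pos.2 hM) hτ.1),
    ← fix_tw hM hg hτ.1 ha, ← fix_tw hM hg hτ.1 hb, ← h.fx_iff hτ.1]
  exact hτ

end MG
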