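import Pool.Agent.Lib.MP_33b3f9_ag.MG.IDefA
import Pool.Agent.Lib.MP_33b3f9_ag.MG.MorA

/-!
The blocks of a splitting are labelled by the embeddings of the field.
-/

set_option autoImplicit false

noncomputable section

namespace MG

open Matrix Pool.Agent.M4.Mx

variable [Dim] {e : ℕ} {a b : MZ} {m n : ℕ}

/-- Scalars in each block. -/
def Mor.sc {R : Type} [CommRing R] (z : Mor e a b R) : (Fin e × Fin 2 → R) →ₐ[R] Matrix ν ν R :=
  z.em2.comp (AlgHom.pi fun s => AlgHom.pi fun c =>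
    (Algebra.ofId R (M8 R)).comp (Pi.evalAlgHom R (fun _ => R) (s, c)))

theorem Mor.sc_apply {R : Type} [CommRing R] (z : Mor e a b R) (d : Fin e × Fin 2 → R) :
    z.sc d = z.em2 fun s c => d (s, c) • (1 : M8 R) :=
  congrArg z.em2 (funext fun s => funext fun c =>
    Algebra.algebraMap_eq_smul_one (A := M8 R) (d (s, c)))

theorem Mor.sc_inj {R : Type} [CommRing R] (z : Mor e a b R) : Function.Injective z.sc :=
  fun x y h => funext fun ⟨s, c⟩ => by
    rw [z.sc_apply, z.sc_apply] at h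
    simpa using congrFun (congrFun (congrFun (congrFun (z.em2_inj h) s) c) (Sum.inl 0)) (Sum.inl 0)

theorem MorD.rev_mul {R : Type} [CommRing R] (z : MorD e a b R) (h : PEL e a b m n) (s : Fin e)
    (c : Fin 2) : z.ζ s c.rev * z.ζ s c = m := by
  have h1 := (h.rel R).1
  have h2 : (m : R) • J ι R = J ι R * z.em2 ((m : R) • 1) := by
    rw [map_smul, map_one, Matrix.mul_smul, Matrix.mul_one]
  rw [z.a_eq2, h2, z.form_iff2] at h1
  simpa [J, mul_comm] using congrFun (congrFun (h1 s c) (Sum.inr 0)) (Sum.inl 0)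

theorem PD.hom_ext (D : PD e a b m n) {R : Type} [Field R] [CharZero R] {f g : D.E →+* R}
    (h : f D.z = g D.z) : f = g :=
  (RingHom.equivRatAlgHom D.E R).injective
    (AlgHom.ext_of_adjoin_eq_top D.gen fun _ hx => hx ▸ h)

/-- The blocks are labelled by the embeddings of the field. -/
theorem PD.emb (D : PD e a b m n) {R : Type} [Field R] [CharZero R] (z : MorD e a b R) :
    ∃ j : Fin e × Fin 2 ≃ (D.E →+* R), (∀ s c, j (s, c) D.z = z.ζ s c) ∧
      (∀ s c x, j (s, c.rev) x = j (s, c) (D.bar x)) ∧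
      ∀ x, (D.φ x).map (Rat.castHom R) = z.em2 fun s c => j (s, c) x • (1 : M8 R) := by
  obtain ⟨ψ, hψ⟩ : ∃ ψ : D.E →+* Matrix ν ν R, ∀ x, ψ x = (D.φ x).map (Rat.castHom R) :=
    ⟨(Rat.castHom R).mapMatrix.comp D.φ, fun _ => rfl⟩
  have hz : ψ D.z = z.sc fun x => z.ζ x.1 x.2 := by
    rw [hψ, D.φz, zM_map, z.a_eq2, z.sc_apply]
  have h1 : ∀ x, ∃ d, z.sc d = ψ x := fun x => by
    have hx : x ∈ Algebra.adjoin ℚ {D.z} := D.gen ▸ Algebra.mem_top
    induction hx using Algebra.adjoin_induction with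
    | mem x hx => exact ⟨_, hx ▸ hz.symm⟩
    | algebraMap q =>
      exact ⟨algebraMap ℚ _ q, RingHom.congr_fun (Subsingleton.elim
        (z.sc.toRingHom.comp (algebraMap ℚ (Fin e × Fin 2 → R))) (ψ.comp (algebraMap ℚ D.E))) q⟩
    | add x y _ _ k1 k2 =>
      obtain ⟨u, hu⟩ := k1
      obtain ⟨v, hv⟩ := k2
      exact ⟨u + v, by rw [map_add, map_add, hu, hv]⟩
    | mul x y _ _ k1 k2 =>
      obtain ⟨u, hu⟩ := k1
      obtain ⟨v, hv⟩ := k2
      exact ⟨u * v, by rw [map_mul, map_mul, hu, hv]⟩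
  choose d hd using h1
  obtain ⟨ρ, hρ⟩ : ∃ ρ : D.E →+* (Fin e × Fin 2 → R), ∀ x, z.sc (ρ x) = ψ x :=
    ⟨{ toFun := d
       map_one' := z.sc_inj (by rw [hd, map_one, map_one])
       map_mul' := fun x y => z.sc_inj (by rw [hd, map_mul, map_mul, hd, hd])
       map_zero' := z.sc_inj (by rw [hd, map_zero, map_zero])
       map_add' := fun x y => z.sc_inj (by rw [hd, map_add, map_add, hd, hd]) }, hd⟩
  obtain ⟨f, hf⟩ : ∃ f : Fin e × Fin 2 → D.E →+* R, ∀ p x, f p x = ρ x p :=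
    ⟨fun p => (Pi.evalRingHom (fun _ => R) p).comp ρ, fun _ _ => rfl⟩
  have fz : ∀ s c, f (s, c) D.z = z.ζ s c := fun s c => by
    rw [hf, z.sc_inj ((hρ _).trans hz)]
  have fi : Function.Injective f := fun ⟨s, c⟩ ⟨t, c'⟩ h => by_contra fun k =>
    (z.sep s c t c' k).ne_zero (by rw [← fz, ← fz, h, sub_self])
  have : Finite (D.E →+* R) := Finite.of_equiv _ (RingHom.equivRatAlgHom D.E R).symm
  have fb : Function.Bijective f := fi.bijective_of_nat_card_le (by
    rw [Nat.card_congr (RingHom.equivRatAlgHom D.E R)]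
    refine (card_algHom_le_finrank ℚ D.E R).trans ?_
    simp [D.rank, mul_comm])
  refine ⟨Equiv.ofBijective f fb, fz, fun s c => RingHom.congr_fun (f := f (s, c.rev))
    (g := (f (s, c)).comp (D.bar : D.E →+* D.E)) (D.hom_ext ?_), fun x => ?_⟩
  · refine mul_right_cancel₀ (z.uz s c).ne_zero ?_
    have h := congrArg (f (s, c)) D.mul
    rw [map_mul, map_natCast, fz] at h
    rw [fz, z.rev_mul D.pel]
    exact h.symm
  · rw [← hψ, ← hρ, z.sc_apply]
    simp only [Equiv.ofBijective_apply, hf]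

end MG
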