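import Pool.Agent.Lib.MP_33b3f9_ag.MG.IDefs
import Pool.Agent.Lib.MP_33b3f9_ag.Rx.Defs

/-!
The geometric half: definitions, and the statements that cross block borders.
-/

set_option autoImplicit false

noncomputable section

namespace MG

open M4 Matrix Filter Topology Pool.Agent.Lib.MP_33b3f9_ag

variable [Dim]

/-- Two points of the family in one orbit of the level group come from homothetic lattices. -/
def STABst (a b : MZ) (τ : Mat) : Prop :=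
  ∀ (g g' δ : MZ) (M M' : ℕ), Isg a b g M → Isg a b g' M' → Sim (zr δ) 1 →
    (∀ i j, (8 : ℤ) ∣ (δ - 1) i j) → act (zr (δ * g)) τ = act (zr g') τ →
    ∃ c c' : ℤ, c ≠ 0 ∧ c • g' = c' • (δ * g)

/-- A chart of the fixed locus of `a` and `b` by a convex open subset of `ℂ^d`. -/
structure Ch (d : ℕ) (a b : MZ) where
  /-- the domain -/
  U : Set (Fin d → ℂ)
  /-- the chart -/
  f : (Fin d → ℂ) → Mat
  /-- a left inverse -/
  L : (ι → ι → ℂ) → Fin d → ℂ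
  op : IsOpen U
  cv : Convex ℝ U
  ne : U.Nonempty
  mem : ∀ z ∈ U, f z ∈ FX a b
  sur : ∀ τ ∈ FX a b, ∃ z ∈ U, f z = τ
  hol : DifferentiableOn ℂ (fun (t : Fin d → ℂ) (i j : ι) => f t i j) U
  holL : ∀ τ : ι → ι → ℂ, InH τ → DifferentiableAt ℂ L τ
  inv : ∀ t ∈ U, L (f t) = t

variable {d : ℕ} {a b : MZ}

/-- The chart as a map to the Siegel space. -/
def Ch.h (c : Ch d a b) (z : c.U) : HH ι := ⟨c.f z.1, (c.mem z.1 z.2).1⟩

/-- The projection of the theta null point to `ℂ^(d+1)`. -/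
def lin (y : Matrix (Fin (d + 1)) Bits ℂ) (τ : Mat) : Fin (d + 1) → ℂ := y *ᵥ th2 τ

/-- The projected theta null point of `g z`. -/
def Thy (c : Ch d a b) (y : Matrix (Fin (d + 1)) Bits ℂ) (g : MZ) (z : Fin d → ℂ) :
    Fin (d + 1) → ℂ :=
  lin y (act (zr g) (c.f z))

/-- A finite projection of the fixed locus: every theta constant is integral over the `d + 1` forms,
and these are algebraically independent. -/
def FinProj (a b : MZ) (y : Matrix (Fin (d + 1)) Bits ℂ) : Prop :=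
  (∀ ε : Bits, ∃ (D : ℕ) (c : ℕ → MvPolynomial (Fin (d + 1)) ℂ),
    (∀ e < D, (c e).IsHomogeneous (D - e)) ∧ ∀ τ ∈ FX a b,
      th2 τ ε ^ D + ∑ e ∈ Finset.range D, MvPolynomial.eval (lin y τ) (c e) * th2 τ ε ^ e = 0) ∧
  ∀ (n : ℕ) (φ : MvPolynomial (Fin (d + 1)) ℂ), φ.IsHomogeneous n →
    (∀ τ ∈ FX a b, MvPolynomial.eval (lin y τ) φ = 0) → φ = 0

/-- The projection is etale at all points `g z`. -/
def EtProj (c : Ch d a b) (y : Matrix (Fin (d + 1)) Bits ℂ) (z : Fin d → ℂ) : Prop :=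
  ∀ (g : MZ) (m : ℕ), 0 < m → Sim (zr g) m → AnalyticAt ℂ (Thy c y g) z ∧
    Function.Injective fun q : ℂ × (Fin d → ℂ) => q.1 • Thy c y g z + fderiv ℂ (Thy c y g) z q.2

/-- B5: a good projection exists. -/
def PROJst (c : Ch d a b) : Prop := ∀ z ∈ c.U, ∃ y, FinProj a b y ∧ EtProj c y z

/-- B5: Hecke norms. -/
def HNst (c : Ch d a b) (y : Matrix (Fin (d + 1)) Bits ℂ) : Prop :=
  ∃ e₁ : ℕ, ∀ Y : ℕ, 2 ≤ Y → ∃ D : ℕ, D ≤ Y ^ e₁ ∧
    ∀ (n : ℕ) (φ : MvPolynomial (Fin (d + 1)) ℂ), φ.IsHomogeneous n →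
      ∃ q : ℕ → MvPolynomial (Fin (d + 1)) ℂ, (∀ e, ∃ k ≤ D * n, (q e).IsHomogeneous k) ∧
        q D = 1 ∧
        ∀ (m : ℕ) (h : MZ), m ≤ Y ^ 2 → m ≡ 1 [MOD 32] → Lev h → Sim (zr h) m →
          ∃ ρ : Mat → ℂ, (∀ (z : Fin d → ℂ) (g : MZ) (k : ℕ), z ∈ c.U → 0 < k → Sim (zr g) k →
              ContinuousAt (fun t => ρ (act (zr g) (c.f t))) z) ∧
            ∀ τ ∈ FX a b, (ρ τ = 0 ↔ MvPolynomial.eval (lin y (act (zr h) τ)) φ = 0) ∧
              ∑ e ∈ Finset.range (D + 1), MvPolynomial.eval (lin y τ) (q e) * ρ τ ^ e = 0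

/-- B5: the fibres of the projection lie in finitely many orbits of the group of level eight. -/
def FIBst (a b : MZ) (y : Matrix (Fin (d + 1)) Bits ℂ) : Prop :=
  ∃ C₀ : ℕ, ∀ v : Fin (d + 1) → ℂ, ∃ T : Finset Mat, T.card ≤ C₀ ∧ (∀ t ∈ T, InH t) ∧
    ∀ τ ∈ FX a b, (∃ c : ℂ, lin y τ = c • v) → ∃ t ∈ T, ∃ γ : MZ, Sim (zr γ) 1 ∧
      (∀ i j, (8 : ℤ) ∣ (γ - 1) i j) ∧ τ = act (zr γ) t

/-- B5: the invariants of level `32` on the fixed locus are generated by the functions `gg i` over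
the polynomials in the `d + 1` linear forms. -/
def Gen (c : Ch d a b) (y : Matrix (Fin (d + 1)) Bits ℂ) {N0 : ℕ} (kk : Fin N0 → ℕ)
    (gg : Fin N0 → c.U → ℂ) : Prop :=
  ∀ k, ∀ f ∈ Rx.MIX ![a, b] c.h {γ | Lv 32 γ} k, ∃ q : Fin N0 → MvPolynomial (Fin (d + 1)) ℂ,
    (∀ i, q i = 0 ∨ (kk i ≤ k ∧ (q i).IsHomogeneous (8 * (k - kk i)))) ∧
      ∀ z : c.U, f z = ∑ i, MvPolynomial.eval (lin y (c.f z.1)) (q i) * gg i z

/-- B5: finite generation. -/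
def FINst (c : Ch d a b) (y : Matrix (Fin (d + 1)) Bits ℂ) : Prop :=
  ∃ (N0 : ℕ) (kk : Fin N0 → ℕ) (gg : Fin N0 → c.U → ℂ), Gen c y kk gg

/-- B6 + B7: the counting lemma. -/
def CLst (c : Ch d a b) (y : Matrix (Fin (d + 1)) Bits ℂ) (z : Fin d → ℂ) : Prop :=
  ∃ C₀ : ℕ, ∀ (α : Type) (X : Finset α) (g : α → MZ) (M : α → ℕ),
    (∀ ξ ∈ X, Isg a b (g ξ) (M ξ)) →
    (∀ ξ ∈ X, ∀ ξ' ∈ X, ∀ t : ℂ, Thy c y (g ξ') z = t • Thy c y (g ξ) z → ξ = ξ') →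
    ∀ (k : ℕ) (v : (Fin k → ℂ) → Fin d → ℂ) (P : Ideal (MvPolynomial (Fin (d + 1)) ℂ))
      (del e : ℕ), 1 ≤ k → k < d → AnalyticAt ℂ v 0 → v 0 = z → Function.Injective (fderiv ℂ v 0) →
      P.IsPrime → Z.Hom P → Z.dm ℂ P = k + 1 → (∀ μ, Z.HF P μ ≤ del * (μ + e + k).choose k) →
      (∀ ξ ∈ X, Z.Cuts z (Thy c y (g ξ)) (Filter.map v (𝓝 0)) P) → X.card ≤ C₀ * del

end MG
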