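import Pool.Agent.Lib.MP_33b3f9_ag.MG.Tr
import Pool.Agent.Lib.MP_33b3f9_ag.M4.SH.GenC

/-!
Transport of the endomorphism algebra and of genericity along integral similitudes.
-/

set_option autoImplicit false

noncomputable section

namespace MG

open M4 Matrix Pool.Agent.Lib.MP_33b3f9_ag

variable [Dim] {τ : Mat} {a b a' b' g : MZ} {M : ℕ}

theorem EndX.act (h : EndX a b τ) (hτ : InH τ) (hM : 0 < M) (hg : Sim (zr g) M)
    (ha : g * a = a' * g) (hb : g * b = b' * g) : EndX a' b' (act (zr g) τ) := fun x hx => by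
  have e : g * (adj g * x * g) = ((M : ℤ) • x) * g := by
    rw [← mul_assoc, ← mul_assoc, mul_adj hM hg, smul_mul_assoc, one_mul]
  obtain ⟨d, c, c', hd, H⟩ := h (adj g * x * g) ((fix_tw hM hg hτ e).2 (by
    rw [zr_smul, smul_mul_assoc, mul_smul_comm, hx]))
  refine ⟨d * M, c, c', mul_ne_zero hd (Int.natCast_ne_zero.2 hM.ne'),
    cancel_right (det_ne hM hg) ?_⟩
  rw [mul_smul, smul_mul_assoc, ← e, ← mul_smul_comm, H, mul_add, add_mul, ← mul_assoc,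
    aeval_tw ha, aeval_tw ha, mul_assoc, hb, mul_assoc]

theorem GEN.act (h : GEN a b (cst τ)) (hτ : InH τ) (hM : 0 < M) (hg : Sim (zr g) M)
    (ha : g * a = a' * g) (hb : g * b = b' * g) : GEN a' b' (cst (act (zr g) τ)) := by
  rintro x hx xa xb P ⟨S, ⟨hS, hP⟩, hPS⟩
  have hM' : ∀ (F : Type) [Field F] [CharZero F], (M : F) ≠ 0 := fun F _ _ =>
    Nat.cast_ne_zero.2 hM.ne'
  have e1 : ∀ (F : Type) [Field F] [CharZero F], zM F g * ((M : F)⁻¹ • zM F (adj g)) = 1 :=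
    fun F _ _ => by
      rw [mul_smul_comm, ← zM_mul, mul_adj hM hg, zM_smul, zM_one, Int.cast_natCast,
        inv_smul_smul₀ (hM' F)]
  have e2 : ∀ (F : Type) [Field F] [CharZero F],
      ((M : ℚ)⁻¹ • zM ℚ (adj g)).map (algebraMap ℚ F) = (M : F)⁻¹ • zM F (adj g) := fun F _ _ => by
    ext i j
    simp
  have e3 : ∀ y : MZ, Sim (zr y) M →
      (zM ℂ y)ᵀ * J ι ℂ * zM ℂ y = (M : ℂ) • J ι ℂ := fun y hy => by
    have := congrArg (zM ℂ) (sim_nat.1 hy)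
    rwa [zM_mul, zM_mul, zM_smul, zM_J, Int.cast_natCast] at this
  have e4 : ∀ c c' : MZ, g * c = c' * g → Commute (zM ℂ c') x →
      Commute (zM ℂ c) ((M : ℂ)⁻¹ • zM ℂ (adj g) * x * zM ℂ g) := fun c c' hc hx => by
    rw [smul_mul_assoc, smul_mul_assoc]
    refine Commute.smul_right ?_ _
    rw [Commute, SemiconjBy, ← mul_assoc, ← mul_assoc, ← zM_mul, ← adj_tw hM hg hc, zM_mul,
      mul_assoc _ (zM ℂ g), ← zM_mul ℂ g, hc, zM_mul, mul_assoc _ _ x, hx.eq]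
    simp only [mul_assoc]
  have h3 := h ((M : ℂ)⁻¹ • zM ℂ (adj g) * x * zM ℂ g) ?_ (e4 _ _ ha xa) (e4 _ _ hb xb)
    (SH.genc_sub (zM ℚ g) ((M : ℚ)⁻¹ • zM ℚ (adj g)) P)
    ⟨_, ⟨SH.genc_alg (e1 ℚ) hS, ?_⟩, P, hPS, rfl⟩
  · rwa [SH.genc_eval, e2, zM_map, ← mul_assoc, ← mul_assoc, e1, one_mul, mul_assoc, e1,
      mul_one] at h3
  · calc _ = (M : ℂ)⁻¹ • (M : ℂ)⁻¹ • ((zM ℂ g)ᵀ * (xᵀ * ((zM ℂ (adj g))ᵀ * J ι ℂ *
          zM ℂ (adj g)) * x) * zM ℂ g) := by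
          simp only [transpose_mul, transpose_smul, mul_smul_comm, smul_mul_assoc, mul_assoc]
      _ = _ := by
          rw [e3 _ (sim_adj hM hg), mul_smul_comm, smul_mul_assoc, hx, mul_smul_comm,
            smul_mul_assoc, e3 _ hg, inv_smul_smul₀ (hM' ℂ), inv_smul_smul₀ (hM' ℂ)]
  · rintro u v huv _ ⟨Q, hQ, rfl⟩
    have hc : cst (M4.act (zr g) τ) * zM ℝ g = zM ℝ g * cst τ :=
      M4.cst_act hg (Nat.cast_pos.2 hM) hτ
    rw [SH.genc_eval, e2, zM_map, mul_add, add_mul, mul_smul_comm u, mul_smul_comm v,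
      smul_mul_assoc u, smul_mul_assoc v, mul_one, ← hc, mul_assoc, e1, mul_one]
    exact hP u v huv Q hQ

end MG
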