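import Pool.Agent.Lib.MP_33b3f9_ag.MG.FrP
import Pool.Agent.Lib.MP_33b3f9_ag.MG.TrE
import Pool.Agent.Lib.MP_33b3f9_ag.MG.GDefs
import Pool.Agent.Lib.MP_33b3f9_ag.M4.FP.Pm
import Pool.Agent.Lib.MP_33b3f9_ag.M8.E3.Cst

/-!
Elements of level eight that normalise the quaternion algebra centralise it.
-/

set_option autoImplicit false

noncomputable section

namespace MG

open Matrix M4 Polynomial

/-- An isometry of a positive lattice that is the identity modulo eight is the identity. -/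
theorem cent_lat {L : Type} [AddCommGroup L] (O : AddSubgroup L) (B : L →+ L →+ ℤ)
    (sy : ∀ x y, B x y = B y x) (h0 : ∀ x ∈ O, 0 ≤ B x x) (h1 : ∀ x ∈ O, B x x = 0 → x = 0)
    (C : L → L) (hB : ∀ x y, B (C x) (C y) = B x y)
    (hC : ∀ x ∈ O, ∃ w ∈ O, C x = x + (8 : ℤ) • w) : ∀ x ∈ O, C x = x := by
  intro x hx
  induction hn : (B x x).toNat using Nat.strong_induction_on generalizing x with
  | _ k ih =>
    obtain ⟨w, hw, e⟩ := hC x hx
    have k1 := hB x x
    have k2 := h0 _ (O.add_mem hx (O.zsmul_mem hw 4))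
    have k3 := h0 x hx
    have k4 := h0 w hw
    rw [e] at k1
    simp only [map_add, map_zsmul, AddMonoidHom.add_apply, AddMonoidHom.smul_apply, smul_eq_mul,
      sy w x] at k1 k2
    have k5 : B w w = 0 := by
      by_contra hne
      have k6 := hB x w
      rw [ih (B w w).toNat (by omega) w hw rfl, e] at k6
      simp only [map_add, map_zsmul, AddMonoidHom.add_apply, AddMonoidHom.smul_apply,
        smul_eq_mul] at k6
      omega
    rw [e, h1 w hw k5, smul_zero, add_zero]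

theorem tr_pos {ι : Type} [Fintype ι] [DecidableEq ι] {τ : Matrix ι ι ℂ} (hτ : InH τ)
    {X : Matrix (ι ⊕ ι) (ι ⊕ ι) ℝ} (hX : X * cst τ = cst τ * X) :
    0 ≤ (X * -(J ι ℝ * Xᵀ * J ι ℝ)).trace ∧
      ((X * -(J ι ℝ * Xᵀ * J ι ℝ)).trace = 0 → X = 0) := by
  obtain ⟨k, hk, e⟩ := FP.Pm_fac hτ
  obtain ⟨k', e1⟩ : ∃ k', k' * k = 1 :=
    ⟨_, congrArg Subtype.val (inv_mul_cancel (⟨k, hk⟩ : symplecticGroup ι ℝ))⟩
  have e2 := mul_eq_one_comm.1 e1
  have e3 : J ι ℝ * -(J ι ℝ * Xᵀ * J ι ℝ) = Xᵀ * J ι ℝ := by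
    rw [mul_neg, mul_assoc, ← mul_assoc (J ι ℝ), J_squared, neg_mul, neg_neg, one_mul]
  generalize -(J ι ℝ * Xᵀ * J ι ℝ) = X' at e3 ⊢
  have e4 : J ι ℝ * cst τ = -((cst τ)ᵀ * J ι ℝ) :=
    eq_neg_of_add_eq_zero_right (M8.E3.cst_sp hτ)
  have e5 : Xᵀ * (kᵀ * k) = kᵀ * k * X' := by
    rw [← e, FP.Pm, e4, mul_neg, ← mul_assoc, ← transpose_mul, ← hX, transpose_mul, neg_mul,
      mul_assoc, mul_assoc, e3]
  have e6 : (X * X').trace = ((k * X * k')ᵀᵀ * (k * X * k')ᵀ).trace := by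
    rw [transpose_transpose, transpose_mul, transpose_mul, mul_assoc k, mul_assoc k,
      trace_mul_comm k, mul_assoc, mul_assoc, mul_assoc, mul_assoc, e5, mul_assoc,
      ← mul_assoc k'ᵀ, ← transpose_mul, e2, transpose_one, one_mul, ← mul_assoc k', e1, one_mul]
  rw [e6]
  refine ⟨FP.pm_trace_nonneg _, fun h => ?_⟩
  have h1 : (k * X * k')ᵀ = 0 := trace_conjTranspose_mul_self_eq_zero_iff.1 h
  have h2 := congrArg (fun y => k' * yᵀ * k) h1
  simpa only [transpose_transpose, transpose_zero, mul_zero, zero_mul, ← mul_assoc, e1, one_mul,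
    mul_assoc X, mul_one] using h2

variable [Dim] {τ : Mat} {a b : MZ} {e m n : ℕ}

theorem adj_of {g h : MZ} (e : gᵀ * J ι ℤ = J ι ℤ * h) : adj g = h := by
  rw [adj, mul_assoc, e, ← mul_assoc, J_squared, neg_mul, neg_neg, one_mul]

theorem adj_mul_rev (g h : MZ) : adj (g * h) = adj h * adj g :=
  adj_of (by rw [transpose_mul, mul_assoc, J_adj, ← mul_assoc, J_adj, mul_assoc])

theorem adj_adj (g : MZ) : adj (adj g) = g := adj_of (by
  simp only [adj, transpose_neg, transpose_mul, J_transpose, transpose_transpose, neg_mul, mul_neg,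
    neg_neg, mul_assoc, J_squared, mul_one])

theorem trace_adj (g : MZ) : (adj g).trace = g.trace := by
  rw [adj, trace_neg, trace_mul_comm, ← mul_assoc, J_squared, neg_mul, one_mul, trace_neg, neg_neg,
    trace_transpose]

theorem zr_add (g h : MZ) : zr (g + h) = zr g + zr h := zM_add ℝ g h

theorem zr_trace (g : MZ) : (zr g).trace = g.trace := by simp [trace, zr]

/-- The endomorphism ring. -/
def EndR (τ : Mat) : Subring MZ :=
  (Subring.centralizer {cst τ}).comap (Int.castRingHom ℝ).mapMatrix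

theorem mem_EndR {g : MZ} : g ∈ EndR τ ↔ zr g * cst τ = cst τ * zr g :=
  ⟨fun h => (h _ rfl).symm, fun h _ e => e ▸ h.symm⟩

theorem EndR_sat {g : MZ} {d : ℤ} (hd : d ≠ 0) (h : d • g ∈ EndR τ) : g ∈ EndR τ := by
  rw [mem_EndR, zr_smul, smul_mul_assoc, mul_smul_comm] at h
  exact mem_EndR.2 (smul_right_injective _ (Int.cast_ne_zero.2 hd) h)

omit [Dim] in
theorem aeval_mem {R : Type} [Ring R] (S : Subring R) {x : R} (hx : x ∈ S) (c : ℤ[X]) :
    aeval x c ∈ S := by
  rw [aeval_eq_sum_range]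
  exact sum_mem fun i _ => zsmul_mem (pow_mem hx i) _

theorem cent (hP : PEL e a b m n) (hτ : τ ∈ FX a b) (hE : EndX a b τ) {δ : MZ} (hs : Sim (zr δ) 1)
    (h8 : ∀ i j, (8 : ℤ) ∣ (δ - 1) i j) (h : act (zr δ) τ ∈ FX a b) : Com a b δ := by
  have hs' : Sim (zr δ) (1 : ℕ) := by rwa [Nat.cast_one]
  have e1 : adj δ * δ = 1 := by simpa using adj_mul hs'
  have e2 : δ * adj δ = 1 := mul_eq_one_comm.1 e1
  have e3 : ∀ x : MZ, δ * (adj δ * x * δ) = x * δ := fun x => by
    rw [← mul_assoc, ← mul_assoc, e2, one_mul]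
  obtain ⟨h1, h2⟩ := (hP.fx_iff h.1).1 h
  have h3 := mem_EndR.2 ((fix_tw one_pos hs' hτ.1 (e3 a)).2 h1)
  have h4 := mem_EndR.2 ((fix_tw one_pos hs' hτ.1 (e3 b)).2 h2)
  obtain ⟨h5, h6⟩ := (hP.fx_iff hτ.1).1 hτ
  choose β hβ using h8
  have k2 : δ = 1 + (8 : ℤ) • Matrix.of β := by
    rw [← sub_eq_iff_eq_add']
    exact Matrix.ext hβ
  have k3 := cent_lat (EndR τ).toAddSubgroup (AddMonoidHom.mk' (fun x => AddMonoidHom.mk'
      (fun y => (x * adj y).trace) fun y y' => by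
        simp only [adj, transpose_add, mul_add, add_mul, neg_add, trace_add])
      fun x x' => AddMonoidHom.ext fun y => by
        change ((x + x') * adj y).trace = (x * adj y).trace + (x' * adj y).trace
        rw [add_mul, trace_add])
    (fun x y => by
      change (x * adj y).trace = (y * adj x).trace
      rw [← trace_adj, adj_mul_rev, adj_adj])
    (fun x hx => by
      have k := (tr_pos hτ.1 (mem_EndR.1 hx)).1
      rw [show -(J ι ℝ * (zr x)ᵀ * J ι ℝ) = zr (adj x) from (zM_adj ℝ x).symm, ← zr_mul,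
        zr_trace] at k
      exact Int.cast_nonneg_iff.1 k)
    (fun x hx h0 => zr_inj (((tr_pos hτ.1 (mem_EndR.1 hx)).2 (by
      rw [show -(J ι ℝ * (zr x)ᵀ * J ι ℝ) = zr (adj x) from (zM_adj ℝ x).symm, ← zr_mul, zr_trace]
      exact Int.cast_eq_zero.2 h0)).trans (Matrix.map_zero _ Int.cast_zero).symm))
    (fun x => adj δ * x * δ)
    (fun x y => by
      change (adj δ * x * δ * adj (adj δ * y * δ)).trace = (x * adj y).trace
      rw [adj_mul_rev, adj_mul_rev, adj_adj, mul_assoc _ δ, ← mul_assoc δ, e2, one_mul,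
        ← mul_assoc, trace_mul_comm, ← mul_assoc, ← mul_assoc, e2, one_mul])
    (fun z hz => by
      have k5 : z * δ - δ * z = (8 : ℤ) • (z * Matrix.of β - Matrix.of β * z) := by
        rw [k2, mul_add, add_mul, mul_one, one_mul, mul_smul_comm, smul_mul_assoc, smul_sub]
        abel
      have k6 : adj δ * z * δ = z + (8 : ℤ) • (adj δ * (z * Matrix.of β - Matrix.of β * z)) := by
        rw [← mul_smul_comm, ← k5, mul_sub, ← mul_assoc, ← mul_assoc, e1, one_mul, add_sub_cancel]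
      refine ⟨_, EndR_sat (d := 8) (by norm_num) ?_, k6⟩
      rw [← sub_eq_of_eq_add' k6]
      refine sub_mem ?_ hz
      obtain ⟨d, c, c', d0, hd⟩ := hE z (mem_EndR.1 hz)
      have k7 : adj δ * a = adj δ * a * δ * adj δ := by rw [mul_assoc _ δ, e2, mul_one]
      refine EndR_sat d0 ?_
      rw [← smul_mul_assoc, ← mul_smul_comm, hd, mul_add, ← mul_assoc, aeval_tw k7, aeval_tw k7,
        add_mul, mul_assoc, e1, mul_one, mul_assoc (aeval _ c'), mul_assoc (aeval _ c')]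
      exact add_mem (aeval_mem _ h3 c) (mul_mem (aeval_mem _ h3 c') h4))
  exact ⟨(congrArg (δ * ·) (k3 a (mem_EndR.2 h5))).symm.trans (e3 a),
    (congrArg (δ * ·) (k3 b (mem_EndR.2 h6))).symm.trans (e3 b)⟩

/-- A central similitude of level eight is a scalar. -/
theorem scalar_of_central (hP : PEL e a b m n) {h : MZ} {N : ℝ} (hs : Sim (zr h) N)
    (hc : Com a b h) (h8 : zM (ZMod 8) h = 1) {d : ℤ} {c c' : ℤ[X]} (d0 : d ≠ 0)
    (hd : d • h = aeval a c + aeval a c' * b) :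
    ∃ k : ℤ, h = k • 1 := by
  obtain ⟨z, -⟩ := hP.mor_real
  obtain ⟨η, hη⟩ := z.central (g := zM ℝ h) (by rw [Commute, SemiconjBy, ← zM_mul, ← hc.1, zM_mul])
    (by rw [Commute, SemiconjBy, ← zM_mul, ← hc.2, zM_mul]) fun x => by
      have h1 : d • h ∈ (Subring.centralizer {z.em x}).comap (Int.castRingHom ℝ).mapMatrix := by
        have h2 : a ∈ (Subring.centralizer {z.em x}).comap (Int.castRingHom ℝ).mapMatrix :=
          fun _ e => e ▸ (z.comm_a x).symm
        rw [hd]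
        exact add_mem (aeval_mem _ h2 c) (mul_mem (aeval_mem _ h2 c')
          fun _ e => e ▸ (z.comm_b x).symm)
      have h2 : z.em x * zM ℝ (d • h) = zM ℝ (d • h) * z.em x := h1 _ rfl
      rw [zM_smul, smul_mul_assoc, mul_smul_comm] at h2
      exact smul_right_injective _ (Int.cast_ne_zero.2 d0) h2
  have h1 : ∀ s, η s * η s = N := fun s => by
    have h2 := (z.sim_iff _ N).1 ((show zr h = _ from hη) ▸ M4.sim_iff.1 hs) s
    simpa [J] using congrFun (congrFun h2 (.inr 0)) (.inl 0)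
  obtain ⟨w, hw⟩ : ∃ w : MZ, h - 1 = (8 : ℤ) • w := by
    choose w hw using fun i j => (ZMod.intCast_zmod_eq_zero_iff_dvd ((h - 1) i j) 8).1 (by
      have k := congrFun (congrFun h8 i) j
      rw [Matrix.sub_apply, Int.cast_sub, sub_eq_zero]
      exact k.trans (congrFun (congrFun (zM_one (ZMod 8)) i) j).symm)
    exact ⟨.of w, Matrix.ext hw⟩
  have h2 : zM ℝ w = z.em fun s => ((η s - 1) / 8) • 1 := by
    refine smul_right_injective _ (show (8 : ℝ) ≠ 0 by norm_num) ?_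
    have k := congrArg (zM ℝ) hw
    rw [sub_eq_add_neg, zM_add, zM_neg, zM_one, zM_smul, hη, ← map_one z.em, ← map_neg,
      ← map_add] at k
    refine k.symm.trans ((congrArg _ (funext fun s => ?_)).trans (map_smul z.em _ _))
    rw [Pi.smul_apply, smul_smul, mul_div_cancel₀ _ (by norm_num), sub_smul, one_smul]
    exact (sub_eq_add_neg _ _).symm
  have h3 : ∀ s, IsIntegral ℤ ((η s - 1) / 8) := fun s => by
    refine ⟨w.charpoly, w.charpoly_monic, ?_⟩
    let ψ : (Fin e → ℝ) →ₐ[ℝ] Matrix ν ν ℝ := z.em.comp (AlgHom.pi fun t =>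
      (Algebra.ofId ℝ (M8 ℝ)).comp (Pi.evalAlgHom ℝ (fun _ => ℝ) t))
    have k1 : ∀ x, ψ x = z.em fun t => x t • 1 := fun x =>
      congrArg z.em (_root_.funext fun t => Algebra.algebraMap_eq_smul_one (A := M8 ℝ) (x t))
    have k2 : ψ (aeval (fun t => (η t - 1) / 8) w.charpoly) = 0 := by
      rw [show ψ _ = ψ.toRingHom.toIntAlgHom _ from rfl, ← aeval_algHom_apply,
        show ψ.toRingHom.toIntAlgHom _ = (Int.castRingHom ℝ).mapMatrix.toIntAlgHom w from
          (k1 _).trans h2.symm, aeval_algHom_apply, aeval_self_charpoly, map_zero]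
    rw [k1, ← map_zero z.em] at k2
    exact (aeval_algHom_apply (Pi.evalRingHom (fun _ => ℝ) s).toIntAlgHom _ _).trans
      ((smul_eq_zero.1 (congrFun (z.em_inj k2) s)).resolve_right one_ne_zero)
  let s₀ : Fin e := ⟨0, hP.pos⟩
  have h4 : ∀ s, η s = η s₀ := fun s =>
    (mul_self_eq_mul_self_iff.1 ((h1 s).trans (h1 s₀).symm)).resolve_right fun k => by
      have k1 := (h3 s).add (h3 s₀)
      rw [k, show (-η s₀ - 1) / 8 + (η s₀ - 1) / 8 = algebraMap ℚ ℝ (-1 / 4) by simp; ring,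
        isIntegral_algebraMap_iff (algebraMap ℚ ℝ).injective] at k1
      obtain ⟨y, hy⟩ := IsIntegrallyClosed.isIntegral_iff.1 k1
      have k2 : ((4 * y : ℤ) : ℚ) = (-1 : ℤ) := by
        rw [Int.cast_mul, ← eq_intCast (algebraMap ℤ ℚ) y, hy]
        norm_num
      have k3 := Int.cast_injective k2
      omega
  have h5 : zM ℝ h = η s₀ • 1 := by
    rw [hη, ← map_one z.em, ← map_smul]
    exact congrArg _ (funext fun s => by rw [h4 s]; rfl)
  obtain ⟨i⟩ : Nonempty ν := inferInstance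
  refine ⟨h i i, zM_injective ℝ ?_⟩
  rw [zM_smul, zM_one, h5, show ((h i i : ℤ) : ℝ) = η s₀ by simpa using congrFun (congrFun h5 i) i]

theorem lev8 {g : MZ} (h : ∀ i j, (8 : ℤ) ∣ (g - 1) i j) : zM (ZMod 8) g = 1 := by
  ext i j
  have k := (ZMod.intCast_zmod_eq_zero_iff_dvd ((g - 1) i j) 8).2 (h i j)
  rw [Matrix.sub_apply, Int.cast_sub, sub_eq_zero] at k
  exact k.trans (congrFun (congrFun (zM_one (ZMod 8)) i) j)

theorem SH.stab (hP : PEL e a b m n) (hτ : τ ∈ FX a b) (hE : EndX a b τ) : STABst a b τ := by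
  intro g g' δ M M' hg hg' hs h8 h
  have hM := hg.1.pos
  have hM' := hg'.1.pos
  have hR : (0 : ℝ) < M := Nat.cast_pos.2 hM
  have hR' : (0 : ℝ) < M' := Nat.cast_pos.2 hM'
  obtain ⟨-, l1, s1, c1, c2⟩ := hg
  obtain ⟨-, l2, s2, c3, c4⟩ := hg'
  obtain ⟨c5, c6⟩ := cent hP (hP.fx_act hM s1 c1 c2 hτ) (hE.act hτ.1 hM s1 c1 c2) hs h8 (by
    rw [← act_mul' hs one_pos s1 hR hτ.1, ← zr_mul, h]
    exact hP.fx_act hM' s2 c3 c4 hτ)
  have s3 := sim_adj hM' s2
  have s4 : Sim (zr (δ * g)) (1 * M) := zr_mul δ g ▸ hs.mul s1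
  obtain ⟨d, c, c', d0, hd⟩ := hE (adj g' * (δ * g)) (by
    rw [zr_mul, ← fix_iff (s3.mul s4) (by positivity) hτ.1,
      act_mul' s3 hR' s4 (by positivity) hτ.1, h, ← act_mul' s3 hR' s2 hR' hτ.1, ← zr_mul,
      adj_mul s2, zr_smul, zr_one, act_smul (by exact_mod_cast hM'.ne'), act_one])
  have k1 : ∀ x : MZ, g * x = x * g → g' * x = x * g' → δ * x = x * δ →
      adj g' * (δ * g) * x = x * (adj g' * (δ * g)) := fun x h1 h2 h3 => by
    rw [← mul_assoc x, ← adj_tw hM' s2 h2, mul_assoc, mul_assoc,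
      mul_assoc, h1, ← mul_assoc δ, h3, mul_assoc]
  obtain ⟨k, k5⟩ := scalar_of_central hP (zr_mul (adj g') _ ▸ s3.mul s4)
    ⟨k1 a c1 c3 c5, k1 b c2 c4 c6⟩ (by
      rw [zM_mul, zM_mul, zM_adj, lev8 h8, lev8 fun i j => (show (8 : ℤ) ∣ 32 by decide).trans (l1 i j),
        lev8 fun i j => (show (8 : ℤ) ∣ 32 by decide).trans (l2 i j), transpose_one]
      simp [J_squared]) d0 hd
  have k6 : k • g' = (M' : ℤ) • (δ * g) := by
    have k7 := congrArg (g' * ·) k5
    simp only [mul_smul_comm, mul_one] at k7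
    rw [← k7, ← mul_assoc, mul_adj hM' s2, smul_mul_assoc, one_mul]
  refine ⟨k, M', fun h0 => ?_, k6⟩
  rw [h0, zero_smul, eq_comm, smul_eq_zero] at k6
  rcases k6 with k6 | k6
  · exact Nat.cast_ne_zero.2 hM'.ne' k6
  · refine s4.det_ne_zero (by positivity) ?_
    rw [k6, show zr 0 = 0 from Matrix.map_zero _ Int.cast_zero, det_zero]

end MG
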