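import Pool.Agent.Lib.MP_33b3f9_ag.MG.IDefs
import Pool.Agent.Lib.MP_33b3f9_ag.MF.An.Gram

/-!
Close vectors of torsion values come from a small isogeny.
-/

set_option autoImplicit false

namespace MG

open Matrix M4 MF.An ComplexConjugate

variable [Dim] {τ : Mat}

theorem SimN.simR {N : ℕ} {u : MZ} {c : ℤ} (h : SimN N u c) :
    IsUnit (c : ZMod (N ^ 2)) ∧ Kz.SimR (Kz.mZ (N ^ 2) u) (c : ZMod (N ^ 2)) := by
  refine ⟨(ZMod.coe_int_isUnit_iff_isCoprime _ _).2 ?_, (Kz.simR_iff _ _).2 ?_⟩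
  · exact_mod_cast h.1.symm.pow_left
  · ext i j
    have := (ZMod.intCast_eq_intCast_iff_dvd_sub _ _ (N ^ 2)).2 (by exact_mod_cast h.2 i j)
    rw [← map_J ι (Int.castRingHom (ZMod (N ^ 2)))]
    simpa [Kz.mZ, Matrix.mul_apply] using this.symm

theorem Tor_eq (hτ : InH τ) {N : ℕ} [NeZero N] (u : MZ) (p : Bits × (ν → ZMod (N ^ 2))) :
    Tor (xx τ) N u p = Xq τ N p.1 (Kz.mZ (N ^ 2) u *ᵥ p.2) := by
  rw [← Kz.vZ_lift p.2, Kz.mZ_mulVec, Xq_vZ hτ, Tor, xx]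
  congr 1
  funext i
  simp [Kz.rq, rz, div_eq_inv_mul]

theorem Phi_eq (y : Bits → (ν → ℚ) → ℂ) {N : ℕ} [NeZero N] (u : MZ) (c : ℤ)
    (i : (Bits × (ν → ZMod (N ^ 2))) × ZMod (N ^ 2)) :
    Phi y N u c i = ZMod.stdAddChar (i.2 * (c : ZMod (N ^ 2))) * Tor y N u i.1 := by
  have e : i.2 * (c : ZMod (N ^ 2)) = ((c * i.2.val : ℤ) : ZMod (N ^ 2)) := by simp [mul_comm]
  rw [e, psi_int, Phi]
  simp

theorem sum_Phi_sq (y : Bits → (ν → ℚ) → ℂ) {N : ℕ} [NeZero N] (u : MZ) (c : ℤ) :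
    ∑ i, ‖Phi y N u c i‖ ^ 2 = (N ^ 2 : ℕ) * ∑ p, ‖Tor y N u p‖ ^ 2 := by
  rw [Fintype.sum_prod_type, Finset.mul_sum]
  refine Finset.sum_congr rfl fun p _ => ?_
  simp [Phi_eq, ZMod.stdAddChar_apply]

theorem sum_Phi_mul (y y' : Bits → (ν → ℚ) → ℂ) {N : ℕ} [NeZero N] (u u' : MZ) (c c' : ℤ) :
    ∑ i, Phi y N u c i * conj (Phi y' N u' c' i) =
      (if (c : ZMod (N ^ 2)) - c' = 0 then N ^ 2 else 0 : ℕ) *
        ∑ p, Tor y N u p * conj (Tor y' N u' p) := by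
  have h := AddChar.sum_mulShift ((c : ZMod (N ^ 2)) - c') (ZMod.isPrimitive_stdAddChar (N ^ 2))
  rw [ZMod.card] at h
  rw [← h, Fintype.sum_prod_type, Finset.mul_sum]
  refine Finset.sum_congr rfl fun p _ => ?_
  rw [Finset.sum_mul]
  refine Finset.sum_congr rfl fun t _ => ?_
  rw [Phi_eq, Phi_eq, map_mul (starRingEnd ℂ), ← AddChar.map_neg_eq_conj, mul_mul_mul_comm,
    ← AddChar.map_add_eq_mul, mul_sub, sub_eq_add_neg]

theorem gram (h : InH τ) : GRAMst τ := by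
  obtain ⟨B, hB, hL⟩ := exists_Lt h
  obtain ⟨C, hC⟩ := gram0 ι hB
  obtain ⟨k, hk⟩ := exists_nat_ge (max C 2)
  have k1 : C ≤ k := (le_max_left _ _).trans hk
  have k2 : 2 ≤ k := by exact_mod_cast (le_max_right _ _).trans hk
  refine ⟨k, 1 / 128, by norm_num, by norm_num,
    fun g g' u u' M M' N c c' _ hg hg' hO hN hu hu' hcl => ?_⟩
  have M1 : 1 ≤ M := Nat.one_le_iff_ne_zero.2 hg.1.1.ne_zero
  have M2 : 1 ≤ M' := Nat.one_le_iff_ne_zero.2 hg'.1.1.ne_zero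
  have L1 : Lt B (act (zr g) τ) g (adj g) M := hL g M M1 hg.2.2
  have L2 : Lt B (act (zr g') τ) g' (adj g') M' := hL g' M' M2 hg'.2.2
  generalize act (zr g) τ = σ at L1 hcl
  generalize act (zr g') τ = σ' at L2 hcl
  obtain ⟨c1, s1⟩ := hu.simR
  obtain ⟨c2, s2⟩ := hu'.simR
  obtain ⟨-, -, -, b1⟩ := simR_inv s1 c1
  obtain ⟨-, -, -, b2⟩ := simR_inv s2 c2
  have p1 := Xq_pos L1.inH hO s1 b1
  have p2 := Xq_pos L2.inH hO s2 b2
  have Q0 : (0 : ℝ) < (N ^ 2 : ℕ) := by exact_mod_cast NeZero.pos (N ^ 2)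
  rw [Cls, sum_Phi_sq, sum_Phi_sq, sum_Phi_mul, norm_mul, mul_pow, Complex.norm_natCast] at hcl
  simp only [Tor_eq L1.inH, Tor_eq L2.inH] at hcl
  split_ifs at hcl with hc
  swap
  · rw [Nat.cast_zero, zero_pow two_ne_zero, zero_mul] at hcl
    exact absurd hcl (not_le.2 (mul_pos (by norm_num) (mul_pos (mul_pos Q0 p1) (mul_pos Q0 p2))))
  rw [← sub_eq_zero.1 hc] at s2
  have hN' : C * (M * M') ^ 2 ≤ N := by
    have a1 : k * (M * M') ^ 2 ≤ N := by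
      refine le_trans ?_ hN
      rw [mul_assoc, mul_pow 2]
      exact Nat.mul_le_mul Nat.lt_two_pow_self.le (Nat.pow_le_pow_right (Nat.mul_pos M1 M2) k2)
    exact (mul_le_mul_of_nonneg_right k1 (by positivity)).trans (by exact_mod_cast a1)
  have num : ∀ Q a b c : ℝ, 0 < Q → 0 < a → 0 < b →
      (1 - 1 / 128) ^ 2 * (Q * a * (Q * b)) ≤ Q ^ 2 * c → (1 - 1 / 64) * (a * b) ≤ c :=
    fun Q a b c hQ ha hb h => le_of_mul_le_mul_left
      (by linarith [show 0 < Q ^ 2 * (a * b) by positivity]) (pow_pos hQ 2)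
  obtain ⟨W, w1, w2, w3⟩ := hC _ _ g _ g' _ M M' N _ _ _ L1 L2 hN' hO c1 s1 s2
    (num _ _ _ _ Q0 p1 p2 hcl)
  refine ⟨W, by exact_mod_cast w1.sim, fun i j => ?_, fun i j => ?_⟩
  · have := congrFun (congrFun w2 i) j
    have e : ((N : ℤ) ^ 2) = ((N ^ 2 : ℕ) : ℤ) := by simp
    rw [e, Matrix.sub_apply, ← ZMod.intCast_eq_intCast_iff_dvd_sub]
    simpa [Kz.mZ, Matrix.mul_apply] using this.symm
  · have := (w3 i j).trans (by gcongr : C * M * M' ≤ k * M * M')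
    exact_mod_cast this

end MG
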