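import Pool.Agent.Lib.MP_33b3f9_ag.M4.KzPts

/-!
The Koizumi sums at general points.
-/

set_option autoImplicit false

namespace M4.Kz

open Complex Matrix

variable {ι : Type} [Fintype ι] {τ τ' : Matrix ι ι ℂ} {t : ℂ} {σ : ℂ →+* ℂ}
  {ρ : Type} [Fintype ρ] [DecidableEq ρ] {F : Matrix ρ ρ ℤ} {m : ℕ}

/-- One summand at the tuple of points `w`. -/
noncomputable def smW (τ : Matrix ι ι ℂ) (t : ℂ) (F : Matrix ρ ρ ℤ) (m : ℕ) (k : ρ → ι ⊕ ι → ℤ)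
    (w : ρ → ι ⊕ ι → ℝ) (a : ρ → ι ⊕ ι → ℤ) : ℂ :=
  ee (2 * kE (kz a) w) * ∏ j, XX τ (mix F k j) (mix F (w + (m : ℝ)⁻¹ • kz a) j) / t

open Classical in
/-- The Koizumi sum at the tuple of points `w`. -/
noncomputable def YW (τ : Matrix ι ι ℂ) (t : ℂ) (F : Matrix ρ ρ ℤ) {m : ℕ} [NeZero m]
    (G : Set (ι ⊕ ι → ZMod m)) (k : ρ → ι ⊕ ι → ℤ) (w : ρ → ι ⊕ ι → ℝ) : ℂ :=
  ∑ s : ρ → G, smW τ t F m k w fun i => lift (s i).1

theorem smW_congr (hτ : InH τ) (hm : m ≠ 0) (hF : Fᵀ * F = (m : ℤ) • 1) (k : ρ → ι ⊕ ι → ℤ)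
    (w : ρ → ι ⊕ ι → ℝ) {a b : ρ → ι ⊕ ι → ℤ} (h : ∀ i, vZ m (a i) = vZ m (b i)) :
    smW τ t F m k w a = smW τ t F m k w b := by
  have hm0 : (m : ℝ) ≠ 0 := Nat.cast_ne_zero.2 hm
  choose n hn using fun i => (vZ_eq_iff m _ _).1 (h i)
  obtain rfl : a = b + (m : ℤ) • n := funext hn
  have e : ∀ j, mix F (w + (m : ℝ)⁻¹ • kz (b + (m : ℤ) • n)) j =
      mix F (w + (m : ℝ)⁻¹ • kz b) j + rz (mix F n j) := fun j => by
    rw [kz_add, kz_smul, smul_add, smul_smul, Int.cast_natCast, inv_mul_cancel₀ hm0, one_smul,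
      ← add_assoc, kmix_add, kmix_kz]
    rfl
  have h1 := kE_mix hF (kz n) (w + (m : ℝ)⁻¹ • kz b)
  rw [kmix_kz, kE_add_right, kE_smul_right, mul_add, mul_inv_cancel_left₀ hm0, kE_kz] at h1
  simp only [smW, e, XX_shift hτ, mul_div_assoc, Finset.prod_mul_distrib]
  rw [← ee_sum, ← mul_assoc, ← ee_add, ← Finset.mul_sum, ← ofReal_sum, kz_add, kz_smul,
    kE_add_left, kE_smul_left, show ∑ j, Ef (rz (mix F n j)) _ = _ from h1]
  congr 1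
  refine ee_congr (-2 * ∑ k, Ef (n k) (b k)) ?_
  push_cast
  ring

theorem smW_eq (hm : m ≠ 0) (hF : Fᵀ * F = (m : ℤ) • 1) (k : ρ → ι ⊕ ι → ℤ)
    (w : ρ → ι ⊕ ι → ℝ) (a : ρ → ι ⊕ ι → ℤ) :
    smW τ t F m k w a = ee (m * kE (kz k) w / 2) / t ^ Fintype.card ρ *
      (ee ((∑ i, Ef (rz (a i)) ((2 : ℝ) • w i + hf (k i)) : ℝ)) *
        ∏ j, Th τ (mix F (fun i => (2 : ℝ) • w i + hf (k i) + (2 : ℝ) • rq m (a i)) j)) := by
  have hm0 : (m : ℝ) ≠ 0 := Nat.cast_ne_zero.2 hm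
  have h1 := kE_mix hF (kz k) (w + (m : ℝ)⁻¹ • kz a)
  rw [kmix_kz, kE_add_right, kE_smul_right, mul_add, mul_inv_cancel_left₀ hm0, kE_kz] at h1
  have h2 : ∀ j, (2 : ℝ) • mix F (w + (m : ℝ)⁻¹ • kz a) j + hf (mix F k j) =
      mix F (fun i => (2 : ℝ) • w i + hf (k i) + (2 : ℝ) • rq m (a i)) j := fun j => by
    have : (fun i => (2 : ℝ) • w i + hf (k i) + (2 : ℝ) • rq m (a i)) =
        (2 : ℝ) • (w + (m : ℝ)⁻¹ • kz a) + (1 / 2 : ℝ) • kz k := by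
      funext i
      rw [add_right_comm, ← smul_add]
      rfl
    rw [this, kmix_add F _ (_ • kz k), kmix_smul, kmix_smul F _ (kz k), kmix_kz]
    rfl
  have h3 : ∑ i, Ef (rz (a i)) ((2 : ℝ) • w i + hf (k i)) =
      2 * kE (kz a) w - (∑ i, Ef (k i) (a i) : ℤ) / 2 := by
    rw [← kE_kz, kE_swap (kz k), neg_div, sub_neg_eq_add, ← kE_smul_right, div_eq_inv_mul,
      ← kE_smul_right, ← kE_add_right, ← one_div]
    rfl
  simp only [smW, XX_def, h2, Finset.prod_div_distrib, Finset.prod_mul_distrib]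
  rw [Finset.prod_const, Finset.card_univ, ← ee_sum, ← Finset.sum_div, ← ofReal_sum,
    show ∑ j, Ef (rz (mix F k j)) _ = _ from h1, h3, div_mul_eq_mul_div, ← mul_div_assoc,
    ← mul_assoc, ← mul_assoc, ← ee_add, ← ee_add]
  congr 2
  refine ee_congr (∑ i, Ef (k i) (a i)) ?_
  push_cast
  ring

omit [DecidableEq ρ] in
theorem smW_rat {n : ℕ} (hn : n ≠ 0) (k a s : ρ → ι ⊕ ι → ℤ) :
    smW τ t F m k (fun i => rq (n * m) (a i)) s =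
      (∏ i, ee ((Ef ((2 : ℤ) • s i) (a i) : ℤ) / (n * m : ℕ))) *
        ∏ j, XX τ (mix F k j) (rq (n * m) (mix F (a + (n : ℤ) • s) j)) / t := by
  have e : (fun i => rq (n * m) (a i)) + (m : ℝ)⁻¹ • kz s =
      ((n * m : ℕ) : ℝ)⁻¹ • kz (a + (n : ℤ) • s) := by
    funext i
    exact ((rq_add (n * m) (a i) _).trans (congrArg _ (rq_mul hn m (s i)))).symm
  rw [smW, e, kmix_smul, kmix_kz, ← ee_sum, kE, ofReal_sum, Finset.mul_sum]
  congr 2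
  refine Finset.sum_congr rfl fun i _ => ?_
  rw [kz, Ef_rz_rq, Ef_smul_left, Int.cast_mul, mul_div_assoc, Int.cast_ofNat]

theorem XX_one_eight [DecidableEq ι] (hτ : InH τ) {h : Matrix (ι ⊕ ι) (ι ⊕ ι) ℤ} {c : ℤ}
    (hs : SimR h c) (h8 : One 8 h) (k : ι ⊕ ι → ℤ) (w : ι ⊕ ι → ℝ) :
    ee (c * (Ef (rz k) w : ℝ) / 2) * Th τ (mR h *ᵥ ((2 : ℝ) • w + hf k)) = XX τ k (mR h *ᵥ w) := by
  have h1 : Ef (mR h *ᵥ rz k) (mR h *ᵥ w) = c * Ef (rz k) w := hs.sim _ _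
  rw [mulVec_add, mulVec_smul, XX_def, ← ofReal_intCast, ← ofReal_mul, ← h1, mR_mulVec]
  generalize mR h *ᵥ w = x
  obtain ⟨β, rfl⟩ := h8.mulVec
  have : mR (1 + ((8 : ℕ) : ℤ) • β) *ᵥ hf k = hf k + rz ((2 : ℤ) • (2 : ℤ) • β *ᵥ k) := by
    rw [hf, mulVec_smul, mR_mulVec, add_mulVec, one_mulVec, smul_mulVec, rz_add, rz_zsmul, rz_zsmul,
      rz_zsmul]
    push_cast; module
  rw [this, ← add_assoc, Th_add_int hτ, chi_two, one_mul, ← mul_assoc, ← ee_add, add_mulVec,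
    one_mulVec, smul_mulVec]
  congr 1
  refine ee_congr (-Ef (β *ᵥ k) k) ?_
  simp only [hf, rz_add, rz_zsmul, Ef_add_left, Ef_add_right, Ef_smul_left, Ef_smul_right, Ef_rz]
  push_cast; ring

variable [NeZero m]

theorem YW_koi [DecidableEq ι] (hm : Odd m) {h : Matrix (ι ⊕ ι) (ι ⊕ ι) ℤ} (hs : SimR h (m : ℤ))
    (h8 : One 8 h) (hF : Fᵀ * F = (m : ℤ) • 1) (hτ : InH τ) (hτ' : InH τ') (hR : Rel (mR h) τ τ')
    (ht : t ≠ 0) : ∃ c : ℂ, c ≠ 0 ∧ ∀ k w, YW τ t F (kerM m h : Set (ι ⊕ ι → ZMod m)) k w =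
      c * ∏ i, XX τ' (k i) (mR h *ᵥ w i) := by
  classical
  obtain ⟨c, hc, H⟩ := koizumi hm hs (fun i j => (by norm_num : ((2 : ℕ) : ℤ) ∣ (8 : ℕ)).trans
    (h8 i j)) hF hτ hτ' hR
  refine ⟨c / t ^ Fintype.card ρ, div_ne_zero hc (pow_ne_zero _ ht), fun k w => ?_⟩
  simp only [← XX_one_eight hτ' hs h8, Finset.prod_mul_distrib]
  rw [← ee_sum, ← Finset.sum_div, ← Finset.mul_sum, ← ofReal_sum, div_mul_eq_mul_div, mul_left_comm,
    ← H fun i => (2 : ℝ) • w i + hf (k i), mul_div_right_comm, Finset.mul_sum]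
  unfold YW
  refine Finset.sum_congr ?_ fun s _ => smW_eq (NeZero.ne m) hF k w fun i => lift (s i).1
  ext s
  simp only [Finset.mem_univ]

theorem YW_gal (hτ : InH τ) (hF : Fᵀ * F = (m : ℤ) • 1) {r : Matrix (ι ⊕ ι) (ι ⊕ ι) ℤ} {n : ℕ}
    (hn : n ≠ 0) (hr : ∀ k a, σ (XX τ k (rq (n * m) a) / t) = XX τ k (rq (n * m) (r *ᵥ a)) / t)
    (he : ∀ a b : ι ⊕ ι → ℤ, σ (ee ((Ef a b : ℤ) / (n * m : ℕ))) =
      ee ((Ef (r *ᵥ a) (r *ᵥ b) : ℤ) / (n * m : ℕ)))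
    {G G' : Set (ι ⊕ ι → ZMod m)} (hG : Set.BijOn (mZ m r).mulVec G G') (k a : ρ → ι ⊕ ι → ℤ) :
    σ (YW τ t F G k fun i => rq (n * m) (a i)) =
      YW τ t F G' k fun i => rq (n * m) (r *ᵥ a i) := by
  classical
  have hm := NeZero.ne m
  unfold YW
  rw [map_sum]
  refine Fintype.sum_equiv (Equiv.piCongrRight fun _ => hG.equiv _) _ _ fun s => ?_
  refine Eq.trans ?_ (smW_congr hτ hm hF k _ (a := fun i => r *ᵥ lift (s i).1) fun i => ?_)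
  · rw [smW_rat hn, smW_rat hn]
    simp only [map_mul, map_prod, hr, he, mulVec_smul]
    refine congrArg _ (Finset.prod_congr rfl fun j _ => ?_)
    rw [show r *ᵥ mix F _ j = _ from pts_map_mix r.mulVecLin.toAddMonoidHom _ j]
    congr 4
    funext i
    exact (mulVec_add _ _ _).trans (congrArg _ (mulVec_smul r (n : ℤ) (lift (s i).1)))
  · rw [← mZ_mulVec, vZ_lift, vZ_lift]
    rfl

theorem YW_int {n : ℕ} (hn : n ≠ 0) {D : ℂ}
    (hD : ∀ k a, IsIntegral ℤ (D * (XX τ k (rq (n * m) a) / t)))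
    (G : Set (ι ⊕ ι → ZMod m)) (k a : ρ → ι ⊕ ι → ℤ) :
    IsIntegral ℤ (D ^ Fintype.card ρ * YW τ t F G k fun i => rq (n * m) (a i)) := by
  have hm := NeZero.ne m
  unfold YW
  rw [Finset.mul_sum]
  refine IsIntegral.sum _ fun s _ => ?_
  rw [smW_rat hn, mul_left_comm, ← Finset.card_univ, ← Finset.prod_const,
    ← Finset.prod_mul_distrib]
  refine (IsIntegral.prod _ fun i _ => IsIntegral.of_pow (n := n * m) (by positivity) ?_).mul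
    (IsIntegral.prod _ fun j _ => hD _ _)
  rw [ee_pow, mul_div_cancel₀ _ (Nat.cast_ne_zero.2 (mul_ne_zero hn hm)), ee_int]
  exact isIntegral_one

theorem YW_le {n : ℕ} (hn : n ≠ 0) (φ : ℂ →+* ℂ) {B : ℝ}
    (hB : ∀ k a, ‖φ (XX τ k (rq (n * m) a) / t)‖ ≤ B) (G : Set (ι ⊕ ι → ZMod m))
    (k a : ρ → ι ⊕ ι → ℤ) :
    ‖φ (YW τ t F G k fun i => rq (n * m) (a i))‖ ≤ (Nat.card G * B) ^ Fintype.card ρ := by
  classical
  have hm := NeZero.ne m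
  have h1 : ∀ j : ℤ, ‖φ (ee (j / (n * m : ℕ)))‖ = 1 := fun j => congrArg NNReal.toReal
    (w_ee (nnnormHom.comp φ.toMonoidWithZeroHom) j (mul_ne_zero hn hm))
  unfold YW
  rw [map_sum]
  refine (norm_sum_le _ _).trans ((Finset.sum_le_card_nsmul _ _ (B ^ Fintype.card ρ)
    fun s _ => ?_).trans_eq ?_)
  · rw [smW_rat hn, map_mul, norm_mul, map_prod, map_prod, norm_prod, norm_prod,
      Finset.prod_eq_one fun i _ => h1 _, one_mul, ← Finset.card_univ, ← Finset.prod_const]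
    exact Finset.prod_le_prod (fun _ _ => norm_nonneg _) fun j _ => hB _ _
  · rw [nsmul_eq_mul, mul_pow, Finset.card_univ, ← Nat.card_eq_fintype_card, Nat.card_fun,
      Nat.card_eq_fintype_card (α := ρ), Nat.cast_pow]

end M4.Kz
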