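import Pool.Agent.Lib.MP_33b3f9_ag.MG.KzFinP
import Pool.Agent.Lib.MP_33b3f9_ag.MG.KzW

/-!
Integral equivariant coordinates of the torsion points of the isogenous varieties.
-/

set_option autoImplicit false

namespace MG.Kz

open Complex Matrix M4.Kz
open M4 hiding XX_zero ee_add chi_sq

variable [Dim] {τ : Mat} {K : IntermediateField ℚ ℂ} {r : Rep K}

theorem exists_frac (x : ν → ℚ) :
    ∃ (N : ℕ) (a : ν → ℤ), N ≠ 0 ∧ x = fun i => (a i : ℚ) / N := by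
  have h0 : ∏ i, (x i).den ≠ 0 := Finset.prod_ne_zero_iff.2 fun i _ => (x i).den_nz
  choose c hc using fun i => Finset.dvd_prod_of_mem (fun i => (x i).den) (Finset.mem_univ i)
  refine ⟨_, fun i => (x i).num * c i, h0, funext fun i => ?_⟩
  rw [eq_div_iff (Nat.cast_ne_zero.2 h0), hc i]
  push_cast
  rw [← mul_assoc, Rat.mul_den_eq_num]

/-- The point in the first slot. -/
noncomputable def slotW (g : MZ) (M : ℕ) (x : ν → ℝ) : Fin 4 → ν → ℝ :=
  Pi.single 0 ((M : ℝ)⁻¹ • mR (M4.Kz.adj g) *ᵥ x)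

theorem slotW_rat (g : MZ) (M N : ℕ) (a : ν → ℤ) :
    slotW g M (fun i => (((a i : ℚ) / N : ℚ) : ℝ)) = fun j => M4.Kz.rq (N * M)
      ((Pi.single 0 (M4.Kz.adj g *ᵥ a) : Fin 4 → ν → ℤ) j) := by
  have e : (fun i => (((a i : ℚ) / N : ℚ) : ℝ)) = M4.Kz.rq N a := by
    funext i; simp [M4.Kz.rq, rz, div_eq_inv_mul]
  funext j
  by_cases hj : j = 0
  · rw [hj, e, slotW, Pi.single_eq_same, Pi.single_eq_same, M4.Kz.rq, M4.Kz.rq, mulVec_smul,
      mR_mulVec, smul_smul, Nat.cast_mul, mul_inv, mul_comm]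
  · rw [slotW, Pi.single_eq_of_ne hj, Pi.single_eq_of_ne hj, rq_zero]

theorem prod_slot (τ : Mat) (g : MZ) (η k : ν → ℤ) (v : ν → ℝ) :
    ∏ i : Fin 4, XX τ (Function.update (fun _ => η) 0 k i)
      (mR g *ᵥ (Pi.single 0 v : Fin 4 → ν → ℝ) i) = XX τ η 0 ^ 3 * XX τ k (mR g *ᵥ v) := by
  rw [Fin.prod_univ_four]
  simp
  ring

theorem padic_vec {N : ℕ} (hN : N ≠ 0) {a b : ν → ℤ}
    (h : ∀ (l : ℕ) [Fact l.Prime] (i : ν), (N : ℤ_[l]) ∣ (a i : ℤ_[l]) - b i) :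
    ∃ n : ν → ℤ, a = b + (N : ℤ) • n := by
  choose n hn using fun i => dvd_of_padic hN (a := a i - b i) fun l _ => by
    rw [Int.cast_sub]; exact h l i
  exact ⟨n, funext fun i => by simp [← hn i]⟩

theorem cong_vec {σ : ℂ ≃ₐ[K] ℂ} {N : ℕ} {R g g' : MZ} (hR : Cong r σ N R) {l : ℕ} [Fact l.Prime]
    {W : Matrix ν ν ℤ_[l]} (hW : zM ℤ_[l] g' * (r l σ : Matrix ν ν ℤ_[l]) = W * zM ℤ_[l] g)
    (a : ν → ℤ) (i : ν) :
    (N : ℤ_[l]) ∣ ((g' *ᵥ R *ᵥ a) i : ℤ_[l]) - (W *ᵥ fun j => ((g *ᵥ a) j : ℤ_[l])) i := by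
  have e : ∀ (g : MZ) (a : ν → ℤ), (fun j => ((g *ᵥ a) j : ℤ_[l])) =
      zM ℤ_[l] g *ᵥ fun j => (a j : ℤ_[l]) := fun g a => by
    funext j; simp [mulVec, dotProduct]
  rw [congrFun (e g' _) i, e, e, mulVec_mulVec _ W, ← hW, ← mulVec_mulVec, ← Pi.sub_apply,
    ← mulVec_sub, ← sub_mulVec]
  refine Finset.dvd_sum fun j _ => Dvd.dvd.mul_left (Finset.dvd_sum fun k _ => ?_) _
  exact Dvd.dvd.mul_right (dvd_sub_comm.1 (hR l j k)) _

theorem pts (h : AV τ K r) : PTSst τ r := by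
  classical
  obtain ⟨e, he⟩ := exists_null_ne_zero h.inH
  change th2 τ e ≠ 0 at he
  obtain ⟨D, hD0, hD⟩ := exists_den h e
  obtain ⟨C, hC⟩ := exists_arch h e
  choose F hF using exists_four
  obtain ⟨n, hn⟩ : ∃ n, n = Fintype.card ι := ⟨_, rfl⟩
  obtain ⟨k, hk⟩ := pow_unbounded_of_one_lt ((2 ^ n * |(D : ℝ)| * (2 ^ n * C)) ^ 4) one_lt_two
  refine ⟨k + n * 4, fun g M ε x => if hM : M = 0 then 0 else
    have : NeZero M := ⟨hM⟩
    (2 ^ n * D : ℤ) ^ 4 * YW τ (th2 τ e) (F M) (kerM M g : Set (ν → ZMod M))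
      (Function.update (fun _ => Classical.epsilon fun η =>
        YW τ (th2 τ e) (F M) (kerM M g : Set (ν → ZMod M)) (fun _ => η) 0 ≠ 0) 0 (bz ε))
      (slotW g M fun i => (x i : ℝ)), fun g M hg => ?_⟩
  have hM : M ≠ 0 := hg.1.1.ne_zero
  have : NeZero M := ⟨hM⟩
  have hM0 : (0 : ℝ) < M := by positivity
  have koi : ∀ g : MZ, Iso g M → ∃ c : ℂ, c ≠ 0 ∧ ∀ k w,
      YW τ (th2 τ e) (F M) (kerM M g : Set (ν → ZMod M)) k w =
        c * ∏ i, XX (act (zr g) τ) (k i) (mR g *ᵥ w i) := fun g hg =>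
    YW_koi (Iso.odd hg) (Iso.simR hg) (fun i j => (by norm_num : ((8 : ℕ) : ℤ) ∣ 32).trans
      (hg.2.1 i j)) (hF M) h.inH (inH_act hg.2.2 hM0 h.inH) (rel_act hg.2.2 hM0 h.inH) he
  have inv : ∀ g : MZ, Iso g M → ∀ x : ν → ℝ,
      mR g *ᵥ ((M : ℝ)⁻¹ • mR (M4.Kz.adj g) *ᵥ x) = x := fun g hg x => by
    have h1 : mR g * mR (M4.Kz.adj g) = (M : ℝ) • 1 := by
      rw [show mR g * mR (M4.Kz.adj g) = mR (g * M4.Kz.adj g) from
        (Matrix.map_mul (f := Int.castRingHom ℝ)).symm, (Iso.simR hg).mul_adj (by omega)]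
      ext i j
      simp only [mR, map_apply, Matrix.smul_apply, one_apply, smul_eq_mul]
      split_ifs <;> simp
    rw [mulVec_smul, mulVec_mulVec, h1, smul_mulVec, one_mulVec, smul_smul,
      inv_mul_cancel₀ hM0.ne', one_smul]
  simp only [dif_neg hM]
  refine ⟨?_, fun ε x => ?_, fun φ ε x => ?_, fun σ g' W hg' hW N x x' hN hx ε => ?_⟩
  · obtain ⟨c, hc, H⟩ := koi g hg
    obtain ⟨e', he'⟩ := bpfXX (inH_act hg.2.2 hM0 h.inH) 0
    have h1 := Classical.epsilon_spec (p := fun η =>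
      YW τ (th2 τ e) (F M) (kerM M g : Set (ν → ZMod M)) (fun _ => η) 0 ≠ 0) ⟨bz e', by
        rw [H]
        exact mul_ne_zero hc (Finset.prod_ne_zero_iff.2 fun _ _ => by simpa using he')⟩
    generalize (Classical.epsilon fun η => YW τ (th2 τ e) (F M) (kerM M g : Set (ν → ZMod M))
      (fun _ => η) 0 ≠ 0) = η at h1 ⊢
    rw [H] at h1
    have h2 := Finset.prod_ne_zero_iff.1 (right_ne_zero_of_mul h1) 0 (Finset.mem_univ _)
    rw [Pi.zero_apply, mulVec_zero] at h2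
    refine ⟨(2 ^ n * D : ℤ) ^ 4 * c * XX (act (zr g) τ) η 0 ^ 3, mul_ne_zero (mul_ne_zero
      (pow_ne_zero _ (by simpa using hD0)) hc) (pow_ne_zero _ h2), fun ε x => ?_⟩
    rw [H, slotW, prod_slot, inv g hg, xx]
    ring
  · obtain ⟨N, a, hN, rfl⟩ := exists_frac x
    rw [slotW_rat]
    refine YW_int (ρ := Fin 4) hN (fun k a => ?_) _ _ _
    have := XX_int h.inH (c := D / th2 τ e) (fun k => by
      rw [div_mul_eq_mul_div, mul_div_assoc]; exact hD k) (mul_ne_zero hN hM) k a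
    rw [← hn] at this
    refine (congrArg _ ?_).mp this
    push_cast; ring
  · obtain ⟨N, a, hN, rfl⟩ := exists_frac x
    have ht : 0 < ‖φ (th2 τ e)‖ := by simpa using he
    have hB : ∀ k a, ‖φ (XX τ k (M4.Kz.rq (N * M) a) / th2 τ e)‖ ≤ 2 ^ n * C := fun k a => by
      have := bound_emb φ h.inH (N₀ := C * ‖φ (th2 τ e)‖) (fun k => by
        rw [← div_le_iff₀ ht, ← norm_div, ← map_div₀]; exact hC φ k) (mul_ne_zero hN hM) k a
      rwa [map_div₀, norm_div, div_le_iff₀ ht, mul_assoc, hn]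
    have h2 : (Nat.card (kerM M g : Set (ν → ZMod M)) : ℝ) ≤ (M : ℝ) ^ n := by
      rw [hn]
      exact_mod_cast card_kerM (Iso.simR hg)
    have h3 : 0 ≤ 2 ^ n * C := (norm_nonneg _).trans (hB 0 0)
    have h4 : (1 : ℝ) ≤ M := by exact_mod_cast Nat.one_le_iff_ne_zero.2 hM
    rw [slotW_rat, map_mul, norm_mul, map_pow, map_intCast, norm_pow, Complex.norm_intCast]
    calc _ ≤ |((2 ^ n * D : ℤ) : ℝ)| ^ 4 * ((M : ℝ) ^ n * (2 ^ n * C)) ^ 4 :=
          mul_le_mul_of_nonneg_left ((YW_le (ρ := Fin 4) hN φ hB _ _ _).trans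
            (by rw [Fintype.card_fin]; gcongr)) (by positivity)
      _ = (2 ^ n * |(D : ℝ)| * (2 ^ n * C)) ^ 4 * M ^ (n * 4) := by
          push_cast; rw [abs_mul, abs_of_pos (by positivity : (0 : ℝ) < 2 ^ n)]; ring
      _ ≤ (2 * M) ^ k * (2 * M) ^ (n * 4) := by
          refine mul_le_mul (hk.le.trans ?_) ?_ (by positivity) (by positivity) <;> gcongr <;>
            linarith
      _ = _ := (pow_add _ _ _).symm
  · have hL : N * M ≠ 0 := mul_ne_zero hN hM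
    obtain ⟨R, hR⟩ := exists_cong r σ (N := 4 * (2 * (N * M)) * (2 * (N * M))) (by positivity)
    have hd : ∀ {L : ℕ}, L ∣ 4 * (2 * (N * M)) * (2 * (N * M)) → Cong r σ L R := fun hL =>
      cong_iff.2 ((cong_iff.1 hR).of_dvd hL)
    have hG := bijOn_kerM (R := R) (Iso.simR hg) (Iso.simR hg') (fun a b hab => by
      have := sim_gal h hL hR ((N : ℤ) • a) b
      rw [mulVec_smul, Ef_smul_left, Ef_smul_left, (ee_div_eq_one hL (n := N * Ef (R *ᵥ a) _)).2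
        (by push_cast; exact mul_dvd_mul_left _ hab), map_eq_one_iff σ σ.injective,
        ee_div_eq_one hL, Nat.cast_mul] at this
      exact (mul_dvd_mul_iff_left (by omega)).1 this) fun a ha => by
        refine mem_Ker.1 fun i => dvd_of_padic hM fun l _ => ?_
        refine (dvd_sub_left ?_).1 (cong_vec (hd ⟨16 * N * N * M, by ring⟩) (hW l) a i)
        exact Finset.dvd_sum fun j _ => Dvd.dvd.mul_left
          (by exact_mod_cast (Int.cast_dvd_cast (α := ℤ_[l]) _ _ (mem_Ker.2 ha j))) _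
    have gal := YW_gal (σ := (σ : ℂ →+* ℂ)) h.inH (hF M) hN
      (exact_gal h he hL (hd ⟨4, by ring⟩)) (sim_gal h hL hR) hG
    have h0 : (fun η => YW τ (th2 τ e) (F M) (kerM M g : Set (ν → ZMod M)) (fun _ => η) 0 ≠ 0) =
        fun η => YW τ (th2 τ e) (F M) (kerM M g' : Set (ν → ZMod M)) (fun _ => η) 0 ≠ 0 := by
      funext η
      have := gal (fun _ => η) 0
      simp only [Pi.zero_apply, mulVec_zero, rq_zero] at this
      rw [show (0 : Fin 4 → ν → ℝ) = fun _ => 0 from rfl, ← this, map_ne_zero]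
    obtain ⟨c, -, H⟩ := koi g' hg'
    obtain ⟨m, hm⟩ := padic_vec (N := N * N * M) (by positivity)
      (a := g' *ᵥ R *ᵥ M4.Kz.adj g *ᵥ x) (b := (M : ℤ) • x') fun l _ i => by
        have h1 := cong_vec (hd (L := N * N * M) ⟨16 * M, by ring⟩) (hW l) (M4.Kz.adj g *ᵥ x) i
        have h2 := mul_dvd_mul_left (M : ℤ_[l]) (hx l i)
        rw [mulVec_mulVec x g, (Iso.simR hg).mul_adj (by omega), smul_mulVec, one_mulVec,
          show (fun j => (((M : ℤ) • x) j : ℤ_[l])) = (M : ℤ_[l]) • fun j => (x j : ℤ_[l]) from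
            funext fun j => by simp, mulVec_smul] at h1
        rw [← Nat.cast_mul, mul_comm M, sq] at h2
        refine (dvd_add h1 h2).trans (dvd_of_eq ?_)
        simp [mul_sub]
    rw [map_mul, map_pow, map_intCast, slotW_rat, h0]
    refine congrArg _ ((gal _ _).trans ?_)
    have e1 : (fun i => M4.Kz.rq (N * M)
        (R *ᵥ (Pi.single 0 (M4.Kz.adj g *ᵥ x) : Fin 4 → ν → ℤ) i)) =
        Pi.single 0 (M4.Kz.rq (N * M) (R *ᵥ M4.Kz.adj g *ᵥ x)) := by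
      funext i
      by_cases hi : i = 0
      · rw [hi, Pi.single_eq_same, Pi.single_eq_same]
      · rw [Pi.single_eq_of_ne hi, Pi.single_eq_of_ne hi, mulVec_zero, rq_zero]
    have e2 : (fun i => (((x' i : ℚ) / N : ℚ) : ℝ)) = M4.Kz.rq N x' := by
      funext i; simp [M4.Kz.rq, rz, div_eq_inv_mul]
    have e3 : mR g' *ᵥ M4.Kz.rq (N * M) (R *ᵥ M4.Kz.adj g *ᵥ x) =
        M4.Kz.rq N (x' + (N : ℤ) • (N : ℤ) • m) := by
      rw [M4.Kz.rq, mulVec_smul, mR_mulVec, hm, ← rq_mul hM N, mul_comm M, smul_add, smul_smul,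
        smul_smul, M4.Kz.rq]
      congr 4
      push_cast
      ring
    rw [e1, H, H, slotW, prod_slot, prod_slot, inv g' hg', e2, e3,
      XX_rq_shift (inH_act hg'.2.2 hM0 h.inH) hN, Ef_smul_right,
      (ee_div_eq_one hN).2 ((dvd_mul_right _ _).mul_left _), one_mul]

end MG.Kz
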