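import Pool.Agent.Lib.MP_33b3f9_ag.MG.SDefs

/-!
The numerics of case II.
-/

set_option autoImplicit false

noncomputable section

namespace MG

open Matrix Filter M4 Pool.Agent.M4.Det Pool.Agent.M4.Mx

theorem nosp_ev (A : ℝ) {θ : ℝ} (h : 0 < θ) :
    ∃ Y₀ : ℕ, ∀ Y : ℕ, Y₀ ≤ Y → A * Real.log Y ^ 2 ≤ (Y : ℝ) ^ θ := by
  have h1 := ((isLittleO_log_rpow_rpow_atTop 2 h).const_mul_left A).bound one_pos
  obtain ⟨Y₀, h2⟩ := eventually_atTop.1 (tendsto_natCast_atTop_atTop.eventually h1)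
  refine ⟨Y₀, fun Y hY => ?_⟩
  have h3 := h2 Y hY
  rw [one_mul, Real.rpow_two, Real.norm_eq_abs, Real.norm_eq_abs,
    abs_of_nonneg (Real.rpow_nonneg (Nat.cast_nonneg Y) θ)] at h3
  exact (le_abs_self _).trans h3

variable [Dim] {e : ℕ} {a b : MZ} {τ : Mat} {L : Type} [Field L] {l₁ : ℕ}

theorem DD.nosp_mono {F : Frs e a b L l₁} {LY : Finset (GP L l₁)} {Y x x' : ℕ} {d : MZ}
    (h : DD F LY Y x d) (hY : 1 ≤ Y) (hx : x ≤ x') : DD F LY Y x' d := by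
  obtain ⟨μ, Ex, h1, h2, h3, h4⟩ := h.ex
  exact ⟨fun i j => (h.bd i j).trans (Nat.pow_le_pow_right hY hx), μ, Ex, h1, h2, h3.trans hx, h4⟩

/-- fewer primes and a larger height -/
def SA.nospMono {z : MorD e a b ℂ} {F : Frs e a b L l₁} {LM LM' : Finset (GP L l₁)} {H H' : ℕ}
    (S : SA z F LM H) (hL : LM' ⊆ LM) (hH : H ≤ H') : SA z F LM' H' :=
  { S with
    ψ_le := fun s t p q i j => (S.ψ_le s t p q i j).trans (Nat.cast_le.2 hH)
    B_le := fun k s t p q => (S.B_le k s t p q).trans (Nat.cast_le.2 hH)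
    repr_le := fun k s t p q => (S.repr_le k s t p q).trans (Nat.cast_le.2 hH)
    m_le := S.m_le.trans hH
    red := fun l hl => S.red l (hL hl) }

theorem nosp {z : MorD e a b ℂ} {F : Frs e a b L l₁} (h1 : RSst z F) (h2 : BXst τ z F)
    (h3 : ¬ ARITHst e (Ist a b) τ) : NOSPst F := by
  intro θ hθ
  by_contra hc
  obtain ⟨C, h1⟩ := h1
  obtain ⟨C', h2⟩ := h2
  obtain ⟨t, ht0, ht1, ht2⟩ : ∃ t : ℝ, 0 < t ∧ 3 * t ≤ 1 ∧ 3 * t ≤ θ :=
    ⟨min θ 1 / 3, by positivity, by linarith [min_le_right θ 1], by linarith [min_le_left θ 1]⟩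
  obtain ⟨Y₁, hY₁⟩ := nosp_ev ((C' + 1) * (C + 1)) ht0
  refine h3 ⟨t, ht0, by linarith, 1, one_pos, fun Y₀ => ?_⟩
  simp only [not_exists, not_forall, not_and] at hc
  obtain ⟨Y, x, LY, a1, a2, a3, a4, l, hl, q, d, w, a5, a6, a7⟩ := hc (max Y₀ (max Y₁ 3))
  have b0 : Y₀ ≤ Y := (le_max_left _ _).trans a1
  have b1 := hY₁ Y ((le_max_left _ _).trans ((le_max_right _ _).trans a1))
  have b3 : 3 ≤ Y := (le_max_right _ _).trans ((le_max_right _ _).trans a1)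
  have c1 : (1 : ℝ) ≤ Y := by exact_mod_cast (by omega : 1 ≤ Y)
  have c0 : (0 : ℝ) < Y := by linarith
  have c2 : 1 ≤ Real.log Y := by
    rw [Real.le_log_iff_exp_le c0]
    have : (3 : ℝ) ≤ Y := by exact_mod_cast b3
    linarith [Real.exp_one_lt_d9]
  have c3 : ((max x 1 : ℕ) : ℝ) ≤ (Y : ℝ) ^ (1 - 3 * t) := by
    rw [Nat.cast_max, Nat.cast_one]
    exact max_le (a4.trans (Real.rpow_le_rpow_of_exponent_le c1 (by linarith)))
      (Real.one_le_rpow c1 (by linarith))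
  have c4 : 1 ≤ max x 1 := le_max_right _ _
  have a5' := fun i => (a5 i).nosp_mono (by omega) (le_max_left x 1)
  generalize max x 1 = y at c3 c4 a5'
  have c5 : (1 : ℝ) ≤ (Y : ℝ) ^ (1 - t) := Real.one_le_rpow c1 (by linarith)
  have c6 : ((⌊(Y : ℝ) ^ (1 - t)⌋₊ : ℕ) : ℝ) ≤ (Y : ℝ) ^ (1 - t) := Nat.floor_le (by linarith)
  have c7 := Nat.lt_floor_add_one ((Y : ℝ) ^ (1 - t))
  have c8 : 1 ≤ ⌊(Y : ℝ) ^ (1 - t)⌋₊ := (Nat.one_le_floor_iff _).2 c5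
  generalize ⌊(Y : ℝ) ^ (1 - t)⌋₊ = s at c6 c7 c8
  have c9 : (y : ℝ) ≤ (Y : ℝ) ^ (1 - t) :=
    c3.trans (Real.rpow_le_rpow_of_exponent_le c1 (by linarith))
  have hC : (0 : ℝ) ≤ C := Nat.cast_nonneg C
  have hC' : (0 : ℝ) ≤ C' := Nat.cast_nonneg C'
  have d0 : 0 < Real.log Y ^ 2 := by positivity
  have d1 : s + C * y ≤ LY.card := by
    have e1 : (Y : ℝ) ^ (1 - t) * (Y : ℝ) ^ t = Y := by
      rw [← Real.rpow_add c0, sub_add_cancel, Real.rpow_one]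
    have e2 : ((C : ℝ) + 1) * Real.log Y ^ 2 ≤ (Y : ℝ) ^ t :=
      le_trans (mul_le_mul_of_nonneg_right (le_mul_of_one_le_left (by linarith) (by linarith))
        d0.le) b1
    have e3 : (s : ℝ) + C * y ≤ (Y : ℝ) ^ (1 - t) * (C + 1) := by
      nlinarith [mul_le_mul_of_nonneg_left c9 hC]
    have e4 : ((s : ℝ) + C * y) * Real.log Y ^ 2 ≤ LY.card * Real.log Y ^ 2 :=
      calc ((s : ℝ) + C * y) * Real.log Y ^ 2
          ≤ (Y : ℝ) ^ (1 - t) * (C + 1) * Real.log Y ^ 2 := mul_le_mul_of_nonneg_right e3 d0.le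
        _ ≤ (Y : ℝ) ^ (1 - t) * (Y : ℝ) ^ t := by
          rw [mul_assoc]
          exact mul_le_mul_of_nonneg_left e2 (by linarith)
        _ ≤ _ := e1.le.trans a3
    exact_mod_cast le_of_mul_le_mul_right e4 d0
  obtain ⟨LM, d2, d3, ⟨S⟩⟩ := h1 Y y LY (by omega) c4 a2 (by omega) l hl q d w a5' a6 a7
  obtain ⟨LM', d4, rfl⟩ := Finset.exists_subset_card_eq (s := LM) (n := s) (by omega)
  obtain ⟨Om, _, g, M, f1, f2, f3⟩ := h2 Y ((C + 1) * y) LM' (by omega)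
    (Nat.mul_pos (Nat.succ_pos C) c4) (fun l hl => a2 l (d2 (d4 hl)))
    (S.nospMono d4 (Nat.pow_le_pow_right (by omega) (Nat.mul_le_mul_right y (Nat.le_succ C))))
  refine ⟨Y, b0, _, Om, inferInstance, Finset.univ, g, M, f1, ?_, c6, f2, ?_, fun μ hμ => ?_⟩
  · have : (1 : ℝ) ≤ LM'.card := by exact_mod_cast c8
    linarith
  · rw [one_mul, Finset.card_univ, Fintype.card_pi, Nat.cast_prod]
  · refine (Nat.cast_le.2 (f3 μ hμ)).trans ?_
    rw [Nat.cast_mul, Nat.cast_pow, Nat.cast_pow]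
    refine mul_le_mul_of_nonneg_right ?_ (by positivity)
    rw [← Real.log_le_iff_le_exp (by positivity), Real.log_pow]
    have e1 : (Y : ℝ) ^ (1 - 3 * t) * (Y : ℝ) ^ t = (Y : ℝ) ^ (1 - 2 * t) := by
      rw [← Real.rpow_add c0]
      ring_nf
    have e2 : (C' : ℝ) * (C + 1) * Real.log Y ≤ (Y : ℝ) ^ t := by
      refine le_trans (mul_le_mul (by nlinarith) (by nlinarith) (by linarith) (by positivity)) b1
    calc ((C' * ((C + 1) * y) : ℕ) : ℝ) * Real.log Y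
        = y * ((C' : ℝ) * (C + 1) * Real.log Y) := by
          push_cast
          ring
      _ ≤ (Y : ℝ) ^ (1 - 3 * t) * (Y : ℝ) ^ t :=
          mul_le_mul c3 e2 (by positivity) (by positivity)
      _ = _ := e1

end MG
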