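import Pool.Agent.Lib.MP_33b3f9_ag.MG.Geo
import Pool.Agent.Lib.MP_33b3f9_ag.MG.Nosp
import Pool.Agent.Lib.MP_33b3f9_ag.MG.Gram
import Pool.Agent.Lib.MP_33b3f9_ag.MG.KzPts
import Pool.Agent.Lib.MP_33b3f9_ag.MG.KzFinL
import Pool.Agent.Lib.MP_33b3f9_ag.MG.Sv.Out
import Pool.Agent.Lib.MP_33b3f9_ag.MG.Bx.Main
import Pool.Agent.Lib.MP_33b3f9_ag.MG.CB.Main
import Pool.Agent.Lib.MP_33b3f9_ag.MG.F.Main
import Pool.Agent.Lib.MP_33b3f9_ag.MG.W.Main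
import Pool.Agent.Lib.MP_33b3f9_ag.MG.B2.Main
import Pool.Agent.Lib.MP_33b3f9_ag.MG.C1.Main
import Pool.Agent.Lib.MP_33b3f9_ag.MG.RS.Fin

/-!
The two halves together.
-/

set_option autoImplicit false

noncomputable section

namespace MG

open Matrix M4 Pool.Agent.M4.Det Pool.Agent.M4.Mx

variable [Dim] {e : ℕ} {a b : MZ} {m n : ℕ} {τ : Mat} {K : IntermediateField ℚ ℂ} {r : Rep K}
  {L : Type} [Field L] {l₁ N₀ : ℕ}

theorem core (h : AV τ K r) (D : PD e a b m n) (hτ : τ ∈ FX a b) (hE : EndX a b τ)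
    (hc : COMM a b r) (hg : GEN a b (cst τ)) [NumberField L] {F : Frs e a b L l₁}
    (hS : Sys F r) (ε : ℤ) (hε : ε = 1 ∨ ε = -1) : ¬ PAT (Ty τ D F r N₀ ε) := fun hp => by
  obtain ⟨z⟩ := D.pel.mor_closed ℂ
  exact caseI h D hS (Kz.mu h) Kz.lagr (Kz.pts h) (gram h.inH) (cb D hS hc)
    (nosp (rs D.pel z F) (bx h D.pel hτ z hS Kz.lagr (Kz.pts h)) (geo D.pel hτ hE hg)) ε
    (sieve L ε hε _ (12 * e) (fun p Δ ⟨_, _, _, _, _, _, _, _, h1, h2, _⟩ => ⟨h1, h2⟩) hp)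

theorem full (h : AV τ K r) (hP : PEL e a b m n) (hτ : τ ∈ FX a b) (hE : EndX a b τ)
    (hc : COMM a b r) (hg : GEN a b (cst τ)) : FULL e a b r := by
  obtain ⟨D⟩ := hP.pd
  obtain ⟨N₀, hN⟩ := B2.red D
  exact W.full h D hc (fal h hP hE hc) (fun _ _ h hc => hN _ _ _ h hτ hc) (fun _ _ h => Kz.mu h)
    fun _ _ h hc L _ _ l₁ F hS => core h D hτ hE hc hg hS

end MG
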