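import Mathlib

/-!
Eigenprojectors of a rational matrix with irreducible minimal polynomial.
-/

set_option autoImplicit false

noncomputable section

namespace MG

open Matrix Polynomial

section alg

variable {k R : Type} [CommRing k] [Ring R] [Algebra k R] {A Y : R} {μ : k}

theorem morda_l (h : A * Y = μ • Y) (p : k[X]) : aeval A p * Y = p.eval μ • Y := by
  obtain ⟨q, hq⟩ := X_sub_C_dvd_sub_C_eval (p := p) (a := μ)
  conv_lhs => rw [eq_add_of_sub_eq hq, mul_comm (X - C μ)]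
  simp [add_mul, mul_assoc, sub_mul, h, Algebra.algebraMap_eq_smul_one]

theorem morda_r (h : Y * A = μ • Y) (p : k[X]) : Y * aeval A p = p.eval μ • Y := by
  obtain ⟨q, hq⟩ := X_sub_C_dvd_sub_C_eval (p := p) (a := μ)
  conv_lhs => rw [eq_add_of_sub_eq hq]
  simp [mul_add, ← mul_assoc, mul_sub, h, Algebra.algebraMap_eq_smul_one]

theorem morda_eig {g p : k[X]} (hg : aeval A g = 0) (hp : g ∣ (X - C μ) * p) :
    A * aeval A p = μ • aeval A p := by
  obtain ⟨q, hq⟩ := hp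
  have := congrArg (aeval A) hq
  simpa [hg, sub_mul, sub_eq_zero, Algebra.algebraMap_eq_smul_one] using this

end alg

variable {o : Type} [Fintype o] [DecidableEq o]

theorem morda_map {K k : Type} [CommRing K] [CommRing k] (φ : K →+* k) (M : Matrix o o K)
    (p : K[X]) : aeval (M.map φ) (p.map φ) = (aeval M p).map φ :=
  (map_aeval_eq_aeval_map (φ := φ) (ψ := φ.mapMatrix) (RingHom.ext fun x => by
    ext i j
    simp [algebraMap_matrix_apply, apply_ite φ]) p M).symm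

theorem morda_nat {K : Type} [Field K] {π : Matrix o o K} (h : π * π = π) :
    ∃ r : ℕ, π.trace = r := by
  have h1 : IsIdempotentElem (toLin' π) := by
    rw [IsIdempotentElem, Module.End.mul_eq_comp, ← toLin'_mul, h]
  exact ⟨_, (trace_toLin'_eq π).symm.trans (LinearMap.IsIdempotentElem.isProj_range _ h1).trace⟩

theorem morda_aux {K : Type} [Field K] {f : ℚ[X]} (hf : Irreducible f) (M : Matrix o o ℚ)
    (hM : aeval M f = 0) (i : ℚ →+* K) (θ : K) (hθ : (f.map i).IsRoot θ) :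
    ∃ (p : K[X]) (r : ℕ), p.eval θ = 1 ∧ f.map i ∣ (X - C θ) * p ∧ (aeval (M.map i) p).trace = r := by
  obtain ⟨h, hh⟩ := dvd_iff_isRoot.2 hθ
  have hs : ((X - C θ) * h).Separable := by
    rw [← hh]
    exact hf.separable.map
  have h0 : h.eval θ ≠ 0 := fun e => not_isUnit_X_sub_C θ
    (hs.isCoprime.isUnit_of_dvd' dvd_rfl (dvd_iff_isRoot.2 e))
  obtain ⟨p, p1, p2⟩ : ∃ p : K[X], p.eval θ = 1 ∧ f.map i ∣ (X - C θ) * p :=
    ⟨C (h.eval θ)⁻¹ * h, by simp [h0], by rw [hh]; exact mul_dvd_mul_left _ (dvd_mul_left _ _)⟩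
  have hg : aeval (M.map i) (f.map i) = 0 := by
    rw [morda_map, hM, Matrix.map_zero _ (map_zero _)]
  obtain ⟨r, hr⟩ := morda_nat (π := aeval (M.map i) p)
    ((morda_l (morda_eig hg p2) p).trans (by rw [p1, one_smul]))
  exact ⟨p, r, p1, p2, hr⟩

theorem morda_mv {K k : Type} [CommRing K] [CommRing k] {f : ℚ[X]} {M : Matrix o o ℚ}
    {i : ℚ →+* K} {θ : K} {p : K[X]} {r : ℕ} (φ : K →+* k) (p1 : p.eval θ = 1)
    (p2 : f.map i ∣ (X - C θ) * p) (p3 : (aeval (M.map i) p).trace = r) :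
    (p.map φ).eval (φ θ) = 1 ∧ f.map (φ.comp i) ∣ (X - C (φ θ)) * p.map φ ∧
      (aeval (M.map (φ.comp i)) (p.map φ)).trace = r := by
  refine ⟨by rw [eval_map, eval₂_hom, p1, map_one], ?_, ?_⟩
  · simpa [Polynomial.map_map] using Polynomial.map_dvd φ p2
  · rw [RingHom.coe_comp, ← Matrix.map_map, morda_map, ← AddMonoidHom.map_trace φ, p3, map_natCast]

theorem morda_proj {f : ℚ[X]} (hf : Irreducible f) (M : Matrix o o ℚ) (hM : aeval M f = 0) :
    ∃ r : ℕ, ∀ (k : Type) [Field k] [CharZero k] (ζ : k), (f.map (algebraMap ℚ k)).eval ζ = 0 →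
      ∃ p : k[X], p.eval ζ = 1 ∧ f.map (algebraMap ℚ k) ∣ (X - C ζ) * p ∧
        (aeval (M.map (algebraMap ℚ k)) p).trace = r := by
  have := Fact.mk hf
  obtain ⟨p, r, p1, p2, p3⟩ := morda_aux hf M hM _ _ (AdjoinRoot.isRoot_root f)
  refine ⟨r, fun k _ _ ζ hζ => ?_⟩
  have h := morda_mv (AdjoinRoot.lift (algebraMap ℚ k) ζ (by rwa [eval_map] at hζ)) p1 p2 p3
  rw [AdjoinRoot.lift_root, AdjoinRoot.lift_comp_of] at h
  exact ⟨_, h⟩

theorem morda_half {k : Type} {e : ℕ} (T : Finset k) (σ : k → k) (h1 : ∀ x ∈ T, σ x ∈ T)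
    (h2 : ∀ x ∈ T, σ (σ x) = x) (h3 : ∀ x ∈ T, σ x ≠ x) (hc : T.card = 2 * e) :
    ∃ ζ : Fin e → k, Function.Injective ζ ∧ (∀ s, ζ s ∈ T) ∧ ∀ s t, σ (ζ s) ≠ ζ t := by
  obtain ⟨_, -⟩ := exists_wellFoundedLT (α := k)
  have c1 := Finset.card_filter_add_card_filter_not (s := T) fun x => x < σ x
  have c2 : (T.filter fun x => x < σ x).card = (T.filter fun x => ¬ x < σ x).card := by
    refine Finset.card_nbij' σ σ (fun x hx => ?_) (fun x hx => ?_) (fun x hx => ?_) fun x hx => ?_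
    all_goals obtain ⟨a, b⟩ := Finset.mem_filter.1 hx
    · exact Finset.mem_filter.2 ⟨h1 x a, (h2 x a).symm ▸ b.not_gt⟩
    · exact Finset.mem_filter.2 ⟨h1 x a, (h2 x a).symm ▸ (not_lt.1 b).lt_of_ne (h3 x a)⟩
    · exact h2 x a
    · exact h2 x a
  obtain ⟨ζ, hζ⟩ := Function.Embedding.exists_of_card_le_finset (α := Fin e)
    (s := T.filter fun x => x < σ x) (by rw [Fintype.card_fin]; omega)
  have m := fun s => Finset.mem_filter.1 (hζ ⟨s, rfl⟩)
  refine ⟨ζ, ζ.injective, fun s => (m s).1, fun s t e => ?_⟩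
  have := (m t).2
  rw [← e, h2 _ (m s).1] at this
  exact this.not_gt (m s).2

end MG
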