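import Pool.Agent.Lib.MP_33b3f9_ag.MG.MorA

/-!
A diagonal tuple with separated entries and an antidiagonal tuple generate everything.
-/

set_option autoImplicit false

noncomputable section

namespace MG

open Matrix Pool.Agent.M4.Mx

variable {R : Type} [CommRing R]

theorem morg_sep {o : Type} [Fintype o] [DecidableEq o] (ζ : o → R)
    (sep : ∀ p q, p ≠ q → IsUnit (ζ p - ζ q)) (A : Subalgebra R (o → R)) (h : ζ ∈ A) (x : o → R) :
    x ∈ A := by
  rw [pi_eq_sum_univ' x]
  refine sum_mem fun p _ => A.smul_mem ?_ _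
  obtain ⟨u, hu⟩ : IsUnit (∏ q ∈ Finset.univ.erase p, (ζ p - ζ q)) :=
    IsUnit.prod_iff.2 fun q hq => sep p q (Finset.ne_of_mem_erase hq).symm
  have e : (Pi.single p 1 : o → R) =
      (↑u⁻¹ : R) • ∏ q ∈ Finset.univ.erase p, (ζ - algebraMap R (o → R) (ζ q)) := by
    funext r
    rw [Pi.smul_apply, Finset.prod_apply]
    by_cases hr : r = p
    · subst hr
      simp [← hu]
    · rw [Finset.prod_eq_zero (Finset.mem_erase.2 ⟨hr, Finset.mem_univ r⟩) (by simp)]
      simp [hr]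
  rw [e]
  exact A.smul_mem (prod_mem fun q _ => sub_mem h (A.algebraMap_mem _)) _

theorem gen_of {e : ℕ} {α β : Fin e → M2 R} {ζ : Fin e → Fin 2 → R} {n : Fin e → R}
    (hn : ∀ s, IsUnit (n s)) (hα : ∀ s, α s = diagonal (ζ s)) (hβ : ∀ s, β s = !![0, n s; 1, 0])
    (sep : ∀ s c s' c', (s, c) ≠ (s', c') → IsUnit (ζ s c - ζ s' c')) :
    Algebra.adjoin R {α, β} = ⊤ := by
  choose u hu using hn
  obtain rfl : n = fun s => (u s : R) := funext fun s => (hu s).symm
  let D : (Fin e × Fin 2 → R) →ₐ[R] (Fin e → M2 R) := AlgHom.pi fun s =>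
    (diagonalAlgHom R).comp (AlgHom.pi fun c => Pi.evalAlgHom R (fun _ => R) (s, c))
  have h0 : D (fun p => ζ p.1 p.2) ∈ Algebra.adjoin R {α, β} :=
    Algebra.subset_adjoin (Or.inl (funext fun s => (hα s).symm))
  have hD : ∀ x, D x ∈ Algebra.adjoin R {α, β} :=
    morg_sep (fun p : Fin e × Fin 2 => ζ p.1 p.2) (fun p q h => sep _ _ _ _ h)
      ((Algebra.adjoin R {α, β}).comap D) h0
  refine eq_top_iff.2 fun y _ => ?_
  have e : y = D (fun p => y p.1 p.2 p.2) +
      D (fun p => if p.2 = 0 then y p.1 0 1 * ↑(u p.1)⁻¹ else y p.1 1 0) * β := by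
    funext s
    ext i j
    fin_cases i <;> fin_cases j <;> simp [D, hβ, Matrix.mul_apply]
  rw [e]
  exact add_mem (hD _) (mul_mem (hD _) (Algebra.subset_adjoin (Or.inr rfl)))

end MG
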