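import Pool.Agent.Lib.MP_33b3f9_ag.MG.MorS
import Pool.Agent.Lib.MP_33b3f9_ag.MG.MorG
import Pool.Agent.Lib.MP_33b3f9_ag.MG.MorDA

/-!
The splitting over a field that contains the eigenvalues.
-/

set_option autoImplicit false

noncomputable section

namespace MG

open Matrix Polynomial Pool.Agent.M4.Mx
open scoped Kronecker

variable [Dim] {e : ℕ} {a b : MZ} {m n : ℕ}

theorem PEL.sq_ne (h : PEL e a b m n) {k : Type} [Field k] [CharZero k] {ζ : k}
    (hζ : ((minpoly ℚ (zM ℚ a)).map (algebraMap ℚ k)).eval ζ = 0) : ζ * ζ ≠ m := fun c => by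
  rw [eval_map_algebraMap] at hζ
  have hd : minpoly ℚ (zM ℚ a) ∣ X * X - C (m : ℚ) := by
    rw [minpoly.eq_of_irreducible_of_monic h.irr hζ (minpoly.monic (Algebra.IsIntegral.isIntegral _))]
    exact minpoly.dvd _ _ (by simp [c])
  obtain ⟨z, hz⟩ := IsAlgClosed.exists_aeval_eq_zero ℂ _ h.irr.degree_pos.ne'
  have h1 : z * z = m := by simpa [sub_eq_zero] using aeval_eq_zero_of_dvd_aeval_eq_zero hd hz
  have h2 := congrArg Complex.re h1
  have h3 := congrArg Complex.im h1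
  have h4 := (h.root z hz).2
  simp only [Complex.mul_re, Complex.mul_im, Complex.natCast_re, Complex.natCast_im] at h2 h3
  have h5 : z.re = 0 := (mul_eq_zero.1 (by linarith : z.re * z.im = 0)).resolve_right h4
  nlinarith [mul_self_pos.2 h4, (Nat.cast_nonneg m : (0 : ℝ) ≤ m)]

theorem PEL.conj_eig (h : PEL e a b m n) {k o : Type} [Field k] {ζ : k} {Y : Matrix ν o k}
    (hY : zM k a * Y = ζ • Y) : ζ • (zM k a * (zM k b * Y)) = (m : k) • (zM k b * Y) := by
  have h1 : a * adj a = (m : ℤ) • (1 : MZ) := by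
    have m0 : (m : ℚ) ≠ 0 := Nat.cast_ne_zero.2 h.m0.ne'
    have h2 : ((m : ℚ)⁻¹ • zM ℚ (adj a)) * zM ℚ a = 1 := by
      rw [Matrix.smul_mul, (h.rel ℚ).2.2.2.2, smul_smul, inv_mul_cancel₀ m0, one_smul]
    refine zM_injective ℚ ?_
    rw [zM_mul, zM_smul, zM_one, ← mul_eq_one_comm.1 h2, Matrix.mul_smul, smul_smul,
      Int.cast_natCast, mul_inv_cancel₀ m0, one_smul]
  rw [← Matrix.mul_smul, ← Matrix.mul_smul, ← hY, ← Matrix.mul_assoc (zM k b), (h.rel k).2.2.2.1,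
    Matrix.mul_assoc, ← Matrix.mul_assoc, ← zM_mul, h1, zM_smul, zM_one, Matrix.smul_mul,
    Matrix.one_mul, Int.cast_natCast]

theorem PEL.proj (h : PEL e a b m n) (k : Type) [Field k] [CharZero k]
    (hs : ((minpoly ℚ (zM ℚ a)).map (algebraMap ℚ k)).Splits) :
    ∃ T : Finset k, T.card = 2 * e ∧
      (∀ ζ, ζ ∈ T ↔ ((minpoly ℚ (zM ℚ a)).map (algebraMap ℚ k)).eval ζ = 0) ∧
      aeval (zM k a) ((minpoly ℚ (zM ℚ a)).map (algebraMap ℚ k)) = 0 ∧
      ∀ ζ ∈ T, ∃ p : k[X], p.eval ζ = 1 ∧ zM k a * aeval (zM k a) p = ζ • aeval (zM k a) p ∧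
        (aeval (zM k a) p).trace = 8 := by
  classical
  obtain ⟨r, hr⟩ := morda_proj h.irr (zM ℚ a) (minpoly.aeval ℚ _)
  have hg := morda_map (algebraMap ℚ k) (zM ℚ a) (minpoly ℚ (zM ℚ a))
  rw [minpoly.aeval, Matrix.map_zero _ (map_zero _), zM_map] at hg
  have hn := nodup_roots (h.irr.separable.map (f := algebraMap ℚ k))
  have hd := hs.natDegree_eq_card_roots
  rw [natDegree_map, h.deg] at hd
  have g0 := Polynomial.map_ne_zero (f := algebraMap ℚ k) h.irr.ne_zero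
  replace hr := hr k
  rw [zM_map] at hr
  generalize (minpoly ℚ (zM ℚ a)).map (algebraMap ℚ k) = g at *
  choose! p p1 p2 p3 using hr
  have mT : ∀ ζ, ζ ∈ g.roots.toFinset ↔ g.eval ζ = 0 := fun ζ => by
    rw [Multiset.mem_toFinset, mem_roots g0, IsRoot]
  have cT := (Multiset.toFinset_card_of_nodup hn).trans hd.symm
  obtain ⟨q, hq⟩ : g ∣ ∑ ζ ∈ g.roots.toFinset, p ζ - 1 := by
    by_cases q0 : ∑ ζ ∈ g.roots.toFinset, p ζ - 1 = 0
    · exact q0 ▸ dvd_zero _
    refine hs.dvd_of_roots_le_roots g0 ((Multiset.le_iff_subset hn).2 fun ξ hξ => ?_)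
    have x0 : g.eval ξ = 0 := (mem_roots g0).1 hξ
    rw [mem_roots q0, IsRoot, eval_sub, eval_finsetSum, Finset.sum_eq_single ξ (fun ζ hζ c => ?_)
      fun c => absurd ((mT ξ).2 x0) c, p1 ξ x0, eval_one, sub_self]
    simpa [sub_eq_zero, c.symm] using eval_eq_zero_of_dvd_of_eval_eq_zero (p2 ζ ((mT ζ).1 hζ)) x0
  have h8 : (r : k) = 8 := by
    have h1 := congrArg (fun q => (aeval (zM k a) q).trace) hq
    simp only [map_sub, map_sum, map_mul, hg, map_one, Matrix.zero_mul, trace_sub, trace_sum,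
      trace_one, trace_zero, Fintype.card_sum, h.card] at h1
    rw [Finset.sum_congr rfl fun ζ hζ => p3 ζ ((mT ζ).1 hζ), Finset.sum_const, cT] at h1
    have e0 : (e : k) ≠ 0 := Nat.cast_ne_zero.2 h.pos.ne'
    refine mul_left_cancel₀ (mul_ne_zero two_ne_zero e0) ?_
    simp only [nsmul_eq_mul] at h1
    push_cast at h1
    linear_combination h1
  exact ⟨_, cT, mT, hg, fun ζ hζ => ⟨p ζ, p1 ζ ((mT ζ).1 hζ), morda_eig hg (p2 ζ ((mT ζ).1 hζ)),
    h8 ▸ p3 ζ ((mT ζ).1 hζ)⟩⟩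

theorem PEL.eig (h : PEL e a b m n) (k : Type) [Field k] [CharZero k]
    (hs : ((minpoly ℚ (zM ℚ a)).map (algebraMap ℚ k)).Splits) :
    ∃ (ζ : Fin e → k) (P : Fin e → Matrix ν ω k), Function.Injective ζ ∧ (∀ s, ζ s ≠ 0) ∧
      (∀ s t, m / ζ s ≠ ζ t) ∧ ∀ s, zM k a * P s = ζ s • P s ∧
        (P s)ᵀ * (J ι k * zM k b) * P s = J (Fin 4) k := by
  obtain ⟨T, cT, mT, hg, hp⟩ := h.proj k hs
  obtain ⟨r1, -, r3, -, -⟩ := h.rel k
  have m0 : (m : k) ≠ 0 := Nat.cast_ne_zero.2 h.m0.ne'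
  have r2 := nonsing_inv_mul _ ((isUnit_iff_isUnit_det _).1 (h.unit_b k))
  have key : ∀ ζ ∈ T, ζ ≠ 0 ∧ m / ζ ∈ T ∧ ∃ P : Matrix ν ω k, zM k a * P = ζ • P ∧
      Pᵀ * (J ι k * zM k b) * P = J (Fin 4) k := fun ζ hζ => by
    obtain ⟨p, p1, p2, p3⟩ := hp ζ hζ
    have c1 := h.conj_eig p2
    have i1 := morda_l p2 p
    have i2 := fun Y => morda_r (A := zM k a) (Y := Y) (μ := ζ) (p := p)
    rw [p1] at i1 i2
    generalize aeval (zM k a) p = π at *
    have b0 : zM k b * π ≠ 0 := fun c => by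
      have := congrArg (fun Y => ((zM k b)⁻¹ * Y).trace) c
      simp [← Matrix.mul_assoc, r2, p3] at this
    have z0 : ζ ≠ 0 := fun c => b0 (by simpa [c, m0] using c1.symm)
    have c2 : zM k a * (zM k b * π) = (m / ζ) • (zM k b * π) := by
      rw [div_eq_inv_mul, mul_smul, ← c1, inv_smul_smul₀ z0]
    have c3 : (zM k a)ᵀ * (J ι k * zM k b * π) = ζ • (J ι k * zM k b * π) := by
      refine smul_right_injective _ m0 ?_
      have := congrArg (· * (ζ • (zM k b * π))) r1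
      simp only [Matrix.mul_assoc, Matrix.mul_smul, Matrix.smul_mul] at this ⊢
      rw [← Matrix.mul_smul, ← Matrix.mul_smul, c1] at this
      simpa only [Matrix.mul_smul, smul_comm ζ] using this
    have c4 : πᵀ * (J ι k * zM k b * π) = J ι k * zM k b * π := transpose_injective (by
      rw [transpose_mul, transpose_transpose, i2 _ (by
        rw [← transpose_smul, ← c3, transpose_mul _ (_ * π), transpose_transpose]), one_smul])
    obtain ⟨P, P1, P2⟩ := exists_symp π (J ι k * zM k b) (i1.trans (one_smul _ _)) p3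
      (by rw [transpose_mul, J_transpose, Matrix.mul_neg, r3, Matrix.mul_neg, Matrix.neg_mul])
      fun x x1 x2 => by
        have e1 : (J ι k * zM k b) *ᵥ x = 0 := by
          rw [← x1, mulVec_mulVec, ← c4, ← Matrix.mul_assoc, ← mulVec_mulVec, x1, x2]
        have e2 := congrArg (((zM k b)⁻¹ * J ι k) *ᵥ ·) e1
        simp only [mulVec_mulVec, mulVec_zero, Matrix.mul_assoc] at e2
        rw [← Matrix.mul_assoc (J ι k), J_squared] at e2
        simpa [r2, neg_mulVec] using e2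
    refine ⟨z0, (mT _).2 ?_, P, by rw [← P1, ← Matrix.mul_assoc, p2, Matrix.smul_mul], P2⟩
    simpa [hg, b0] using (morda_l c2 ((minpoly ℚ (zM ℚ a)).map (algebraMap ℚ k))).symm
  obtain ⟨ζ, z1, z2, z3⟩ := morda_half T (fun x => m / x) (fun x hx => (key x hx).2.1)
    (fun x _ => div_div_cancel₀ m0) (fun x hx c => h.sq_ne ((mT x).1 hx)
      ((div_eq_iff (key x hx).1).1 c).symm) cT
  choose P hP using fun s => (key _ (z2 s)).2.2
  exact ⟨ζ, P, z1, fun s => (key _ (z2 s)).1, z3, hP⟩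

omit [Dim] in
theorem mord_bd {k o : Type} [CommRing k] (S : Matrix o (Ix e) k) (x : Fin e → M2 k) (i : o) (j : ω)
    (c : Fin 2) (s : Fin e) : (S * blockDiagonal fun s => (1 : M8 k) ⊗ₖ x s) i ((j, c), s) =
      S i ((j, 0), s) * x s 0 c + S i ((j, 1), s) * x s 1 c := by
  rw [Matrix.mul_apply, Fintype.sum_prod_type_right, Finset.sum_eq_single s
    (fun t _ ht => by simp [blockDiagonal_apply, ht]) (by simp), Fintype.sum_prod_type,
    Finset.sum_eq_single j (fun l _ hl => by simp [hl]) (by simp)]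
  simp

omit [Dim] in
theorem mord_l {k o o' : Type} [CommRing k] [Fintype o] [DecidableEq o] {A : Matrix o o k}
    {Y : Matrix o o' k} {μ : k} (h : A * Y = μ • Y) (p : k[X]) : aeval A p * Y = p.eval μ • Y := by
  obtain ⟨q, hq⟩ := X_sub_C_dvd_sub_C_eval (p := p) (a := μ)
  conv_lhs => rw [eq_add_of_sub_eq hq, mul_comm (X - C μ)]
  simp [Matrix.add_mul, Matrix.mul_assoc, Matrix.sub_mul, h, Algebra.algebraMap_eq_smul_one]

theorem PEL.morD (h : PEL e a b m n) (k : Type) [Field k] [CharZero k]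
    (hs : ((minpoly ℚ (zM ℚ a)).map (algebraMap ℚ k)).Splits) :
    ∃ z : MorD e a b k, (∃ c : Fin e → k, (∀ s, c s ≠ 0) ∧ ∀ s, z.β s = !![0, c s; 1, 0]) ∧
      ∀ s, z.ζ s 0 * z.ζ s 1 = m := by
  obtain ⟨ξ, P, z1, z0, z3, hP⟩ := h.eig k hs
  obtain ⟨r1, r2, r3, -, r5⟩ := h.rel k
  have m0 : (m : k) ≠ 0 := Nat.cast_ne_zero.2 h.m0.ne'
  have hn : ∀ s, ∃ c : k, c ≠ 0 ∧ zM k b * (zM k b * P s) = c • P s := fun s => by
    have e1 : (zM k a + zM k (adj a)) * P s = (ξ s + m / ξ s) • P s := by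
      have := congrArg (zM k (adj a) * ·) (hP s).1
      simp only [← Matrix.mul_assoc, r5, Matrix.mul_smul, Matrix.smul_mul, Matrix.one_mul] at this
      rw [Matrix.add_mul, add_smul, (hP s).1, div_eq_inv_mul, mul_smul, this, inv_smul_smul₀ (z0 s)]
    have e2 := mord_l e1 (h.β.map (algebraMap ℤ k))
    rw [aeval_map_algebraMap, ← r2, Matrix.mul_assoc] at e2
    refine ⟨_, fun c => ?_, e2⟩
    have e3 := congrArg (fun Y => (zM k b)⁻¹ * ((zM k b)⁻¹ * Y)) e2
    have u := (isUnit_iff_isUnit_det _).1 (h.unit_b k)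
    simp only [c, nonsing_inv_mul_cancel_left _ _ u, zero_smul, Matrix.mul_zero] at e3
    simpa [e3, J] using congrFun (congrFun (hP s).2 (.inr 0)) (.inl 0)
  choose n' n0 r2 using hn
  obtain ⟨ζ, hζ⟩ : ∃ ζ : Fin e → Fin 2 → k, ζ = fun s => ![ξ s, m / ξ s] := ⟨_, rfl⟩
  obtain ⟨Q, hQ⟩ : ∃ Q : Fin e → Fin 2 → Matrix ν ω k, Q = fun s => ![P s, zM k b * P s] := ⟨_, rfl⟩
  have u0 : ∀ s c, ζ s c ≠ 0 := fun s c => by fin_cases c <;> simp [hζ, z0, m0]
  have pm : ∀ s (c : Fin 2), ζ s c * ζ s c.rev = m := fun s c => by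
    have := z0 s
    fin_cases c <;> simp [hζ, Fin.rev] <;> field_simp
  have sep : ∀ s c t d, (s, c) ≠ (t, d) → ζ s c ≠ ζ t d := fun s c t d hne => by
    fin_cases c <;> fin_cases d
    · simpa [hζ, z1.eq_iff] using hne
    · simpa [hζ] using (z3 t s).symm
    · simpa [hζ] using z3 s t
    · simpa [hζ, div_eq_mul_inv, m0, z1.eq_iff] using hne
  have qa : ∀ s c, zM k a * Q s c = ζ s c • Q s c := fun s c => by
    fin_cases c
    · simpa [hζ, hQ] using (hP s).1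
    · have := h.conj_eig (hP s).1
      simp only [hζ, hQ, Fin.mk_one, cons_val_one, cons_val_fin_one]
      rw [div_eq_inv_mul, mul_smul, ← this, inv_smul_smul₀ (z0 s)]
  have qf : ∀ s c t d, (Q s c)ᵀ * J ι k * Q t d =
      if (t, d) = (s, c.rev) then J (Fin 4) k else 0 := fun s c t d => by
    split_ifs with e1
    · obtain ⟨rfl, rfl⟩ := Prod.mk.inj e1
      fin_cases c
      · simpa [hQ, Fin.rev, Matrix.mul_assoc] using (hP t).2
      · simpa [hQ, Fin.rev, Matrix.mul_assoc (P t)ᵀ, r3] using (hP t).2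
    · have e2 : (zM k a * Q s c)ᵀ * J ι k * (zM k a * Q t d) = (m : k) • ((Q s c)ᵀ * J ι k * Q t d) := by
        calc _ = (Q s c)ᵀ * ((zM k a)ᵀ * J ι k * zM k a) * Q t d := by
              simp only [transpose_mul, Matrix.mul_assoc]
          _ = _ := by rw [r1, Matrix.mul_smul, Matrix.smul_mul]
      rw [qa, qa, transpose_smul, Matrix.smul_mul, Matrix.smul_mul, Matrix.mul_smul, smul_smul,
        ← pm s c, ← sub_eq_zero, ← sub_smul, ← mul_sub] at e2
      exact (smul_eq_zero.1 e2).resolve_left (mul_ne_zero (u0 s c) (sub_ne_zero.2 (sep _ _ _ _ e1)))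
  obtain ⟨S, hS⟩ : ∃ S : Matrix ν (Ix e) k, ∀ i j c s, S i ((j, c), s) = Q s c i j :=
    ⟨fun i x => Q x.2 x.1.2 i x.1.1, fun _ _ _ _ => rfl⟩
  have mS : ∀ (M : Matrix ν ν k) i j c s, (M * S) i ((j, c), s) = (M * Q s c) i j := fun M i j c s => by
    simp only [Matrix.mul_apply, hS]
  have form : Sᵀ * J ι k * S = blockDiagonal fun _ => J (Fin 4) k ⊗ₖ swp k := by
    ext ⟨⟨j, c⟩, s⟩ ⟨⟨l, d⟩, t⟩
    have : (Sᵀ * J ι k * S) ((j, c), s) ((l, d), t) = ((Q s c)ᵀ * J ι k * Q t d) j l := by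
      simp only [Matrix.mul_apply, transpose_apply, hS]
    rw [this, qf, blockDiagonal_apply]
    by_cases e1 : s = t
    · subst e1
      fin_cases c <;> fin_cases d <;> simp [swp, Fin.rev]
    · simp [e1, Ne.symm e1]
  have inv' : -(blockDiagonal fun _ : Fin e => J (Fin 4) k ⊗ₖ swp k) * Sᵀ * J ι k * S = 1 := by
    have e1 : swp k * swp k = 1 := by simp [swp, one_fin_two]
    rw [Matrix.mul_assoc _ Sᵀ, Matrix.mul_assoc _ (Sᵀ * _), form, Matrix.neg_mul, ← blockDiagonal_mul,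
      ← blockDiagonal_neg, ← blockDiagonal_one]
    congr 1
    funext s
    rw [Pi.neg_apply, ← mul_kronecker_mul, J_squared, e1, ← neg_one_smul k (1 : M8 k),
      smul_kronecker, one_kronecker_one, neg_one_smul, neg_neg, Pi.one_apply]
  have us := fun s c t d hne => IsUnit.mk0 _ (sub_ne_zero.2 (sep s c t d hne))
  refine ⟨⟨⟨S, _, fun s => diagonal (ζ s), fun s => !![0, n' s; 1, 0], fun _ => swp k,
    (mul_eq_one_comm_of_card_eq ν (Ix e) k (by simp [h.card]; ring)).2 inv', inv', ?_, ?_,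
    gen_of (fun s => IsUnit.mk0 _ (n0 s)) (fun _ => rfl) (fun _ => rfl) us, form, fun _ => by simp [swp]⟩,
    ζ, fun _ => rfl, fun _ => rfl, fun s c => IsUnit.mk0 _ (u0 s c), us⟩, ⟨n', n0, fun _ => rfl⟩,
    fun s => pm s 0⟩
  · ext i ⟨⟨j, c⟩, s⟩
    rw [mS, qa, mord_bd, hS, hS]
    fin_cases c <;> simp [mul_comm]
  · ext i ⟨⟨j, c⟩, s⟩
    rw [mS, mord_bd, hS, hS]
    fin_cases c <;> simp [hQ, r2, mul_comm]

end MG
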