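import Pool.Agent.Lib.MP_33b3f9_ag.MG.MorRA
import Pool.Agent.Lib.MP_33b3f9_ag.MG.MorD

/-!
The splitting over the real numbers.
-/

set_option autoImplicit false

noncomputable section

namespace MG

open Matrix Polynomial Pool.Agent.M4.Mx
open scoped Kronecker

theorem morr_adjoin {o : Type} [Fintype o] [DecidableEq o] {T H E : Matrix o o ℝ}
    (hT : Tᵀ * H = H * T) (hE : E ∈ Algebra.adjoin ℝ {T}) :
    Eᵀ * H = H * E ∧ ∀ y, Commute T y → Commute E y := by
  induction hE using Algebra.adjoin_induction with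
  | mem x hx =>
    obtain rfl : x = T := hx
    exact ⟨hT, fun _ h => h⟩
  | algebraMap c =>
    refine ⟨?_, fun y _ => Algebra.commutes c y⟩
    simp [Algebra.algebraMap_eq_smul_one]
  | add x y _ _ h1 h2 =>
    exact ⟨by rw [transpose_add, Matrix.add_mul, Matrix.mul_add, h1.1, h2.1],
      fun w h => (h1.2 w h).add_left (h2.2 w h)⟩
  | mul x y _ _ h1 h2 =>
    refine ⟨?_, fun w h => (h1.2 w h).mul_left (h2.2 w h)⟩
    rw [transpose_mul, Matrix.mul_assoc, h1.1, ← Matrix.mul_assoc, h2.1, Matrix.mul_assoc,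
      (h1.2 y (h2.2 T (Commute.refl T)).symm).eq]

variable [Dim] {e : ℕ} {a b : MZ} {m n : ℕ}

/-- The real spectral projectors of `a + adj a`. -/
theorem PEL.morr_proj (h : PEL e a b m n) : ∃ (t u : Fin e → ℝ) (E : Fin e → Matrix ν ν ℝ),
    Function.Injective t ∧ (∀ s, 0 < aeval (2 * t s) h.β) ∧ ∀ s, u s ≠ 0 ∧ t s ^ 2 + u s ^ 2 = m ∧
      E s ∈ Algebra.adjoin ℝ {zM ℝ a + zM ℝ (adj a)} ∧ E s * E s = E s ∧ (E s).trace = 16 ∧
      (zM ℝ a + zM ℝ (adj a)) * E s = (2 * t s) • E s := by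
  obtain ⟨z, -, hz⟩ := h.morD ℂ (IsAlgClosed.splits _)
  let δ : (Fin e → Fin 2 → ℂ) →ₐ[ℂ] Matrix ν ν ℂ := z.em2.comp (AlgHom.pi fun s =>
    AlgHom.pi fun c => (Algebra.ofId ℂ (M8 ℂ)).comp ((Pi.evalAlgHom ℂ (fun _ => ℂ) c).comp
      (Pi.evalAlgHom ℂ (fun _ => Fin 2 → ℂ) s)))
  have hδ : ∀ x, δ x = z.em2 fun s c => x s c • (1 : M8 ℂ) := fun x =>
    congrArg z.em2 (funext fun s => funext fun c =>
      (Algebra.algebraMap_eq_smul_one (x s c) : algebraMap ℂ (M8 ℂ) (x s c) = _))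
  have hδi : Function.Injective δ := fun x y hxy => by
    rw [hδ, hδ] at hxy
    funext s c
    simpa using congrFun (congrFun (congrFun (congrFun (z.em2_inj hxy) s) c) (.inl 0)) (.inl 0)
  have ha : zM ℂ a = δ z.ζ := by rw [hδ, z.a_eq2]
  have hroot : ∀ s c, aeval (z.ζ s c) (minpoly ℚ (zM ℚ a)) = 0 := fun s c => by
    have h1 := aeval_algHom_apply (Algebra.ofId ℚ ℂ).mapMatrix (zM ℚ a) (minpoly ℚ (zM ℚ a))
    have h2 : (Algebra.ofId ℚ ℂ).mapMatrix (zM ℚ a) = δ z.ζ := ha ▸ zM_map (algebraMap ℚ ℂ) a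
    have h3 := aeval_algHom_apply (δ.restrictScalars ℚ) z.ζ (minpoly ℚ (zM ℚ a))
    rw [minpoly.aeval, map_zero, h2] at h1
    have h4 : aeval z.ζ (minpoly ℚ (zM ℚ a)) = 0 := hδi (by rw [map_zero]; exact h3.symm.trans h1)
    rw [← aeval_pi_apply₂ (z.ζ s), ← aeval_pi_apply₂ z.ζ, h4]
    rfl
  have hn : ∀ s, (z.ζ s 0).re ^ 2 + (z.ζ s 0).im ^ 2 = m := fun s => by
    rw [← (h.root _ (hroot s 0)).1, Complex.sq_norm, Complex.normSq_apply]
    ring
  have hc : ∀ s, z.ζ s 1 = (starRingEnd ℂ) (z.ζ s 0) := fun s => by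
    refine mul_left_cancel₀ (z.uz s 0).ne_zero ?_
    rw [hz, Complex.mul_conj, Complex.normSq_eq_norm_sq, (h.root _ (hroot s 0)).1]
    simp
  have hti : Function.Injective fun s => (z.ζ s 0).re := fun s s' hs => by
    by_contra hne
    have h1 := (z.sep s 0 s' 0 fun e => hne (congrArg Prod.fst e)).ne_zero
    have h2 := (z.sep s 0 s' 1 fun e => hne (congrArg Prod.fst e)).ne_zero
    have h3 := hn s
    have h4 := hn s'
    have h5 : (z.ζ s 0).re = (z.ζ s' 0).re := hs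
    have h6 : (z.ζ s 0).im ^ 2 = (z.ζ s' 0).im ^ 2 := by rw [h5] at h3; linarith
    rcases sq_eq_sq_iff_eq_or_eq_neg.1 h6 with h7 | h7
    · exact h1 (sub_eq_zero.2 (Complex.ext h5 h7))
    · exact h2 (sub_eq_zero.2 (Complex.ext (by simpa [hc] using h5) (by simpa [hc] using h7)))
  have ha' : zM ℂ (adj a) = δ fun s c => z.ζ s c.rev := by
    have h1 := (h.rel ℂ).2.2.2.2
    have h2 : δ z.ζ * δ (fun s c => z.ζ s c.rev) = (m : ℂ) • 1 := by
      rw [← map_mul, ← map_one δ, ← map_smul]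
      congr 1
      funext s c
      fin_cases c
      · simpa using hz s
      · simpa [mul_comm] using hz s
    have h3 : (m : ℂ) ≠ 0 := Nat.cast_ne_zero.2 h.m0.ne'
    refine smul_right_injective _ h3 ?_
    have h4 := congrArg (· * δ fun s c => z.ζ s c.rev) h1
    simpa only [ha, Matrix.mul_assoc, h2, Matrix.mul_smul, Matrix.smul_mul, Matrix.mul_one,
      Matrix.one_mul] using h4
  let Φ : Matrix ν ν ℝ →ₐ[ℝ] Matrix ν ν ℂ := (Algebra.ofId ℝ ℂ).mapMatrix
  have hΦ : Function.Injective Φ := Matrix.map_injective Complex.ofReal_injective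
  let ε : (Fin e → ℝ) →ₐ[ℝ] Matrix ν ν ℂ := (δ.restrictScalars ℝ).comp (AlgHom.pi fun s =>
    AlgHom.pi fun _ => (Algebra.ofId ℝ ℂ).comp (Pi.evalAlgHom ℝ (fun _ => ℝ) s))
  have hε : ∀ x, ε x = δ fun s _ => (x s : ℂ) := fun _ => rfl
  have hT : Φ (zM ℝ a + zM ℝ (adj a)) = ε fun s => 2 * (z.ζ s 0).re := by
    rw [map_add, show Φ (zM ℝ a) = _ from zM_map (algebraMap ℝ ℂ) a,
      show Φ (zM ℝ (adj a)) = _ from zM_map (algebraMap ℝ ℂ) _, ha, ha', ← map_add, hε]
    congr 1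
    funext s c
    fin_cases c <;> simp [hc, Complex.add_conj, add_comm]
  have hm : ∀ x, ε x ∈ (Algebra.adjoin ℝ {zM ℝ a + zM ℝ (adj a)}).map Φ :=
    morg_sep (fun s => 2 * (z.ζ s 0).re)
      (fun p q hpq => (sub_ne_zero.2 fun e => hpq (hti (by simpa using e))).isUnit)
      (((Algebra.adjoin ℝ {zM ℝ a + zM ℝ (adj a)}).map Φ).comap ε)
      ⟨_, Algebra.subset_adjoin rfl, hT⟩
  choose E hE hE' using fun s => hm (Pi.single s 1)
  replace hE' : ∀ s, Φ (E s) = ε (Pi.single s 1) := hE'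
  refine ⟨_, fun s => (z.ζ s 0).im, E, hti, fun s => h.bpos (hroot s 0), fun s =>
    ⟨(h.root _ (hroot s 0)).2, hn s, hE s, hΦ ?_, ?_, hΦ ?_⟩⟩
  · rw [map_mul, hE', ← map_mul, ← Pi.single_mul, mul_one]
  · have h1 : (Φ (E s)).trace = ((E s).trace : ℂ) :=
      (AddMonoidHom.map_trace (algebraMap ℝ ℂ) (E s)).symm
    refine Complex.ofReal_injective ?_
    rw [← h1, hE', hε, hδ, Mor.em2_apply, Mor.trace_bm, Finset.sum_eq_single s
      (fun t _ ht => by simp [ht, trace_blockDiagonal]) (by simp)]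
    simp [trace_blockDiagonal]
    norm_num
  · rw [map_mul, map_smul, hT, hE', ← map_mul, ← map_smul]
    congr 1
    funext r
    by_cases hr : r = s
    · subst hr
      simp
    · simp [hr]

theorem PEL.mor_real (h : PEL e a b m n) : ∃ z : Mor e a b ℝ, ∀ s, z.B s = 1 := by
  obtain ⟨t, u, E, ht, hn, hE⟩ := h.morr_proj
  obtain ⟨-, hbb, hbJ, hba, haa⟩ := h.rel ℝ
  have had := zM_adj ℝ a
  set A := zM ℝ a with hA
  set A' := zM ℝ (adj a) with hA'
  set B := zM ℝ b with hB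
  have hm : (m : ℝ) ≠ 0 := Nat.cast_ne_zero.2 h.m0.ne'
  obtain ⟨r, hr, hrr⟩ : ∃ r : Fin e → ℝ, (∀ s, r s ≠ 0) ∧
      ∀ s, r s * r s = aeval (2 * t s) h.β := ⟨fun s => √(aeval (2 * t s) h.β),
    fun s => (Real.sqrt_pos.2 (hn s)).ne', fun s => Real.mul_self_sqrt (hn s).le⟩
  have h1 : Aᵀ * J ι ℝ = J ι ℝ * A' := by
    rw [had, Matrix.mul_neg, ← Matrix.mul_assoc, ← Matrix.mul_assoc, J_squared]
    simp
  have h2 : A'ᵀ * J ι ℝ = J ι ℝ * A := by
    rw [had, transpose_neg, transpose_mul, transpose_mul, transpose_transpose, J_transpose]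
    simp [Matrix.mul_assoc, J_squared]
  have h3 : A * A' = (m : ℝ) • 1 := by
    have h0 : (m : ℝ)⁻¹ • A' * A = 1 := by
      rw [Matrix.smul_mul, haa, smul_smul, inv_mul_cancel₀ hm, one_smul]
    rw [← mul_eq_one_comm.1 h0, Matrix.mul_smul, smul_smul, mul_inv_cancel₀ hm, one_smul]
  have h4 : B * A' = A * B := by
    refine smul_right_injective _ hm ?_
    have h0 : A * (B * A) * A' = A * (A' * B) * A' := by rw [hba]
    rw [← Matrix.mul_assoc A A', h3, Matrix.mul_assoc, Matrix.mul_assoc, h3] at h0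
    simpa using h0.symm
  have hTJ : (A + A')ᵀ * J ι ℝ = J ι ℝ * (A + A') := by
    rw [transpose_add, Matrix.add_mul, h1, h2, Matrix.mul_add, add_comm]
  have hDJ : (A - A')ᵀ * J ι ℝ = -(J ι ℝ * (A - A')) := by
    rw [transpose_sub, Matrix.sub_mul, h1, h2, Matrix.mul_sub, neg_sub]
  have hTB : Commute (A + A') B := by
    rw [Commute, SemiconjBy, Matrix.add_mul, Matrix.mul_add, hba, h4, add_comm]
  have hAA : Commute A A' := h3.trans haa.symm
  have hTD : Commute (A + A') (A - A') :=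
    ((Commute.refl A).sub_right hAA).add_left (hAA.symm.sub_right (Commute.refl A'))
  have hDB : (A - A') * B = -(B * (A - A')) := by
    rw [Matrix.sub_mul, Matrix.mul_sub, hba, h4, neg_sub]
  have hDD : (A - A') * (A - A') = (A + A') * (A + A') - (4 * m : ℝ) • 1 := by
    simp only [Matrix.sub_mul, Matrix.mul_sub, Matrix.add_mul, Matrix.mul_add, h3, haa]
    module
  set T := A + A' with hT
  set D := A - A' with hD
  have hAe : A = (1 / 2 : ℝ) • (T + D) := by rw [hT, hD]; module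
  let j : Fin e → Matrix ν ν ℝ := fun s => (2 * u s)⁻¹ • D
  have hjj : ∀ s, j s * j s * E s = -E s := fun s => by
    obtain ⟨h5, h6, -, -, -, h7⟩ := hE s
    simp only [j, Matrix.smul_mul, Matrix.mul_smul, hDD, Matrix.sub_mul, Matrix.mul_assoc, h7,
      Matrix.one_mul, ← h6]
    match_scalars
    field_simp
    ring
  have hjB : ∀ s, j s * B = -(B * j s) := fun s => by
    simp only [j, Matrix.smul_mul, Matrix.mul_smul, hDB, smul_neg]
  have hjT : ∀ s, T * j s = j s * T := fun s => (hTD.smul_right _).eq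
  have hDj : ∀ s, D = (2 * u s) • j s := fun s => by
    rw [smul_smul, mul_inv_cancel₀ (mul_ne_zero two_ne_zero (hE s).1), one_smul]
  have hBB : ∀ s, E s * (B * B) = (r s * r s) • E s := fun s => by
    have h5 := morda_r (((morr_adjoin hTJ (hE s).2.2.1).2 T (Commute.refl T)).eq.trans
      (hE s).2.2.2.2.2) (h.β.map (algebraMap ℤ ℝ))
    rwa [aeval_map_algebraMap, eval_map_algebraMap, ← hbb, ← hrr] at h5
  choose P hP1 hP2 hP3 using fun s => morr_block B (E s) (j s) (r s) (hr s) (hBB s) hbJ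
    (hE s).2.2.2.1 (morr_adjoin hTJ (hE s).2.2.1).1 ((morr_adjoin hTJ (hE s).2.2.1).2 B hTB).eq
    (hE s).2.2.2.2.1 (((morr_adjoin hTJ (hE s).2.2.1).2 D hTD).smul_right _).eq.symm (hjB s) (hjj s)
  have hTP : ∀ s, T * P s = (2 * t s) • P s := fun s => by
    rw [← hP1, ← Matrix.mul_assoc, (hE s).2.2.2.2.2, Matrix.smul_mul]
  have hjP : ∀ s, j s * (j s * P s) = -P s := fun s => by
    rw [← hP1, ← Matrix.mul_assoc, ← Matrix.mul_assoc, hjj, Matrix.neg_mul]
  let Q : Fin e → Fin 2 → Matrix ν ω ℝ := fun s => ![P s, j s * P s]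
  have hTQ : ∀ s c, T * Q s c = (2 * t s) • Q s c := fun s c => by
    fin_cases c
    · exact hTP s
    · change T * (j s * P s) = _ • (j s * P s)
      rw [← Matrix.mul_assoc, hjT, Matrix.mul_assoc, hTP, Matrix.mul_smul]
  have hB1 : ∀ s, B * (j s * P s) = -r s • (j s * P s) := fun s => by
    rw [← Matrix.mul_assoc, ← neg_neg (B * j s), ← hjB, Matrix.neg_mul, Matrix.mul_assoc, hP2,
      Matrix.mul_smul, neg_smul]
  have hform : (morrS Q)ᵀ * J ι ℝ * morrS Q = blockDiagonal fun _ => J (Fin 4) ℝ ⊗ₖ (1 : M2 ℝ) := by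
    refine morr_form Q _ _ (fun s c s' d hne => ?_) fun s c => ?_
    · by_cases hs : s = s'
      · subst hs
        have hrn : r s ≠ -r s := fun e => hr s (by linarith)
        fin_cases c <;> fin_cases d
        · exact absurd rfl hne
        · exact morr_orth hbJ (hP2 s) (hB1 s) hrn
        · exact morr_orth hbJ (hB1 s) (hP2 s) hrn.symm
        · exact absurd rfl hne
      · exact morr_orth hTJ (hTQ s c) (hTQ s' d) fun e => hs (ht (by linarith))
    · fin_cases c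
      · exact hP3 s
      · change (j s * P s)ᵀ * J ι ℝ * (j s * P s) = _
        have h5 : (j s)ᵀ * J ι ℝ = -(J ι ℝ * j s) := by
          simp only [j, transpose_smul, Matrix.smul_mul, Matrix.mul_smul, hDJ, smul_neg]
        rw [transpose_mul, Matrix.mul_assoc (P s)ᵀ, h5, ← hP3 s]
        simp only [Matrix.mul_neg, Matrix.neg_mul, Matrix.mul_assoc, hjP, neg_neg]
  have hinv : (-((blockDiagonal fun _ : Fin e => J (Fin 4) ℝ ⊗ₖ (1 : M2 ℝ)) *
      ((morrS Q)ᵀ * J ι ℝ)) : Matrix (Ix e) ν ℝ) * morrS Q = (1 : Matrix (Ix e) (Ix e) ℝ) := by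
    rw [Matrix.neg_mul, Matrix.mul_assoc, hform, ← blockDiagonal_mul, ← blockDiagonal_neg, ← blockDiagonal_one]
    congr 1
    funext s
    rw [Pi.neg_apply, ← mul_kronecker_mul, J_squared, Matrix.one_mul, Pi.one_apply,
      ← one_kronecker_one]
    ext x y
    simp [kroneckerMap_apply]
  refine ⟨⟨morrS Q, _, fun s => !![t s, -u s; u s, t s], fun s => !![r s, 0; 0, -r s], fun _ => 1,
    (Matrix.mul_eq_one_comm_of_card_eq _ _ _ ?_).1 hinv, hinv, morr_act Q _ _ fun s c => ?_,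
    morr_act Q _ _ fun s c => ?_, morr_gen t u r hr ht fun s => (hE s).1, hform,
    fun _ => by simp⟩, fun _ => rfl⟩
  · simp [h.card]
    ring
  · rw [← hA, hAe, Matrix.smul_mul, Matrix.add_mul, hTQ, hDj s, Matrix.smul_mul]
    fin_cases c <;> simp [Q, hjP] <;> module
  · fin_cases c <;> simp [Q, ← hB, hP2, hB1]

end MG
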