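import Pool.Agent.Lib.MP_33b3f9_ag.MG.GDefs
import Pool.Agent.Lib.MP_33b3f9_ag.MG.Tr
import Pool.Agent.Lib.MP_33b3f9_ag.MG.MorR
import Pool.Agent.Lib.MP_33b3f9_ag.Rx.Main

/-!
The chart of the fixed locus.
-/

set_option autoImplicit false

noncomputable section

namespace MG

open Matrix M4
open scoped Kronecker

section kb

variable {α β o R : Type} [CommRing R] [DecidableEq o] (ε : (α × Fin 2) × o ≃ β)

/-- Two copies of each block, reindexed by `ε`. -/
def kb (A : o → Matrix α α R) : Matrix β β R :=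
  (blockDiagonal fun s => A s ⊗ₖ (1 : Matrix (Fin 2) (Fin 2) R)).submatrix ε.symm ε.symm

theorem kb_apply (A : o → Matrix α α R) (i j : α) (c d : Fin 2) (s t : o) :
    kb ε A (ε ((i, c), s)) (ε ((j, d), t)) = if s = t ∧ c = d then A s i j else 0 := by
  simp [kb, blockDiagonal_apply, one_apply, ite_and]

omit [CommRing R] [DecidableEq o] in
theorem kb_ext {X Y : Matrix β β R} (h : ∀ i j c d s t,
    X (ε ((i, c), s)) (ε ((j, d), t)) = Y (ε ((i, c), s)) (ε ((j, d), t))) : X = Y := by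
  ext u v
  obtain ⟨⟨⟨i, c⟩, s⟩, rfl⟩ := ε.surjective u
  obtain ⟨⟨⟨j, d⟩, t⟩, rfl⟩ := ε.surjective v
  exact h i j c d s t

theorem kb_map {R' : Type} [CommRing R'] {f : R → R'} (hf : f 0 = 0) (A : o → Matrix α α R) :
    (kb ε A).map f = kb ε fun s => (A s).map f :=
  kb_ext ε fun i j c d s t => by
    rw [map_apply, kb_apply, kb_apply, apply_ite f, hf, map_apply]

variable [Fintype α] [Fintype β] [Fintype o] [DecidableEq α] [DecidableEq β]

/-- The same as a map of algebras. -/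
def kbL : (o → Matrix α α R) →ₐ[R] Matrix β β R :=
  AlgHom.ofLinearMap
    { toFun := kb ε
      map_add' := fun A B => kb_ext ε fun i j c d s t => by
        simp only [Matrix.add_apply, kb_apply, Pi.add_apply]
        split_ifs <;> simp
      map_smul' := fun c A => kb_ext ε fun i j c d s t => by
        simp only [Matrix.smul_apply, kb_apply, Pi.smul_apply, RingHom.id_apply]
        split_ifs <;> simp }
    (by
      change kb ε 1 = 1
      simp only [kb, Pi.one_apply, one_kronecker_one]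
      change (blockDiagonal (1 : o → Matrix (α × Fin 2) (α × Fin 2) R)).submatrix _ _ = 1
      rw [blockDiagonal_one, submatrix_one_equiv])
    fun A B => by
      change kb ε (A * B) = kb ε A * kb ε B
      rw [kb, kb, kb, submatrix_mul_equiv, ← blockDiagonal_mul]
      simp only [← mul_kronecker_mul, Matrix.mul_one, Pi.mul_apply]

theorem kbL_eq (A : o → Matrix α α R) : kbL ε A = kb ε A := rfl

theorem kbL_inv {A : o → Matrix α α R} (h : ∀ s, IsUnit (A s).det) :
    (kbL ε A)⁻¹ = kbL ε fun s => (A s)⁻¹ :=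
  inv_eq_right_inv (by
    rw [← map_mul, ← map_one (kbL ε)]
    exact congrArg _ (funext fun s => mul_nonsing_inv _ (h s)))

theorem kbL_unit {A : o → Matrix α α R} (h : IsUnit (kbL ε A).det) (s : o) :
    IsUnit (A s).det := by
  rw [kbL_eq, kb, det_submatrix_equiv_self, det_blockDiagonal, IsUnit.prod_univ_iff] at h
  have h1 := h s
  rw [det_kronecker, det_one, one_pow, mul_one, Fintype.card_fin] at h1
  exact (isUnit_pow_iff two_ne_zero).1 h1

end kb

section blocks

variable {β o : Type} [Fintype β] [Fintype o] [DecidableEq β] [DecidableEq o]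
  (ε : (Fin 4 × Fin 2) × o ≃ β)

/-- The induced numbering of the lattice basis. -/
def eν : (ω × Fin 2) × o ≃ β ⊕ β :=
  ((Equiv.sumProdDistrib _ _ _).prodCongr (Equiv.refl o)).trans
    ((Equiv.sumProdDistrib _ _ _).trans (Equiv.sumCongr ε ε))

omit [Fintype β] [Fintype o] [DecidableEq β] [DecidableEq o] in
theorem eν_inl (i : Fin 4) (c : Fin 2) (s : o) :
    eν ε ((.inl i, c), s) = .inl (ε ((i, c), s)) := rfl

omit [Fintype β] [Fintype o] [DecidableEq β] [DecidableEq o] in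
theorem eν_inr (i : Fin 4) (c : Fin 2) (s : o) :
    eν ε ((.inr i, c), s) = .inr (ε ((i, c), s)) := rfl

theorem em0_blocks {R : Type} [CommRing R] (A B C D : o → Matrix (Fin 4) (Fin 4) R) :
    kbL (eν ε) (fun s => fromBlocks (A s) (B s) (C s) (D s)) =
      fromBlocks (kbL ε A) (kbL ε B) (kbL ε C) (kbL ε D) := by
  refine kb_ext (eν ε) fun i j c d s t => ?_
  rw [kbL_eq, kb_apply]
  rcases i with i | i <;> rcases j with j | j <;>
    simp [eν_inl, eν_inr, kbL_eq, kb_apply]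

theorem em0_J {R : Type} [CommRing R] : kbL (eν ε) (fun _ => J (Fin 4) R) = J β R := by
  have h := em0_blocks (R := R) ε 0 (-1) 1 0
  rw [map_zero, map_neg, map_one] at h
  exact h

theorem inH_blk {α : Type} [Fintype α] {z : o → Matrix α α ℂ} (hz : ∀ s, InH (z s)) :
    InH (blockDiagonal z) := by
  classical
  refine act_inH_iff.2 ⟨(blockDiagonal_transpose _).trans (congrArg blockDiagonal
    (funext fun s => (hz s).1)), fun v hv => ?_⟩
  obtain ⟨p, hp⟩ := Function.ne_iff.1 hv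
  have e : star v ⬝ᵥ blockDiagonal z *ᵥ v =
      ∑ s, star (fun i => v (i, s)) ⬝ᵥ z s *ᵥ fun i => v (i, s) := by
    rw [mfprod_dot]
    refine Finset.sum_congr rfl fun j _ => congrArg _ (funext fun i => ?_)
    simp [mulVec, dotProduct, blockDiagonal_apply, Fintype.sum_prod_type]
  rw [e, Complex.im_sum]
  refine Finset.sum_pos' (fun j _ => ?_)
    ⟨p.2, Finset.mem_univ _, (act_inH_iff.1 (hz _)).2 _ (Function.ne_iff.2 ⟨p.1, hp⟩)⟩
  by_cases h : (fun i => v (i, j)) = 0
  · rw [h, mulVec_zero, dotProduct_zero, Complex.zero_im]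
  · exact ((act_inH_iff.1 (hz _)).2 _ h).le

omit [Fintype β] [DecidableEq β] in
theorem inH_kb {z : o → M4.Mat} (hz : ∀ s, InH (z s)) : InH (kb ε z) := by
  have h1 : kb ε z = (blockDiagonal fun s => dg (Fin 2) (z s)).submatrix ε.symm ε.symm :=
    kb_ext ε fun i j c d s t => by
      simp [kb_apply, dg, blockDiagonal_apply, ite_and]
  have h2 := inH_blk fun s => inH_dg (ρ := Fin 2) (hz s)
  rw [h1]
  exact ⟨h2.1.submatrix _, h2.2.submatrix ε.symm.injective⟩

theorem cst_kb {z : o → M4.Mat} (hz : ∀ s, InH (z s)) :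
    cst (kb ε z) = kbL (eν ε) fun s => cst (z s) := by
  simp only [cst]
  rw [kb_map ε Complex.zero_im, kb_map ε Complex.zero_re, em0_blocks, ← kbL_eq, ← kbL_eq,
    kbL_inv ε fun s => (hz s).2.det_pos.ne'.isUnit]
  simp only [← map_mul, ← map_add, ← map_neg]
  rfl

theorem eq_kb {τ : Matrix β β ℂ} (hτ : InH τ) {A : o → Matrix ω ω ℝ}
    (h : cst τ = kbL (eν ε) A) :
    τ = kb ε fun s => τ.submatrix (fun i => ε ((i, 0), s)) fun i => ε ((i, 0), s) := by
  have hd : IsUnit (τ.map Complex.im).det := hτ.2.det_pos.ne'.isUnit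
  rw [show A = fun s => fromBlocks (A s).toBlocks₁₁ (A s).toBlocks₁₂ (A s).toBlocks₂₁
    (A s).toBlocks₂₂ from funext fun s => (fromBlocks_toBlocks _).symm, em0_blocks, cst,
    fromBlocks_inj] at h
  have h1 : τ.map Complex.im = kbL ε fun s => (A s).toBlocks₁₂⁻¹ := by
    rw [← kbL_inv ε (kbL_unit ε (h.2.1 ▸ isUnit_nonsing_inv_det _ hd)), ← h.2.1,
      nonsing_inv_nonsing_inv _ hd]
  have h2 : τ.map Complex.re =
      kbL ε ((fun s => (A s).toBlocks₁₂⁻¹) * fun s => (A s).toBlocks₁₁) := by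
    rw [map_mul, ← h1, ← h.1, mul_nonsing_inv_cancel_left _ _ hd]
  have h3 : ∀ i j c d s t, τ (ε ((i, c), s)) (ε ((j, d), t)) = if s = t ∧ c = d then
      ⟨((A s).toBlocks₁₂⁻¹ * (A s).toBlocks₁₁) i j, (A s).toBlocks₁₂⁻¹ i j⟩ else 0 :=
    fun i j c d s t => by
      have k1 := congrFun (congrFun h1 (ε ((i, c), s))) (ε ((j, d), t))
      have k2 := congrFun (congrFun h2 (ε ((i, c), s))) (ε ((j, d), t))
      rw [kbL_eq, kb_apply, map_apply] at k1 k2
      refine Complex.ext (k2.trans ?_) (k1.trans ?_) <;> split_ifs <;> rfl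
  refine kb_ext ε fun i j c d s t => ?_
  rw [kb_apply, submatrix_apply, h3, h3, if_pos (And.intro rfl rfl)]

end blocks

section coord

variable {σ o : Type} (κ : σ ≃ o × Sym2 (Fin 4))

/-- The blocks with coordinates `t`. -/
def embl (t : σ → ℂ) (s : o) : M4.Mat := smat fun p => t (κ.symm (s, p))

/-- The coordinates of a family of blocks. -/
def emco (z : o → M4.Mat) (x : σ) : ℂ := sco (z (κ x).1) (κ x).2

theorem embl_co {z : o → M4.Mat} (hz : ∀ s, InH (z s)) : embl κ (emco κ z) = z := by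
  funext s
  simp only [embl, emco, Equiv.apply_symm_apply]
  exact Mo.smat_sco_of_inH (hz s)

theorem emco_bl (t : σ → ℂ) : emco κ (embl κ t) = t := by
  funext x
  rw [emco, embl, Mo.sco_smat]
  exact congrArg t (κ.symm_apply_apply x)

theorem embl_open [Finite o] : IsOpen {t : σ → ℂ | ∀ s, InH (embl κ t s)} := by
  rw [Set.ofPred_forall]
  exact isOpen_iInter_of_finite fun s => Mo.isOpen_inH.preimage
    (f := fun (t : σ → ℂ) p => t (κ.symm (s, p))) (continuous_pi fun _ => continuous_apply _)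

theorem embl_convex : Convex ℝ {t : σ → ℂ | ∀ s, InH (embl κ t s)} := by
  rw [Set.ofPred_forall]
  refine convex_iInter fun s => ?_
  have e : {t : σ → ℂ | InH (embl κ t s)} = (((Mo.smatL (Fin 4)).restrictScalars ℝ).toLinearMap.comp
      (LinearMap.funLeft ℝ ℂ fun p => κ.symm (s, p))) ⁻¹' PosIm (Fin 4) := by
    ext y
    exact ⟨fun h => InH.posIm h, fun h =>
      mfhol_inH (IsSymm.ext fun i j => Mo.smat_symm _ j i) h⟩
  rw [e]
  exact mfhol_convex.linear_preimage _

end coord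

variable [Dim] {e : ℕ} {a b : MZ} {m n : ℕ}

namespace Mor

variable (z : Mor e a b ℝ) (ε : (Fin 4 × Fin 2) × Fin e ≃ ι)

/-- The splitting as a square matrix. -/
def S0 : Matrix ν ν ℝ := z.S.submatrix id (eν ε).symm

theorem S0_mul (g : Fin e → M8 ℝ) : z.S0 ε * kbL (eν ε) g = z.em g * z.S0 ε := by
  have h : z.em g * z.S =
      z.S * blockDiagonal fun s => g s ⊗ₖ (1 : Matrix (Fin 2) (Fin 2) ℝ) := by
    rw [em_apply, bm_apply, Matrix.mul_assoc, z.inv', Matrix.mul_one]
  rw [S0, kbL_eq, kb, submatrix_mul_equiv, ← h]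
  rfl

theorem S0_sim (hB : ∀ s, z.B s = 1) : Sim (z.S0 ε) 1 := by
  have h : (z.S0 ε)ᵀ * J ι ℝ * z.S0 ε =
      (z.Sᵀ * J ι ℝ * z.S).submatrix (eν ε).symm (eν ε).symm := rfl
  rw [M4.sim_iff, h, z.form, one_smul, ← em0_J ε]
  simp only [hB]
  rfl

theorem cst_ch (hB : ∀ s, z.B s = 1) {w : Fin e → M4.Mat} (hw : ∀ s, InH (w s)) :
    cst (act (z.S0 ε) (kb ε w)) = z.em fun s => cst (w s) := by
  refine ((isUnit_iff_isUnit_det _).2
    ((z.S0_sim ε hB).det_ne_zero one_ne_zero).isUnit).mul_right_cancel ?_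
  rw [cst_act (z.S0_sim ε hB) one_pos (inH_kb ε hw), cst_kb ε hw, S0_mul]

end Mor

theorem PEL.ch (h : PEL e a b m n) : Nonempty (Ch (10 * e) a b) := by
  obtain ⟨z, hB⟩ := h.mor_real
  have ε : (Fin 4 × Fin 2) × Fin e ≃ ι := Fintype.equivOfCardEq (by simp [h.card])
  have κ : Fin (10 * e) ≃ Fin e × Sym2 (Fin 4) := Fintype.equivOfCardEq (by
    rw [Fintype.card_prod, Sym2.card, Fintype.card_fin, Fintype.card_fin, Fintype.card_fin,
      mul_comm]
    rfl)
  have hS := z.S0_sim ε hB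
  have hS' := hS.inv one_ne_zero
  rw [inv_one] at hS'
  have hd := (hS.det_ne_zero one_ne_zero).isUnit
  have mem : ∀ w : Fin e → M4.Mat, (∀ s, InH (w s)) → act (z.S0 ε) (kb ε w) ∈ FX a b :=
    fun w hw => by
      rw [h.fx_iff (inH_act hS one_pos (inH_kb ε hw)), z.cst_ch ε hB hw]
      exact ⟨z.comm_a _, z.comm_b _⟩
  have hb : Differentiable ℂ fun (t : Fin (10 * e) → ℂ) (i j : ι) => kb ε (embl κ t) i j := by
    refine differentiable_pi.2 fun p => differentiable_pi.2 fun q => ?_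
    obtain ⟨⟨⟨i, c⟩, s⟩, rfl⟩ := ε.surjective p
    obtain ⟨⟨⟨j, d⟩, u⟩, rfl⟩ := ε.surjective q
    simp only [kb_apply, embl, smat]
    split_ifs <;> fun_prop
  obtain ⟨w₀⟩ := nonempty_HH (ι := Fin 4)
  refine ⟨⟨{t | ∀ s, InH (embl κ t s)}, fun t => act (z.S0 ε) (kb ε (embl κ t)),
    fun τ => emco κ fun s i j => act (z.S0 ε)⁻¹ τ (ε ((i, 0), s)) (ε ((j, 0), s)),
    embl_open κ, embl_convex κ, ⟨emco κ fun _ => w₀.1, fun s => ?_⟩, fun t ht => mem _ ht,
    fun τ hτ => ?_, fun t ht => ?_, fun τ hτ => ?_, fun t ht => ?_⟩⟩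
  · rw [embl_co κ fun _ => w₀.2]
    exact w₀.2
  · obtain ⟨h1, h2⟩ := (h.fx_iff hτ.1).1 hτ
    have h3 := inH_act hS' one_pos hτ.1
    have h4 : cst (act (z.S0 ε)⁻¹ τ) = kbL (eν ε) (z.pr (cst τ)) := by
      rw [← nonsing_inv_mul_cancel_left _ (kbL (eν ε) _) hd, z.S0_mul, z.em_pr h1 h2,
        ← Matrix.mul_assoc, ← cst_act hS' one_pos hτ.1, nonsing_inv_mul_cancel_right _ _ hd]
    have h5 : ∀ s, InH ((act (z.S0 ε)⁻¹ τ).submatrix (fun i => ε ((i, 0), s))
        fun i => ε ((i, 0), s)) := fun s =>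
      ⟨h3.1.submatrix _, h3.2.submatrix fun i j k =>
        (Prod.ext_iff.1 (Prod.ext_iff.1 (ε.injective k)).1).1⟩
    refine ⟨emco κ _, fun s => (congrArg InH (congrFun (embl_co κ h5) s)).mpr (h5 s), ?_⟩
    rw [embl_co κ h5, ← eq_kb ε h3 h4, ← Mo.act_mul hS one_pos hS' one_pos hτ.1,
      mul_nonsing_inv _ hd, act_one]
  · have h1 : DifferentiableAt ℂ (fun (σ : ι → ι → ℂ) i j => act (z.S0 ε) σ i j)
        (kb ε (embl κ t)) := Mo.differentiableAt_act hS one_pos (inH_kb ε ht)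
    exact (h1.comp t (hb t)).differentiableWithinAt
  · have h1 : DifferentiableAt ℂ (fun (σ : ι → ι → ℂ) i j => act (z.S0 ε)⁻¹ σ i j) τ :=
      Mo.differentiableAt_act hS' one_pos hτ
    refine differentiableAt_pi.2 fun x => ?_
    simp only [emco]
    generalize (κ x).1 = s
    generalize (κ x).2 = p
    induction p using Sym2.ind with
    | _ i j =>
      change DifferentiableAt ℂ (fun τ : ι → ι → ℂ =>
        (act (z.S0 ε)⁻¹ τ (ε ((i, 0), s)) (ε ((j, 0), s)) +
          act (z.S0 ε)⁻¹ τ (ε ((j, 0), s)) (ε ((i, 0), s))) / 2) τ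
      simp only [div_eq_mul_inv]
      exact ((differentiableAt_pi.1 (differentiableAt_pi.1 h1 _) _).fun_add
        (differentiableAt_pi.1 (differentiableAt_pi.1 h1 _) _)).mul_const _
  · rw [← Mo.act_mul hS' one_pos hS one_pos (inH_kb ε ht), nonsing_inv_mul _ hd, act_one]
    simp only [kb_apply, and_self, if_true]
    exact emco_bl κ t

end MG
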