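import Pool.Agent.Lib.MP_33b3f9_ag.MG.IDefA
import Pool.Agent.Lib.MP_33b3f9_ag.M4.KzFinM

/-!
Block B1b: the multiplier of the Galois action, interface form.
-/

set_option autoImplicit false

namespace MG.Kz

open Complex Matrix M4.Kz
open M4 hiding XX_zero ee_add

variable [Dim] {τ : Mat} {K : IntermediateField ℚ ℂ} {r : Rep K}

theorem I_mem (h : AV τ K r) : I ∈ K := by
  have := K.toSubalgebra.pow_mem h.defX.1 2
  rwa [ee_pow, show ((2 : ℕ) : ℂ) * (1 / 8) = 1 / 4 by norm_num, ee_quarter] at this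

theorem null_mem (h : AV τ K r) (e : Bits) (k : ν → ℤ) : XX τ k 0 / th2 τ e ∈ K := by
  obtain ⟨e', n, rfl⟩ := exists_bits k
  rw [XX_add_two h.inH, XX_zero, mul_div_assoc]
  exact mul_mem (mul_mem (chi_mem n) (zpow_mem (I_mem h) _)) (h.defX.2 e' e)

theorem fixes (h : AV τ K r) (e : Bits) (σ : ℂ ≃ₐ[K] ℂ) : Fixes τ (th2 τ e) (σ : ℂ →+* ℂ) :=
  ⟨σ.commutes ⟨_, I_mem h⟩, fun k => σ.commutes ⟨_, null_mem h e k⟩⟩

theorem cong_iff {σ : ℂ ≃ₐ[K] ℂ} {N : ℕ} {R : MZ} :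
    Cong r σ N R ↔ Lifts (fun l _ => (r l σ : Matrix ν ν ℤ_[l])) N R :=
  forall_congr' fun _ => forall_congr' fun _ => forall_congr' fun _ => forall_congr' fun _ =>
    (norm_le_iff_dvd _ _).symm

theorem exists_cong (r : Rep K) (σ : ℂ ≃ₐ[K] ℂ) {N : ℕ} (hN : N ≠ 0) : ∃ R, Cong r σ N R := by
  simp only [cong_iff]
  exact exists_lifts _ hN

theorem acts (h : AV τ K r) {σ : ℂ ≃ₐ[K] ℂ} {N : ℕ} (hN : N ≠ 0) {R : MZ} (hR : Cong r σ N R) :
    Acts τ (σ : ℂ →+* ℂ) R N := fun a => by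
  obtain ⟨c, hc⟩ := h.tate σ (fun j => (a j : ℚ) / N) (fun j => ((R *ᵥ a) j : ℚ) / N)
    fun l _ i => (cong_iff.1 hR).tate hN a l i
  have e : ∀ b : ν → ℤ, (fun i => ((((b i : ℚ) / N : ℚ)) : ℝ)) = M4.Kz.rq N b := fun b => by
    funext i; simp [M4.Kz.rq, rz, div_eq_inv_mul]
  rw [e, e] at hc
  refine ⟨c, fun k => ?_⟩
  obtain ⟨e', n, rfl⟩ := exists_bits k
  rw [XX_add_two h.inH, XX_add_two h.inH, map_mul, map_mul, map_chi, map_zpow₀, (fixes h e' σ).1,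
    mul_left_comm]
  exact congrArg _ (hc e')

/-- Exact equivariance of the normalised coordinates at level `M`. -/
theorem exact_gal (h : AV τ K r) {e : Bits} (he : th2 τ e ≠ 0) {σ : ℂ ≃ₐ[K] ℂ} {M : ℕ}
    (hM : M ≠ 0) {R : MZ} (hR : Cong r σ (4 * M * M) R) (k a : ν → ℤ) :
    σ (XX τ k (M4.Kz.rq M a) / th2 τ e) = XX τ k (M4.Kz.rq M (R *ᵥ a)) / th2 τ e :=
  mu_exact h.inH he (fixes h e σ) hM (acts h (by positivity) hR) k a

theorem sim_gal (h : AV τ K r) {σ : ℂ ≃ₐ[K] ℂ} {M : ℕ} (hM : M ≠ 0) {R : MZ}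
    (hR : Cong r σ (4 * (2 * M) * (2 * M)) R) (a b : ν → ℤ) :
    σ (ee ((Ef a b : ℤ) / M)) = ee ((Ef (R *ᵥ a) (R *ᵥ b) : ℤ) / M) := by
  obtain ⟨e, he⟩ := bpfXX h.inH 0
  rw [XX_zero] at he
  exact mu_sim h.inH (t := th2 τ e) he (fixes h e σ) hM (acts h (by positivity) hR) a b

theorem mu (h : AV τ K r) : MUst r := fun l _ σ => by
  obtain ⟨o⟩ : Nonempty ι := inferInstance
  have hl : ∀ n : ℕ, l ^ n ≠ 0 := fun n => pow_ne_zero _ (Fact.out : l.Prime).ne_zero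
  set A : Matrix ν ν ℤ_[l] := (r l σ : Matrix ν ν ℤ_[l])ᵀ * J ι ℤ_[l] *
    (r l σ : Matrix ν ν ℤ_[l]) with hA
  have key : ∀ n : ℕ, ∃ c : ℤ, σ (ee ((1 : ℤ) / (l ^ n : ℕ))) = ee (c / (l ^ n : ℕ)) ∧
      ∀ i j, ‖(A - (c : ℤ_[l]) • J ι ℤ_[l]) i j‖ ≤ (l : ℝ) ^ (-n : ℤ) := fun n => by
    obtain ⟨R, hR⟩ := exists_cong r σ (N := 4 * (2 * l ^ n) * (2 * l ^ n))
      (by have := hl n; positivity)
    have hs := sim_gal h (hl n) hR
    have h1 := hs (Pi.single (Sum.inl o) 1) (Pi.single (Sum.inr o) 1)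
    rw [show Ef (Pi.single (Sum.inl o) 1 : ν → ℤ) (Pi.single (Sum.inr o) 1) = 1 by
      simp [Ef, Pi.single_apply]] at h1
    refine ⟨_, h1, (cong_iff.1 hR).sim l n ⟨16 * l ^ n, by ring⟩ _ fun a b => ?_⟩
    rw [← ee_div_eq_one (hl n), Int.cast_sub, sub_div, sub_eq_add_neg, ee_add, ← hs,
      mul_comm _ (Ef a b), ← mul_one (Ef a b), ee_div_zpow, map_zpow₀, h1, ← ee_div_zpow, mul_one,
      mul_comm, ee_neg_mul]
  choose c hc1 hc2 using key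
  have h3 : ∀ n, ‖A (Sum.inr o) (Sum.inl o) - c n‖ ≤ (l : ℝ) ^ (-n : ℤ) := fun n => by
    simpa [J] using hc2 n (Sum.inr o) (Sum.inl o)
  refine ⟨A (Sum.inr o) (Sum.inl o), ?_, fun n ζ hζ => ?_⟩
  · ext i j : 2
    rw [← sub_eq_zero, ← norm_le_zero_iff]
    refine ge_of_tendsto' (x := Filter.atTop) (f := fun n : ℕ => (l : ℝ) ^ (-n : ℤ)) ?_ fun n => ?_
    · simp only [_root_.zpow_neg, zpow_natCast]
      exact tendsto_inv_atTop_zero.comp (tendsto_pow_atTop_atTop_of_one_lt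
        (by exact_mod_cast (Fact.out : l.Prime).one_lt))
    · have : A i j - (A (Sum.inr o) (Sum.inl o) • J ι ℤ_[l]) i j =
          (A - (c n : ℤ_[l]) • J ι ℤ_[l]) i j +
            -J ι ℤ_[l] i j * (A (Sum.inr o) (Sum.inl o) - c n) := by
        simp only [Matrix.sub_apply, Matrix.smul_apply, smul_eq_mul]; ring
      rw [this]
      refine (PadicInt.nonarchimedean _ _).trans (max_le (hc2 n i j) ?_)
      rw [norm_mul]
      exact (mul_le_of_le_one_left (norm_nonneg _) (PadicInt.norm_le_one _)).trans (h3 n)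
  · have : NeZero (l ^ n) := ⟨hl n⟩
    have h4 : PadicInt.toZModPow n (A (Sum.inr o) (Sum.inl o)) = (c n : ZMod (l ^ n)) := by
      rw [← map_intCast (PadicInt.toZModPow (p := l) n), ← sub_eq_zero, ← map_sub,
        ← RingHom.mem_ker, PadicInt.ker_toZModPow, ← PadicInt.norm_le_pow_iff_mem_span_pow]
      exact h3 n
    obtain ⟨j, -, rfl⟩ := (Complex.isPrimitiveRoot_exp _ (hl n)).eq_pow_of_pow_eq_one hζ
    have h5 : Complex.exp (2 * Real.pi * I / (l ^ n : ℕ)) = ee ((1 : ℤ) / (l ^ n : ℕ)) := by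
      unfold ee; congr 1; push_cast; ring
    rw [h4, h5, map_pow, hc1, ← pow_mul, mul_comm j, pow_mul]
    congr 1
    obtain ⟨k, hk⟩ := (ZMod.intCast_eq_intCast_iff_dvd_sub ((c n : ZMod (l ^ n)).val : ℤ) (c n)
      (l ^ n)).1 (by simp)
    rw [← zpow_natCast, ← ee_div_zpow, mul_one]
    refine ee_congr k ?_
    have h6 : ((l ^ n : ℕ) : ℂ) ≠ 0 := by exact_mod_cast hl n
    rw [← sub_eq_iff_eq_add', ← sub_div, ← Int.cast_sub, hk, Int.cast_mul, Int.cast_natCast (l ^ n),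
      mul_div_cancel_left₀ _ h6]

end MG.Kz
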