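import Pool.Agent.Lib.MP_33b3f9_ag.MG.MorR
import Pool.Agent.Lib.MP_33b3f9_ag.MG.Tr
import Pool.Agent.Lib.MP_33b3f9_ag.MG.E3.Fr

/-!
The real idempotents of the totally real field of the normal form.
-/

set_option autoImplicit false

noncomputable section

namespace MG

open Matrix Polynomial

theorem irr_of_mem {B : Type} [Ring B] [Nontrivial B] [Algebra ℚ B] [Module.Finite ℚ B] {A T : B}
    (h : Irreducible (minpoly ℚ A)) (hT : T ∈ (aeval A : ℚ[X] →ₐ[ℚ] B).range) :
    Irreducible (minpoly ℚ T) := by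
  have : NoZeroDivisors (aeval A : ℚ[X] →ₐ[ℚ] B).range := ⟨by
    rintro ⟨_, f, rfl⟩ ⟨_, g, rfl⟩ e
    have e1 : aeval A (f * g) = 0 := (map_mul _ f g).trans (congrArg Subtype.val e)
    refine (h.prime.dvd_or_dvd (minpoly.dvd ℚ A e1)).imp (fun h1 => Subtype.ext ?_)
      fun h1 => Subtype.ext ?_
    all_goals exact aeval_eq_zero_of_dvd_aeval_eq_zero h1 (minpoly.aeval ℚ A)⟩
  have := NoZeroDivisors.to_isDomain (aeval A : ℚ[X] →ₐ[ℚ] B).range
  have e := minpoly.algHom_eq (A := ℚ) (aeval A : ℚ[X] →ₐ[ℚ] B).range.val Subtype.val_injective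
    ⟨T, hT⟩
  exact e ▸ minpoly.irreducible (Algebra.IsIntegral.isIntegral _)

variable [Dim] {e : ℕ} {a b : MZ} {m n : ℕ}

/-- The idempotents of a splitting. -/
def Mor.ep {R : Type} [CommRing R] (z : Mor e a b R) (s : Fin e) : Matrix ν ν R :=
  z.em (Pi.single s 1)

theorem Mor.ep_mul {R : Type} [CommRing R] (z : Mor e a b R) (s : Fin e) (x : Fin e → M8 R) :
    z.ep s * z.em x = z.em (Pi.single s (x s)) := by
  rw [Mor.ep, ← map_mul, ← Pi.single_mul_left, one_mul]

theorem Mor.ep_ne {R : Type} [CommRing R] [Nontrivial R] (z : Mor e a b R) (s : Fin e) :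
    z.ep s ≠ 0 := fun h => by
  simpa using congrFun (z.em_inj (h.trans (map_zero z.em).symm)) s

theorem Mor.ep_sum {R : Type} [CommRing R] (z : Mor e a b R) : ∑ s, z.ep s = 1 := by
  rw [← map_one z.em, ← Finset.univ_sum_single (1 : Fin e → M8 R), map_sum]
  rfl

/-- Central elements are scalars in every block. -/
theorem Mor.central {R : Type} [CommRing R] (z : Mor e a b R) {g : Matrix ν ν R}
    (ha : Commute (zM R a) g) (hb : Commute (zM R b) g) (h : ∀ x, Commute (z.em x) g) :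
    ∃ η : Fin e → R, g = z.em fun s => η s • 1 := by
  have h1 : ∀ s, ∃ c : R, scalar ω c = z.pr g s := fun s =>
    mem_range_scalar_iff_commute_single'.2 fun i j => by
      have h2 := (h (Pi.single s (single i j 1))).eq
      rw [← z.em_pr ha hb, ← map_mul, ← map_mul] at h2
      simpa [Commute, SemiconjBy] using congrFun (z.em_inj h2) s
  choose η hη using h1
  refine ⟨η, (z.em_pr ha hb).symm.trans (congrArg z.em (funext fun s => ?_))⟩
  rw [← hη, scalar_apply, smul_one_eq_diagonal]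

theorem Mor.sc_ep {R : Type} [CommRing R] (z : Mor e a b R) (η : Fin e → R) (s : Fin e) :
    (z.em fun s => η s • 1) * z.ep s = η s • z.ep s := by
  rw [Mor.ep, ← map_mul, ← map_smul, ← Pi.single_mul_right, ← Pi.single_smul, mul_one]

theorem J_adj (g : MZ) : gᵀ * J ι ℤ = J ι ℤ * adj g := by
  rw [adj, mul_neg, mul_assoc, ← mul_assoc (J ι ℤ), J_squared, neg_mul, neg_neg, one_mul]

theorem PEL.mul_adj (h : PEL e a b m n) : a * adj a = (m : ℤ) • (1 : MZ) :=
  MG.mul_adj h.m0 h.sim_a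

theorem PEL.b_adj (h : PEL e a b m n) : b * adj a = a * b :=
  cancel_right (det_ne h.m0 h.sim_a) (by
    rw [mul_assoc, h.adj_mul, mul_assoc, h.ba, ← mul_assoc, h.mul_adj, mul_smul_comm,
      smul_mul_assoc, mul_one, one_mul])

theorem PEL.comm_adj (h : PEL e a b m n) {g : Matrix ν ν ℝ} (hg : Commute (zM ℝ a) g) :
    Commute (zM ℝ (adj a)) g := by
  have h1 := (h.rel ℝ).2.2.2.2
  have h2 : zM ℝ a * zM ℝ (adj a) = (m : ℝ) • 1 := by
    rw [← zM_mul, h.mul_adj, zM_smul, zM_one, Int.cast_natCast]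
  refine smul_right_injective _ (Nat.cast_ne_zero.2 h.m0.ne' : (m : ℝ) ≠ 0) ?_
  calc (m : ℝ) • (zM ℝ (adj a) * g) = zM ℝ (adj a) * (g * zM ℝ a) * zM ℝ (adj a) := by
        rw [mul_assoc, mul_assoc, h2, mul_smul_comm, mul_one, mul_smul_comm]
    _ = (m : ℝ) • (g * zM ℝ (adj a)) := by
        rw [← hg.eq, ← mul_assoc, h1, smul_mul_assoc, one_mul, smul_mul_assoc]

theorem PEL.irr_t (h : PEL e a b m n) : Irreducible (minpoly ℚ (zM ℚ (a + adj a))) := by
  refine irr_of_mem h.irr ?_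
  obtain ⟨u, v, huv⟩ := h.irr.coprime_iff_not_dvd.2 fun hd : _ ∣ X => by
    have h1 := natDegree_le_of_dvd hd X_ne_zero
    have h2 := h.pos
    rw [h.deg, natDegree_X] at h1
    omega
  have h1 := congrArg (fun p => aeval (zM ℚ a) p * zM ℚ (adj a)) huv
  simp only [map_add, map_mul, minpoly.aeval, mul_zero, zero_add, aeval_X, map_one, one_mul,
    mul_assoc] at h1
  rw [← zM_mul, h.mul_adj, zM_smul, zM_one, mul_smul_comm, mul_one] at h1
  rw [zM_add, ← h1]
  exact add_mem ⟨X, aeval_X _⟩ (Subalgebra.smul_mem _ (AlgHom.mem_range_self _ v) _)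

theorem PEL.exists_fr (h : PEL e a b m n) (z : Mor e a b ℝ) :
    ∃ Φ : E3.Fr (Fin e) a b, Φ.ep = z.ep := by
  have ta : (a + adj a) * a = a * (a + adj a) := by rw [add_mul, mul_add, h.adj_mul, h.mul_adj]
  have tb : (a + adj a) * b = b * (a + adj a) := by
    rw [add_mul, mul_add, h.ba, h.b_adj, add_comm]
  obtain ⟨θ, hθ⟩ := z.central (g := zM ℝ (a + adj a))
    (by rw [Commute, SemiconjBy, ← zM_mul, ← ta, zM_mul])
    (by rw [Commute, SemiconjBy, ← zM_mul, ← tb, zM_mul]) fun x => by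
      rw [zM_add]
      exact ((z.comm_a x).add_left (h.comm_adj (z.comm_a x))).symm
  have te : ∀ s, zM ℝ (a + adj a) * z.ep s = θ s • z.ep s := fun s => by rw [hθ, z.sc_ep]
  have orth : ∀ s s', s ≠ s' → z.ep s * z.ep s' = 0 := fun s s' hne => by
    rw [Mor.ep.eq_1 z s', z.ep_mul, Pi.single_eq_of_ne hne, Pi.single_zero, map_zero]
  obtain ⟨t, u, E, ht, hpos, hE⟩ := h.morr_proj
  have h1 : ∀ s', ∃ s, θ s = 2 * t s' := fun s' => by
    obtain ⟨-, -, -, -, h2, h3⟩ := hE s'
    by_contra hc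
    push Not at hc
    have h4 : E s' = 0 := by
      rw [← one_mul (E s'), ← z.ep_sum, Finset.sum_mul]
      refine Finset.sum_eq_zero fun s _ => ?_
      have h5 : θ s • (z.ep s * E s') = (2 * t s') • (z.ep s * E s') := by
        rw [← smul_mul_assoc, ← E3.idem_et z.ep_sum orth te, mul_assoc, zM_add, h3, mul_smul_comm]
      rw [← sub_eq_zero, ← sub_smul] at h5
      exact (smul_eq_zero.1 h5).resolve_left (sub_ne_zero.2 (hc s))
    rw [h4, trace_zero] at h2
    norm_num at h2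
  choose π hπ using h1
  have h2 : Function.Surjective π := Finite.injective_iff_surjective.1 fun s s' e => ht (by
    have h3 := hπ s
    rw [e, hπ] at h3
    linarith)
  obtain ⟨c, hc, hf⟩ := IsLocalization.integerNormalization_spec (nonZeroDivisors ℤ)
    (minpoly ℚ (zM ℚ (a + adj a)))
  refine ⟨⟨a + adj a, m, h.β, IsLocalization.integerNormalization (nonZeroDivisors ℤ)
    (minpoly ℚ (zM ℚ (a + adj a))), z.ep, θ, h.m0, fun s => ?_,
    by rw [add_sub_cancel_left, h.mul_adj], h.bsq, by rw [add_sub_cancel_left, h.ba], ta, tb,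
    by rw [add_sub_cancel_left, J_adj], h.bJ, ?_,
    z.ep_sum, orth, te, fun s s' e => ?_, ?_, fun s => ?_, fun s => ?_⟩, rfl⟩
  · obtain ⟨s, rfl⟩ := h2 s
    exact hπ s ▸ hpos s
  · have h3 := congrArg transpose (J_adj a)
    rw [transpose_mul, transpose_mul, transpose_transpose, J_transpose, neg_mul, mul_neg,
      neg_inj] at h3
    rw [transpose_add, add_mul, mul_add, J_adj a, ← h3, add_comm]
  · obtain ⟨s, rfl⟩ := h2 s
    obtain ⟨s', rfl⟩ := h2 s'
    rw [hπ, hπ] at e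
    rw [ht (by linarith : t s = t s')]
  · rw [show Int.castRingHom ℚ = algebraMap ℤ ℚ from rfl, hf, ← Int.cast_smul_eq_zsmul ℚ,
      smul_eq_C_mul, irreducible_isUnit_mul (isUnit_C.2 (Int.cast_ne_zero.2
        (nonZeroDivisors.ne_zero hc)).isUnit)]
    exact h.irr_t
  · have h3 := E3.idem_aeval (te s) ((minpoly ℚ (zM ℚ (a + adj a))).map (algebraMap ℚ ℝ))
    rw [← zM_map (algebraMap ℚ ℝ), morda_map, minpoly.aeval, Matrix.map_zero _ (map_zero _),
      zero_mul, eq_comm, smul_eq_zero, or_iff_left (z.ep_ne s), eval_map_algebraMap] at h3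
    rw [← aeval_map_algebraMap ℚ, hf, map_zsmul, h3, smul_zero]
  · obtain ⟨s, rfl⟩ := h2 s
    obtain ⟨h3, h4, -⟩ := hE s
    rw [hπ, ← h4]
    nlinarith [sq_pos_of_ne_zero h3]

end MG
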