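import Mathlib
import Pool.Agent.Lib.MP_33b3f9_ag.Rx.Main

/-!
The dimension of the spaces of forms on the fixed locus, for a chart on a convex open set.
-/

set_option autoImplicit false

namespace MG.Rx

open Complex Matrix M4 M4.Rx

variable {ι σ α : Type} [Fintype ι] [DecidableEq ι] [Fintype σ] {U : Set (σ → ℂ)}

/-- `ch` is a holomorphic map on the convex open set `U`. -/
structure Chart0 (U : Set (σ → ℂ)) (ch : U → HH ι) : Prop where
  op : IsOpen U
  cv : Convex ℝ U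
  hol : ∃ Φ : (σ → ℂ) → ι → ι → ℂ, DifferentiableOn ℂ Φ U ∧ ∀ t : U, Φ t = (ch t).1

/-- `ch` is a holomorphic and proper map from the convex open set `U` onto `X`. -/
structure Chart (X : Set (HH ι)) (U : Set (σ → ℂ)) (ch : U → HH ι) : Prop extends Chart0 U ch where
  range : Set.range ch = X
  proper : ∀ K : Set (ι → ι → ℂ), IsCompact K → (∀ τ ∈ K, InH τ) →
    ∃ K' : Set (σ → ℂ), IsCompact K' ∧ K' ⊆ U ∧
      ∀ z : U, ((ch z).1 : ι → ι → ℂ) ∈ K → z.1 ∈ K'

open Classical in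
/-- Extension by zero, in the coordinates centred at `t`. -/
noncomputable def ext (U : Set (σ → ℂ)) (t : σ → ℂ) : (U → ℂ) →ₗ[ℂ] ((σ → ℂ) → ℂ) where
  toFun F y := if h : t + y ∈ U then F ⟨t + y, h⟩ else 0
  map_add' F G := by
    funext y
    simp only [Pi.add_apply]
    split_ifs <;> simp
  map_smul' c F := by
    funext y
    simp only [Pi.smul_apply, RingHom.id_apply]
    split_ifs <;> simp

omit [Fintype σ] in
theorem ext_apply (F : U → ℂ) {t y : σ → ℂ} (h : t + y ∈ U) : ext U t F y = F ⟨t + y, h⟩ :=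
  dif_pos h

omit [DecidableEq ι] in
theorem ext_diff {ch : U → HH ι} (hch : Chart0 U ch) {n : ℕ} {f : HH ι → ℂ}
    (hf : f ∈ MF ι n) (t : σ → ℂ) :
    DifferentiableOn ℂ (ext U t fun z => f (ch z)) {y | t + y ∈ U} := by
  obtain ⟨Φ, hΦ, h1⟩ := hch.hol
  obtain ⟨F, hF, h2⟩ := MF.hol hf
  refine DifferentiableOn.congr (f := fun y => F (Φ (t + y))) (hF.comp (hΦ.comp
    (by fun_prop) fun y hy => hy) fun y hy => ?_) fun y hy => ?_
  · rw [h1 ⟨_, hy⟩]
    exact (ch _).2.posIm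
  · rw [ext_apply (U := U) _ hy, h2, h1 ⟨_, hy⟩]

omit [Fintype σ] in
theorem isOpen_ext (hU : IsOpen U) (t : σ → ℂ) : IsOpen {y | t + y ∈ U} :=
  hU.preimage (f := fun y => t + y) (by fun_prop)

omit [DecidableEq ι] in
/-- No zero divisors. -/
theorem mul_eq_zero' {ch : U → HH ι} (hch : Chart0 U ch) {n n' : ℕ}
    {f g : HH ι → ℂ} (hf : f ∈ MF ι n) (hg : g ∈ MF ι n')
    (h : ∀ z, f (ch z) * g (ch z) = 0) : (∀ z, f (ch z) = 0) ∨ ∀ z, g (ch z) = 0 := by
  refine or_iff_not_imp_left.2 fun hn z => ?_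
  obtain ⟨w, hw⟩ := not_forall.1 hn
  have hs : ∀ z : U, 0 + z.1 ∈ U := fun z => by
    rw [zero_add]
    exact z.2
  have he : ∀ (F : U → ℂ) (z : U), ext U 0 F z.1 = F z := fun F z => by
    rw [ext_apply _ (hs z)]
    exact congrArg F (Subtype.ext (zero_add _))
  have hU : Convex ℝ {y : σ → ℂ | 0 + y ∈ U} := by
    simpa only [zero_add, Set.ofPred_mem_eq] using hch.cv
  have h1 := ((ext_diff hch hf 0).continuousOn.continuousAt
    ((isOpen_ext hch.op 0).mem_nhds (hs w))).eventually_ne (y := 0) (by rwa [he])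
  rw [← he fun z => g (ch z)]
  refine (Pool.Agent.Lib.MP_940f24_an.analyticOnNhd_of_differentiableOn (isOpen_ext hch.op 0)
    (ext_diff hch hg 0)).eqOn_zero_of_preconnected_of_eventuallyEq_zero hU.isPreconnected (hs w)
    ?_ (hs z)
  filter_upwards [h1, (isOpen_ext hch.op 0).mem_nhds (hs w)] with y hy hy'
  rw [ext_apply _ hy'] at hy ⊢
  exact (_root_.mul_eq_zero.1 (h _)).resolve_left hy

variable [Finite α]

/-- The dimension bound. -/
theorem dim_MIX {a : α → Matrix (ι ⊕ ι) (ι ⊕ ι) ℤ} {m : α → ℝ} (hm : ∀ i, 0 < m i)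
    (ha : ∀ i, Sim (mz (a i)) (m i)) {ch : U → HH ι} (hch : Chart (Fx a) U ch) :
    ∃ C : ℕ, ∀ q k : ℕ, q ≠ 0 → Module.Finite ℂ (MIX a ch {γ | Lv q γ} k) ∧
      Module.finrank ℂ (MIX a ch {γ | Lv q γ} k) ≤
        q ^ (4 * Fintype.card ι ^ 2) * C * (k + 1) ^ Fintype.card σ := by
  classical
  obtain ⟨K, C, hK, hH, hC0, hC⟩ := bound_one hm ha
  obtain ⟨K', hK2, hH', hpr⟩ := hch.proper K hK hH
  obtain ⟨r, hr, hrU⟩ := hK2.exists_cthickening_subset_open hch.op hH'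
  obtain ⟨T, hT1, hT2, hT3⟩ := finite_cover_balls_of_compact hK2 (half_pos hr)
  have hin : ∀ t ∈ T, ∀ y ∈ Metric.ball (0 : σ → ℂ) r,
      t + y ∈ Metric.cthickening r K' := fun t ht y hy =>
    Metric.mem_cthickening_of_dist_le _ t _ _ (hT1 ht) (by simpa using (Metric.mem_ball.1 hy).le)
  obtain ⟨C1, hC1⟩ : ∃ C1 : ℝ, ∀ t (ht : t ∈ Metric.cthickening r K'),
      NN (ch ⟨t, hrU ht⟩).1 ≤ C1 := by
    obtain ⟨Φ, hΦ, h1⟩ := hch.hol
    obtain ⟨c, hc, h2⟩ := im_low ((hK2.cthickening (r := r)).image_of_continuousOn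
      (hΦ.continuousOn.mono hrU)) (by
        rintro _ ⟨t, ht, rfl⟩
        rw [h1 ⟨t, hrU ht⟩]
        exact (ch _).2)
    obtain ⟨C1, h3⟩ := NN_up (ι := ι) hc
    exact ⟨C1, fun t ht => h3 _ (ch _).2 (h2 _ ⟨t, ht, h1 ⟨t, _⟩⟩)⟩
  obtain ⟨c0, hc0, hlow⟩ := NN_low ι
  obtain ⟨c1, hc1, hK1⟩ := im_low hK hH
  obtain ⟨C2, hC2⟩ := exists_pow_lt_of_lt_one (show 0 < c0 ^ 8 / (C * |C1| ^ 8 + 1) by positivity)
    (show (1 / 2 : ℝ) < 1 by norm_num)
  have hC3 : C * |C1| ^ 8 * (1 / 2) ^ C2 ≤ c0 ^ 8 := by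
    rw [lt_div_iff₀ (by positivity)] at hC2
    nlinarith [show (0 : ℝ) < (1 / 2) ^ C2 by positivity]
  refine ⟨hT2.toFinset.card * (C2 + 1) ^ Fintype.card σ, fun q k hq => ?_⟩
  obtain ⟨R, hR1, hR2, hR3⟩ := exists_reps' (CG a) hq
  have hfx : ∀ δ ∈ CG a, ∀ σ ∈ Fx a, sH δ σ ∈ Fx a := fun δ hδ σ hσ => by
    have := fx_cj hm ha δ hσ
    rwa [show cj δ a = a from hδ] at this
  have hchX : ∀ z, ch z ∈ Fx a := fun z => hch.range ▸ Set.mem_range_self z
  have main := dim_le ((LinearMap.funLeft ℂ ℂ ch).domRestrict (MIV a ch {γ | Lv q γ} k))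
    (fun j : R × hT2.toFinset => (ext U j.2.1).comp ((LinearMap.funLeft ℂ ℂ ch).comp
      ((slash k (mz j.1.1.1)).domRestrict (MIV a ch {γ | Lv q γ} k)))) (C2 * k + 1)
    (fun j f => Pool.Agent.Lib.MP_940f24_an.analyticOnNhd_of_differentiableOn (isOpen_ext hch.op _)
      (ext_diff hch.toChart0 (slash_mem_sp j.1.1.2 f.2.1) _) 0
      (hrU (hin _ (hT2.mem_toFinset.1 j.2.2) 0 (Metric.mem_ball_self hr))))
    fun f hf => by
      have all : ∀ M, 0 ≤ M → (∀ δ ∈ R, ∀ σ ∈ Fx a, (σ.1 : ι → ι → ℂ) ∈ K → Le k f.1 M (sH δ σ)) →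
          ∀ τ ∈ Fx a, Le k f.1 (M * C ^ k) τ := fun M hM h =>
        hC k f.1 f.2.1 M hM fun η hη σ hσ hσK => by
          obtain ⟨δ, hδ, h1, -⟩ := hR3 η hη
          obtain ⟨z, hz⟩ : sH δ σ ∈ Set.range ch := hch.range ▸ hfx δ (hR2 δ hδ) σ hσ
          have h2 := f.2.2 _ h1 (mem_Cz.2 (mul_mem hη (inv_mem (hR2 δ hδ)))) z
          rw [← inv_mul_cancel_right η δ, sH_mul, ← le_slash, Le, ← hz, h2, hz]
          exact h δ hδ σ hσ hσK
      have key : ∀ M, 0 ≤ M → (∀ δ ∈ R, ∀ σ ∈ Fx a, (σ.1 : ι → ι → ℂ) ∈ K → Le k f.1 M (sH δ σ)) →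
          ∀ δ ∈ R, ∀ σ ∈ Fx a, (σ.1 : ι → ι → ℂ) ∈ K → Le k f.1 (M / 2) (sH δ σ) := by
        intro M hM h δ hδ σ hσ hσK
        obtain ⟨z, rfl⟩ : σ ∈ Set.range ch := hch.range ▸ hσ
        obtain ⟨t, ht, h1⟩ := Set.mem_iUnion₂.1 (hT3 (hpr z hσK))
        have h2 := schwarz (B := M * C ^ k * |C1| ^ (8 * k)) (R := r) (y := z.1 - t)
          ((ext_diff hch.toChart0 (slash_mem_sp δ.2 f.2.1) t).mono fun y hy => hrU (hin t ht y hy))
          (fun y hy => by
            rw [ext_apply _ (hrU (hin t ht y hy))]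
            refine ((le_slash δ _).2 (all M hM h _ (hfx δ (hR2 δ hδ) _ (hchX _)))).trans
              (mul_le_mul_of_nonneg_left (pow_le_pow_left₀ (NN_pos (ch _).2).le
                ((hC1 _ (hin t ht y hy)).trans (le_abs_self _)) _) (by positivity)))
          (hf (⟨δ, hδ⟩, ⟨t, hT2.mem_toFinset.2 ht⟩)) (by simpa [dist_eq_norm] using h1)
        have e : t + (z.1 - t) = z.1 := add_sub_cancel _ _
        have e' : t + (z.1 - t) ∈ U := by
          rw [e]
          exact z.2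
        rw [ext_apply _ e', show (⟨_, e'⟩ : U) = z from Subtype.ext e] at h2
        rw [← le_slash]
        refine h2.trans ?_
        calc M * C ^ k * |C1| ^ (8 * k) * (1 / 2) ^ (C2 * k + 1)
            = M / 2 * (C * |C1| ^ 8 * (1 / 2) ^ C2) ^ k := by
              rw [mul_pow, mul_pow, ← pow_mul, ← pow_mul, pow_succ]
              ring
          _ ≤ M / 2 * (c0 ^ 8) ^ k := by gcongr
          _ ≤ _ := by
              rw [← pow_mul]
              exact mul_le_mul_of_nonneg_left (pow_le_pow_left₀ hc0.le (hlow _ (ch z).2) _)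
                (by positivity)
      choose B hB using fun δ : SpZ ι => MF.bound (slash_mem_sp δ.2 f.2.1) hc1
      obtain ⟨M, hM⟩ : ∃ M, M = (∑ δ ∈ R, |B δ|) / c0 ^ (8 * k) := ⟨_, rfl⟩
      have hM0 : 0 ≤ M := by rw [hM]; positivity
      have hj : ∀ j : ℕ, ∀ δ ∈ R, ∀ σ ∈ Fx a, (σ.1 : ι → ι → ℂ) ∈ K →
          Le k f.1 (M * (1 / 2) ^ j) (sH δ σ) := fun j => by
        induction j with
        | zero =>
          intro δ hδ σ _ hσK
          rw [← le_slash, pow_zero, mul_one, hM]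
          have h2 : ‖slash k (mz δ.1) f.1 σ‖ ≤ ∑ δ ∈ R, |B δ| :=
            ((hB δ σ (hK1 _ hσK)).trans (le_abs_self _)).trans
              (Finset.single_le_sum (f := fun δ => |B δ|) (fun _ _ => abs_nonneg _) hδ)
          refine h2.trans ?_
          rw [div_mul_eq_mul_div, le_div_iff₀ (pow_pos hc0 _)]
          exact mul_le_mul_of_nonneg_left (pow_le_pow_left₀ hc0.le (hlow _ σ.2) _)
            ((norm_nonneg _).trans h2)
        | succ j ih =>
          rw [pow_succ, ← mul_assoc, ← mul_div_assoc, mul_one]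
          exact key _ (by positivity) ih
      funext z
      have h2 : Filter.Tendsto (fun j : ℕ => M * (1 / 2 : ℝ) ^ j * C ^ k * NN (ch z).1 ^ (8 * k))
          Filter.atTop (nhds (M * 0 * C ^ k * NN (ch z).1 ^ (8 * k))) :=
        (((tendsto_pow_atTop_nhds_zero_of_lt_one (by norm_num) (by norm_num)).const_mul
          M).mul_const _).mul_const _
      rw [mul_zero, zero_mul, zero_mul] at h2
      exact norm_le_zero_iff.1 (ge_of_tendsto' h2 fun j =>
        all _ (by positivity) (hj j) _ (hchX z))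
  rw [LinearMap.range_domRestrict] at main
  refine ⟨main.1, main.2.trans ?_⟩
  rw [Fintype.card_prod, Fintype.card_coe, Fintype.card_coe, mul_assoc, mul_assoc, mul_assoc,
    ← mul_pow]
  exact Nat.mul_le_mul hR1 (Nat.mul_le_mul_left _ (Nat.pow_le_pow_left (by nlinarith) _))

end MG.Rx
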