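import Mathlib
import Pool.Agent.Lib.MP_33b3f9_ag.MG.Fin0

/-!
Rings of invariant forms are finite over the polynomial ring of the projection.
-/

set_option autoImplicit false

namespace MG

open M4 Complex Matrix Polynomial

theorem fin_expand_hom {σ : Type} {n : ℕ} {φ : MvPolynomial σ ℂ} (hφ : φ.IsHomogeneous n) :
    (MvPolynomial.expand 8 φ).IsHomogeneous (8 * n) := by
  have h : (MvPolynomial.expand 8 : MvPolynomial σ ℂ →ₐ[ℂ] _) =
      MvPolynomial.aeval fun i => (MvPolynomial.X i : MvPolynomial σ ℂ) ^ 8 :=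
    MvPolynomial.algHom_ext fun i => by simp
  rw [h]
  exact hφ.aeval _ fun i => MvPolynomial.isHomogeneous_X_pow i 8

variable [Dim] {d e : ℕ} {a b : MZ} {m n : ℕ} {y : Matrix (Fin (d + 1)) Bits ℂ}

theorem fin_aeval (c : Ch d a b) (φ : MvPolynomial (Fin (d + 1)) ℂ) (z : c.U) :
    MvPolynomial.aeval (fun i => c.pb (yH y i) ^ 8) φ z =
      MvPolynomial.eval (lin y (c.f z.1)) (MvPolynomial.expand 8 φ) := by
  have h : (MvPolynomial.aeval fun i => c.pb (yH y i) ^ 8 : MvPolynomial (Fin (d + 1)) ℂ →ₐ[ℂ] _) =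
      (MvPolynomial.aeval fun i => c.pb (yH y i)).comp (MvPolynomial.expand 8) :=
    MvPolynomial.algHom_ext fun i => by simp
  rw [h, AlgHom.comp_apply, c.aeval_pb, c.pb_apply, aeval_yH]
  rfl

theorem fin_pow_mem {n : ℕ} {φ : MvPolynomial (Fin (d + 1)) ℂ} (hφ : φ.IsHomogeneous n) :
    MvPolynomial.aeval (yH y) φ ^ 8 ∈ MI (ι := ι) {γ | Lv 8 γ} n := by
  apply span_t2_pow_le n
  rw [mul_comm, pow_mul]
  exact Submodule.pow_mem_pow _ (aeval_yH_mem hφ) 8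

theorem fin_slash {h : MZ} {m : ℕ} (hm : m ≠ 0) (hh : Sim (zr h) m) (n : ℕ)
    (φ : MvPolynomial (Fin (d + 1)) ℂ) (τ : HH ι) :
    slash n (mz h) (MvPolynomial.aeval (yH y) φ ^ 8) τ =
      MvPolynomial.eval (lin y (act (zr h) τ.1)) φ ^ 8 / wt (zr h) τ.1 ^ n := by
  have hh' : Sim (mz h) m := hh
  rw [slash_apply, Pi.pow_apply, aeval_yH, aH_val hh' (by positivity)]
  rfl

theorem FinProj.nice (hP : PEL e a b m n) (c : Ch d a b) : ∃ C : ℕ,
    ∀ y : Matrix (Fin (d + 1)) Bits ℂ, FinProj a b y → ∀ q : ℕ, q ≠ 0 → 8 ∣ q →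
      Gr.Nice (Rx.MIX ![a, b] c.h {γ | Lv q γ}) (fun i => c.pb (yH y i) ^ 8) d
        (C * q ^ (4 * Fintype.card ι ^ 2)) := by
  obtain ⟨C, hC⟩ := hP.dim c
  refine ⟨C, fun y hy q hq h2 => ⟨⟨Rx.MIX.one _ _ _, Rx.MIX.mul⟩, fun i => ?_, by simp,
    fun k => (hC q k hq).1, fun k => (hC q k hq).2, fun hf hg h => ?_, fun n φ hφ h => ?_,
    fun hf => ?_⟩⟩
  · have := fin_pow_mem (y := y) (MvPolynomial.isHomogeneous_X ℂ i)
    rw [MvPolynomial.aeval_X] at this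
    exact Rx.MIX.of_MI (MI.anti (S' := {γ | Lv 8 γ}) (fun _ hγ => Lv.of_dvd hγ h2) 1 this)
  · obtain ⟨f, hf, rfl⟩ := hf
    obtain ⟨g, hg, rfl⟩ := hg
    exact c.mul_eq_zero hf.1 hg.1 h
  · refine (MvPolynomial.expand_eq_zero (p := 8) (by norm_num)).1
      (hy.2 _ _ (fin_expand_hom hφ) fun τ hτ => ?_)
    obtain ⟨z, rfl⟩ := c.h_sur hτ
    exact (fin_aeval c φ z).symm.trans (congrFun h z)
  · obtain ⟨f, hf, rfl⟩ := hf
    exact hy.intY_eight c hf.1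

/-- (FIN). -/
theorem fin_gen (hP : PEL e a b m n) (c : Ch d a b) (y : Matrix (Fin (d + 1)) Bits ℂ)
    (hy : FinProj a b y) : FINst c y := by
  obtain ⟨C, hC⟩ := FinProj.nice hP c
  obtain ⟨N, deg, g, -, h⟩ := (hC y hy 32 (by norm_num) (by norm_num)).finite
  refine ⟨N, deg, g, fun k f hf => ?_⟩
  obtain ⟨q, hq, e⟩ := h k f hf
  refine ⟨fun i => MvPolynomial.expand 8 (q i), fun i => ?_, fun τ => ?_⟩
  · rcases hq i with h0 | h0
    · exact Or.inl ((congrArg (MvPolynomial.expand 8) h0).trans (map_zero _))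
    · exact Or.inr ⟨h0.1, fin_expand_hom h0.2⟩
  · rw [e, Finset.sum_apply]
    exact Finset.sum_congr rfl fun i _ => by rw [Pi.mul_apply, fin_aeval]

/-- (HN1). -/
theorem hn_one (hP : PEL e a b m n) (c : Ch d a b) : ∃ C : ℕ, ∀ y : Matrix (Fin (d + 1)) Bits ℂ,
    FinProj a b y → ∀ (h : MZ) (m : ℕ), m ≠ 0 →
    Sim (zr h) m → ∀ (n : ℕ) (φ : MvPolynomial (Fin (d + 1)) ℂ), φ.IsHomogeneous n →
      ∃ D ≤ C * m ^ (4 * Fintype.card ι ^ 2), ∃ q : ℕ → MvPolynomial (Fin (d + 1)) ℂ,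
        (∀ e < D, (q e).IsHomogeneous (8 * (n * (D - e)))) ∧ ∀ τ ∈ FX a b,
          (MvPolynomial.eval (lin y (act (zr h) τ)) φ ^ 8 / wt (zr h) τ ^ n) ^ D +
            ∑ e ∈ Finset.range D, MvPolynomial.eval (lin y τ) (q e) *
              (MvPolynomial.eval (lin y (act (zr h) τ)) φ ^ 8 / wt (zr h) τ ^ n) ^ e = 0 := by
  obtain ⟨C, hC⟩ := FinProj.nice hP c
  refine ⟨Nat.factorial (d + 1) * (C * 8 ^ (4 * Fintype.card ι ^ 2)), fun y hy h m hm hh n φ hφ => ?_⟩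
  have hN := hC y hy (8 * m) (by omega) (Dvd.intro _ rfl)
  obtain ⟨D, hD, q, hq, e⟩ := hN.gEq
    (Rx.MIX.of_MI (slash_mem_MI_sim (h := h) hm hh (fin_pow_mem (y := y) hφ)))
  refine ⟨D, hD.trans (le_of_eq (by rw [mul_pow, mul_assoc, mul_assoc])),
    fun e => MvPolynomial.expand 8 (q e), fun e he => fin_expand_hom (hq e he), fun τ hτ => ?_⟩
  obtain ⟨z, rfl⟩ := c.h_sur hτ
  have e1 := congrFun e z
  rw [Pi.add_apply, Finset.sum_apply, Pi.pow_apply, fin_slash hm hh] at e1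
  refine Eq.trans ?_ e1
  congr 1
  exact Finset.sum_congr rfl fun i _ => by
    rw [Pi.mul_apply, Pi.pow_apply, fin_slash hm hh, fin_aeval]
    rfl

/-- The function depends only on the class of `h` modulo `8 m` (`exists_left_level`). -/
theorem hn_congr {h h' : MZ} {m : ℕ} (hm : m ≠ 0) (hh : Sim (zr h) m) (hh' : Sim (zr h') m)
    (hq : ∀ i j, ((8 * m : ℕ) : ℤ) ∣ (h' - h) i j) {n : ℕ} {φ : MvPolynomial (Fin (d + 1)) ℂ}
    (hφ : φ.IsHomogeneous n) {τ : Mat} (hτ : InH τ) :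
    MvPolynomial.eval (lin y (act (zr h') τ)) φ ^ 8 / wt (zr h') τ ^ n =
      MvPolynomial.eval (lin y (act (zr h) τ)) φ ^ 8 / wt (zr h) τ ^ n := by
  obtain ⟨δ, hδ, hl, e⟩ := exists_left_level (h := h) (h' := h') hm hh hh' hq
  have hh1 : Sim (mz h) m := hh
  rw [← fin_slash hm hh' n φ ⟨τ, hτ⟩, ← fin_slash hm hh n φ ⟨τ, hτ⟩, e, mz_mul,
    slash_mul (sim_mz_iff.2 hδ) one_pos hh1 (by positivity), (fin_pow_mem hφ).2 δ hl hδ]

end MG
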