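import Pool.Agent.Lib.MP_33b3f9_ag.MG.IDefs

/-! The numerical contradiction between the zero estimate and the arithmetic half. -/

set_option autoImplicit false

namespace MG

open Filter M4 Pool.Agent.M4.Det

theorem hil_zero {S I : Type} [Fintype I] (y : S → I → ℂ) : hil y 0 ≤ 1 := by
  have : Subsingleton {m : I →₀ ℕ // ∑ i, m i = 0} := ⟨fun m m' => Subtype.ext (Finsupp.ext fun i =>
    (Finset.sum_eq_zero_iff.1 m.2 i (Finset.mem_univ i)).trans
      (Finset.sum_eq_zero_iff.1 m'.2 i (Finset.mem_univ i)).symm)⟩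
  have := Fintype.ofFinite {m : I →₀ ℕ // ∑ i, m i = 0}
  exact (finrank_range_le_card _).trans (Fintype.card_le_one_iff_subsingleton.2 inferInstance)

theorem ev_poly (C : ℝ) (k : ℕ) {c : ℝ} (hc : 0 < c) :
    ∀ᶠ Y : ℕ in atTop, C * (Y : ℝ) ^ k ≤ Real.exp ((Y : ℝ) ^ c) := by
  have h := (tendsto_exp_div_rpow_atTop (k / c)).comp
    ((tendsto_rpow_atTop hc).comp tendsto_natCast_atTop_atTop)
  filter_upwards [h.eventually_ge_atTop C, eventually_ge_atTop 1] with Y h1 h2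
  have hY : (0 : ℝ) < Y := Nat.cast_pos.2 h2
  simp only [Function.comp_apply] at h1
  rwa [← Real.rpow_mul hY.le, mul_div_cancel₀ _ hc.ne', Real.rpow_natCast,
    le_div_iff₀ (by positivity)] at h1

theorem pow_le_choose (k d : ℕ) : k ^ d ≤ d.factorial * (k + d).choose d := by
  rw [← Nat.ascFactorial_eq_factorial_mul_choose]
  exact (Nat.pow_le_pow_left k.le_succ d).trans (Nat.pow_succ_le_ascFactorial _ d)

theorem num_end {δ e Y Z W V s T Λ P X : ℝ} (hδ : 0 < δ) (he : 1 ≤ e) (hY : 0 < Y) (hZ : 0 < Z)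
    (w1 : 1 ≤ W) (w3 : V = W * Z) (w4 : V * Z = Y) (hs1 : V ≤ 2 * s) (hs2 : s ≤ V) (s2 : s < T)
    (L1 : Λ < T) (hP : T * T ≤ P) (e3 : (20 * e + 2) / δ < Z) (hX : δ * P ≤ X)
    (key : X * Y ≤ 10 * e * s * 2 * P + Y * Λ) : False := by
  have hT : Z ≤ 2 * T := by nlinarith
  have hT0 : 0 < T := by linarith
  have hP0 : 0 < P := lt_of_lt_of_le (by positivity) hP
  rw [div_lt_iff₀ hδ] at e3
  have c1 : δ * P * Y ≤ 20 * e * V * P + Y * T := by
    have h1 : 10 * e * s * 2 * P ≤ 10 * e * V * 2 * P := by gcongr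
    have h2 := mul_le_mul_of_nonneg_right hX hY.le
    have h3 := mul_le_mul_of_nonneg_left L1.le hY.le
    linarith
  have c2 : δ * P * Y * Z ≤ (20 * e + 2) * (P * Y) := by
    have d1 : 20 * e * V * P * Z = 20 * e * (P * Y) := by rw [← w4]; ring
    have d2 : T * Z ≤ 2 * P := by linarith [mul_le_mul_of_nonneg_left hT hT0.le]
    have d3 := mul_le_mul_of_nonneg_left d2 hY.le
    have := mul_le_mul_of_nonneg_right c1 hZ.le
    linarith
  have c3 : (20 * e + 2) * (P * Y) < Z * δ * (P * Y) := by gcongr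
  linarith

theorem num [Dim] {e : ℕ} (he : 1 ≤ e) {τ : Mat} {Q : MZ → ℕ → Prop} (h1 : GEOst e Q τ)
    (h2 : ARITHst e Q τ) : False := by
  obtain ⟨e₀, h1⟩ := h1
  obtain ⟨θ, θ0, θ1, δ, hδ, h2⟩ := h2
  have hZt : Tendsto (fun Y : ℕ => (Y : ℝ) ^ θ) atTop atTop :=
    (tendsto_rpow_atTop θ0).comp tendsto_natCast_atTop_atTop
  obtain ⟨Y₀, hY₀⟩ := eventually_atTop.1 ((ev_poly (2 * (10 * e).factorial *
    (122 * e) ^ (9 * e * e₀)) (2 * (9 * e * e₀)) (show 0 < 1 - 2 * θ by linarith)).and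
    ((hZt.eventually_ge_atTop (4 * (28 * e + 1))).and ((hZt.eventually_gt_atTop
      ((20 * e + 2) / δ)).and (eventually_ge_atTop 4))))
  obtain ⟨Y, hY, s, Om, _, X, g, M, hF, hs1, hs2, hOm, hX, hH⟩ := h2 Y₀
  obtain ⟨e1, e2, e3, e4⟩ := hY₀ Y hY
  have hY4 : (4 : ℝ) ≤ Y := by exact_mod_cast e4
  have hY0 : (0 : ℝ) < Y := by linarith
  have he' : (1 : ℝ) ≤ e := by exact_mod_cast he
  have w1 : 1 ≤ (Y : ℝ) ^ (1 - 2 * θ) := Real.one_le_rpow (by linarith) (by linarith)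
  have w2 : (Y : ℝ) ^ (1 - 2 * θ) ≤ Y := by
    conv_rhs => rw [← Real.rpow_one Y]
    exact Real.rpow_le_rpow_of_exponent_le (by linarith) (by linarith)
  have w3 : (Y : ℝ) ^ (1 - θ) = (Y : ℝ) ^ (1 - 2 * θ) * (Y : ℝ) ^ θ := by
    rw [← Real.rpow_add hY0]
    congr 1
    ring
  have w4 : (Y : ℝ) ^ (1 - θ) * (Y : ℝ) ^ θ = Y := by
    rw [← Real.rpow_add hY0, sub_add_cancel, Real.rpow_one]
  generalize (Y : ℝ) ^ (1 - θ) = V at hs1 hs2 w3 w4
  generalize (Y : ℝ) ^ θ = Z at e2 e3 w3 w4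
  generalize (Y : ℝ) ^ (1 - 2 * θ) = W at e1 hH w1 w2 w3
  have hZ0 : 0 < Z := by linarith
  have hE1 : 1 ≤ Real.exp W := Real.one_le_exp (by linarith)
  obtain ⟨q, hq⟩ : ∃ q : ℕ, q = (60 * e * Y + 1) * (2 * Y) := ⟨_, rfl⟩
  have q1 : 2 * Y ≤ q := hq ▸ Nat.le_mul_of_pos_left _ (Nat.succ_pos _)
  have q2 : 2 * ((10 * e).factorial : ℝ) * (q : ℝ) ^ (9 * e * e₀) ≤ Real.exp W := by
    refine le_trans ?_ e1
    rw [mul_assoc _ (_ ^ _), pow_mul (Y : ℝ) 2, ← mul_pow, hq]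
    gcongr
    push_cast
    nlinarith [mul_le_mul he' (show (1 : ℝ) ≤ Y by linarith) zero_le_one (by linarith)]
  have f1 : (1 : ℝ) ≤ (10 * e).factorial := by exact_mod_cast (10 * e).factorial_pos
  have q0 : (1 : ℝ) ≤ q := by exact_mod_cast (show 1 ≤ q by omega)
  have q3 : 2 * (q : ℝ) ^ e₀ ≤ Real.exp W := by
    refine le_trans ?_ q2
    have := pow_le_pow_right₀ q0 (show e₀ ≤ 9 * e * e₀ by nlinarith)
    nlinarith [pow_pos (show (0 : ℝ) < q by linarith) (9 * e * e₀)]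
  have q4 : ((2 * Y : ℕ) : ℝ) ≤ q := by exact_mod_cast q1
  obtain ⟨k, hk⟩ : ∃ k : ℕ, k = ⌈Real.exp W ^ 2⌉₊ := ⟨_, rfl⟩
  have k1 : Real.exp W ^ 2 ≤ k := hk ▸ Nat.le_ceil _
  have k2 : (k : ℝ) ≤ 2 * Real.exp W ^ 2 := by
    have := Nat.ceil_lt_add_one (show 0 ≤ Real.exp W ^ 2 by positivity)
    rw [← hk] at this
    nlinarith
  have k0 : (1 : ℝ) ≤ k := le_trans (one_le_pow₀ hE1) k1
  obtain ⟨H, hH0⟩ : ∃ H : ℕ, H = ⌊Real.exp W * ((k * (2 * Y) ^ e₀ : ℕ) : ℝ) ^ (9 * e)⌋₊ := ⟨_, rfl⟩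
  have H1 : (H : ℝ) ≤ Real.exp W * ((k : ℝ) * (q : ℝ) ^ e₀) ^ (9 * e) := by
    refine (hH0 ▸ Nat.floor_le (by positivity)).trans ?_
    rw [Nat.cast_mul, Nat.cast_pow]
    gcongr
  have H2 : (H : ℝ) ≤ Real.exp W ^ (28 * e) :=
    calc (H : ℝ) ≤ Real.exp W * (Real.exp W ^ 3) ^ (9 * e) := by
          refine H1.trans ?_
          gcongr
          nlinarith [pow_pos (show (0 : ℝ) < q by linarith) e₀, sq_nonneg (Real.exp W)]
      _ = Real.exp W ^ (27 * e + 1) := by ring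
      _ ≤ _ := pow_le_pow_right₀ hE1 (by omega)
  have L1 : ((q ^ e₀ * H : ℕ) : ℝ) < 2 ^ s := by
    rw [Nat.cast_mul, Nat.cast_pow]
    calc (q : ℝ) ^ e₀ * H ≤ Real.exp W * Real.exp W ^ (28 * e) := by
          gcongr
          linarith [pow_pos (show (0 : ℝ) < q by linarith) e₀]
      _ = Real.exp ((28 * e + 1) * W) := by
          rw [← pow_succ', ← Real.exp_nat_mul]
          push_cast
          rfl
      _ < Real.exp (s * Real.log 2) := by
          refine Real.exp_lt_exp.2 ?_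
          have := Real.log_two_gt_d9
          have s0 : (0 : ℝ) < s := by nlinarith
          nlinarith
      _ = _ := by rw [Real.exp_nat_mul, Real.exp_log two_pos]
  have key := h1 (2 * Y) s Om X g M Y k (k * (2 * Y) ^ e₀) H (60 * e * Y) 2 (by omega) hF
    (by omega) hOm (fun μ hμ => by
      rw [hH0]
      have a1 : (1 : ℝ) ≤ ((k * (2 * Y) ^ e₀ : ℕ) : ℝ) := by
        rw [Nat.cast_mul, Nat.cast_pow]
        exact one_le_mul_of_one_le_of_one_le k0 (one_le_pow₀ (by push_cast; linarith))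
      rcases Nat.eq_zero_or_pos μ with rfl | h0
      · refine (hil_zero _).trans (Nat.le_floor ?_)
        rw [Nat.cast_one]
        exact one_le_mul_of_one_le_of_one_le hE1 (one_le_pow₀ a1)
      · refine Nat.le_floor ((hH μ h0).trans ?_)
        gcongr)
    (by exact_mod_cast k0)
    (by
      have a1 : (k : ℝ) ^ (10 * e) ≤ (10 * e).factorial * ((k + 10 * e).choose (10 * e) : ℝ) := by
        exact_mod_cast pow_le_choose k (10 * e)
      have a2 : ((10 * e).factorial : ℝ) * H < (k : ℝ) ^ (10 * e) :=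
        calc ((10 * e).factorial : ℝ) * H
            ≤ (10 * e).factorial * (Real.exp W * ((k : ℝ) * (q : ℝ) ^ e₀) ^ (9 * e)) := by gcongr
          _ = (10 * e).factorial * (q : ℝ) ^ (9 * e * e₀) * Real.exp W * (k : ℝ) ^ (9 * e) := by
              ring
          _ < Real.exp W * Real.exp W * (k : ℝ) ^ (9 * e) := by
              gcongr
              nlinarith [pow_pos (show (0 : ℝ) < q by linarith) (9 * e * e₀)]
          _ ≤ (k : ℝ) ^ e * (k : ℝ) ^ (9 * e) := by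
              gcongr
              exact (by rwa [sq] at k1 : _ ≤ (k : ℝ)).trans (le_self_pow₀ k0 (by omega))
          _ = _ := by ring
      exact_mod_cast lt_of_mul_lt_mul_left (a2.trans_le a1) (by positivity))
    (by
      have a1 : Real.exp W ≤ 2 ^ (2 * Y) :=
        calc Real.exp W ≤ Real.exp ((2 * Y : ℕ) * Real.log 2) := by
              refine Real.exp_le_exp.2 ?_
              have := Real.log_two_gt_d9
              push_cast
              nlinarith
          _ = _ := by rw [Real.exp_nat_mul, Real.exp_log two_pos]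
      have a2 : (H : ℝ) < 2 ^ (60 * e * Y) :=
        calc (H : ℝ) ≤ (2 ^ (2 * Y)) ^ (28 * e) := H2.trans (by gcongr)
          _ < _ := by
              rw [← pow_mul]
              exact pow_lt_pow_right₀ one_lt_two (by nlinarith)
      exact_mod_cast a2)
    le_rfl (by rw [← hq]; exact_mod_cast L1)
  rw [← hq] at key
  have key' : (X.card : ℝ) * Y ≤ 10 * e * s * 2 * ∏ i, (Fintype.card (Om i) : ℝ) +
      Y * ((q ^ e₀ * H : ℕ) : ℝ) := by exact_mod_cast key
  have hP : (2 : ℝ) ^ s * 2 ^ s ≤ ∏ i, (Fintype.card (Om i) : ℝ) :=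
    calc (2 : ℝ) ^ s * 2 ^ s = ∏ _i : Fin s, (4 : ℝ) := by
          rw [← mul_pow, Finset.prod_const, Finset.card_univ, Fintype.card_fin]
          norm_num
      _ ≤ _ := Finset.prod_le_prod (fun _ _ => by positivity) fun i _ =>
          hY4.trans (by exact_mod_cast hOm i)
  have s2 : (s : ℝ) < 2 ^ s := by exact_mod_cast Nat.lt_two_pow_self
  exact num_end hδ he' hY0 hZ0 w1 w3 w4 hs1 hs2 s2 L1 hP e3 hX key'

end MG
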