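import Pool.Agent.Lib.MP_33b3f9_ag.MG.GDefs
import Pool.Agent.Lib.MP_33b3f9_ag.M8.ModFib

/-!
The fibres of a finite projection are finite unions of orbits.
-/

set_option autoImplicit false

namespace MG

open M4 Complex Matrix

/-- B5: the fibres of a finite projection. -/
theorem fib [Dim] {k : ℕ} {a b : MZ} (y : Matrix (Fin (k + 1)) Bits ℂ)
    (hy : FinProj a b y) : FIBst a b y := by
  classical
  choose d c hc hc' using hy.1
  obtain ⟨C, hC⟩ : ∃ C : ℕ, ∀ w : Bits → ℂ, ∃ T : Finset Mat, T.card ≤ C ∧ (∀ t ∈ T, InH t) ∧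
      ∀ τ, InH τ → (∃ c : ℂ, ∀ e, Th τ (hf (bz e)) = c * w e) →
        ∃ t ∈ T, ∃ γ ∈ GamN ι 4, τ = actZ γ t := ⟨_, M8.Mo.fib_two⟩
  refine ⟨(∏ ε, d ε) * C, fun v => ?_⟩
  choose B hB hB' using fun ε => M4.Mo.exists_roots (d ε) fun e => MvPolynomial.eval v (c ε e)
  choose T hT hT' hT'' using hC
  refine ⟨(Fintype.piFinset B).biUnion T, ?_, ?_, ?_⟩
  · refine (Finset.card_biUnion_le_card_mul _ _ _ fun w _ => hT w).trans ?_
    rw [Fintype.card_piFinset]
    exact Nat.mul_le_mul_right _ (Finset.prod_le_prod' fun ε _ => hB ε)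
  · intro t ht
    obtain ⟨w, -, hw⟩ := Finset.mem_biUnion.1 ht
    exact hT' w t hw
  · rintro τ hτ ⟨s, hs⟩
    have h1 : ∀ ε, th2 τ ε ^ d ε + ∑ e ∈ Finset.range (d ε),
        MvPolynomial.eval v (c ε e) * s ^ (d ε - e) * th2 τ ε ^ e = 0 := fun ε => by
      rw [← hc' ε τ hτ]
      congr 1
      refine Finset.sum_congr rfl fun e he => ?_
      rw [← Z.hfb_scale (hc ε e (Finset.mem_range.1 he)), hs]
      congr 3
      funext i
      rw [Pi.smul_apply, smul_eq_mul, mul_comm]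
    have hs0 : s ≠ 0 := by
      rintro rfl
      refine M4.Mo.thN_ne_zero (N := 2) dvd_rfl hτ.1 (funext fun ε => ?_)
      have h2 := h1 ε
      rw [Finset.sum_eq_zero fun e he => by
        rw [zero_pow (Nat.sub_ne_zero_of_lt (Finset.mem_range.1 he)), mul_zero, zero_mul],
        add_zero] at h2
      rw [M4.Mo.thN_two]
      exact eq_zero_of_pow_eq_zero h2
    have h2 : s⁻¹ • th2 τ ∈ Fintype.piFinset B := Fintype.mem_piFinset.2 fun ε => hB' ε _ (by
      refine mul_left_cancel₀ (pow_ne_zero (d ε) hs0) ?_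
      rw [mul_zero, ← h1 ε, mul_add, Finset.mul_sum, Pi.smul_apply, smul_eq_mul, ← mul_pow,
        mul_inv_cancel_left₀ hs0]
      congr 1
      refine Finset.sum_congr rfl fun e he => ?_
      obtain ⟨k, hk⟩ := Nat.exists_eq_add_of_le (Finset.mem_range.1 he).le
      rw [hk, Nat.add_sub_cancel_left, pow_add, mul_pow, inv_pow]
      field_simp)
    obtain ⟨t, ht, γ, ⟨β, hβ, -⟩, hγ⟩ := hT'' (s⁻¹ • th2 τ) τ hτ.1 ⟨s, fun e => by
      rw [Pi.smul_apply, smul_eq_mul, mul_inv_cancel_left₀ hs0]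
      rfl⟩
    refine ⟨t, Finset.mem_biUnion.2 ⟨_, h2, ht⟩, γ.1, M4.Mo.sim_sp γ, fun i j => ?_, hγ⟩
    rw [hβ, add_sub_cancel_left]
    exact Dvd.intro _ rfl

end MG
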