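import Pool.Agent.Lib.MP_33b3f9_ag.MG.Fin
import Pool.Agent.Lib.MP_33b3f9_ag.M4.ModHn

/-!
Hecke norms: one equation for all isogenies of bounded degree.
-/

set_option autoImplicit false

namespace MG

open M4 Complex Matrix

variable [Dim] {d : ℕ}

namespace Mo

open M4.Mo

/-- Representatives of the similitudes of multiplier `m` modulo `q`. -/
theorem exists_sim_reps (m : ℕ) (q : ℕ) (hq : q ≠ 0) : ∃ s : Finset MZ,
    s.card ≤ q ^ (4 * Fintype.card ι ^ 2) ∧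
    (∀ h ∈ s, Sim (zr h) m) ∧ ∀ h', Sim (zr h') m → ∃ h ∈ s, ∀ i j, (q : ℤ) ∣ (h' - h) i j := by
  classical
  have : NeZero q := ⟨hq⟩
  let B : Finset (ν → ν → ZMod q) :=
    Finset.univ.filter fun b => ∃ h : MZ, Sim (zr h) m ∧ ∀ i j, (h i j : ZMod q) = b i j
  have h1 : ∀ b : B, ∃ h : MZ, Sim (zr h) m ∧ ∀ i j, (h i j : ZMod q) = b.1 i j :=
    fun b => (Finset.mem_filter.1 b.2).2
  choose f hf hf' using h1
  refine ⟨Finset.univ.image f, ?_, ?_, fun h' hh' => ?_⟩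
  · refine Finset.card_image_le.trans ?_
    rw [Finset.card_univ, Fintype.card_coe]
    refine (Finset.card_le_univ _).trans_eq ?_
    rw [Fintype.card_fun, Fintype.card_fun, ZMod.card, Fintype.card_sum, ← pow_mul]
    congr 1
    ring
  · intro t ht
    obtain ⟨b, -, rfl⟩ := Finset.mem_image.1 ht
    exact hf b
  · refine ⟨f ⟨fun i j => (h' i j : ZMod q), Finset.mem_filter.2
      ⟨Finset.mem_univ _, h', hh', fun _ _ => rfl⟩⟩, Finset.mem_image_of_mem _ (Finset.mem_univ _),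
      fun i j => ?_⟩
    rw [← ZMod.intCast_zmod_eq_zero_iff_dvd, Matrix.sub_apply, Int.cast_sub, hf', sub_self]

/-- The Hecke translate of the eighth power of a form. -/
noncomputable def hk (y : Matrix (Fin (d + 1)) Bits ℂ) (n : ℕ) (φ : MvPolynomial (Fin (d + 1)) ℂ)
    (h : MZ) (τ : Mat) : ℂ :=
  MvPolynomial.eval (lin y (act (zr h) τ)) φ ^ 8 / wt (zr h) τ ^ n

theorem continuousAt_hk (y : Matrix (Fin (d + 1)) Bits ℂ) (n : ℕ)
    (φ : MvPolynomial (Fin (d + 1)) ℂ) {h : MZ} {m : ℝ} (hh : Sim (zr h) m) (hm : 0 < m) {τ : ι → ι → ℂ} (hτ : InH τ) :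
    ContinuousAt (fun σ : ι → ι → ℂ => hk y n φ h σ) τ := by
  have h1 : ContinuousAt (fun σ : ι → ι → ℂ => th2 (act (zr h) σ)) τ :=
    continuousAt_pi.2 fun ε =>
      (differentiableAt_Th (M4.inH_act hh hm hτ) (hf (bz ε))).continuousAt.comp
        (f := fun σ : ι → ι → ℂ => (act (zr h) σ : ι → ι → ℂ))
        (differentiableAt_act hh hm hτ).continuousAt
  have h2 : ContinuousAt (fun σ : ι → ι → ℂ => lin y (act (zr h) σ)) τ :=
    (Continuous.matrix_mulVec continuous_const continuous_id).continuousAt.comp h1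
  have h3 : Continuous fun σ : ι → ι → ℂ => wt (zr h) σ :=
    ((Continuous.matrix_det
      (continuous_const.sub (continuous_const.matrix_mul continuous_id))).pow 4).div_const _
  exact (((MvPolynomial.continuous_eval φ).continuousAt.comp h2).pow 8).div
    (h3.continuousAt.pow n) (pow_ne_zero _ (wt_ne_zero hh hm hτ))

omit [Dim] in
theorem hn_num {C Y N : ℕ} (hY : 2 ≤ Y) :
    8 * (Y ^ 2 * (8 * Y ^ 2) ^ N * (C * (Y ^ 2) ^ N)) ≤ Y ^ (C + (5 + 7 * N)) := by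
  have h8 : 8 ≤ Y ^ 3 := Nat.pow_le_pow_left hY 3
  have hC : C ≤ Y ^ C := Nat.lt_two_pow_self.le.trans (Nat.pow_le_pow_left hY C)
  calc 8 * (Y ^ 2 * (8 * Y ^ 2) ^ N * (C * (Y ^ 2) ^ N))
      ≤ Y ^ 3 * (Y ^ 2 * (Y ^ 3 * Y ^ 2) ^ N * (Y ^ C * (Y ^ 2) ^ N)) := by gcongr
    _ = Y ^ (C + (5 + 7 * N)) := by ring

end Mo

/-- B5: Hecke norms. -/
theorem hn {e : ℕ} {a b : MZ} {m n : ℕ} (hP : PEL e a b m n) (c : Ch d a b)
    (y : Matrix (Fin (d + 1)) Bits ℂ) (hy : FinProj a b y) : HNst c y := by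
  classical
  obtain ⟨C, hC⟩ := hn_one hP c
  have hs0 := fun m : ℕ => Mo.exists_sim_reps (m + 1) (8 * (m + 1)) (by omega)
  generalize 4 * Fintype.card ι ^ 2 = N at hC hs0
  refine ⟨C + (5 + 7 * N), fun Y hY => ⟨_, le_rfl, fun n φ hφ => ?_⟩⟩
  choose s hs hs' hs'' using hs0
  have h1 : ∀ t : (_ : ℕ) × MZ, ∃ D Q, t.2 ∈ s t.1 → D ≤ C * (t.1 + 1) ^ N ∧
      M4.Mo.WH (8 * n) D Q ∧ ∀ τ ∈ FX a b, Q.eval₂ (MvPolynomial.eval (lin y τ)) (Mo.hk y n φ t.2 τ) = 0 := fun t => by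
    by_cases ht : t.2 ∈ s t.1
    · obtain ⟨D, hD, u, hc, hc'⟩ := hC y hy t.2 (t.1 + 1) (by omega) (hs' _ _ ht) n φ hφ
      obtain ⟨Q, hQ, hQ'⟩ := M4.Mo.exists_WH (w := 8 * n) (D := D) (c := u) fun e he => by
        rw [mul_assoc]
        exact hc e he
      exact ⟨D, Q, fun _ => ⟨hD, hQ, fun τ hτ => (hQ' _ _).trans (hc' τ hτ)⟩⟩
    · exact ⟨0, 0, fun h => (ht h).elim⟩
  choose D Q hDQ using h1
  let T := (Finset.range (Y ^ 2)).sigma s
  have hT : ∀ t ∈ T, t.1 + 1 ≤ Y ^ 2 ∧ t.2 ∈ s t.1 := fun t ht => by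
    have := Finset.mem_sigma.1 ht
    exact ⟨Finset.mem_range.1 this.1, this.2⟩
  have h2 := M4.Mo.WH.prod T fun t ht => (hDQ t (hT t ht).2).2.1
  have h3 : ∑ t ∈ T, D t ≤ Y ^ 2 * (8 * Y ^ 2) ^ N * (C * (Y ^ 2) ^ N) := by
    refine (Finset.sum_le_card_nsmul T D (C * (Y ^ 2) ^ N) fun t ht =>
      (hDQ t (hT t ht).2).1.trans ?_).trans ?_
    · exact Nat.mul_le_mul_left _ (Nat.pow_le_pow_left (hT t ht).1 _)
    · rw [smul_eq_mul]
      refine Nat.mul_le_mul_right _ ?_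
      rw [Finset.card_sigma]
      refine (Finset.sum_le_card_nsmul _ _ ((8 * Y ^ 2) ^ N) fun m hm =>
        (hs m).trans ?_).trans ?_
      · exact Nat.pow_le_pow_left (Nat.mul_le_mul_left _ (Finset.mem_range.1 hm)) _
      · rw [Finset.card_range, smul_eq_mul]
  obtain ⟨u, hc, hc', hc''⟩ := h2.pad ((Nat.mul_le_mul_left 8 h3).trans (Mo.hn_num hY))
  refine ⟨u, hc, hc', fun m h hm hm' _ hh => ?_⟩
  obtain ⟨m, rfl⟩ : ∃ k, m = k + 1 := ⟨m - 1, by unfold Nat.ModEq at hm'; omega⟩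
  have hp : (0 : ℝ) < ((m + 1 : ℕ) : ℝ) := Nat.cast_pos.2 (Nat.succ_pos m)
  refine ⟨Mo.hk y n φ h, fun z g k hz hk hg => ?_, fun τ hτ => ⟨?_, hc'' _ _ ?_⟩⟩
  · have hk' : (0 : ℝ) < k := Nat.cast_pos.2 hk
    have hb := (c.mem _ hz).1
    have h4 : ContinuousAt (fun (t : Fin d → ℂ) (i j : ι) => c.f t i j) z :=
      c.hol.continuousOn.continuousAt (c.op.mem_nhds hz)
    exact (Mo.continuousAt_hk y n φ hh hp (inH_act hg hk' hb)).comp
      (f := fun t : Fin d → ℂ => (act (zr g) (c.f t) : ι → ι → ℂ))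
      ((M4.Mo.differentiableAt_act hg hk' hb).continuousAt.comp
        (f := fun (t : Fin d → ℂ) (i j : ι) => c.f t i j) h4)
  · rw [Mo.hk, div_eq_zero_iff, or_iff_left (pow_ne_zero _ (wt_ne_zero hh hp hτ.1)),
      pow_eq_zero_iff (by norm_num)]
  · obtain ⟨h₀, hh₀, hq⟩ := hs'' m h hh
    have h5 : Mo.hk y n φ h τ = Mo.hk y n φ h₀ τ :=
      hn_congr (by omega) (hs' m h₀ hh₀) hh hq hφ hτ.1
    rw [Polynomial.eval₂_finsetProd, h5]
    exact Finset.prod_eq_zero (i := ⟨m, h₀⟩) (Finset.mem_sigma.2 ⟨Finset.mem_range.2 hm, hh₀⟩)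
      ((hDQ ⟨m, h₀⟩ hh₀).2.2 τ hτ)

end MG
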