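import Pool.Agent.Lib.MP_33b3f9_ag.M4.ZGeo
import Pool.Agent.Lib.MP_33b3f9_ag.MG.GDefs
import Pool.Agent.Lib.MP_33b3f9_ag.MG.Tr

/-! The zero estimate for families of lattices. -/

namespace MG.Z

open M4 M4.Z MvPolynomial Matrix Filter Topology Pool.Agent.M4.Det

theorem geo_num1 (d Y D e : ℕ) (hY : 2 ≤ Y) (hD : D ≤ Y ^ e) :
    (((d + 1) * (9 * d + 2) + 3 * d + 1) * (d + D)) ^ d ≤
      Y ^ (d * (((d + 1) * (9 * d + 2) + 3 * d + 1) * (d + 1) + e)) := by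
  generalize (d + 1) * (9 * d + 2) + 3 * d + 1 = A
  have h1 : 1 ≤ Y ^ e := Nat.one_le_pow _ _ (by omega)
  have h2 : A * (d + 1) ≤ Y ^ (A * (d + 1)) :=
    Nat.lt_two_pow_self.le.trans (Nat.pow_le_pow_left hY _)
  rw [mul_comm d, pow_mul, pow_add]
  refine Nat.pow_le_pow_left (le_trans ?_ (Nat.mul_le_mul_right _ h2)) _
  rw [mul_assoc]
  exact Nat.mul_le_mul_left _ (by nlinarith)

theorem geo_num2 (d Y D e L C : ℕ) (hY : 2 ≤ Y) (hD : D ≤ Y ^ e) :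
    (2 * (L + 1) ^ 2 * (D + 1)) ^ 2 ^ d * C ≤ ((L + 1) * Y) ^ ((e + 2) * 2 ^ d + C) := by
  have h0 : Y ≤ (L + 1) * Y := Nat.le_mul_of_pos_left _ (by omega)
  have h1 : 1 ≤ Y ^ e := Nat.one_le_pow _ _ (by omega)
  have h2 : Y ^ e ≤ ((L + 1) * Y) ^ e := Nat.pow_le_pow_left h0 _
  have h3 : 2 ^ 2 ≤ Y ^ 2 := Nat.pow_le_pow_left hY _
  rw [pow_add, pow_mul]
  refine Nat.mul_le_mul (Nat.pow_le_pow_left ?_ _)
    (Nat.lt_two_pow_self.le.trans (Nat.pow_le_pow_left (hY.trans h0) _))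
  calc 2 * (L + 1) ^ 2 * (D + 1) ≤ 2 * (L + 1) ^ 2 * (2 * Y ^ e) := by gcongr; omega
    _ = 2 ^ 2 * (L + 1) ^ 2 * Y ^ e := by ring
    _ ≤ Y ^ 2 * (L + 1) ^ 2 * ((L + 1) * Y) ^ e := by gcongr
    _ = _ := by ring

variable [Dim] {d e : ℕ} {a b : MZ} {m n : ℕ}

theorem geo_zr_mul (g h : MZ) : zr (g * h) = zr g * zr h :=
  Matrix.map_mul (f := Int.castRingHom ℝ)

theorem geo_zr_smul (c : ℤ) (g : MZ) : zr (c • g) = (c : ℝ) • zr g := by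
  ext i j; simp only [zr, map_apply, Matrix.smul_apply, smul_eq_mul, Int.cast_mul]

theorem geo_zr_inj {g h : MZ} (e : zr g = zr h) : g = h := by
  ext i j
  exact Int.cast_injective (α := ℝ) (congrFun (congrFun e i) j)

theorem geo_zr_one : zr 1 = 1 := Matrix.map_one _ Int.cast_zero Int.cast_one

theorem geo_act_mul {g h : Matrix ν ν ℝ} {m n : ℝ} (hg : Sim g m) (hm : 0 < m) (hh : Sim h n)
    (hn : 0 < n) {τ : Mat} (hτ : InH τ) : act (g * h) τ = act g (act h τ) :=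
  act_mul (den_det_ne_zero hh hn hτ) (den_det_ne_zero hg hm (inH_act hh hn hτ))

theorem geo_pos {g : MZ} {M : ℕ} (h : Isg a b g M) : 0 < M := h.1.pos

theorem geo_fx (hP : PEL e a b m n) {g : MZ} {M : ℕ} (h : Isg a b g M) {τ : Mat} (hτ : τ ∈ FX a b) :
    act (zr g) τ ∈ FX a b := hP.fx_act (geo_pos h) h.2.2.1 h.2.2.2.1 h.2.2.2.2 hτ

theorem geo_same {τ t : Mat} (hτ : InH τ) (h3 : STABst a b τ) (ht : InH t)
    {g g' γ γ' : MZ} {M M' : ℕ} (h : Isg a b g M) (h' : Isg a b g' M') (hγ : Sim (zr γ) 1)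
    (hγ' : Sim (zr γ') 1) (l : ∀ i j, (8 : ℤ) ∣ (γ - 1) i j) (l' : ∀ i j, (8 : ℤ) ∣ (γ' - 1) i j)
    (e : act (zr g) τ = act (zr γ) t) (e' : act (zr g') τ = act (zr γ') t) :
    ∃ δ : MZ, Sim (zr δ) 1 ∧ ∃ c c' : ℤ, c ≠ 0 ∧ c • g' = c' • (δ * g) := by
  have hM : (0 : ℝ) < M := by exact_mod_cast geo_pos h
  obtain ⟨u, u0, -, u2⟩ := vlvan0_inv (sim_mz_iff.1 hγ)
  have u1 : Sim (zr u) 1 := sim_mz_iff.2 u0
  have hδ : Sim (zr (γ' * u)) 1 := by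
    rw [geo_zr_mul, ← one_mul (1 : ℝ)]
    exact hγ'.mul u1
  refine ⟨γ' * u, hδ, h3 g g' (γ' * u) M M' h h' hδ (fun i j => ?_) ?_⟩
  · have e1 : γ' * u - 1 = ((γ' - 1) - (γ - 1)) * u := by
      rw [sub_sub_sub_cancel_right, Matrix.sub_mul, mul_eq_one_comm.1 u2]
    rw [e1, Matrix.mul_apply]
    exact Finset.dvd_sum fun k _ => (dvd_sub (l' i k) (l i k)).mul_right _
  · rw [geo_zr_mul, geo_act_mul hδ one_pos h.2.2.1 hM hτ, e,
      ← geo_act_mul hδ one_pos hγ one_pos ht, ← geo_zr_mul, mul_assoc, u2, mul_one, e']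

theorem geo_mu (hP : PEL e a b m n) {y : Matrix (Fin (d + 1)) Bits ℂ} {τ : Mat} (hτ : τ ∈ FX a b)
    (h2 : FIBst a b y) (h3 : STABst a b τ) :
    ∃ C : ℕ, ∀ (α : Type) (X : Finset α) (g : α → MZ) (M : α → ℕ),
      (∀ ξ ∈ X, Isg a b (g ξ) (M ξ)) → MG.Sep X g → ∀ v : Fin (d + 1) → ℂ,
      {η | η ∈ (X : Set α) ∧ ∃ c : ℂ, lin y (act (zr (g η)) τ) = c • v}.ncard ≤ C := by
  obtain ⟨C, hC⟩ := h2
  refine ⟨C, fun α X g M hI hS v => ?_⟩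
  obtain ⟨T, h1, h4, h5⟩ := hC v
  choose! t ht γ hγ l e using fun η (h : η ∈ {η | η ∈ (X : Set α) ∧
    ∃ c : ℂ, lin y (act (zr (g η)) τ) = c • v}) => h5 _ (geo_fx hP (hI η h.1) hτ) h.2
  refine le_trans ?_ h1
  rw [← Set.ncard_coe_finset]
  refine Set.ncard_le_ncard_of_injOn t ht (fun η h η' h' e1 => ?_) T.finite_toSet
  obtain ⟨δ, k1, c, c', k2, k3⟩ := geo_same hτ.1 h3 (h4 _ (ht η h)) (hI η h.1) (hI η' h'.1)
    (hγ η h) (hγ η' h') (l η h) (l η' h') (e η h) (e1 ▸ e η' h')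
  exact hS η h.1 η' h'.1 δ k1 c c' k2 k3

theorem geo (hP : PEL e a b m n) (hd : d = 10 * e) (c : Ch d a b)
    (y : Matrix (Fin (d + 1)) Bits ℂ) (z : Fin d → ℂ) (hz : z ∈ c.U) (he : EtProj c y z) (h1 : HNst c y) (h2 : FIBst a b y)
    (h3 : STABst a b (c.f z)) (h4 : CLst c y z) : GEOst e (Isg a b) (c.f z) := by
  classical
  have hd1 : 1 ≤ d := by
    have := hP.pos
    omega
  rw [GEOst, ← hd]
  obtain ⟨e', h1⟩ := h1
  obtain ⟨C1, hC1⟩ := geo_mu hP (c.mem _ hz) h2 h3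
  obtain ⟨C2, hC2⟩ := h4
  refine ⟨d * (((d + 1) * (9 * d + 2) + 3 * d + 1) * (d + 1) + e') +
    ((e' + 2) * 2 ^ d + (C1 + C2 * C1)), ?_⟩
  intro Y s Om _ X g M N k₀ k₁ H₀ L th hY hF _ hN hH hk hk0 hL hK hth
  obtain ⟨D, hD, h1⟩ := h1 Y hY
  have hM : ∀ ξ ∈ X, (0 : ℝ) < M ξ := fun ξ h => by exact_mod_cast geo_pos (hF.iso ξ h)
  have hE : ∀ ξ ∈ (X : Set (∀ i, Om i)), Et z (Thy c y (g ξ)) := fun ξ h => by
    obtain ⟨k1, k2⟩ := he (g ξ) (M ξ) (geo_pos (hF.iso ξ h)) (hF.iso ξ h).2.2.1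
    exact ⟨k1, fun l w e => by simpa using k2 (a₁ := (l, w)) (a₂ := 0) (by simpa using e)⟩
  have n2 := Nat.mul_le_mul_right H₀ ((geo_num2 d Y D e' L (C1 + C2 * C1) hY hD).trans
    (Nat.pow_le_pow_right (by positivity) (Nat.le_add_left _
      (d * (((d + 1) * (9 * d + 2) + 3 * d + 1) * (d + 1) + e')))))
  have key := zeroEst (σ := Fin (d + 1)) (T := Fin d → ℂ) (ι := Fin s) (Ω := Om) d N k₁ k₀ H₀ L D
    (C1 + C2 * C1) th hd1 (by simp) (by simp) (by simpa using hN) z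
    (fun ξ => Thy c y (g ξ)) X hE
    (fun μ hμ => (geo_hp y (fun ξ => th2 (act (zr (g ξ)) (c.f z))) X μ).trans (hH μ hμ)) hk hk0 hL
    (fun n φ hφ => ?_) (fun k F P δ s d1 d2 hs hP hh hd hb => ?_)
    (fun ξ _ => (hC1 _ X g M hF.iso hF.sep _).trans (Nat.le_add_right _ _))
    (le_trans (Nat.mul_le_mul_left _ ((geo_num1 d Y D e' hY hD).trans
      (Nat.pow_le_pow_right (by omega) (Nat.le_add_right _ _)))) hK)
    (by rw [Fintype.card_fin]; exact n2.trans_lt hth)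
  · rw [Set.ncard_coe_finset, Fintype.card_fin, Nat.card_eq_fintype_card, Fintype.card_pi] at key
    refine key.trans (add_le_add (le_of_eq (by ring)) (Nat.mul_le_mul_left _ n2))
  · obtain ⟨q, c1, c2, c3⟩ := h1 n φ hφ
    refine ⟨fun e => q e, fun e => c1 e, fun ξ _ => ⟨Fin.last D, by simp [c2]⟩,
      fun ξ hξ ξ' hξ' _ hn => ?_⟩
    obtain ⟨l, m, h, l0, m1, m2, m3, m4, m5⟩ := hF.nb ξ hξ ξ' hξ' hn
    obtain ⟨ρ, r1, r2⟩ := c3 m h m1 m2 m3 m4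
    have m0 : (0 : ℝ) < m := by
      rcases Nat.eq_zero_or_pos m with rfl | h0
      · exact absurd m2 (by decide)
      · exact_mod_cast h0
    refine ⟨_, r1 z (g ξ) (M ξ) hz (geo_pos (hF.iso ξ hξ)) (hF.iso ξ hξ).2.2.1, ?_⟩
    filter_upwards [c.op.mem_nhds hz] with w hw
    have e1 : act (zr h) (act (zr (g ξ)) (c.f w)) = act (zr (g ξ')) (c.f w) := by
      rw [← geo_act_mul m4 m0 (hF.iso ξ hξ).2.2.1 (hM ξ hξ) (c.mem _ hw).1, ← geo_zr_mul, ← m5,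
        geo_zr_smul, act_smul (by exact_mod_cast l0.ne')]
    have := r2 _ (geo_fx hP (hF.iso ξ hξ) (c.mem _ hw))
    rw [e1, Finset.sum_range] at this
    exact this
  · obtain ⟨v, v1, v2, v3, rfl⟩ := hs
    obtain ⟨S, s1, s2, s3⟩ := geo_thin (fun ξ => Thy c y (g ξ) z)
      {ξ | ξ ∈ (X : Set (∀ i, Om i)) ∧ Cuts z (Thy c y (g ξ)) (map v (𝓝 0)) P}
      (X.finite_toSet.subset fun _ h => h.1) (fun ξ h => stp_ne (hE ξ h.1)) C1 fun w =>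
      le_trans (Set.ncard_le_ncard (fun η h => And.intro h.1.1 h.2)
        (X.finite_toSet.subset fun _ h => h.1)) (hC1 _ X g M hF.iso hF.sep w)
    have := hC2 _ S g M (fun ξ h => hF.iso ξ (s1 h).1) s2 k v P δ s d1 d2 v1 v2 v3 hP hh hd hb
      fun ξ h => (s1 h).2
    calc _ ≤ C2 * δ * C1 := s3.trans (Nat.mul_le_mul_right _ this)
      _ = C2 * C1 * δ := by ring
      _ ≤ _ := Nat.mul_le_mul_right _ (Nat.le_add_left _ _)

end MG.Z
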