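import Pool.Agent.Lib.MP_33b3f9_ag.MG.Pig
import Pool.Agent.Lib.MP_33b3f9_ag.MG.TrE
import Pool.Agent.Lib.MP_33b3f9_ag.MG.Em
import Pool.Agent.Lib.MP_33b3f9_ag.MG.INum
import Pool.Agent.Lib.MP_33b3f9_ag.MG.Proj
import Pool.Agent.Lib.MP_33b3f9_ag.MG.ModHn
import Pool.Agent.Lib.MP_33b3f9_ag.MG.ModFib
import Pool.Agent.Lib.MP_33b3f9_ag.MG.Fin
import Pool.Agent.Lib.MP_33b3f9_ag.MG.ZGeo
import Pool.Agent.Lib.MP_33b3f9_ag.MG.Cent
import Pool.Agent.Lib.MP_33b3f9_ag.MG.SH.MonoOut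

/-!
The geometric half.
-/

set_option autoImplicit false

noncomputable section

namespace MG

open M4 Matrix

variable [Dim] {e : ℕ} {τ : Mat} {a b : MZ} {m n : ℕ}

theorem geo (hP : PEL e a b m n) (hτ : τ ∈ FX a b) (hE : EndX a b τ) (hg : GEN a b (cst τ)) :
    ¬ ARITHst e (Ist a b) τ := fun h => by
  obtain ⟨a', b', g, M, hM, ha, hb, hA⟩ := pig hP hτ h
  have h0 : 0 < M := hM.pos
  have hP' := hP.conj h0 hM.2.2 ha hb
  have hτ' := hP.fx_act h0 hM.2.2 ha hb hτ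
  have hE' := hE.act hτ.1 h0 hM.2.2 ha hb
  have hg' := hg.act hτ.1 h0 hM.2.2 ha hb
  obtain ⟨c⟩ := hP'.ch
  obtain ⟨z, hz, e1⟩ := c.sur _ hτ'
  rw [← e1] at hτ' hE' hg' hA
  obtain ⟨y, hy, he⟩ := proj hP' c z hz
  exact num hP.pos (Z.geo hP' rfl c y z hz he (hn hP' c y hy) (fib y hy)
    (SH.stab hP' hτ' hE') (CL.cl' hP' c y z hz hy (fin_gen hP' c y hy) hE' hg' he)) hA

end MG
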