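import Pool.Agent.Lib.MP_33b3f9_ag.MG.KzFinM
import Pool.Agent.Lib.MP_33b3f9_ag.M4.KzPts
import Pool.Agent.Lib.MP_33b3f9_ag.M4.KzCard

/-!
Block B1b: the points, interface form.
-/

set_option autoImplicit false

namespace MG.Kz

open Complex Matrix M4.Kz
open M4 hiding XX_zero ee_add chi_sq

variable [Dim] {τ : Mat} {K : IntermediateField ℚ ℂ} {r : Rep K}

theorem exists_den (h : AV τ K r) (e : Bits) :
    ∃ D : ℤ, D ≠ 0 ∧ ∀ k, IsIntegral ℤ (D * (XX τ k 0 / th2 τ e)) := by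
  classical
  have := h.fin
  have : Algebra.IsAlgebraic ℤ K := (IsFractionRing.comap_isAlgebraic_iff (K := ℚ)).2 inferInstance
  obtain ⟨D, hD, H⟩ := Algebra.IsAlgebraic.exists_integral_multiples ℤ
    (Finset.univ.image fun e' : Bits => (⟨_, null_mem h e (bz e')⟩ : K))
  refine ⟨D, hD, fun k => ?_⟩
  obtain ⟨e', n, rfl⟩ := exists_bits k
  have h1 := (H _ (Finset.mem_image_of_mem _ (Finset.mem_univ e'))).map
    (K.val.toRingHom.toIntAlgHom)
  rw [XX_add_two h.inH, mul_div_assoc, mul_left_comm]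
  refine IsIntegral.mul (IsIntegral.of_pow (n := 4) (by norm_num) ?_) (by simpa using h1)
  rw [mul_pow, pow_mul (chi n) 2 2, chi_sq, ← zpow_natCast (I ^ _), ← _root_.zpow_mul,
    mul_comm (Ef _ _), _root_.zpow_mul, zpow_natCast, I_pow_four]
  simpa using isIntegral_one

theorem exists_arch (h : AV τ K r) (e : Bits) :
    ∃ C : ℝ, ∀ (φ : ℂ →+* ℂ) k, ‖φ (XX τ k 0 / th2 τ e)‖ ≤ C := by
  have := h.fin
  have : NumberField K := ⟨⟩
  obtain ⟨C, hC⟩ := (Set.finite_range fun p : (K →+* ℂ) × Bits =>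
    ‖p.1 ⟨_, null_mem h e (bz p.2)⟩‖).bddAbove
  refine ⟨C, fun φ k => ?_⟩
  obtain ⟨e', n, rfl⟩ := exists_bits k
  have h1 : ‖φ (chi n)‖₊ = 1 := w_chi (nnnormHom.comp φ.toMonoidWithZeroHom) n
  have h2 : ‖φ (I ^ Ef (bz e') n)‖₊ = 1 := w_I (nnnormHom.comp φ.toMonoidWithZeroHom) _
  rw [XX_add_two h.inH, mul_div_assoc, map_mul, map_mul, norm_mul, norm_mul, ← coe_nnnorm, h1,
    ← coe_nnnorm, h2, NNReal.coe_one, one_mul, one_mul]
  exact hC ⟨(φ.comp K.val.toRingHom, e'), rfl⟩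

theorem Iso.odd {g : MZ} {M : ℕ} (hg : Iso g M) : Odd M := by
  rw [← Nat.not_even_iff_odd, even_iff_two_dvd]
  intro h2
  exact absurd (hg.1.2 2 Nat.prime_two h2) (by decide)

theorem Iso.simR {g : MZ} {M : ℕ} (hg : Iso g M) : SimR g (M : ℤ) :=
  simR_of_sim (by rw [Int.cast_natCast]; exact hg.2.2)

theorem mem_Ker {g : MZ} {M : ℕ} {a : ν → ℤ} : a ∈ Ker g M ↔ vZ M a ∈ kerM M g := by
  change _ ↔ mZ M g *ᵥ vZ M a = 0
  rw [mZ_mulVec, funext_iff]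
  exact forall_congr' fun i => (ZMod.intCast_zmod_eq_zero_iff_dvd _ M).symm

theorem cong_vZ {σ : ℂ ≃ₐ[K] ℂ} {M N : ℕ} (hM : M ≠ 0) (hN : M ∣ N) {R R' : MZ}
    (hR : Cong r σ M R) (hR' : Cong r σ N R') : mZ M R' = mZ M R := by
  ext i j
  refine (ZMod.intCast_eq_intCast_iff_dvd_sub _ _ M).2 (dvd_of_padic hM fun l _ => ?_)
  have := dvd_sub ((Nat.cast_dvd_cast hN).trans (hR' l i j)) (hR l i j)
  rwa [sub_sub_sub_cancel_left, ← Int.cast_sub] at this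

end MG.Kz
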