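import Pool.Agent.Lib.MP_33b3f9_ag.MG.MorG

/-!
Descent of a splitting from a number field to the `l`-adic integers, for all large primes `l`.
-/

set_option autoImplicit false

noncomputable section

namespace MG

open Matrix Pool.Agent.M4.Mx
open scoped Kronecker

namespace X4

theorem unit_of {R K : Type} [CommRing R] [Field K] {ψ : R →+* K} (hψ : Function.Injective ψ)
    {x : R} (h0 : IsUnit (ψ x)) (h : ∃ y, ψ y = (ψ x)⁻¹) : IsUnit x := by
  obtain ⟨y, hy⟩ := h
  exact IsUnit.of_mul_eq_one y (hψ (by rw [map_mul, hy, mul_inv_cancel₀ h0.ne_zero, map_one]))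

/-- Finitely many elements of a number field are integral at all large primes. -/
theorem exists_l {k o : Type} [Field k] [NumberField k] [Finite o] (x : o → k) :
    ∃ l₀ : ℕ, ∀ (l : ℕ) [Fact l.Prime], l₀ < l → ∀ (φ : k →+* ℚ_[l]) (i : o),
      ∃ y : ℤ_[l], PadicInt.Coe.ringHom y = φ (x i) := by
  have h : ∀ i, ∃ y : ℤ, y ≠ 0 ∧ IsIntegral ℤ (y • x i) := fun i =>
    ((IsFractionRing.isAlgebraic_iff ℤ ℚ k).2
      (Algebra.IsAlgebraic.isAlgebraic _)).exists_integral_multiple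
  choose y hy hi using h
  obtain ⟨M, hM⟩ := (Set.finite_range fun i => (y i).natAbs).bddAbove
  refine ⟨M, fun l _ hl φ i => ?_⟩
  obtain ⟨w, hw⟩ := (IsIntegrallyClosed.isIntegral_iff (R := ℤ_[l]) (K := ℚ_[l])).1
    (map_isIntegral_int φ (hi i)).tower_top
  have h2 : ¬ (l : ℤ) ∣ y i := fun h => by
    have := Nat.le_of_dvd (Int.natAbs_pos.2 (hy i)) (Int.natCast_dvd.1 h)
    have := hM ⟨i, rfl⟩
    simp only at this
    omega
  have h3 : ‖((y i : ℤ) : ℚ_[l])‖ = 1 := le_antisymm (Padic.norm_int_le_one _)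
    (not_lt.1 fun h1 => h2 (Padic.norm_intCast_lt_one_iff.1 h1))
  have h1 : ‖φ (y i • x i)‖ ≤ 1 := hw ▸ w.2
  rw [zsmul_eq_mul, map_mul, map_intCast, norm_mul, h3, one_mul] at h1
  exact ⟨⟨_, h1⟩, rfl⟩

end X4

variable [Dim] {e : ℕ} {a b : MZ}

theorem MorD.eq_of {R : Type} [CommRing R] {z w : MorD e a b R} (h1 : z.S = w.S)
    (h2 : z.S' = w.S') (h3 : z.β = w.β) (h4 : z.ζ = w.ζ) : z = w := by
  have h5 : z.α = w.α := funext fun s => by rw [z.hα, w.hα, h4]
  have h6 : z.B = w.B := funext fun s => by rw [z.hB, w.hB]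
  obtain ⟨⟨_, _, _, _, _, _, _, _, _, _, _, _⟩, _, _, _, _, _⟩ := z
  obtain ⟨⟨_, _, _, _, _, _, _, _, _, _, _, _⟩, _, _, _, _, _⟩ := w
  simp only at h1 h2 h3 h4 h5 h6
  subst h1 h2 h3 h4 h5 h6
  rfl

/-- Descent along an injective map to a field. -/
theorem MorD.desc {R K : Type} [CommRing R] [Field K] {ψ : R →+* K} (hψ : Function.Injective ψ)
    (z : MorD e a b K) {n : Fin e → K} (hβ : ∀ s, z.β s = !![0, n s; 1, 0]) (n0 : ∀ s, n s ≠ 0)
    (hn : ∀ s, ∃ y, ψ y = n s) (hn' : ∀ s, ∃ y, ψ y = (n s)⁻¹)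
    (hS : ∀ i j, ∃ y, ψ y = z.S i j) (hS' : ∀ i j, ∃ y, ψ y = z.S' i j)
    (hζ : ∀ s c, ∃ y, ψ y = z.ζ s c) (hi : ∀ s c, ∃ y, ψ y = (z.ζ s c)⁻¹)
    (hd : ∀ s c s' c', ∃ y, ψ y = (z.ζ s c - z.ζ s' c')⁻¹) :
    ∃ w : MorD e a b R, w.map ψ = z := by
  choose S hS using hS
  choose S' hS' using hS'
  choose ζ hζ using hζ
  choose c hc using hn
  have e1 : (of S).map ψ = z.S := by ext i j; exact hS i j
  have e2 : (of S').map ψ = z.S' := by ext i j; exact hS' i j
  have e3 : ∀ s, (diagonal (ζ s)).map ψ = z.α s := fun s => by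
    rw [z.hα, diagonal_map (map_zero ψ)]
    simp only [hζ]
  have e4 : ∀ s, (!![0, c s; 1, 0] : M2 R).map ψ = z.β s := fun s => by
    rw [hβ]
    ext i j
    fin_cases i <;> fin_cases j <;> simp [hc]
  have e5 : ∀ s, (swp R).map ψ = z.B s := fun s => by
    rw [z.hB]
    ext i j
    fin_cases i <;> fin_cases j <;> simp [swp]
  have sep : ∀ s c s' c', (s, c) ≠ (s', c') → IsUnit (ζ s c - ζ s' c') := fun s c s' c' h =>
    X4.unit_of hψ (by rw [map_sub, hζ, hζ]; exact z.sep s c s' c' h)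
      (by rw [map_sub, hζ, hζ]; exact hd s c s' c')
  refine ⟨{ S := of S, S' := of S', α := fun s => diagonal (ζ s)
            β := fun s => !![0, c s; 1, 0], B := fun _ => swp R
            inv := map_injective hψ ?_, inv' := map_injective hψ ?_
            ea := map_injective hψ ?_, eb := map_injective hψ ?_
            gen := gen_of (fun s => X4.unit_of hψ (by rw [hc]; exact (n0 s).isUnit)
              (by rw [hc]; exact hn' s)) (fun _ => rfl) (fun _ => rfl) sep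
            form := map_injective hψ ?_
            unit := fun _ => by simp [swp, det_fin_two]
            ζ := ζ, hα := fun _ => rfl, hB := fun _ => rfl
            uz := fun s c => X4.unit_of hψ (by rw [hζ]; exact z.uz s c) (by rw [hζ]; exact hi s c)
            sep := sep }, MorD.eq_of e1 e2 (funext e4) (funext fun s => funext (hζ s))⟩
  · simp only [Matrix.map_mul, e1, e2, z.inv, Matrix.map_one _ (map_zero ψ) (map_one ψ)]
  · simp only [Matrix.map_mul, e1, e2, z.inv', Matrix.map_one _ (map_zero ψ) (map_one ψ)]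
  · simp only [Matrix.map_mul, e1, zM_map, z.ea, bd_map, M8.kron_map, e3,
      Matrix.map_one _ (map_zero ψ) (map_one ψ)]
  · simp only [Matrix.map_mul, zM_map, e1, z.eb, bd_map, M8.kron_map,
      Matrix.map_one _ (map_zero ψ) (map_one ψ)]
    simp only [← e4]
  · simp only [Matrix.map_mul, transpose_map, e1, map_J, z.form, bd_map, M8.kron_map]
    simp only [← e5]

/-- A splitting over a number field is integral at all large primes. -/
theorem MorD.int {k : Type} [Field k] [NumberField k] (z : MorD e a b k) {n : Fin e → k}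
    (hn : ∀ s, n s ≠ 0) (hβ : ∀ s, z.β s = !![0, n s; 1, 0]) :
    ∃ l₀ : ℕ, ∀ (l : ℕ) [Fact l.Prime], l₀ < l → ∀ φ : k →+* ℚ_[l], ∃ w : MorD e a b ℤ_[l],
      w.map PadicInt.Coe.ringHom = z.map φ := by
  obtain ⟨l₁, h₁⟩ := X4.exists_l fun x : ν × Ix e => z.S x.1 x.2
  obtain ⟨l₂, h₂⟩ := X4.exists_l fun x : Ix e × ν => z.S' x.1 x.2
  obtain ⟨l₃, h₃⟩ := X4.exists_l fun x : Fin e × Fin 2 => z.ζ x.1 x.2
  obtain ⟨l₄, h₄⟩ := X4.exists_l fun x : Fin e × Fin 2 => (z.ζ x.1 x.2)⁻¹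
  obtain ⟨l₅, h₅⟩ := X4.exists_l fun x : (Fin e × Fin 2) × Fin e × Fin 2 =>
    (z.ζ x.1.1 x.1.2 - z.ζ x.2.1 x.2.2)⁻¹
  obtain ⟨l₆, h₆⟩ := X4.exists_l n
  obtain ⟨l₇, h₇⟩ := X4.exists_l fun s => (n s)⁻¹
  refine ⟨l₁ + l₂ + l₃ + l₄ + l₅ + l₆ + l₇, fun l _ hl φ => MorD.desc (n := fun s => φ (n s))
    Subtype.val_injective (z.map φ) (fun s => ?_) (fun s => (map_ne_zero φ).2 (hn s))
    (h₆ l (by omega) φ) (fun s => ?_) (fun i j => h₁ l (by omega) φ (i, j))
    (fun i j => h₂ l (by omega) φ (i, j)) (fun s c => h₃ l (by omega) φ (s, c)) (fun s c => ?_)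
    fun s c s' c' => ?_⟩
  · change (z.β s).map φ = _
    rw [hβ]
    ext i j
    fin_cases i <;> fin_cases j <;> simp
  · have h := h₇ l (by omega) φ s
    rwa [map_inv₀] at h
  · have h := h₄ l (by omega) φ (s, c)
    rwa [map_inv₀] at h
  · have h := h₅ l (by omega) φ ((s, c), s', c')
    rwa [map_inv₀, map_sub] at h

end MG
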