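import Pool.Agent.Lib.MP_33b3f9_ag.MG.IDefA
import Pool.Agent.Lib.MP_33b3f9_ag.MG.MorD
import Pool.Agent.Lib.MP_33b3f9_ag.MG.MorI

/-!
The field generated by `a`, and splittings over closed fields and over `ℤ_[l]`.
-/

set_option autoImplicit false

noncomputable section

namespace MG

open Matrix Polynomial M4 Pool.Agent.M4.Mx

variable [Dim] {e : ℕ} {a b : MZ} {m n : ℕ}

omit [Dim] in
theorem morp_ev {R S : Type} [Field R] [Field S] [CharZero R] [CharZero S] (j : R →+* S)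
    (f : ℚ[X]) (x : R) : j (aeval x f) = aeval (j x) f :=
  (aeval_algHom_apply j.toRatAlgHom x f).symm

theorem PEL.morp_conj (hP : PEL e a b m n) {ξ : ℂ} (h : aeval ξ (minpoly ℚ (zM ℚ a)) = 0) :
    ξ ≠ 0 ∧ (m : ℂ) / ξ = starRingEnd ℂ ξ := by
  obtain ⟨h1, h2⟩ := hP.root ξ h
  have h0 : ξ ≠ 0 := fun c => h2 (by rw [c, Complex.zero_im])
  refine ⟨h0, ?_⟩
  rw [div_eq_iff h0, Complex.conj_mul', ← Complex.ofReal_pow, h1, Complex.ofReal_natCast]

theorem PEL.morp_pd (hP : PEL e a b m n) (E : Type) [Field E] [NumberField E]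
    (φ : E →+* Matrix ν ν ℚ) (z : E) (hφ : φ z = zM ℚ a) (hz : aeval z (minpoly ℚ (zM ℚ a)) = 0)
    (gen : Algebra.adjoin ℚ {z} = ⊤) (rank : Module.finrank ℚ E = 2 * e) :
    Nonempty (PD e a b m n) := by
  have hj : ∀ j : E →+* ℂ, j z ≠ 0 ∧ (m : ℂ) / j z = starRingEnd ℂ (j z) := fun j =>
    hP.morp_conj (by rw [← morp_ev, hz, map_zero])
  obtain ⟨j₀⟩ : Nonempty (E →+* ℂ) := inferInstance
  have h0 : z ≠ 0 := fun c => (hj j₀).1 (by rw [c, map_zero])
  have h1 : aeval ((m : E) / z) (minpoly ℚ (zM ℚ a)) = 0 := j₀.injective (by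
    rw [morp_ev, map_div₀, map_natCast, (hj j₀).2, ← morp_ev, ← morp_ev, hz, map_zero, map_zero])
  have hi : IsIntegral ℚ z := Algebra.IsIntegral.isIntegral z
  have h2 : minpoly ℚ (zM ℚ a) = minpoly ℚ z :=
    minpoly.eq_of_irreducible_of_monic hP.irr hz (minpoly.monic (Algebra.IsIntegral.isIntegral _))
  let pb := PowerBasis.ofAdjoinEqTop hi gen
  have hg : pb.gen = z := rfl
  let σ : E →ₐ[ℚ] E := pb.lift ((m : E) / z) (by rw [hg, ← h2, h1])
  have hσ : σ z = (m : E) / z := pb.lift_gen _ _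
  have hnt : Nontrivial (Matrix ν ν ℚ) := by
    by_contra c
    rw [not_nontrivial_iff_subsingleton] at c
    exact hP.irr.not_isUnit (by rw [minpoly.subsingleton]; exact isUnit_one)
  refine ⟨{
    E := E, φ := φ, z := z
    bar := RingEquiv.ofBijective σ.toRingHom (Algebra.IsAlgebraic.algHom_bijective σ)
    pel := hP, φz := hφ, gen := gen, rank := rank
    conj := fun j x => ?_, mul := ?_, int := ?_ }⟩
  · have h3 : j.toRatAlgHom.comp σ = ((starRingEnd ℂ).comp j).toRatAlgHom :=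
      pb.algHom_ext (by
        change j (σ z) = starRingEnd ℂ (j z)
        rw [hσ, map_div₀, map_natCast, (hj j).2])
    exact AlgHom.congr_fun h3 x
  · change σ z * z = m
    rw [hσ, div_mul_cancel₀ _ h0]
  · refine (isIntegral_algHom_iff φ.toIntAlgHom φ.injective).1 ?_
    change IsIntegral ℤ (φ z)
    rw [hφ]
    exact (Matrix.isIntegral a).map (Int.castRingHom ℚ).mapMatrix.toIntAlgHom

theorem PEL.pd (hP : PEL e a b m n) : Nonempty (PD e a b m n) := by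
  have : Fact (Irreducible (minpoly ℚ (zM ℚ a))) := ⟨hP.irr⟩
  refine hP.morp_pd (AdjoinRoot (minpoly ℚ (zM ℚ a)))
    (Ideal.Quotient.lift (Ideal.span {minpoly ℚ (zM ℚ a)}) (aeval (zM ℚ a)).toRingHom
      fun p hp => ?_) (AdjoinRoot.root _) (aeval_X _) ?_ AdjoinRoot.adjoinRoot_eq_top ?_
  · exact minpoly.dvd_iff.1 (Ideal.mem_span_singleton.1 hp)
  · exact (AdjoinRoot.aeval_eq _).trans AdjoinRoot.mk_self
  · exact finrank_quotient_span_eq_natDegree.trans hP.deg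

theorem PEL.mor_closed (hP : PEL e a b m n) (Ω : Type) [Field Ω] [CharZero Ω] [IsAlgClosed Ω] :
    Nonempty (MorD e a b Ω) :=
  ⟨(hP.morD Ω (IsAlgClosed.splits _)).choose⟩

theorem PEL.mor_padic (hP : PEL e a b m n) : ∃ (L₀ : IntermediateField ℚ CM.Qb)
    (_ : NumberField L₀) (n₀ : ℕ), ∀ (l : ℕ) [Fact l.Prime], n₀ < l → Nonempty (L₀ →+* ℚ_[l]) →
      Nonempty (MorD e a b ℤ_[l]) := by
  let L₀ := IntermediateField.adjoin ℚ ((minpoly ℚ (zM ℚ a)).rootSet CM.Qb)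
  have h1 : IsSplittingField ℚ L₀ (minpoly ℚ (zM ℚ a)) :=
    IntermediateField.adjoin_rootSet_isSplittingField (IsAlgClosed.splits _)
  have h2 : FiniteDimensional ℚ L₀ := IsSplittingField.finiteDimensional _ (minpoly ℚ (zM ℚ a))
  have h3 : NumberField L₀ := NumberField.mk
  obtain ⟨z, ⟨c, hc, hβ⟩, -⟩ := hP.morD L₀ (IsSplittingField.splits L₀ (minpoly ℚ (zM ℚ a)))
  obtain ⟨l₀, h⟩ := z.int hc hβ
  exact ⟨L₀, h3, l₀, fun l _ hl ⟨φ⟩ => ⟨(h l hl φ).choose⟩⟩

end MG
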