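import Pool.Agent.Lib.MP_33b3f9_ag.MG.MorA

/-!
A symplectic basis of the image of an idempotent.
-/

set_option autoImplicit false

noncomputable section

namespace MG

open Matrix

theorem symp_aux {F W : Type} [Field F] [CharZero F] [AddCommGroup W] [Module F W]
    [FiniteDimensional F W] (E : W →ₗ[F] W →ₗ[F] F) (hE : ∀ x y, E y x = -E x y)
    (hd : ∀ x, (∀ y, E y x = 0) → x = 0) (k : ℕ) (hk : 2 * k ≤ Module.finrank F W) :
    ∃ v w : Fin k → W, (∀ i j, E (v i) (v j) = 0) ∧ (∀ i j, E (w i) (w j) = 0) ∧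
      ∀ i j, E (w i) (v j) = if i = j then 1 else 0 := by
  have half : ∀ x, E x x = 0 := fun x => by
    have : (2 : F) * E x x = 0 := by linear_combination hE x x
    exact (mul_eq_zero.1 this).resolve_left two_ne_zero
  induction k with
  | zero => exact ⟨0, 0, nofun, nofun, nofun⟩
  | succ k ih =>
    obtain ⟨v, w, h1, h2, h3⟩ := ih (by omega)
    have h4 : ∀ i j, E (v i) (w j) = if i = j then -1 else 0 := fun i j => by
      rw [hE, h3]
      by_cases h : i = j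
      · simp [h]
      · simp [h, Ne.symm h]
    let L : W →ₗ[F] Fin k ⊕ Fin k → F :=
      LinearMap.pi (Sum.elim (fun i => E (v i)) fun i => E (w i))
    obtain ⟨x, hx, hx0⟩ := (Submodule.ne_bot_iff _).1 (LinearMap.ker_ne_bot_of_finrank_lt
      (f := L) (by simp; omega))
    replace hx : L x = 0 := hx
    have xv : ∀ i, E (v i) x = 0 := fun i => congrFun hx (.inl i)
    have xw : ∀ i, E (w i) x = 0 := fun i => congrFun hx (.inr i)
    obtain ⟨y, hy⟩ := not_forall.1 (mt (hd x) hx0)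
    obtain ⟨z, zx, zv, zw⟩ : ∃ z, E z x = 1 ∧ (∀ i, E (v i) z = 0) ∧ ∀ i, E (w i) z = 0 := by
      refine ⟨(E y x)⁻¹ • (y - ∑ i, (E (w i) y • v i - E (v i) y • w i)), ?_, fun j => ?_,
        fun j => ?_⟩
      · simp [map_sum, xv, xw, hy]
      · simp [map_sum, h1, h4]
      · simp [map_sum, h2, h3]
    have vx : ∀ i, E x (v i) = 0 := fun i => by rw [hE, xv, neg_zero]
    have vz : ∀ i, E z (v i) = 0 := fun i => by rw [hE, zv, neg_zero]
    have wz : ∀ i, E z (w i) = 0 := fun i => by rw [hE, zw, neg_zero]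
    refine ⟨Fin.cons x v, Fin.cons z w, fun i j => ?_, fun i j => ?_, fun i j => ?_⟩
    · refine Fin.cases ?_ (fun i => ?_) i <;> refine Fin.cases ?_ (fun j => ?_) j <;>
        simp [half, vx, xv, h1]
    · refine Fin.cases ?_ (fun i => ?_) i <;> refine Fin.cases ?_ (fun j => ?_) j <;>
        simp [half, wz, zw, h2]
    · refine Fin.cases ?_ (fun i => ?_) i <;> refine Fin.cases ?_ (fun j => ?_) j <;>
        simp [zx, vz, xw, h3, Fin.succ_ne_zero, (Fin.succ_ne_zero _).symm]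

/-- A symplectic basis of the image of an idempotent of trace eight. -/
theorem exists_symp {F o : Type} [Field F] [CharZero F] [Fintype o] [DecidableEq o]
    (π Ψ : Matrix o o F) (hπ : π * π = π) (htr : π.trace = 8)
    (halt : πᵀ * Ψᵀ * π = -(πᵀ * Ψ * π))
    (hnd : ∀ x : o → F, π *ᵥ x = x → (πᵀ * Ψ) *ᵥ x = 0 → x = 0) :
    ∃ P : Matrix o ω F, π * P = P ∧ Pᵀ * Ψ * P = J (Fin 4) F := by
  let W : Submodule F (o → F) := LinearMap.range (toLin' π)
  have hW : ∀ x ∈ W, π *ᵥ x = x := by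
    rintro _ ⟨y, rfl⟩
    rw [toLin'_apply, mulVec_mulVec, hπ]
  have hp : LinearMap.IsProj W (toLin' π) :=
    ⟨fun x => LinearMap.mem_range_self _ x, fun x hx => hW x hx⟩
  have h8 : Module.finrank F W = 8 := by
    have h := hp.trace
    rw [trace_toLin'_eq, htr] at h
    exact_mod_cast h.symm
  let E : W →ₗ[F] W →ₗ[F] F := (toLinearMap₂' F Ψ).compl₁₂ W.subtype W.subtype
  have hE : ∀ x y : W, E x y = x.1 ⬝ᵥ Ψ *ᵥ y.1 := fun x y => toLinearMap₂'_apply' Ψ x.1 y.1
  have hT : ∀ (g : Matrix o o F) (x y : o → F),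
      (π *ᵥ x) ⬝ᵥ g *ᵥ y = x ⬝ᵥ (πᵀ * g) *ᵥ y := fun g x y => by
    rw [← mulVec_mulVec, dotProduct_mulVec x, vecMul_transpose]
  have hS : ∀ (g : Matrix o o F) (x y : W),
      x.1 ⬝ᵥ g *ᵥ y.1 = x.1 ⬝ᵥ (πᵀ * g * π) *ᵥ y.1 := fun g x y => by
    rw [← mulVec_mulVec, hW _ y.2, ← hT, hW _ x.2]
  obtain ⟨v, w, h1, h2, h3⟩ := symp_aux E
    (fun x y => by
      have e : x.1 ⬝ᵥ Ψ *ᵥ y.1 = y.1 ⬝ᵥ Ψᵀ *ᵥ x.1 := by
        rw [dotProduct_mulVec, ← mulVec_transpose, dotProduct_comm]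
      rw [hE, hE, e, hS Ψᵀ, halt, neg_mulVec, dotProduct_neg, neg_neg, ← hS])
    (fun x hx => Subtype.ext (hnd x.1 (hW _ x.2) (by
      refine dotProduct_eq_zero_iff.1 fun z => ?_
      rw [dotProduct_comm, ← hT]
      exact (hE ⟨π *ᵥ z, z, rfl⟩ x).symm.trans (hx _))))
    4 (by rw [h8])
  have h4 : ∀ i j, E (v i) (w j) = if i = j then -1 else 0 := fun i j => by
    have e : (v i).1 ⬝ᵥ Ψ *ᵥ (w j).1 = (w j).1 ⬝ᵥ Ψᵀ *ᵥ (v i).1 := by
      rw [dotProduct_mulVec, ← mulVec_transpose, dotProduct_comm]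
    rw [hE, e, hS Ψᵀ, halt, neg_mulVec, dotProduct_neg, ← hS, ← hE, h3]
    by_cases h : i = j
    · simp [h]
    · simp [h, Ne.symm h]
  let u : ω → W := Sum.elim v w
  refine ⟨of fun s t => (u t).1 s, ?_, ?_⟩
  · ext s t
    exact congrFun (hW _ (u t).2) s
  · have key : ∀ s t, ((of fun s t => (u t).1 s)ᵀ * Ψ * (of fun s t => (u t).1 s) :
        Matrix ω ω F) s t = E (u s) (u t) := fun s t => by
      rw [hE, Matrix.mul_assoc]
      rfl
    ext s t
    rw [key]
    rcases s with i | i <;> rcases t with j | j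
    · simpa [u, J] using h1 i j
    · simp [u, J, h4, one_apply, neg_ite]
    · simp [u, J, h3, one_apply]
    · simpa [u, J] using h2 i j

end MG
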