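import Pool.Agent.Lib.MP_33b3f9_ag.MG.MorG
import Pool.Agent.Lib.MP_33b3f9_ag.MG.MorS

/-!
Assembling a real splitting from its blocks.
-/

set_option autoImplicit false

noncomputable section

namespace MG

open Matrix Pool.Agent.M4.Mx
open scoped Kronecker

section asm

variable {o R : Type} [Fintype o] [CommRing R] {e : ℕ}

/-- The matrix with the given blocks of columns. -/
def morrS (Q : Fin e → Fin 2 → Matrix o ω R) : Matrix o (Ix e) R :=
  of fun x y => Q y.2 y.1.2 x y.1.1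

theorem morr_act (Q : Fin e → Fin 2 → Matrix o ω R) (G : Matrix o o R) (γ : Fin e → M2 R)
    (h : ∀ s c, G * Q s c = γ s 0 c • Q s 0 + γ s 1 c • Q s 1) :
    G * morrS Q = morrS Q * blockDiagonal fun s => (1 : M8 R) ⊗ₖ γ s := by
  ext x ⟨⟨i, c⟩, s⟩
  have h1 : (G * morrS Q) x ((i, c), s) = (G * Q s c) x i := rfl
  rw [h1, h]
  simp [Matrix.mul_apply, Fintype.sum_prod_type, blockDiagonal_apply, morrS, one_apply, mul_comm]

theorem morr_form (Q : Fin e → Fin 2 → Matrix o ω R) (G : Matrix o o R) (H : M8 R)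
    (h0 : ∀ s c t d, (s, c) ≠ (t, d) → (Q s c)ᵀ * G * Q t d = 0)
    (h1 : ∀ s c, (Q s c)ᵀ * G * Q s c = H) :
    (morrS Q)ᵀ * G * morrS Q = blockDiagonal fun _ => H ⊗ₖ (1 : M2 R) := by
  ext ⟨⟨i, c⟩, s⟩ ⟨⟨j, d⟩, t⟩
  have h2 : ((morrS Q)ᵀ * G * morrS Q) ((i, c), s) ((j, d), t) = ((Q s c)ᵀ * G * Q t d) i j := rfl
  rw [h2]
  by_cases h : (s, c) = (t, d)
  · obtain ⟨rfl, rfl⟩ := Prod.mk.inj h
    simp [h1]
  · rw [h0 _ _ _ _ h, blockDiagonal_apply]
    split_ifs with h3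
    · obtain rfl : s = t := h3
      have : c ≠ d := fun e => h (by rw [e])
      simp [this]
    · rfl

theorem morr_orth {G H : Matrix o o ℝ} (hG : Gᵀ * H = H * G) {X Y : Matrix o ω ℝ} {x y : ℝ}
    (hX : G * X = x • X) (hY : G * Y = y • Y) (hxy : x ≠ y) : Xᵀ * H * Y = 0 := by
  have h1 : (G * X)ᵀ * H * Y = Xᵀ * H * (G * Y) := by
    rw [transpose_mul, Matrix.mul_assoc Xᵀ, hG]
    simp only [Matrix.mul_assoc]
  rw [hX, hY, transpose_smul, Matrix.smul_mul, Matrix.smul_mul, Matrix.mul_smul] at h1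
  have h2 : (x - y) • (Xᵀ * H * Y) = 0 := by rw [sub_smul, h1, sub_self]
  exact (smul_eq_zero.1 h2).resolve_left (sub_ne_zero.2 hxy)

theorem morr_inv {K B : Type} [Field K] [Ring B] [Algebra K B] [FiniteDimensional K B]
    (A : Subalgebra K B) {x y : B} (hx : x ∈ A) (h : y * x = 1) : y ∈ A := by
  have inj : Function.Injective (LinearMap.mulLeft K (⟨x, hx⟩ : A)) := fun a b e =>
    Subtype.ext (by simpa [← mul_assoc, h] using congrArg (fun c : A => y * (c : B)) e)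
  obtain ⟨a, ha⟩ := LinearMap.injective_iff_surjective.1 inj 1
  have h1 : y = a := by
    rw [← mul_one y, ← show x * a = 1 from congrArg Subtype.val ha, ← mul_assoc, h, one_mul]
  exact h1 ▸ a.2

theorem morr_gen (t u r : Fin e → ℝ) (hr : ∀ s, r s ≠ 0) (ht : Function.Injective t)
    (hu : ∀ s, u s ≠ 0) :
    Algebra.adjoin ℝ ({fun s => !![t s, -u s; u s, t s], fun s => !![r s, 0; 0, -r s]} :
      Set (Fin e → M2 ℝ)) = ⊤ := by
  set α : Fin e → M2 ℝ := fun s => !![t s, -u s; u s, t s] with hα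
  set β : Fin e → M2 ℝ := fun s => !![r s, 0; 0, -r s] with hβ
  have ha : α ∈ Algebra.adjoin ℝ {α, β} := Algebra.subset_adjoin (Or.inl rfl)
  have hb : β ∈ Algebra.adjoin ℝ {α, β} := Algebra.subset_adjoin (Or.inr rfl)
  let D : (Fin e → ℝ) →ₐ[ℝ] (Fin e → M2 ℝ) := AlgHom.pi fun s =>
    (Algebra.ofId ℝ (M2 ℝ)).comp (Pi.evalAlgHom ℝ (fun _ => ℝ) s)
  have hD0 : ∀ x s, D x s = x s • (1 : M2 ℝ) := fun x s =>
    (Algebra.algebraMap_eq_smul_one (x s) : algebraMap ℝ (M2 ℝ) (x s) = _)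
  have h0 : D t ∈ Algebra.adjoin ℝ {α, β} := by
    have e0 : (fun s => !![(r s)⁻¹, 0; 0, -(r s)⁻¹] : Fin e → M2 ℝ) * β = 1 := by
      funext s
      simp [hβ, hr, one_fin_two]
    have e1 : D t =
        (1 / 2 : ℝ) • (α + (fun s => !![(r s)⁻¹, 0; 0, -(r s)⁻¹] : Fin e → M2 ℝ) * α * β) := by
      funext s
      have := hr s
      rw [hD0]
      ext i j
      fin_cases i <;> fin_cases j <;> simp [hα, hβ] <;> field_simp <;> ring
    rw [e1]
    exact Subalgebra.smul_mem _ (add_mem ha (mul_mem (mul_mem (morr_inv _ hb e0) ha) hb)) _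
  have hD : ∀ x, D x ∈ Algebra.adjoin ℝ {α, β} :=
    morg_sep t (fun p q h => (sub_ne_zero.2 fun e => h (ht e)).isUnit)
      ((Algebra.adjoin ℝ {α, β}).comap D) h0
  refine eq_top_iff.2 fun y _ => ?_
  have e1 : y = D (fun s => (y s 0 0 + y s 1 1) / 2) +
      D (fun s => (y s 0 0 - y s 1 1) / (2 * r s)) * β +
      D (fun s => (y s 1 0 - y s 0 1) / (2 * u s)) * (α - D t) +
      D (fun s => (y s 1 0 + y s 0 1) / (2 * u s * r s)) * ((α - D t) * β) := by
    funext s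
    have := hu s
    have := hr s
    simp only [Pi.add_apply, Pi.mul_apply, Pi.sub_apply, hD0]
    ext i j
    fin_cases i <;> fin_cases j <;> simp [hα, hβ, Matrix.mul_apply] <;> field_simp <;> ring
  rw [e1]
  exact add_mem (add_mem (add_mem (hD _) (mul_mem (hD _) hb)) (mul_mem (hD _) (sub_mem ha h0)))
    (mul_mem (hD _) (mul_mem (sub_mem ha h0) hb))

end asm

/-- One block: a symplectic basis of the positive eigenspace of `B` in the image of `E`. -/
theorem morr_block {l : Type} [Fintype l] [DecidableEq l] (B E j : Matrix (l ⊕ l) (l ⊕ l) ℝ)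
    (r : ℝ) (hr : r ≠ 0) (hB : E * (B * B) = (r * r) • E) (hBJ : Bᵀ * J l ℝ = J l ℝ * B)
    (hE : E * E = E) (hEJ : Eᵀ * J l ℝ = J l ℝ * E) (hEB : E * B = B * E) (htr : E.trace = 16)
    (hjE : j * E = E * j) (hjB : j * B = -(B * j)) (hjj : j * j * E = -E) :
    ∃ P : Matrix (l ⊕ l) ω ℝ, E * P = P ∧ B * P = r • P ∧ Pᵀ * J l ℝ * P = J (Fin 4) ℝ := by
  have h0 : (E * B).trace = 0 := by
    have h1 : (j * (j * E * B)).trace = (j * E * B * j).trace := trace_mul_comm _ _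
    have h2 : j * (j * E * B) = -(E * B) := by
      rw [← Matrix.mul_assoc, ← Matrix.mul_assoc, hjj, Matrix.neg_mul]
    have h3 : j * E * B * j = E * B := by
      rw [Matrix.mul_assoc (j * E), ← neg_neg (B * j), ← hjB, Matrix.mul_neg, Matrix.mul_assoc j,
        ← Matrix.mul_assoc E, ← hjE, ← Matrix.mul_assoc, ← Matrix.mul_assoc, hjj, Matrix.neg_mul,
        neg_neg]
    rw [h2, h3, trace_neg] at h1
    linarith
  set π : Matrix (l ⊕ l) (l ⊕ l) ℝ := (1 / 2 : ℝ) • (E + r⁻¹ • (E * B)) with hπ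
  have hEπ : E * π = π := by
    rw [hπ, Matrix.mul_smul, Matrix.mul_add, Matrix.mul_smul, ← Matrix.mul_assoc, hE]
  have hBπ : B * π = r • π := by
    rw [hπ, Matrix.mul_smul, Matrix.mul_add, Matrix.mul_smul, ← Matrix.mul_assoc, ← hEB,
      Matrix.mul_assoc E, hB]
    match_scalars <;> field_simp
  have hππ : π * π = π := by
    nth_rw 1 [hπ]
    rw [Matrix.smul_mul, Matrix.add_mul, Matrix.smul_mul, Matrix.mul_assoc, hBπ, hEπ,
      Matrix.mul_smul, hEπ]
    match_scalars <;> field_simp <;> norm_num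
  have hπJ : πᵀ * J l ℝ = J l ℝ * π := by
    rw [hπ, transpose_smul, transpose_add, transpose_smul, transpose_mul, Matrix.smul_mul,
      Matrix.add_mul, Matrix.smul_mul, Matrix.mul_assoc, hEJ, ← Matrix.mul_assoc, hBJ,
      Matrix.mul_assoc, ← hEB, Matrix.mul_smul, Matrix.mul_add, Matrix.mul_smul]
  obtain ⟨P, h1, h2⟩ := exists_symp π (J l ℝ) hππ
    (by rw [hπ, trace_smul, trace_add, trace_smul, h0, htr]; norm_num)
    (by rw [J_transpose, Matrix.mul_neg, Matrix.neg_mul])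
    (fun x hx h => by
      rw [hπJ, ← mulVec_mulVec, hx] at h
      have h3 := congrArg (J l ℝ *ᵥ ·) h
      simpa only [mulVec_mulVec, J_squared, neg_mulVec, one_mulVec, mulVec_zero, neg_eq_zero]
        using h3)
  refine ⟨P, ?_, ?_, h2⟩
  · rw [← h1, ← Matrix.mul_assoc, hEπ]
  · rw [← h1, ← Matrix.mul_assoc, hBπ, Matrix.smul_mul]

end MG
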