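import Pool.Agent.Lib.MP_33b3f9_ag.MG.Tr
import Pool.Agent.Lib.MP_33b3f9_ag.M4.G.Det
import Pool.Agent.Lib.MP_33b3f9_ag.M8.Pig
import Pool.Agent.Lib.MP_33b3f9_ag.MG.Ry.Main

/-!
The lattices that are stable under `a` and `b` fall in finitely many classes; one class carries a
positive proportion of the family.
-/

set_option autoImplicit false

noncomputable section

namespace MG

open M4 Matrix Filter Pool.Agent.M4.Det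

variable [Dim] {τ : Mat} {a b a' b' g h : MZ} {e m n M : ℕ}

/-- One family. -/
def AR (e : ℕ) (Q : MZ → ℕ → Prop) (τ : Mat) (θ δ : ℝ) (Y : ℕ) : Prop :=
  ∃ (s : ℕ) (Om : Fin s → Type) (_ : ∀ i, Fintype (Om i)) (X : Finset (∀ i, Om i))
    (g : (∀ i, Om i) → MZ) (M : (∀ i, Om i) → ℕ), Fam Q (2 * Y) X g M ∧
    (Y : ℝ) ^ (1 - θ) ≤ 2 * s ∧ (s : ℝ) ≤ (Y : ℝ) ^ (1 - θ) ∧
    (∀ i, Y ≤ Fintype.card (Om i)) ∧ δ * ∏ i, (Fintype.card (Om i) : ℝ) ≤ X.card ∧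
    ∀ μ : ℕ, 1 ≤ μ → (hil (fun ξ : X => th2 (act (zr (g ξ)) τ)) μ : ℝ) ≤
      Real.exp ((Y : ℝ) ^ (1 - 2 * θ)) * (μ : ℝ) ^ (9 * e)

theorem arith_iff {Q : MZ → ℕ → Prop} : ARITHst e Q τ ↔
    ∃ θ : ℝ, 0 < θ ∧ θ < 1 / 2 ∧ ∃ δ : ℝ, 0 < δ ∧ ∃ᶠ Y in atTop, AR e Q τ θ δ Y := by
  simp only [frequently_atTop]
  rfl

theorem AR.pig {Q : MZ → ℕ → Prop} {C : Type} {T : Finset C} (hT : T.Nonempty)
    {Q' : C → MZ → ℕ → Prop} (hQ : ∀ g M, Q g M → ∃ c ∈ T, Q' c g M) {θ δ : ℝ} {Y : ℕ}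
    (h : AR e Q τ θ δ Y) : ∃ c ∈ T, AR e (Q' c) τ θ (δ / T.card) Y := by
  classical
  obtain ⟨s, Om, _, X, g, M, hF, hN, hN', hOm, hX, hH⟩ := h
  have h1 : ∀ ξ, ∃ c ∈ T, ξ ∈ X → Q' c (g ξ) (M ξ) := fun ξ => by
    by_cases hξ : ξ ∈ X
    · obtain ⟨c, hc, H⟩ := hQ _ _ (hF.iso ξ hξ)
      exact ⟨c, hc, fun _ => H⟩
    · obtain ⟨c, hc⟩ := hT
      exact ⟨c, hc, fun H => absurd H hξ⟩
  choose cl h2 h3 using h1
  have h4 : (0 : ℝ) < T.card := Nat.cast_pos.2 hT.card_pos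
  obtain ⟨c, hc, H⟩ := Finset.exists_le_card_fiber_of_nsmul_le_card_of_maps_to (s := X)
    (f := cl) (b := δ / T.card * ∏ i, (Fintype.card (Om i) : ℝ)) (fun ξ _ => h2 ξ) hT (by
      rwa [nsmul_eq_mul, ← mul_assoc, mul_div_cancel₀ _ h4.ne'])
  have hs : ∀ {ξ}, ξ ∈ X.filter (cl · = c) → ξ ∈ X := fun h => (Finset.mem_filter.1 h).1
  refine ⟨c, hc, s, Om, _, X.filter (cl · = c), g, M, ⟨fun ξ hξ => ?_,
    fun ξ hξ ξ' hξ' => hF.sep ξ (hs hξ) ξ' (hs hξ'), fun ξ hξ ξ' hξ' => hF.nb ξ (hs hξ) ξ' (hs hξ')⟩,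
    hN, hN', hOm, H, fun μ hμ => le_trans ?_ (hH μ hμ)⟩
  · rw [← (Finset.mem_filter.1 hξ).2]
    exact h3 ξ (hs hξ)
  · exact Nat.cast_le.2 (M8.hil_comp (fun ξ : X.filter (cl · = c) => (⟨ξ.1, hs ξ.2⟩ : X))
      (fun ξ : X => th2 (act (zr (g ξ)) τ)) μ)

theorem ARITHst.pig {Q : MZ → ℕ → Prop} {C : Type} {T : Finset C} (hT : T.Nonempty)
    {Q' : C → MZ → ℕ → Prop} (hQ : ∀ g M, Q g M → ∃ c ∈ T, Q' c g M) (h : ARITHst e Q τ) :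
    ∃ c ∈ T, ARITHst e (Q' c) τ := by
  simp only [arith_iff] at h ⊢
  obtain ⟨θ, h0, h1, δ, hδ, H⟩ := h
  obtain ⟨c, hc, H'⟩ := T.frequently_exists.1 (H.mono fun Y => AR.pig hT hQ)
  exact ⟨c, hc, θ, h0, h1, _, div_pos hδ (Nat.cast_pos.2 hT.card_pos), H'⟩

theorem ARITHst.ex {Q : MZ → ℕ → Prop} (h : ARITHst e Q τ) : ∃ g M, Q g M := by
  obtain ⟨θ, -, -, δ, hδ, H⟩ := h
  obtain ⟨Y, hY, s, Om, _, X, g, M, hF, -, -, hOm, hX, -⟩ := H 1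
  have h1 : (0 : ℝ) < Y := Nat.cast_pos.2 hY
  have h2 : (0 : ℝ) < X.card := lt_of_lt_of_le (mul_pos hδ (Finset.prod_pos fun i _ =>
    h1.trans_le (Nat.cast_le.2 (hOm i)))) hX
  obtain ⟨ξ, hξ⟩ := Finset.card_pos.1 (Nat.cast_pos.1 h2)
  exact ⟨_, _, hF.iso ξ hξ⟩

theorem lev_iff : Lev g ↔ zM (ZMod 32) g = 1 := by
  rw [← zM_one, ← Matrix.ext_iff]
  exact forall₂_congr fun i j =>
    (ZMod.intCast_eq_intCast_iff_dvd_sub _ _ 32).symm.trans eq_comm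

theorem Lev.mul (hg : Lev g) (hh : Lev h) : Lev (g * h) := by
  rw [lev_iff] at *
  rw [zM_mul, hg, hh, mul_one]

theorem Lev.adj (hg : Lev g) : Lev (adj g) := by
  rw [lev_iff] at *
  have : zM (ZMod 32) gᵀ = 1 := by rw [← transpose_one, ← hg]; rfl
  rw [MG.adj, zM_neg, zM_mul, zM_mul, this, zM_J, mul_one, J_squared, neg_neg]

theorem Iso.pos (hg : Iso g M) : 0 < M := Nat.pos_of_ne_zero hg.1.1.ne_zero

theorem th2_lev (hg : Sim (zr g) 1) (hl : Lev g) (hτ : InH τ) :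
    ∃ c : ℂ, c ≠ 0 ∧ th2 (act (zr g) τ) = c • th2 τ := by
  obtain ⟨c, h1, h2⟩ := t2_level (sim_mz_iff.1 hg) (Lv.of_dvd (q' := 32) hl (by norm_num)) ⟨τ, hτ⟩
  refine ⟨c, fun h0 => M4.wt_ne_zero hg one_pos hτ (h1.symm.trans (by simp [h0])), funext fun e => ?_⟩
  have := h2 e
  rwa [t2, aH_val (g := mz g) hg one_pos] at this

theorem Iso.odd (hg : Iso g M) : Odd M := by
  rw [← Nat.not_even_iff_odd, even_iff_two_dvd]
  intro h2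
  exact absurd (hg.1.2 2 Nat.prime_two h2) (by decide)

/-- After a change of basis of level `32`, `g` intertwines `(a, b)` and `(a', b')`. -/
def Clq (a b a' b' g : MZ) (M : ℕ) : Prop :=
  Iso g M ∧ ∃ γ : MZ, Sim (zr γ) 1 ∧ Lev γ ∧ γ * g * a = a' * (γ * g) ∧ γ * g * b = b' * (γ * g)

theorem PEL.tb (h : PEL e a b m n) (i : Fin 2) :
    Ry.Tb (![a, b] i) ((m * Fintype.card ν + n : ℕ) : ℝ) := by
  have h1 : (MG.adj a * a).trace = (m * Fintype.card ν : ℕ) := by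
    rw [MG.adj_mul h.sim_a, trace_smul, trace_one, smul_eq_mul, Nat.cast_mul]
  have h2 : (MG.adj b * b).trace = n := by
    rw [MG.adj, mul_assoc (J _ _), h.bJ, ← mul_assoc, J_squared, neg_one_mul, neg_neg, h.tr]
  revert i
  refine Fin.forall_fin_two.2 ⟨?_, ?_⟩
  · change (((MG.adj a * a).trace : ℤ) : ℝ) ≤ _
    rw [h1, Int.cast_natCast]
    exact Nat.cast_le.2 (Nat.le_add_right _ _)
  · change (((MG.adj b * b).trace : ℤ) : ℝ) ≤ _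
    rw [h2, Int.cast_natCast]
    exact Nat.cast_le.2 (Nat.le_add_left _ _)

theorem exists_cls (hP : PEL e a b m n) (hτ : τ ∈ FX a b) : ∃ T : Finset (Fin 2 → MZ),
    T.Nonempty ∧ ∀ g M, Ist a b g M → ∃ c ∈ T, Clq a b (c 0) (c 1) g M := by
  classical
  obtain ⟨S, hS, H⟩ := Ry.finite_classes (α := Fin 2) ι ((m * Fintype.card ν + n : ℕ) : ℝ)
    (q := 32) (by norm_num)
  refine ⟨insert 0 hS.toFinset, Finset.insert_nonempty _ _, ?_⟩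
  rintro g M ⟨hg, ⟨a', ha⟩, b', hb⟩
  have h1 := hP.conj hg.pos hg.2.2 ha hb
  have h2 := hP.fx_act hg.pos hg.2.2 ha hb hτ
  obtain ⟨c, hc, γ, h3, h4, h5⟩ := H ![a', b'] h1.tb
    ⟨⟨_, h2.1⟩, Fin.forall_fin_two.2 ((h1.fx_iff h2.1).1 h2)⟩
  refine ⟨c, Finset.mem_insert_of_mem (hS.mem_toFinset.2 hc), hg, γ, sim_mz_iff.2 h3, h4, ?_, ?_⟩
  · rw [mul_assoc, ha, ← mul_assoc, ← mul_assoc, ← h5 0]
    rfl
  · rw [mul_assoc, hb, ← mul_assoc, ← mul_assoc, ← h5 1]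
    rfl

theorem AR.rebase (hτ : InH τ) (hg : Iso g M) (ha : g * a = a' * g) (hb : g * b = b' * g)
    {θ δ : ℝ} {Y : ℕ} (h : AR e (Clq a b a' b') τ θ δ Y) :
    AR e (Isg a' b') (act (zr g) τ) θ δ Y := by
  obtain ⟨s, Om, _, X, G, L, hF, hN, hN', hOm, hX, hH⟩ := h
  have h1 : ∀ ξ, ∃ γ : MZ, Sim (zr γ) (1 : ℕ) ∧ Lev γ ∧
      (ξ ∈ X → γ * G ξ * a = a' * (γ * G ξ) ∧ γ * G ξ * b = b' * (γ * G ξ)) := fun ξ => by
    rw [Nat.cast_one]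
    by_cases hξ : ξ ∈ X
    · obtain ⟨γ, h1, h2, h3⟩ := (hF.iso ξ hξ).2
      exact ⟨γ, h1, h2, fun _ => h3⟩
    · exact ⟨1, zr_one ▸ Sim.one, lev_iff.2 (zM_one _), fun H => absurd H hξ⟩
  choose γ h1 h2 h3 using h1
  have h1' : ∀ ξ, Sim (zr (γ ξ)) 1 := fun ξ => by simpa using h1 ξ
  have h4 : ∀ ξ, MG.adj (γ ξ) * γ ξ = 1 := fun ξ => by simpa using adj_mul (h1 ξ)
  have h5 : ∀ ξ, Sim (zr (MG.adj (γ ξ))) 1 := fun ξ => by simpa using sim_adj one_pos (h1 ξ)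
  have h6 := sim_adj hg.pos hg.2.2
  have hM : (0 : ℝ) < M := Nat.cast_pos.2 hg.pos
  have tw : ∀ {x c c' : MZ}, g * c = c' * g → x * c = c' * x →
      x * MG.adj g * c' = c' * (x * MG.adj g) := fun hc hx => by
    rw [mul_assoc, adj_tw hg.pos hg.2.2 hc, ← mul_assoc, hx, mul_assoc]
  refine ⟨s, Om, _, X, fun ξ => γ ξ * G ξ * MG.adj g, fun ξ => L ξ * M, ⟨fun ξ hξ => ?_,
    fun ξ hξ ξ' hξ' u hu c c' hc e => ?_, fun ξ hξ ξ' hξ' hi => ?_⟩, hN, hN', hOm, hX,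
    fun μ hμ => ?_⟩
  · have h7 := (hF.iso ξ hξ).1
    refine ⟨h7.odd.mul hg.odd, ((h2 ξ).mul h7.2.1).mul hg.2.1.adj, ?_,
      tw ha (h3 ξ hξ).1, tw hb (h3 ξ hξ).2⟩
    simpa [zr_mul] using ((h1' ξ).mul h7.2.2).mul h6
  · refine hF.sep ξ hξ ξ' hξ' (MG.adj (γ ξ') * u * γ ξ) ?_ c c' hc
      (cancel_right (det_ne hg.pos h6) ?_)
    · simpa [zr_mul] using ((h5 ξ').mul hu).mul (h1' ξ)
    · have e' := congrArg (MG.adj (γ ξ') * ·) e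
      simp only [mul_smul_comm, ← mul_assoc, h4, one_mul] at e'
      simpa only [smul_mul_assoc, mul_assoc] using e'
  · obtain ⟨l, k, u, hl, hk, hk', hu, hu', e⟩ := hF.nb ξ hξ ξ' hξ' hi
    refine ⟨l, k, γ ξ' * u * MG.adj (γ ξ), hl, hk, hk', ((h2 ξ').mul hu).mul (h2 ξ).adj, ?_, ?_⟩
    · simpa [zr_mul] using ((h1' ξ').mul hu').mul (h5 ξ)
    · rw [← smul_mul_assoc, ← mul_smul_comm, e]
      simp only [← mul_assoc]
      rw [mul_assoc _ _ (γ ξ), h4, mul_one]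
  · have h7 : ∀ ξ : X, ∃ c : ℂ, c ≠ 0 ∧ th2 (act (zr (γ ξ * G ξ * MG.adj g)) (act (zr g) τ)) =
        c • th2 (act (zr (G ξ)) τ) := fun ξ => by
      have h8 := (hF.iso ξ ξ.2).1
      have h9 : (0 : ℝ) < L ξ := Nat.cast_pos.2 h8.pos
      have h10 : Sim (zr (γ ξ * G ξ * MG.adj g)) (1 * L ξ * M) := by
        rw [zr_mul, zr_mul]
        exact ((h1' ξ).mul h8.2.2).mul h6
      rw [← act_mul' h10 (by positivity) hg.2.2 hM hτ, ← zr_mul, mul_assoc, adj_mul hg.2.2,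
        mul_smul_comm, mul_one, zr_smul, M4.act_smul (by exact_mod_cast hM.ne'), zr_mul,
        act_mul' (h1' ξ) one_pos h8.2.2 h9 hτ]
      exact th2_lev (h1' ξ) (h2 ξ) (M4.inH_act h8.2.2 h9 hτ)
    choose c h8 h9 using h7
    simp only [h9]
    rw [M4.G.hil_smul c h8]
    exact hH μ hμ

theorem pig (hP : PEL e a b m n) (hτ : τ ∈ FX a b) (h : ARITHst e (Ist a b) τ) :
    ∃ (a' b' g : MZ) (M : ℕ), Iso g M ∧ g * a = a' * g ∧ g * b = b' * g ∧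
      ARITHst e (Isg a' b') (act (zr g) τ) := by
  obtain ⟨T, hT, H⟩ := exists_cls hP hτ
  obtain ⟨c, -, hc⟩ := h.pig hT H
  obtain ⟨g, M, hg, γ, h1, h2, ha, hb⟩ := hc.ex
  have h3 : Iso (γ * g) M := ⟨hg.1, h2.mul hg.2.1, by simpa [zr_mul] using h1.mul hg.2.2⟩
  refine ⟨c 0, c 1, γ * g, M, h3, ha, hb, ?_⟩
  rw [arith_iff] at hc ⊢
  obtain ⟨θ, h4, h5, δ, hδ, H⟩ := hc
  exact ⟨θ, h4, h5, δ, hδ, H.mono fun Y => AR.rebase hτ.1 h3 ha hb⟩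

end MG
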