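import Pool.Agent.Lib.MP_33b3f9_ag.MG.IDefs

/-!
The rational slot algebra.
-/

set_option autoImplicit false

noncomputable section

namespace MG

open Matrix M4 Pool.Agent.M4.Det Pool.Agent.M4.Mx

variable [Dim] {e : ℕ} {a b : MZ} {L : Type} [Field L] {l₁ : ℕ}

/-- A rational slot algebra of height `H` that reduces to slots at the primes of `LM`. -/
structure SA (z : MorD e a b ℂ) (F : Frs e a b L l₁) (LM : Finset (GP L l₁)) (H : ℕ) where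
  /-- the number of conjugates in each block -/
  d : ℕ
  /-- the conjugates -/
  ψ : Fin e → Fin d → M2 ℂ →ₐ[ℂ] M8 ℂ
  /-- the rational basis -/
  B : Module.Basis (Fin e × Fin d × Fin 2 × Fin 2) ℂ (Fin e → Fin d → M2 ℂ)
  /-- the denominator -/
  m : ℕ
  /-- the norm map, times the denominator -/
  Nm : (Fin e × Fin d × Fin 2 × Fin 2 → ℤ) → MZ
  d1 : 1 ≤ d
  d3 : d ≤ 3
  comm : ∀ s t t' x y, t ≠ t' → Commute (ψ s t x) (ψ s t' y)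
  adj : ∀ s t x, (ψ s t x)ᵀ * J (Fin 4) ℂ = J (Fin 4) ℂ * ψ s t (adjugate x)
  ψ_le : ∀ s t p q i j, ‖ψ s t (single p q 1) i j‖ ≤ H
  B_le : ∀ k s t p q, ‖B k s t p q‖ ≤ H
  repr_le : ∀ k s t p q, ‖B.repr (Pi.single s (Pi.single t (single p q 1))) k‖ ≤ H
  m0 : 0 < m
  m_le : m ≤ H
  mul : ∀ k k', ∃ c : Fin e × Fin d × Fin 2 × Fin 2 → ℤ, (m : ℂ) • (B k * B k') = ∑ j, c j • B j
  zero : ∀ (c : Fin e × Fin d × Fin 2 × Fin 2 → ℤ) s t, (∑ j, c j • B j) s t = 0 → c = 0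
  sing : ∀ (c : Fin e × Fin d × Fin 2 × Fin 2 → ℤ) s t s' t', ((∑ j, c j • B j) s t).det = 0 →
    ((∑ j, c j • B j) s' t').det = 0
  nm : ∀ c, zM ℂ (Nm c) =
    (m : ℂ) • z.em fun s => (List.ofFn fun t => ψ s t ((∑ j, c j • B j) s t)).prod
  red : ∀ l ∈ LM, ¬ l.1 ∣ m ∧ ∃ (i : Fin e → Fin d ↪ Fin 3)
    (ρ : (Fin e × Fin d × Fin 2 × Fin 2 → ℤ) →+ Fin e → Fin d → M2 (ZMod l.1)),
    ∀ c, zM (ZMod l.1) (Nm c) =
      (m : ZMod l.1) • (F.red l).T fun s => Function.extend (i s) (ρ c s) 1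

/-- Three special lines give a rational slot algebra. -/
def RSst (z : MorD e a b ℂ) (F : Frs e a b L l₁) : Prop :=
  ∃ C : ℕ, ∀ (Y x : ℕ) (LY : Finset (GP L l₁)), 2 ≤ Y → 1 ≤ x →
    (∀ l ∈ LY, Y < l.1 ∧ l.1 ≤ 2 * Y) → C * x < LY.card →
    ∀ l ∈ LY, ∀ (q : Fin e × Fin 3) (d : Fin 3 → MZ) (w : Fin 3 → Fin 2 → ZMod l.1),
      (∀ i, DD F LY Y x (d i)) → (∀ i, Spec F l q (d i) (w i)) →
      (∀ i j, i ≠ j → wd (w i) (w j) ≠ 0) →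
      ∃ LM ⊆ LY, LY.card ≤ LM.card + C * x ∧ Nonempty (SA z F LM (Y ^ (C * x)))

/-- A rational slot algebra gives a family with a small Hilbert function. -/
def BXst (τ : Mat) (z : MorD e a b ℂ) (F : Frs e a b L l₁) : Prop :=
  ∃ C : ℕ, ∀ (Y x : ℕ) (LM : Finset (GP L l₁)), 2 ≤ Y → 1 ≤ x →
    (∀ l ∈ LM, Y < l.1 ∧ l.1 ≤ 2 * Y) → SA z F LM (Y ^ x) →
    ∃ (Om : Fin LM.card → Type) (_ : ∀ i, Fintype (Om i)) (g : (∀ i, Om i) → MZ)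
      (M : (∀ i, Om i) → ℕ), Fam (Ist a b) (2 * Y) Finset.univ g M ∧
      (∀ i, Y ≤ Fintype.card (Om i)) ∧ ∀ μ : ℕ, 1 ≤ μ →
        hil (fun ξ : (Finset.univ : Finset (∀ i, Om i)) => th2 (act (zr (g ξ)) τ)) μ ≤
          Y ^ (C * x) * μ ^ (9 * e)

end MG
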